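import Mathlib
import Pool.Agent.Lib.MP_90b327_co.Interface
import Pool.Agent.Lib.MP_90b327_co.RB.RDefs
import Pool.Agent.Lib.MP_90b327_co.NS.NDefs

/-!
Definitions for Theorem W (exact powers `γ^(d-1) × Γ`), MP_90b327_co. Text: /team-store/PHJ_W.md
-/

set_option autoImplicit false

namespace Pool.Agent.Lib.MP_90b327_co.WW

open Finset MeasureTheory Pool.Agent.Lib.MP_90b327_co Pool.Agent.Lib.MP_90b327_co.RB

/-! ### shape classes and the limit functional (any dimension `d`) -/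

/-- a class of shapes (sets of cells of `[N]^d`) which is closed under injections of the vertices -/
structure Shp (d : ℕ) where
  sh : (N : ℕ) → Finset (Fin d → Fin N) → Prop
  img : ∀ (K N : ℕ) (ι : Fin K → Fin N), Function.Injective ι → ∀ P : Finset (Fin d → Fin K),
    sh K P → sh N (P.image (fun c => ι ∘ c))

/-- `S` contains `A` and `A ∪ P` for a shape `P` disjoint from `A` -/
def GoodS {d : ℕ} (C : Shp d) (N : ℕ) (S : Finset (Finset (Fin d → Fin N))) : Prop :=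
  ∃ A ∈ S, ∃ P : Finset (Fin d → Fin N), C.sh N P ∧ Disjoint A P ∧ A ∪ P ∈ S

/-- limiting pair correlations; same fields as `LimFun d δ` except the last one -/
structure GLim (d : ℕ) (C : Shp d) (δ : ℝ) where
  G : (K : ℕ) → Pat d K → Pat d K → ℝ
  symm : ∀ K X Y, G K X Y = G K Y X
  nonneg : ∀ K X Y, 0 ≤ G K X Y
  diag : ∀ K X, G K X X = δ
  ext : ∀ (K K' : ℕ) (ι : Fin K → Fin K'), Function.Injective ι → ∀ X Y : Pat d K',
    (∀ c : Fin d → Fin K', (¬ ∃ c' : Fin d → Fin K, c = ι ∘ c') → X c = Y c) →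
      G K' X Y = G K (fun c => X (ι ∘ c)) (fun c => Y (ι ∘ c))
  psd : ∀ (K n : ℕ) (X : Fin n → Pat d K) (a : Fin n → ℝ) (a₀ : ℝ),
    0 ≤ a₀ ^ 2 + 2 * a₀ * (∑ i, a i) * δ + ∑ i, ∑ j, a i * a j * G K (X i) (X j)
  bad : ∀ (K : ℕ) (X Y : Pat d K) (P : Finset (Fin d → Fin K)), C.sh K P →
    (∀ c ∈ P, X c = false) → (∀ c ∈ P, Y c = true) → (∀ c, c ∉ P → Y c = X c) → G K X Y = 0

/-- relabelling of the vertices of a set of tuples -/
def mv {d : ℕ} (σ : ℕ → ℕ) (X : Finset (Fin d → ℕ)) : Finset (Fin d → ℕ) :=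
  X.image (fun c => σ ∘ c)

/-- a shape on the vertices `0, .., n-1` as a finite set of tuples of natural numbers -/
def up {d n : ℕ} (P : Finset (Fin d → Fin n)) : Finset (Fin d → ℕ) :=
  P.image (fun c i => (c i : ℕ))

/-- the limit kernel on finite patterns of `ℕ^d` (all coordinates are the SAME vertices) -/
structure JK (d : ℕ) (C : Shp d) (δ : ℝ)
    (g : Finset (Fin d → ℕ) → Finset (Fin d → ℕ) → ℝ) : Prop where
  symm : ∀ X Y, g X Y = g Y X
  diag : ∀ X, g X X = δ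
  psd : ∀ (ι : Type) [Fintype ι] (X : ι → Finset (Fin d → ℕ)) (a : ι → ℝ),
    δ ^ 2 * (∑ i, a i) ^ 2 ≤ ∑ i, ∑ j, a i * a j * g (X i) (X j)
  inv : ∀ σ : ℕ → ℕ, Function.Injective σ → ∀ X Y, g (mv σ X) (mv σ Y) = g X Y
  rem : ∀ (X Y : Finset (Fin d → ℕ)) (v : ℕ), (∀ c : Fin d → ℕ, (∃ i, c i = v) → (c ∈ X ↔ c ∈ Y)) →
    g X Y = g (X.filter (fun c => ∀ i, c i ≠ v)) (Y.filter (fun c => ∀ i, c i ≠ v))
  bad : ∀ (n : ℕ) (P : Finset (Fin d → Fin n)), C.sh n P → ∀ X, Disjoint X (up P) →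
    g X (X ∪ up P) = 0

/-! ### rows and columns -/

/-- row tuples (`D = d - 1`) -/
abbrev Ce (D : ℕ) : Type := Fin D → ℕ

/-- contents of a column: finite sets of row tuples -/
abbrev Co (D : ℕ) : Type := Finset (Fin D → ℕ)

/-- patterns on (row tuples) × (columns) -/
abbrev Bp (D : ℕ) : Type := Finset ((Fin D → ℕ) × ℕ)

/-- `S^D` -/
def pw (D : ℕ) (S : Finset ℕ) : Co D := Fintype.piFinset (fun _ : Fin D => S)

/-- the entries of `c` are entries of `c'` -/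
def Bel {D : ℕ} (c c' : Ce D) : Prop := ∀ i, ∃ j, c i = c' j

/-- relabelling of rows (by `σ`) and columns (by `τ`) -/
def rb {D : ℕ} (σ τ : ℕ → ℕ) (X : Bp D) : Bp D := X.image (fun c => (σ ∘ c.1, τ c.2))

/-- content of the column `j` -/
def colm {D : ℕ} (X : Bp D) (j : ℕ) : Co D := (X.filter (fun c => c.2 = j)).image Prod.fst

/-- the bipartite kernel -/
structure BK (D : ℕ) (δ : ℝ) (g : Bp D → Bp D → ℝ) : Prop where
  symm : ∀ X Y, g X Y = g Y X
  diag : ∀ X, g X X = δ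
  psd : ∀ (ι : Type) [Fintype ι] (X : ι → Bp D) (a : ι → ℝ),
    δ ^ 2 * (∑ i, a i) ^ 2 ≤ ∑ i, ∑ j, a i * a j * g (X i) (X j)
  inv : ∀ σ τ : ℕ → ℕ, Function.Injective σ → Function.Injective τ → ∀ X Y,
    g (rb σ τ X) (rb σ τ Y) = g X Y
  row : ∀ (X Y : Bp D) (v : ℕ), (∀ (c : Ce D) (j : ℕ), (∃ i, c i = v) → ((c, j) ∈ X ↔ (c, j) ∈ Y)) →
    g X Y = g (X.filter (fun c => ∀ i, c.1 i ≠ v)) (Y.filter (fun c => ∀ i, c.1 i ≠ v))
  col : ∀ (X Y : Bp D) (j : ℕ), (∀ c : Ce D, (c, j) ∈ X ↔ (c, j) ∈ Y) →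
    g X Y = g (X.filter (fun c => c.2 ≠ j)) (Y.filter (fun c => c.2 ≠ j))

/-- the common cell `(c, j)` is not below a difference cell of its column -/
def Free {D : ℕ} (X Y : Bp D) (c : Ce D) (j : ℕ) : Prop :=
  (c, j) ∉ X ∧ (c, j) ∉ Y ∧ ∀ c' : Ce D, Bel c c' → ((c', j) ∈ X ↔ (c', j) ∈ Y)

/-- relation of the column representation: a common cell which is not below a difference cell of its
column may be inserted, columns may be relabelled -/
def RC {D : ℕ} (X Y X' Y' : Bp D) : Prop :=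
  (∃ (c : Ce D) (j : ℕ), Free X Y c j ∧ X' = insert (c, j) X ∧ Y' = insert (c, j) Y) ∨
  (∃ τ : ℕ → ℕ, Function.Injective τ ∧ X' = rb id τ X ∧ Y' = rb id τ Y)

/-- merging: even columns, odd columns -/
def mc {D : ℕ} (X A : Bp D) : Bp D :=
  rb id (fun j => 2 * j) X ∪ rb id (fun j => 2 * j + 1) A

/-- kernels on contents of a column: normalised, positive definite; a common cell which is not below
a difference cell may be removed -/
structure CK {D : ℕ} (k : Co D → Co D → ℂ) : Prop where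
  one : ∀ x, k x x = 1
  herm : ∀ x y, k y x = (starRingEnd ℂ) (k x y)
  psd : PosK k
  rem : ∀ (x y : Co D) (c : Ce D), c ∉ x → c ∉ y → (∀ c', Bel c c' → (c' ∈ x ↔ c' ∈ y)) →
    k (insert c x) (insert c y) = k x y

/-- random column kernels: the law is invariant under injections of the rows -/
structure CS (D : ℕ) where
  Ω : Type
  [mΩ : MeasurableSpace Ω]
  P : Measure Ω
  [prob : IsProbabilityMeasure P]
  z : Ω → Co D → Co D → ℂ
  ck : ∀ ω, CK (z ω)
  meas : ∀ x y, Measurable (fun ω => z ω x y)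
  law : ∀ (ι : Type) [Fintype ι] (x y : ι → Co D) (σ : ℕ → ℕ), Function.Injective σ →
    P.map (fun ω i => z ω (mv σ (x i)) (mv σ (y i))) = P.map (fun ω i => z ω (x i) (y i))

attribute [instance] CS.mΩ CS.prob

/-- removal of a common cell of type `⊇ T`: statement `P(T)` of the removal lemma -/
def RP {D : ℕ} (g : Bp D → Bp D → ℝ) (T : Finset ℕ) : Prop :=
  ∀ (X Y : Bp D) (c : Ce D) (j : ℕ), (c, j) ∉ X → (c, j) ∉ Y → (∀ v ∈ T, ∃ i, c i = v) →
    (∀ c' : Ce D, (∀ v ∈ T, ∃ i, c' i = v) → ((c', j) ∈ X ↔ (c', j) ∈ Y)) →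
    g (insert (c, j) X) (insert (c, j) Y) = g X Y

/-- `T` represents the bipartite kernel `g` -/
def Rep {D : ℕ} (g : Bp D → Bp D → ℝ) (δ : ℝ) (T : CS D) : Prop :=
  ∀ (X Y : Bp D) (J : Finset ℕ), (∀ c ∈ X, c.2 ∈ J) → (∀ c ∈ Y, c.2 ∈ J) →
    ((g X Y / δ : ℝ) : ℂ) = ∫ ω, ∏ j ∈ J, T.z ω (colm X j) (colm Y j) ∂T.P

/-! ### distances and pieces -/

/-- distance of the unit vectors of `x` and `y` -/
noncomputable def dst {𝒳 : Type} (k : 𝒳 → 𝒳 → ℂ) (x y : 𝒳) : ℝ := Real.sqrt (2 - 2 * (k x y).re)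

/-- names of blocks: `inl a` is the c-block of the copy `a`, `inr i` is the b-block `i` -/
abbrev Nm : Type := ℕ ⊕ ℕ

/-- cells with entries in the blocks `β i`, `i ∈ J`, which meet each of these blocks -/
def pc {D : ℕ} (β : Nm → Finset ℕ) (J : Finset Nm) : Co D :=
  (pw D (J.biUnion β)).filter (fun c => ∀ i ∈ J, ∃ j, c j ∈ β i)

/-- content of a family of types -/
def XF {D : ℕ} (β : Nm → Finset ℕ) (𝓕 : Finset (Finset Nm)) : Co D := 𝓕.biUnion (fun J => pc β J)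

/-- the b-blocks in `J`, as a set of names -/
def bn (J : Finset ℕ) : Finset Nm := J.image Sum.inr

/-- types of the cells of `X_{b_J}` -/
def base (J : Finset ℕ) : Finset (Finset Nm) := (bn J).powerset.erase ∅

/-- types of the cells of `X_{C ∪ b_J}`, `C` the c-block of the copy `a` -/
def full (a : ℕ) (J : Finset ℕ) : Finset (Finset Nm) := (insert (Sum.inl a) (bn J)).powerset.erase ∅

/-- the piece `C^A_J`: types `{a} ∪ J ∪ A'`, `A' ⊆ A` -/
def pie (a : ℕ) (J A : Finset ℕ) : Finset (Finset Nm) :=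
  A.powerset.image (fun A' => insert (Sum.inl a) (bn (J ∪ A')))

/-- the constants of lemma N -/
def MM : ℕ → ℝ
  | 0 => 2
  | n + 1 => 2 + 2 ^ (n + 2) * MM n

/-- the c-block of level `t` of the copy `a` -/
def CC (c : ℕ → ℕ → Finset ℕ) (a t : ℕ) : Finset ℕ := (range (t + 1)).biUnion (fun i => c i a)

/-- the blocks when the copy `a` has the level `s a` -/
def bl (c : ℕ → ℕ → Finset ℕ) (b : ℕ → Finset ℕ) (s : ℕ → ℕ) : Nm → Finset ℕ :=
  Sum.elim (fun a => CC c a (s a)) b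

/-- stage of the largest block of `C_t ∪ b_I` -/
def stg (t : ℕ) (I : Finset ℕ) : ℕ := max (2 * t - 1) (I.sup (fun i => 2 * i + 2))

/-- levels: the copy `a` has level `t`, the copy `a'` has level `t'` -/
def lv2 (a t a' t' : ℕ) : ℕ → ℕ := fun x => if x = a then t else if x = a' then t' else 0

/-- the number `R_J(C_t^a, C_t'^a')` of the text -/
noncomputable def Rn {D : ℕ} (k : Co D → Co D → ℂ) (c : ℕ → ℕ → Finset ℕ) (b : ℕ → Finset ℕ)
    (J : Finset ℕ) (a t a' t' : ℕ) : ℂ :=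
  k (XF (bl c b (lv2 a t a' t')) (base J ∪ {insert (Sum.inl a) (bn J)}))
    (XF (bl c b (lv2 a t a' t')) (base J ∪ {insert (Sum.inl a') (bn J)}))

/-- exactness at a scale: all contents with rows `< L` -/
def Exa {D : ℕ} (k : Co D → Co D → ℂ) (L : ℕ) (η : ℝ) : Prop :=
  ∀ x y x' y' : Co D, x ⊆ pw D (range L) → y ⊆ pw D (range L) → x' ⊆ pw D (range L) →
    y' ⊆ pw D (range L) → ‖k x y - k x' y'‖ ≤ η → k x y = k x' y'

/-- the data of the deterministic part: `Q` copies of `c_0, .., c_D`, common blocks `b_0, .., b_(D-1)`;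
order of the stages: `c_0 (0), c_1 (1), b_0 (2), c_2 (3), b_1 (4), .., c_D (2D-1), b_(D-1) (2D)` -/
structure Cfg {D : ℕ} (k : Co D → Co D → ℂ) (Q : ℕ) (c : ℕ → ℕ → Finset ℕ) (b : ℕ → Finset ℕ)
    (V : ℕ → Finset ℕ) (η : ℕ → ℝ) : Prop where
  hQ : 2 ^ D + 2 ≤ Q
  dcc : ∀ i a i' a', (i, a) ≠ (i', a') → Disjoint (c i a) (c i' a')
  dbb : ∀ i i', i ≠ i' → Disjoint (b i) (b i')
  dcb : ∀ i a i', Disjoint (c i a) (b i')
  nonneg : ∀ r, 0 ≤ η r
  Vc : ∀ i a r, i ≤ D → a < Q → 2 * i - 1 < r → c i a ⊆ V r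
  Vb : ∀ i r, i < D → 2 * i + 2 < r → b i ⊆ V r
  crit : ∀ a t I, a < Q → t ≤ D → I ⊆ range D →
    dst k ∅ (pw D (CC c a t ∪ I.biUnion b)) ≤ η (stg t I)
  ne : k ∅ (pw D (c 0 0)) ≠ 1
  ex : ∀ r, 1 ≤ r → r ≤ 2 * D → ∀ x y x' y' : Co D, x ⊆ pw D (V r) → y ⊆ pw D (V r) →
    x' ⊆ pw D (V r) → y' ⊆ pw D (V r) → ‖k x y - k x' y'‖ ≤ MM D * η r → k x y = k x' y'

/-! ### exchangeable functionals -/

/-- exchangeable family of functionals of the finite sets outside `B` -/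
structure EF {Ω : Type} [MeasurableSpace Ω] (P : Measure Ω) (B : Finset ℕ)
    (H : ℕ → Finset ℕ → Ω → ℝ) : Prop where
  nonneg : ∀ t S ω, 0 ≤ H t S ω
  le_one : ∀ t S ω, H t S ω ≤ 1
  meas : ∀ t S, Measurable (H t S)
  inv : ∀ σ : ℕ → ℕ, Function.Injective σ → (∀ v ∈ B, σ v = v) →
    ∀ (ι : Type) [Fintype ι] (t : ι → ℕ) (S : ι → Finset ℕ), (∀ i, Disjoint (S i) B) →
      ∫ ω, ∏ i, H (t i) ((S i).image σ) ω ∂P = ∫ ω, ∏ i, H (t i) (S i) ω ∂P

/-- `a` vertices outside `B`, in the region number `r` (regions are disjoint for `a ≤ L`) -/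
def fs (B : Finset ℕ) (L r a : ℕ) : Finset ℕ := (range a).image (fun i => B.sup id + 1 + r * L + i)

/-- the functional after the parameters `L`: list of (scale, set), the head was added last -/
def HR {Ω : Type} (H : ℕ → Finset ℕ → Ω → ℝ) : List (ℕ × Finset ℕ) → ℕ → Finset ℕ → Ω → ℝ
  | [], t, S, ω => H t S ω
  | p :: L, t, S, ω => HR H L t S ω * HR H L p.1 (S ∪ p.2) ω

/-- mean of `H t` at a set of `a` vertices -/
noncomputable def mn {Ω : Type} [MeasurableSpace Ω] (P : Measure Ω) (B : Finset ℕ)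
    (H : ℕ → Finset ℕ → Ω → ℝ) (t a : ℕ) : ℝ := ∫ ω, H t (fs B 0 0 a) ω ∂P

/-- mean of `H t (S) * H t' (S')` for disjoint sets of `a` and `b` vertices -/
noncomputable def be {Ω : Type} [MeasurableSpace Ω] (P : Measure Ω) (B : Finset ℕ)
    (H : ℕ → Finset ℕ → Ω → ℝ) (t a t' b : ℕ) : ℝ :=
  ∫ ω, H t (fs B (a + b) 0 a) ω * H t' (fs B (a + b) 1 b) ω ∂P

/-- mean of `H t (S) * H t' (S ∪ y)` for disjoint sets of `a` and `b` vertices -/
noncomputable def ga {Ω : Type} [MeasurableSpace Ω] (P : Measure Ω) (B : Finset ℕ)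
    (H : ℕ → Finset ℕ → Ω → ℝ) (t a t' b : ℕ) : ℝ :=
  ∫ ω, H t (fs B (a + b) 0 a) ω * H t' (fs B (a + b) 0 a ∪ fs B (a + b) 1 b) ω ∂P

/-- blocks of sizes `a 0, .., a R` in increasing order, `Q` copies of each; the names `r ≥ 2` which
are even are common to all copies (their copy `0` is used) -/
def blk (a : ℕ → ℕ) (Q r x : ℕ) : Finset ℕ :=
  Ico (Q * ∑ i ∈ range r, a i + (if r ≠ 0 ∧ r % 2 = 0 then 0 else x) * a r)
    (Q * ∑ i ∈ range r, a i + ((if r ≠ 0 ∧ r % 2 = 0 then 0 else x) + 1) * a r)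

/-- the radius of a critical set -/
noncomputable def et (k : ℕ) : ℝ := Real.sqrt (2 / Real.sqrt k)

/-- the functionals of the critical mass lemma -/
noncomputable def Hk {D : ℕ} (T : CS D) (kk : ℕ → ℕ) (t : ℕ) (S : Finset ℕ) (ω : T.Ω) : ℝ :=
  NS.Tk (kk t) (T.z ω ∅ (pw D S))

/-- admissible sizes of theorem W -/
def Adm (M : ℕ) (F w : ℕ → ℕ) (m n : ℕ) : Prop := M ≤ m ∧ 1 ≤ n ∧ F m ≤ n ∧ n ≤ F m + w m

/-- one column: the content `x` in the column `0` -/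
def sc {D : ℕ} (x : Co D) : Bp D := x.image (fun c => (c, 0))

/-- rows are the even vertices, columns are the odd vertices -/
def emw {D : ℕ} (X : Bp D) : Finset (Fin (D + 1) → ℕ) :=
  X.image (fun c => Fin.snoc (fun i : Fin D => 2 * c.1 i) (2 * c.2 + 1))

/-- the bipartite kernel of the limit kernel -/
def bkk {D : ℕ} (g : Finset (Fin (D + 1) → ℕ) → Finset (Fin (D + 1) → ℕ) → ℝ) (X Y : Bp D) : ℝ :=
  g (emw X) (emw Y)

/-- `τ`, `Y`: scales and blocks of the configuration, `L` bounds the rows of all blocks of the scales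
`< t` -/
def bnd (l : ℕ → ℕ) (Q t : ℕ) : ℕ := Q * ∑ i ∈ range t, l i

/-- the set `γ^D × Γ` in `[N]^(D+1)` -/
def cyl {D N : ℕ} (γ Γ : Finset (Fin N)) : Finset (Fin (D + 1) → Fin N) :=
  Finset.univ.filter (fun c => (∀ i : Fin D, c i.castSucc ∈ γ) ∧ c (Fin.last D) ∈ Γ)

end Pool.Agent.Lib.MP_90b327_co.WW
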