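import Mathlib
import Pool.Agent.Lib.MP_90b327_co.WW.WDefs

/-!
MODULE ExInj (20 minutes, old scale). Injections which move blocks.

PROOF. Let `U = B ∪ ⋃ u j`, `W = B ∪ ⋃ v j`. Choose bijections `e j : u j ≃ v j` (`Finset.equivOfCardEq`). Put `σ x = x` for `x ∈ B`, `σ x = e j x` for `x ∈ u j` (`j` is
unique, `x ∉ B`), `σ x = x + M` otherwise, `M` larger than all elements of `W`. Injective: the three kinds of values are in `B`, in
the `v j` (disjoint from each other and from `B`), and `≥ M`.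
-/

set_option autoImplicit false

namespace Pool.Agent.Lib.MP_90b327_co.WW

open Finset MeasureTheory Pool.Agent.Lib.MP_90b327_co Pool.Agent.Lib.MP_90b327_co.RB

theorem exists_inj (κ : Type) [Fintype κ] (B : Finset ℕ) (u v : κ → Finset ℕ)
    (hu : ∀ j j', j ≠ j' → Disjoint (u j) (u j')) (hv : ∀ j j', j ≠ j' → Disjoint (v j) (v j'))
    (huB : ∀ j, Disjoint (u j) B) (hvB : ∀ j, Disjoint (v j) B) (hc : ∀ j, (u j).card = (v j).card) :
    ∃ σ : ℕ → ℕ, Function.Injective σ ∧ (∀ x ∈ B, σ x = x) ∧ ∀ j, (u j).image σ = v j := by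
  classical
  obtain ⟨W, hW⟩ : ∃ W, W = B ∪ univ.biUnion v := ⟨_, rfl⟩
  obtain ⟨M, hM⟩ : ∃ M, M = W.sup id + 1 := ⟨_, rfl⟩
  have hWM : ∀ w ∈ W, w < M := by
    intro w hw
    have := Finset.le_sup (f := id) hw
    rw [hM]
    exact Nat.lt_succ_of_le this
  have e : ∀ j, (u j) ≃ (v j) := fun j => Finset.equivOfCardEq (hc j)
  obtain ⟨σ, hσ⟩ : ∃ σ : ℕ → ℕ, σ = fun x => if x ∈ B then x else
    if h : ∃ j, x ∈ u j then ((e h.choose ⟨x, h.choose_spec⟩ : v h.choose) : ℕ) else x + M := ⟨_, rfl⟩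
  have s1 : ∀ x ∈ B, σ x = x := by
    intro x hx
    rw [hσ]
    exact if_pos hx
  have hnB : ∀ j x, x ∈ u j → x ∉ B := fun j x hx hB => disjoint_left.1 (huB j) hx hB
  have s2 : ∀ j x (hx : x ∈ u j), σ x = ((e j ⟨x, hx⟩ : v j) : ℕ) := by
    intro j x hx
    have h : ∃ j, x ∈ u j := ⟨j, hx⟩
    have h1 : σ x = ((e h.choose ⟨x, h.choose_spec⟩ : v h.choose) : ℕ) := by
      rw [hσ]
      simp only [if_neg (hnB j x hx), dif_pos h]
    rw [h1]
    have h2 : h.choose = j := by
      by_contra hne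
      exact disjoint_left.1 (hu _ _ hne) h.choose_spec hx
    have h3 : ∀ j' (h' : x ∈ u j'), j' = j → ((e j' ⟨x, h'⟩ : v j') : ℕ) = ((e j ⟨x, hx⟩ : v j) : ℕ) := by
      rintro j' h' rfl
      rfl
    exact h3 _ _ h2
  have s3 : ∀ x, x ∉ B → (¬ ∃ j, x ∈ u j) → σ x = x + M := by
    intro x hx h
    rw [hσ]
    simp only [if_neg hx, dif_neg h]
  have m2 : ∀ j x, x ∈ u j → σ x ∈ v j := by
    intro j x hx
    rw [s2 j x hx]
    exact (e j ⟨x, hx⟩).2
  have l1 : ∀ x ∈ B, x < M := fun x hx => hWM x (by rw [hW]; exact mem_union_left _ hx)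
  have l2 : ∀ j x, x ∈ v j → x < M := fun j x hx =>
    hWM x (by rw [hW]; exact mem_union_right _ (mem_biUnion.2 ⟨j, mem_univ _, hx⟩))
  refine ⟨σ, ?_, s1, ?_⟩
  · intro x y hxy
    by_cases hx : x ∈ B
    · have hx1 := s1 x hx
      by_cases hy : y ∈ B
      · rw [hx1, s1 y hy] at hxy
        exact hxy
      · by_cases hy2 : ∃ j, y ∈ u j
        · obtain ⟨j, hj⟩ := hy2
          have h1 := m2 j y hj
          rw [← hxy, hx1] at h1
          exact absurd hx (disjoint_left.1 (hvB j) h1)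
        · rw [hx1, s3 y hy hy2] at hxy
          have := l1 x hx
          omega
    · by_cases hx2 : ∃ j, x ∈ u j
      · obtain ⟨i, hi⟩ := hx2
        have h0 := m2 i x hi
        by_cases hy : y ∈ B
        · rw [hxy, s1 y hy] at h0
          exact absurd hy (disjoint_left.1 (hvB i) h0)
        · by_cases hy2 : ∃ j, y ∈ u j
          · obtain ⟨j, hj⟩ := hy2
            have h1 := m2 j y hj
            rw [← hxy] at h1
            have hij : i = j := by
              by_contra hne
              exact disjoint_left.1 (hv i j hne) h0 h1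
            subst hij
            rw [s2 i x hi, s2 i y hj] at hxy
            have h2 := (e i).injective (Subtype.ext hxy)
            exact congrArg Subtype.val h2
          · have h1 := l2 i _ h0
            rw [hxy, s3 y hy hy2] at h1
            omega
      · have h0 := s3 x hx hx2
        by_cases hy : y ∈ B
        · rw [h0, s1 y hy] at hxy
          have := l1 y hy
          omega
        · by_cases hy2 : ∃ j, y ∈ u j
          · obtain ⟨j, hj⟩ := hy2
            have h1 := l2 j _ (m2 j y hj)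
            rw [← hxy, h0] at h1
            omega
          · rw [h0, s3 y hy hy2] at hxy
            omega
  · intro j
    ext w
    rw [mem_image]
    constructor
    · rintro ⟨x, hx, rfl⟩
      exact m2 j x hx
    · intro hw
      refine ⟨(((e j).symm ⟨w, hw⟩ : u j) : ℕ), ((e j).symm ⟨w, hw⟩).2, ?_⟩
      rw [s2 j _ ((e j).symm ⟨w, hw⟩).2]
      have h1 : (⟨(((e j).symm ⟨w, hw⟩ : u j) : ℕ), ((e j).symm ⟨w, hw⟩).2⟩ : u j) = (e j).symm ⟨w, hw⟩ := rfl
      rw [h1, Equiv.apply_symm_apply]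

end Pool.Agent.Lib.MP_90b327_co.WW
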