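import Mathlib
import Pool.Agent.Lib.MP_90b327_co.WW.WDefs
import Pool.Agent.Lib.MP_90b327_co.RB.RepA

/-!
MODULE CkDist (30 minutes, old scale). Elementary facts about a normalised positive definite kernel.

PROOFS. `hk.psd : PosK k` says: for all `X i`, `c i`: `0 ≤ Re ∑∑ conj (c i) c j k (X i) (X j)`.
`ck_norm`: `posk_cs k hk.psd (fun X Y => hk.herm X Y)` (module RB.RepA) with `k x x = k y y = 1`.
`dst_sq`: `Re k x y ≤ ‖k x y‖ ≤ 1`, `Real.sq_sqrt`. `dst_symm`: `k y x = conj (k x y)` has the same real part.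
`ck_lip`: the kernel `k'` on the type `Fin 3 → ℂ` (or a structure of three coefficients),
`k' u v = ∑ i, ∑ j, conj (u i) * v j * k (p i) (p j)` with `p = ![x, y, z]`, is hermitian and `PosK` (the sum for
`k'` is a sum for `k` over the index type `ι × Fin 3` or directly over `Fin 3` with `c' i = ∑ l, c l * X l i`). `posk_cs` for
the vectors `u = (1, -1, 0)` and `v = (0, 0, 1)`: `‖k x z - k y z‖² ≤ (2 - 2 Re k x y) * 1`. `ck_lip'`: conjugate.
`dst_tri`: with `a = x - y`, `b = y - z` (coefficient vectors): `k' (a + b) (a + b) = k' a a + 2 Re k' a b + k' b b ≤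
(sqrt (k' a a) + sqrt (k' b b))²` by `posk_cs`, and `k' (a + b) (a + b) = 2 - 2 Re k x z`.
`ck_one_sub`: `1 - k x y = k y y - k x y`, `ck_lip`. `ck_eq_of_one`: `dst k x y = 0` and `ck_lip`.
-/

set_option autoImplicit false

namespace Pool.Agent.Lib.MP_90b327_co.WW

open Finset MeasureTheory Pool.Agent.Lib.MP_90b327_co Pool.Agent.Lib.MP_90b327_co.RB

/-- the kernel on coefficient vectors over three points -/
private noncomputable def ckd {𝒳 : Type} (k : 𝒳 → 𝒳 → ℂ) (p : Fin 3 → 𝒳) (u v : Fin 3 → ℂ) : ℂ :=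
  ∑ i, ∑ j, (starRingEnd ℂ) (u i) * v j * k (p i) (p j)

private theorem ckd_pos {𝒳 : Type} (k : 𝒳 → 𝒳 → ℂ) (hk : PosK k) (p : Fin 3 → 𝒳) : PosK (ckd k p) := by
  intro ι _ X c
  have h := hk (Fin 3) p (fun j => ∑ b, c b * X b j)
  have e : ∑ a, ∑ b, (starRingEnd ℂ) (c a) * c b * ckd k p (X a) (X b) =
      ∑ i, ∑ j, (starRingEnd ℂ) (∑ b, c b * X b i) * (∑ b, c b * X b j) * k (p i) (p j) := by
    have e1 : ∀ i j, (starRingEnd ℂ) (∑ b, c b * X b i) * (∑ b, c b * X b j) * k (p i) (p j) =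
        ∑ a, ∑ b, (starRingEnd ℂ) (c a) * c b * ((starRingEnd ℂ) (X a i) * X b j * k (p i) (p j)) := by
      intro i j
      rw [map_sum, sum_mul_sum, sum_mul]
      refine sum_congr rfl fun a _ => ?_
      rw [sum_mul]
      refine sum_congr rfl fun b _ => ?_
      rw [map_mul]
      ring
    have e2 : ∀ a b, (starRingEnd ℂ) (c a) * c b * ckd k p (X a) (X b) =
        ∑ i, ∑ j, (starRingEnd ℂ) (c a) * c b * ((starRingEnd ℂ) (X a i) * X b j * k (p i) (p j)) := by
      intro a b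
      unfold ckd
      rw [mul_sum]
      refine sum_congr rfl fun i _ => ?_
      rw [mul_sum]
    rw [sum_congr rfl fun a _ => sum_congr rfl fun b _ => e2 a b,
      sum_congr rfl fun i _ => sum_congr rfl fun j _ => e1 i j]
    have e3 : ∀ F : ι → ι → Fin 3 → Fin 3 → ℂ, ∑ a, ∑ b, ∑ i, ∑ j, F a b i j = ∑ i, ∑ j, ∑ a, ∑ b, F a b i j := by
      intro F
      calc ∑ a, ∑ b, ∑ i, ∑ j, F a b i j = ∑ a, ∑ i, ∑ b, ∑ j, F a b i j :=
            sum_congr rfl fun a _ => sum_comm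
        _ = ∑ i, ∑ a, ∑ b, ∑ j, F a b i j := sum_comm
        _ = ∑ i, ∑ a, ∑ j, ∑ b, F a b i j := sum_congr rfl fun i _ => sum_congr rfl fun a _ => sum_comm
        _ = ∑ i, ∑ j, ∑ a, ∑ b, F a b i j := sum_congr rfl fun i _ => sum_comm
    exact e3 _
  rw [e]
  exact h

private theorem ckd_herm {𝒳 : Type} (k : 𝒳 → 𝒳 → ℂ) (hh : ∀ X Y, k Y X = (starRingEnd ℂ) (k X Y))
    (p : Fin 3 → 𝒳) (u v : Fin 3 → ℂ) : ckd k p v u = (starRingEnd ℂ) (ckd k p u v) := by
  unfold ckd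
  rw [map_sum, sum_comm]
  refine sum_congr rfl fun i _ => ?_
  rw [map_sum]
  refine sum_congr rfl fun j _ => ?_
  rw [map_mul, map_mul, Complex.conj_conj, ← hh (p i) (p j)]
  ring

private theorem ckd_cs {𝒳 : Type} (k : 𝒳 → 𝒳 → ℂ) (hk : PosK k)
    (hh : ∀ X Y, k Y X = (starRingEnd ℂ) (k X Y)) (p : Fin 3 → 𝒳) (u v : Fin 3 → ℂ) :
    ‖ckd k p u v‖ ^ 2 ≤ (ckd k p u u).re * (ckd k p v v).re :=
  posk_cs (ckd k p) (ckd_pos k hk p) (fun X Y => ckd_herm k hh p X Y) u v

private theorem ckd_re {D : ℕ} {k : Co D → Co D → ℂ} (hk : CK k) (x y : Co D) :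
    0 ≤ 2 - 2 * (k x y).re := by
  have h := posk_cs k hk.psd hk.herm x y
  rw [hk.one, hk.one, Complex.one_re, mul_one] at h
  have h0 := norm_nonneg (k x y)
  have h1 : ‖k x y‖ ≤ 1 := by nlinarith
  have h2 := (abs_le.1 (Complex.abs_re_le_norm (k x y))).2
  linarith

theorem ck_norm {D : ℕ} {k : Co D → Co D → ℂ} (hk : CK k) (x y : Co D) : ‖k x y‖ ≤ 1 := by
  have h := posk_cs k hk.psd hk.herm x y
  rw [hk.one, hk.one, Complex.one_re, mul_one] at h
  have h0 := norm_nonneg (k x y)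
  nlinarith

theorem dst_nonneg {D : ℕ} (k : Co D → Co D → ℂ) (x y : Co D) : 0 ≤ dst k x y := Real.sqrt_nonneg _

theorem dst_self {D : ℕ} {k : Co D → Co D → ℂ} (hk : CK k) (x : Co D) : dst k x x = 0 := by
  unfold dst
  rw [hk.one, Complex.one_re]
  norm_num

theorem dst_symm {D : ℕ} {k : Co D → Co D → ℂ} (hk : CK k) (x y : Co D) : dst k x y = dst k y x := by
  unfold dst
  rw [hk.herm y x, Complex.conj_re]

theorem dst_sq {D : ℕ} {k : Co D → Co D → ℂ} (hk : CK k) (x y : Co D) :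
    dst k x y ^ 2 = 2 - 2 * (k x y).re := by
  unfold dst
  exact Real.sq_sqrt (ckd_re hk x y)

theorem ck_lip {D : ℕ} {k : Co D → Co D → ℂ} (hk : CK k) (x y z : Co D) :
    ‖k x z - k y z‖ ≤ dst k x y := by
  have h := ckd_cs k hk.psd hk.herm ![x, y, z] ![1, -1, 0] ![0, 0, 1]
  have e1 : ckd k ![x, y, z] ![1, -1, 0] ![0, 0, 1] = k x z - k y z := by
    simp [ckd, Fin.sum_univ_three]
    ring
  have e2 : (ckd k ![x, y, z] ![1, -1, 0] ![1, -1, 0]).re = 2 - 2 * (k x y).re := by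
    have h1 : ckd k ![x, y, z] ![1, -1, 0] ![1, -1, 0] = k x x - k x y - k y x + k y y := by
      simp [ckd, Fin.sum_univ_three]
      ring
    rw [h1, hk.one, hk.one, hk.herm x y, Complex.add_re, Complex.sub_re, Complex.sub_re, Complex.conj_re,
      Complex.one_re]
    ring
  have e3 : (ckd k ![x, y, z] ![0, 0, 1] ![0, 0, 1]).re = 1 := by
    have h1 : ckd k ![x, y, z] ![0, 0, 1] ![0, 0, 1] = k z z := by
      simp [ckd, Fin.sum_univ_three]
    rw [h1, hk.one, Complex.one_re]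
  rw [e1, e2, e3, mul_one] at h
  unfold dst
  exact Real.le_sqrt_of_sq_le h

theorem ck_lip' {D : ℕ} {k : Co D → Co D → ℂ} (hk : CK k) (x y z : Co D) :
    ‖k z x - k z y‖ ≤ dst k x y := by
  have h := ck_lip hk x y z
  have e : k z x - k z y = (starRingEnd ℂ) (k x z - k y z) := by
    rw [map_sub, ← hk.herm x z, ← hk.herm y z]
  rw [e, Complex.norm_conj]
  exact h

theorem dst_tri {D : ℕ} {k : Co D → Co D → ℂ} (hk : CK k) (x y z : Co D) :
    dst k x z ≤ dst k x y + dst k y z := by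
  have h := ckd_cs k hk.psd hk.herm ![x, y, z] ![1, -1, 0] ![0, 1, -1]
  have e1 : ckd k ![x, y, z] ![1, -1, 0] ![0, 1, -1] = k x y - k x z - 1 + k y z := by
    have h1 : ckd k ![x, y, z] ![1, -1, 0] ![0, 1, -1] = k x y - k x z - k y y + k y z := by
      simp [ckd, Fin.sum_univ_three]
      ring
    rw [h1, hk.one]
  have e2 : (ckd k ![x, y, z] ![1, -1, 0] ![1, -1, 0]).re = dst k x y ^ 2 := by
    have h1 : ckd k ![x, y, z] ![1, -1, 0] ![1, -1, 0] = k x x - k x y - k y x + k y y := by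
      simp [ckd, Fin.sum_univ_three]
      ring
    rw [h1, dst_sq hk, hk.one, hk.one, hk.herm x y, Complex.add_re, Complex.sub_re, Complex.sub_re, Complex.conj_re,
      Complex.one_re]
    ring
  have e3 : (ckd k ![x, y, z] ![0, 1, -1] ![0, 1, -1]).re = dst k y z ^ 2 := by
    have h1 : ckd k ![x, y, z] ![0, 1, -1] ![0, 1, -1] = k y y - k y z - k z y + k z z := by
      simp [ckd, Fin.sum_univ_three]
      ring
    rw [h1, dst_sq hk, hk.one, hk.one, hk.herm y z, Complex.add_re, Complex.sub_re, Complex.sub_re, Complex.conj_re,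
      Complex.one_re]
    ring
  rw [e1, e2, e3, ← mul_pow] at h
  have h1 := dst_nonneg k x y
  have h2 := dst_nonneg k y z
  have h3 : ‖k x y - k x z - 1 + k y z‖ ≤ dst k x y * dst k y z :=
    le_of_sq_le_sq h (mul_nonneg h1 h2)
  have h4 := (abs_le.1 (Complex.abs_re_le_norm (k x y - k x z - 1 + k y z))).2
  rw [Complex.add_re, Complex.sub_re, Complex.sub_re, Complex.one_re] at h4
  have h5 := dst_sq hk x z
  have h6 := dst_sq hk x y
  have h7 := dst_sq hk y z
  refine le_of_sq_le_sq ?_ (add_nonneg h1 h2)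
  nlinarith

theorem ck_one_sub {D : ℕ} {k : Co D → Co D → ℂ} (hk : CK k) (x y : Co D) :
    ‖1 - k x y‖ ≤ dst k x y := by
  have h := ck_lip hk x y y
  rw [hk.one, norm_sub_rev] at h
  exact h

theorem ck_eq_of_one {D : ℕ} {k : Co D → Co D → ℂ} (hk : CK k) (x y : Co D) (h : k x y = 1)
    (z : Co D) : k x z = k y z := by
  have h1 := ck_lip hk x y z
  have h2 : dst k x y = 0 := by
    unfold dst
    rw [h, Complex.one_re]
    norm_num
  rw [h2] at h1
  exact sub_eq_zero.1 (norm_eq_zero.1 (le_antisymm h1 (norm_nonneg _)))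

end Pool.Agent.Lib.MP_90b327_co.WW
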