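import Mathlib
import Pool.Agent.Lib.MP_90b327_co.WW.WDefs

/-!
MODULE BlkGeo (20 minutes, old scale). Geometry of the blocks `blk a Q r x`.

PROOFS. `blk a Q r x = Ico (Q * s r + x' * a r) (Q * s r + (x' + 1) * a r)`, `s r = ∑ i ∈ range r, a i`, `x' < Q`; so it is contained in
`Ico (Q * s r) (Q * s (r + 1))` (`Finset.sum_range_succ`), `s` is monotone. Different `r`: disjoint intervals. The same `r`, different `x'`: disjoint.
For even `r ≠ 0` `x' = 0`.
-/

set_option autoImplicit false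

namespace Pool.Agent.Lib.MP_90b327_co.WW

open Finset MeasureTheory Pool.Agent.Lib.MP_90b327_co Pool.Agent.Lib.MP_90b327_co.RB

theorem blk_card (a : ℕ → ℕ) (Q r x : ℕ) : (blk a Q r x).card = a r := by
  unfold blk
  rw [Nat.card_Ico, add_mul, one_mul, ← add_assoc, Nat.add_sub_cancel_left]

private theorem BlkGeo_mono (a : ℕ → ℕ) {r R : ℕ} (h : r ≤ R) :
    ∑ i ∈ range r, a i ≤ ∑ i ∈ range R, a i :=
  Finset.sum_le_sum_of_subset (Finset.range_subset_range.2 h)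

private theorem BlkGeo_mem {a : ℕ → ℕ} {Q r x n : ℕ} (hx : x < Q) (h : n ∈ blk a Q r x) :
    Q * ∑ i ∈ range r, a i ≤ n ∧ n < Q * ∑ i ∈ range (r + 1), a i := by
  unfold blk at h
  rw [mem_Ico] at h
  generalize hx' : (if r ≠ 0 ∧ r % 2 = 0 then 0 else x) = x' at h
  have h1 : x' < Q := by
    rw [← hx']
    split_ifs <;> omega
  refine ⟨le_trans (Nat.le_add_right _ _) h.1, lt_of_lt_of_le h.2 ?_⟩
  rw [Finset.sum_range_succ, mul_add]
  exact Nat.add_le_add_left (Nat.mul_le_mul_right _ h1) _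

theorem blk_sub (a : ℕ → ℕ) (Q r x R : ℕ) (hx : x < Q) (hr : r < R) :
    blk a Q r x ⊆ range (Q * ∑ i ∈ range R, a i) := by
  intro n hn
  rw [Finset.mem_range]
  exact lt_of_lt_of_le (BlkGeo_mem hx hn).2 (Nat.mul_le_mul_left _ (BlkGeo_mono a hr))

theorem blk_common (a : ℕ → ℕ) (Q r x x' : ℕ) (hr : r ≠ 0) (hr' : r % 2 = 0) :
    blk a Q r x = blk a Q r x' := by
  unfold blk
  rw [if_pos ⟨hr, hr'⟩, if_pos ⟨hr, hr'⟩]

theorem blk_disj (a : ℕ → ℕ) (Q r x r' x' : ℕ) (hx : x < Q) (hx' : x' < Q) (hr : r ≠ r') :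
    Disjoint (blk a Q r x) (blk a Q r' x') := by
  rw [Finset.disjoint_left]
  intro n hn hn'
  have h1 := BlkGeo_mem hx hn
  have h2 := BlkGeo_mem hx' hn'
  rcases Nat.lt_or_gt_of_ne hr with h | h
  · have h3 := Nat.mul_le_mul_left Q (BlkGeo_mono a (show r + 1 ≤ r' from h))
    omega
  · have h3 := Nat.mul_le_mul_left Q (BlkGeo_mono a (show r' + 1 ≤ r from h))
    omega

theorem blk_disj' (a : ℕ → ℕ) (Q r x x' : ℕ) (hx : x < Q) (hx' : x' < Q) (hr : r = 0 ∨ r % 2 = 1)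
    (hne : x ≠ x') : Disjoint (blk a Q r x) (blk a Q r x') := by
  have hif : ¬ (r ≠ 0 ∧ r % 2 = 0) := by omega
  rw [Finset.disjoint_left]
  intro n hn hn'
  unfold blk at hn hn'
  rw [if_neg hif, mem_Ico] at hn hn'
  rcases Nat.lt_or_gt_of_ne hne with h | h
  · have h3 := Nat.mul_le_mul_right (a r) (show x + 1 ≤ x' from h)
    omega
  · have h3 := Nat.mul_le_mul_right (a r) (show x' + 1 ≤ x from h)
    omega

end Pool.Agent.Lib.MP_90b327_co.WW
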