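import Mathlib
import Pool.Agent.Lib.MP_90b327_co.WW.WDefs

/-!
MODULE HRa (30 minutes, old scale). Elementary properties of `HR`.

PROOFS. `hr_append`: induction on `L`: `HR H [p] t S = H t S * H p.1 (S ∪ p.2)`.
`hr_nonneg`, `hr_le_one`, `hr_meas`: induction on `L` for all `t`, `S`.
`hr_le`: for a sublist of `L` (choose some parameters `K`): we need, for the list `List.ofFn (fun r : Fin R => (τ (r + 1), Y (r + 1)))`:
`HR H _ (τ 0) (Y 0) ω ≤ H (τ (K.sup id)) (K.biUnion Y) ω` for `K ⊆ range (R + 1)`, `0 ∈ K`. General statement by induction on `R` (for all `H` in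
`[0,1]`), with `hr_append` (`List.ofFn_succ'` or `List.ofFn_succ_last`: the last element `p = (τ (R+1), Y (R+1))` split off): `HR H (L ++ [p]) t S ω =
HR (H') L t S ω`, `H' t S ω = H t S ω * H p.1 (S ∪ p.2) ω`. If `R + 1 ∉ K`: `≤ H' (τ (K.sup id)) (K.biUnion Y) ≤ H (..) (..)`. If `R + 1 ∈ K`, `K' = K.erase (R + 1)`
(contains `0`): `≤ H' (τ (K'.sup id)) (K'.biUnion Y) ≤ H (τ (R + 1)) (K'.biUnion Y ∪ Y (R + 1)) = H (τ (K.sup id)) (K.biUnion Y)` as `K.sup id = R + 1`.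
-/

set_option autoImplicit false

namespace Pool.Agent.Lib.MP_90b327_co.WW

open Finset MeasureTheory Pool.Agent.Lib.MP_90b327_co Pool.Agent.Lib.MP_90b327_co.RB

theorem hr_append {Ω : Type} (H : ℕ → Finset ℕ → Ω → ℝ) (L : List (ℕ × Finset ℕ)) (p : ℕ × Finset ℕ)
    (t : ℕ) (S : Finset ℕ) (ω : Ω) :
    HR H (L ++ [p]) t S ω = HR (fun t S ω => H t S ω * H p.1 (S ∪ p.2) ω) L t S ω := by
  induction L generalizing t S with
  | nil => rfl
  | cons q L ih =>
    show HR H (L ++ [p]) t S ω * HR H (L ++ [p]) q.1 (S ∪ q.2) ω = _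
    rw [ih, ih]
    rfl

theorem hr_nonneg {Ω : Type} {H : ℕ → Finset ℕ → Ω → ℝ} (h0 : ∀ t S ω, 0 ≤ H t S ω)
    (L : List (ℕ × Finset ℕ)) (t : ℕ) (S : Finset ℕ) (ω : Ω) : 0 ≤ HR H L t S ω := by
  induction L generalizing t S with
  | nil => exact h0 t S ω
  | cons q L ih => exact mul_nonneg (ih t S) (ih q.1 (S ∪ q.2))

theorem hr_le_one {Ω : Type} {H : ℕ → Finset ℕ → Ω → ℝ} (h0 : ∀ t S ω, 0 ≤ H t S ω)
    (h1 : ∀ t S ω, H t S ω ≤ 1) (L : List (ℕ × Finset ℕ)) (t : ℕ) (S : Finset ℕ) (ω : Ω) :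
    HR H L t S ω ≤ 1 := by
  induction L generalizing t S with
  | nil => exact h1 t S ω
  | cons q L ih => exact mul_le_one₀ (ih t S) (hr_nonneg h0 L q.1 (S ∪ q.2) ω) (ih q.1 (S ∪ q.2))

theorem hr_meas {Ω : Type} [MeasurableSpace Ω] {H : ℕ → Finset ℕ → Ω → ℝ}
    (hm : ∀ t S, Measurable (H t S)) (L : List (ℕ × Finset ℕ)) (t : ℕ) (S : Finset ℕ) :
    Measurable (HR H L t S) := by
  induction L generalizing t S with
  | nil => exact hm t S
  | cons q L ih => exact (ih t S).mul (ih q.1 (S ∪ q.2))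

theorem hr_le {Ω : Type} (R : ℕ) (τ : ℕ → ℕ) (Y : ℕ → Finset ℕ) (K : Finset ℕ)
    (hK : K ⊆ range (R + 1)) (hK0 : 0 ∈ K) (H : ℕ → Finset ℕ → Ω → ℝ) (h0 : ∀ t S ω, 0 ≤ H t S ω)
    (h1 : ∀ t S ω, H t S ω ≤ 1) (ω : Ω) :
    HR H (List.ofFn (fun r : Fin R => (τ (r + 1), Y (r + 1)))) (τ 0) (Y 0) ω ≤
      H (τ (K.sup id)) (K.biUnion Y) ω := by
  induction R generalizing K H with
  | zero =>
    have hK1 : K = {0} := by
      ext x
      rw [mem_singleton]
      constructor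
      · intro hx
        have := mem_range.1 (hK hx)
        omega
      · rintro rfl
        exact hK0
    rw [hK1]
    simp [HR]
  | succ R ih =>
    have e1 : List.ofFn (fun r : Fin (R + 1) => (τ (r + 1), Y (r + 1))) =
        List.ofFn (fun r : Fin R => (τ (r + 1), Y (r + 1))) ++ [(τ (R + 1), Y (R + 1))] := by
      rw [List.ofFn_succ', List.concat_eq_append]
      rfl
    rw [e1, hr_append]
    have h0' : ∀ t S ω, 0 ≤ (fun t S ω => H t S ω * H (τ (R + 1)) (S ∪ Y (R + 1)) ω) t S ω :=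
      fun t S ω => mul_nonneg (h0 t S ω) (h0 _ _ ω)
    have h1' : ∀ t S ω, (fun t S ω => H t S ω * H (τ (R + 1)) (S ∪ Y (R + 1)) ω) t S ω ≤ 1 :=
      fun t S ω => mul_le_one₀ (h1 t S ω) (h0 _ _ ω) (h1 _ _ ω)
    by_cases hR : R + 1 ∈ K
    · have hK' : K.erase (R + 1) ⊆ range (R + 1) := by
        intro x hx
        rw [mem_erase] at hx
        have := mem_range.1 (hK hx.2)
        exact mem_range.2 (by omega)
      have hK0' : 0 ∈ K.erase (R + 1) := mem_erase.2 ⟨by omega, hK0⟩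
      refine (ih (K.erase (R + 1)) hK' hK0' _ h0' h1').trans ?_
      have e2 : K.sup id = R + 1 := by
        refine le_antisymm (Finset.sup_le fun x hx => ?_) (Finset.le_sup (f := id) hR)
        have := mem_range.1 (hK hx)
        simp only [id]
        omega
      have e3 : K.biUnion Y = (K.erase (R + 1)).biUnion Y ∪ Y (R + 1) := by
        conv_lhs => rw [← insert_erase hR]
        rw [biUnion_insert, union_comm]
      rw [e2, e3]
      show H _ _ ω * H (τ (R + 1)) ((K.erase (R + 1)).biUnion Y ∪ Y (R + 1)) ω ≤ _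
      exact mul_le_of_le_one_left (h0 _ _ ω) (h1 _ _ ω)
    · have hK' : K ⊆ range (R + 1) := by
        intro x hx
        have h2 := mem_range.1 (hK hx)
        have h3 : x ≠ R + 1 := fun h => hR (h ▸ hx)
        exact mem_range.2 (by omega)
      refine (ih K hK' hK0 _ h0' h1').trans ?_
      show H (τ (K.sup id)) (K.biUnion Y) ω * H _ _ ω ≤ _
      exact mul_le_of_le_one_right (h0 _ _ ω) (h1 _ _ ω)

end Pool.Agent.Lib.MP_90b327_co.WW
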