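import Mathlib
import Pool.Agent.Lib.MP_90b327_co.WW.WDefs
import Pool.Agent.Lib.MP_90b327_co.WW.CkDist
import Pool.Agent.Lib.MP_90b327_co.NS.AvA

/-!
MODULE TkBig (15 minutes, old scale). A large value of `Tk` gives a critical set.

PROOF. `z = κ ∅ x`, `‖z‖ ≤ 1` (`ck_norm`). `Tk k z > 4 / k ≥ 0`, so `z ≠ 1` (otherwise `Tk k z = 0`) and `‖Av k z‖² > 4 / k`. `NS.av_sub`: `‖z - 1‖ * ‖Av k z‖ ≤ 2 / k`, so
`‖z - 1‖² * (4 / k) < 4 / k²`, `‖z - 1‖² < 1 / k`, `‖z - 1‖ < 1 / √k`. `2 - 2 Re z ≤ 2 ‖1 - z‖ ≤ 2 / √k`, so `dst κ ∅ x ≤ sqrt (2 / √k) = et k` (`Real.sqrt_le_sqrt`).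
-/

set_option autoImplicit false

namespace Pool.Agent.Lib.MP_90b327_co.WW

open Finset MeasureTheory Pool.Agent.Lib.MP_90b327_co Pool.Agent.Lib.MP_90b327_co.RB

theorem tk_big {D : ℕ} {κ : Co D → Co D → ℂ} (hκ : CK κ) (k : ℕ) (hk : 1 ≤ k) (x : Co D)
    (h : 4 / (k : ℝ) < NS.Tk k (κ ∅ x)) : κ ∅ x ≠ 1 ∧ dst κ ∅ x ≤ et k := by
  have hk0 : (0 : ℝ) < k := by exact_mod_cast hk
  have hz : ‖κ ∅ x‖ ≤ 1 := ck_norm hκ ∅ x
  obtain ⟨z, hzd⟩ : ∃ z, z = κ ∅ x := ⟨_, rfl⟩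
  rw [← hzd] at h hz
  have hne : z ≠ 1 := by
    intro h1
    rw [h1] at h
    unfold NS.Tk at h
    rw [if_pos rfl] at h
    have : 0 < 4 / (k : ℝ) := by positivity
    linarith
  refine ⟨by rw [← hzd]; exact hne, ?_⟩
  unfold NS.Tk at h
  rw [if_neg hne] at h
  have h1 := NS.av_sub k hk z hz
  rw [norm_mul] at h1
  obtain ⟨a, ha⟩ : ∃ a, a = ‖z - 1‖ := ⟨_, rfl⟩
  obtain ⟨b, hb⟩ : ∃ b, b = ‖NS.Av k z‖ := ⟨_, rfl⟩
  rw [← ha, ← hb] at h1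
  rw [← hb] at h
  have ha0 : 0 ≤ a := by rw [ha]; exact norm_nonneg _
  have hb0 : 0 ≤ b := by rw [hb]; exact norm_nonneg _
  have h2 : (a * b) ^ 2 ≤ (2 / (k : ℝ)) ^ 2 := pow_le_pow_left₀ (mul_nonneg ha0 hb0) h1 2
  have h3 : a ^ 2 * (4 / (k : ℝ)) ≤ (2 / (k : ℝ)) ^ 2 := by
    refine le_trans ?_ h2
    rw [mul_pow]
    exact mul_le_mul_of_nonneg_left h.le (sq_nonneg a)
  have h4 : a ^ 2 ≤ 1 / k := by
    have e : (2 / (k : ℝ)) ^ 2 = (1 / k) * (4 / k) := by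
      field_simp
      norm_num
    rw [e] at h3
    exact le_of_mul_le_mul_right h3 (by positivity)
  have h5 : a ≤ 1 / Real.sqrt k := by
    have h6 : a ≤ Real.sqrt (1 / k) := Real.le_sqrt_of_sq_le h4
    rwa [Real.sqrt_div zero_le_one, Real.sqrt_one] at h6
  unfold dst et
  rw [← hzd]
  refine Real.sqrt_le_sqrt ?_
  have h7 : 1 - z.re ≤ a := by
    have h8 := Complex.re_le_norm (1 - z)
    rw [Complex.sub_re, Complex.one_re, norm_sub_rev, ← ha] at h8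
    exact h8
  have e : 2 / Real.sqrt k = 2 * (1 / Real.sqrt k) := by ring
  rw [e]
  linarith

end Pool.Agent.Lib.MP_90b327_co.WW
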