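import Mathlib
import Pool.Agent.Lib.MP_90b327_co.WW.WDefs
import Pool.Agent.Lib.MP_90b327_co.WW.HRa
import Pool.Agent.Lib.MP_90b327_co.WW.BlkGeo
import Pool.Agent.Lib.MP_90b327_co.WW.TkBig

/-!
MODULE AsmA (45 minutes, old scale). From one point `ω` to the configuration.

Stages `0, .., 2 D`: `c_0` is `0`, `c_i` is `2 i - 1` (`1 ≤ i ≤ D`), `b_i` is `2 i + 2` (`i < D`). `a r = (Y r).card`.
PROOF. Put `c i x := if i ≤ D ∧ x < Q then blk a Q (2 * i - 1) x else ∅` (natural subtraction: `c 0 x = blk a Q 0 x`), `b i := if i < D then blk a Q (2 * i + 2) 0 else ∅`,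
`V r := range (bnd l Q (τ r))`, `η r := et (kk (τ r))`.
`dcc`, `dbb`, `dcb`: `blk_disj`, `blk_disj'` (the stages `2 i - 1` are `0` or odd and different for different `i`; the stages `2 i + 2` are even, `≠ 0`).
`Vc`, `Vb`: a block of the stage `r' < r ≤ 2 D` is contained in `range (Q * ∑ i ∈ range r, a i)` (`blk_sub`), and
`∑ i ∈ range r, a i ≤ ∑ i ∈ range r, l (τ i) ≤ ∑ t ∈ range (τ r), l t` because the `τ i`, `i < r`, are different numbers `< τ r` (`hτ`). CAUTION: `Cfg` asks `Vc`, `Vb` for ALL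
`r`, also `r > 2 D`; so put `V r := range (bnd l Q (τ r))` for `r ≤ 2 D` and `V r := range (Q * ∑ i ∈ range (2 * D + 1), a i)` for `r > 2 D`.
`crit`: for `x < Q`, `t ≤ D`, `I ⊆ range D` let `K = (range (t + 1)).image (fun i => 2 * i - 1) ∪ I.image (fun i => 2 * i + 2)`: `K ⊆ range (2 D + 1)`, `0 ∈ K`,
`K.sup id = stg t I`, `K.biUnion (fun r => blk a Q r x) = CC c x t ∪ I.biUnion b` (`blk_common` for the even stages). `hr_le` (module HRa):
`HR .. x ≤ Hk T kk (τ (stg t I)) (CC c x t ∪ I.biUnion b) ω`. The product `∏ x < Q` of numbers in `[0, 1]` is at most each factor (`hbig`), so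
`4 / kk (τ (stg t I)) ≤ 4 / K₁ < Tk (kk ..) (z ω ∅ (pw D ..))` and `tk_big` gives `dst ≤ et (kk (τ (stg t I))) = η (stg t I)`.
`ne`: `t = 0`, `I = ∅`, `x = 0`: `CC c 0 0 = c 0 0`, `tk_big`. `ex`: `hex (τ r)` (`Exa`), for `1 ≤ r ≤ 2 D`. `nonneg`: `Real.sqrt_nonneg`.
-/

set_option autoImplicit false

namespace Pool.Agent.Lib.MP_90b327_co.WW

open Finset MeasureTheory Pool.Agent.Lib.MP_90b327_co Pool.Agent.Lib.MP_90b327_co.RB

private theorem asma_sum (l τ : ℕ → ℕ) (Y : ℕ → Finset ℕ) (R r : ℕ) (hr : r ≤ R) (hτ : ∀ r s, r < s → s ≤ R → τ r < τ s)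
    (hY : ∀ r ≤ R, (Y r).card ≤ l (τ r)) : ∑ i ∈ range r, (Y i).card ≤ ∑ t ∈ range (τ r), l t := by
  calc ∑ i ∈ range r, (Y i).card ≤ ∑ i ∈ range r, l (τ i) :=
        sum_le_sum fun i hi => hY i ((mem_range.1 hi).le.trans hr)
    _ = ∑ t ∈ (range r).image τ, l t := by
        rw [sum_image]
        intro i hi j hj hij
        have hi' : i < r := by simpa using hi
        have hj' : j < r := by simpa using hj
        by_contra hne
        rcases lt_or_gt_of_ne hne with h | h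
        · have := hτ i j h (hj'.le.trans hr)
          omega
        · have := hτ j i h (hi'.le.trans hr)
          omega
    _ ≤ ∑ t ∈ range (τ r), l t := by
        refine sum_le_sum_of_subset ?_
        intro t ht
        obtain ⟨i, hi, rfl⟩ := mem_image.1 ht
        exact mem_range.2 (hτ i r (mem_range.1 hi) hr)

private theorem asma_sup (t : ℕ) (I : Finset ℕ) :
    ((range (t + 1)).image (fun i => 2 * i - 1) ∪ I.image (fun i => 2 * i + 2)).sup id = stg t I := by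
  rw [sup_union, sup_image, sup_image]
  unfold stg
  have h : (range (t + 1)).sup (id ∘ fun i => 2 * i - 1) = 2 * t - 1 := by
    refine le_antisymm (Finset.sup_le fun i hi => ?_) ?_
    · have := mem_range.1 hi
      simp only [Function.comp_apply, id]
      omega
    · exact Finset.le_sup (f := id ∘ fun i => 2 * i - 1) (mem_range.2 (Nat.lt_succ_self t))
  rw [h]
  rfl

theorem asm_a {D : ℕ} (T : CS D) (Q : ℕ) (hQ : 2 ^ D + 2 ≤ Q) (kk l τ : ℕ → ℕ)
    (Y : ℕ → Finset ℕ) (hτ : ∀ r s, r < s → s ≤ 2 * D → τ r < τ s)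
    (hY : ∀ r ≤ 2 * D, (Y r).card ≤ l (τ r)) (K₁ : ℕ) (hK₁ : 1 ≤ K₁) (hkk : ∀ t, K₁ ≤ kk t) (ω : T.Ω)
    (hbig : 4 / (K₁ : ℝ) < ∏ x ∈ range Q, HR (Hk T kk)
      (List.ofFn (fun r : Fin (2 * D) => (τ (r + 1), blk (fun r => (Y r).card) Q (r + 1) x))) (τ 0)
      (blk (fun r => (Y r).card) Q 0 x) ω)
    (hex : ∀ r, r ≤ 2 * D → Exa (T.z ω) (bnd l Q (τ r)) (MM D * et (kk (τ r)))) :
    ∃ (c : ℕ → ℕ → Finset ℕ) (b V : ℕ → Finset ℕ) (η : ℕ → ℝ), Cfg (T.z ω) Q c b V η := by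
  classical
  obtain ⟨a, ha⟩ : ∃ a : ℕ → ℕ, a = fun r => (Y r).card := ⟨_, rfl⟩
  rw [← ha] at hbig
  obtain ⟨c, hc⟩ : ∃ c : ℕ → ℕ → Finset ℕ, c = fun i x => if i ≤ D ∧ x < Q then blk a Q (2 * i - 1) x else ∅ := ⟨_, rfl⟩
  obtain ⟨b, hb⟩ : ∃ b : ℕ → Finset ℕ, b = fun i => if i < D then blk a Q (2 * i + 2) 0 else ∅ := ⟨_, rfl⟩
  obtain ⟨V, hV⟩ : ∃ V : ℕ → Finset ℕ, V = fun r => if r ≤ 2 * D then range (bnd l Q (τ r)) else
    range (Q * ∑ i ∈ range (2 * D + 1), a i) := ⟨_, rfl⟩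
  have hc1 : ∀ i x, i ≤ D → x < Q → c i x = blk a Q (2 * i - 1) x := by
    intro i x h1 h2
    rw [hc]
    exact if_pos ⟨h1, h2⟩
  have hc0 : ∀ i x, ¬ (i ≤ D ∧ x < Q) → c i x = ∅ := by
    intro i x h1
    rw [hc]
    exact if_neg h1
  have hb1 : ∀ i, i < D → b i = blk a Q (2 * i + 2) 0 := by
    intro i h1
    rw [hb]
    exact if_pos h1
  have hb0 : ∀ i, ¬ i < D → b i = ∅ := by
    intro i h1
    rw [hb]
    exact if_neg h1
  have hV1 : ∀ r, r ≤ 2 * D → V r = range (bnd l Q (τ r)) := by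
    intro r h1
    rw [hV]
    exact if_pos h1
  have hV0 : ∀ r, ¬ r ≤ 2 * D → V r = range (Q * ∑ i ∈ range (2 * D + 1), a i) := by
    intro r h1
    rw [hV]
    exact if_neg h1
  have hQ0 : 0 < Q := lt_of_lt_of_le (Nat.succ_pos _) hQ
  have hsub : ∀ s x r, s ≤ 2 * D → x < Q → s < r → blk a Q s x ⊆ V r := by
    intro s x r hs hx hsr
    by_cases hr : r ≤ 2 * D
    · rw [hV1 r hr]
      refine (blk_sub a Q s x r hx hsr).trans (range_subset_range.2 ?_)
      unfold bnd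
      refine Nat.mul_le_mul_left _ ?_
      rw [ha]
      exact asma_sum l τ Y (2 * D) r hr hτ hY
    · rw [hV0 r hr]
      exact blk_sub a Q s x (2 * D + 1) hx (by omega)
  have key : ∀ x t I, x < Q → t ≤ D → I ⊆ range D →
      T.z ω ∅ (pw D (CC c x t ∪ I.biUnion b)) ≠ 1 ∧
      dst (T.z ω) ∅ (pw D (CC c x t ∪ I.biUnion b)) ≤ et (kk (τ (stg t I))) := by
    intro x t I hx ht hI
    obtain ⟨K, hK⟩ : ∃ K, K = (range (t + 1)).image (fun i => 2 * i - 1) ∪ I.image (fun i => 2 * i + 2) := ⟨_, rfl⟩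
    have k1 : K ⊆ range (2 * D + 1) := by
      intro s hs
      rw [hK, mem_union, mem_image, mem_image] at hs
      rw [mem_range]
      rcases hs with ⟨i, hi, rfl⟩ | ⟨i, hi, rfl⟩
      · have := mem_range.1 hi
        omega
      · have := mem_range.1 (hI hi)
        omega
    have k2 : 0 ∈ K := by
      rw [hK]
      exact mem_union_left _ (mem_image.2 ⟨0, mem_range.2 (Nat.succ_pos t), rfl⟩)
    have k3 : K.sup id = stg t I := by
      rw [hK]
      exact asma_sup t I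
    have k4 : K.biUnion (fun r => blk a Q r x) = CC c x t ∪ I.biUnion b := by
      rw [hK, union_biUnion, image_biUnion, image_biUnion]
      unfold CC
      refine congrArg₂ (· ∪ ·) ?_ ?_
      · refine biUnion_congr rfl fun i hi => ?_
        have := mem_range.1 hi
        exact (hc1 i x (by omega) hx).symm
      · refine biUnion_congr rfl fun i hi => ?_
        rw [hb1 i (mem_range.1 (hI hi))]
        exact blk_common a Q (2 * i + 2) x 0 (by omega) (by omega)
    have h0 : ∀ t S ω, 0 ≤ Hk T kk t S ω := fun t S ω => NS.tk_nonneg _ _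
    have h1 : ∀ t S ω, Hk T kk t S ω ≤ 1 := fun t S ω => NS.tk_le_one _ _ (ck_norm (T.ck ω) _ _)
    have h2 := hr_le (2 * D) τ (fun r => blk a Q r x) K k1 k2 (Hk T kk) h0 h1 ω
    rw [k3, k4] at h2
    have h3 : ∏ y ∈ range Q, HR (Hk T kk)
      (List.ofFn (fun r : Fin (2 * D) => (τ (r + 1), blk a Q (r + 1) y))) (τ 0)
      (blk a Q 0 y) ω ≤ HR (Hk T kk)
      (List.ofFn (fun r : Fin (2 * D) => (τ (r + 1), blk a Q (r + 1) x))) (τ 0)
      (blk a Q 0 x) ω := by
      rw [← mul_prod_erase (range Q) _ (mem_range.2 hx)]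
      refine mul_le_of_le_one_right (hr_nonneg h0 _ _ _ _) ?_
      exact prod_le_one (fun y _ => hr_nonneg h0 _ _ _ _) (fun y _ => hr_le_one h0 h1 _ _ _ _)
    have h4 : 4 / (K₁ : ℝ) < Hk T kk (τ (stg t I)) (CC c x t ∪ I.biUnion b) ω := lt_of_lt_of_le hbig (h3.trans h2)
    have h5 := hkk (τ (stg t I))
    have h6 : 4 / (kk (τ (stg t I)) : ℝ) ≤ 4 / (K₁ : ℝ) := by
      have h7 : (K₁ : ℝ) ≤ kk (τ (stg t I)) := by exact_mod_cast h5
      have h8 : (0 : ℝ) < K₁ := by exact_mod_cast (by omega : 0 < K₁)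
      exact div_le_div_of_nonneg_left (by norm_num) h8 h7
    unfold Hk at h4
    exact tk_big (T.ck ω) _ (hK₁.trans h5) _ (lt_of_le_of_lt h6 h4)
  refine ⟨c, b, V, fun r => et (kk (τ r)), ?_⟩
  refine { hQ := hQ, dcc := ?_, dbb := ?_, dcb := ?_, nonneg := ?_, Vc := ?_, Vb := ?_, crit := ?_, ne := ?_, ex := ?_ }
  · intro i x i' x' hne
    by_cases h1 : i ≤ D ∧ x < Q
    · by_cases h2 : i' ≤ D ∧ x' < Q
      · rw [hc1 i x h1.1 h1.2, hc1 i' x' h2.1 h2.2]
        by_cases h3 : i = i'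
        · subst h3
          refine blk_disj' a Q _ x x' h1.2 h2.2 (by omega) ?_
          rintro rfl
          exact hne rfl
        · exact blk_disj a Q _ x _ x' h1.2 h2.2 (by omega)
      · rw [hc0 i' x' h2]
        exact disjoint_empty_right _
    · rw [hc0 i x h1]
      exact disjoint_empty_left _
  · intro i i' hne
    by_cases h1 : i < D
    · by_cases h2 : i' < D
      · rw [hb1 i h1, hb1 i' h2]
        exact blk_disj a Q _ 0 _ 0 hQ0 hQ0 (by omega)
      · rw [hb0 i' h2]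
        exact disjoint_empty_right _
    · rw [hb0 i h1]
      exact disjoint_empty_left _
  · intro i x i'
    by_cases h1 : i ≤ D ∧ x < Q
    · by_cases h2 : i' < D
      · rw [hc1 i x h1.1 h1.2, hb1 i' h2]
        exact blk_disj a Q _ x _ 0 h1.2 hQ0 (by omega)
      · rw [hb0 i' h2]
        exact disjoint_empty_right _
    · rw [hc0 i x h1]
      exact disjoint_empty_left _
  · intro r
    exact Real.sqrt_nonneg _
  · intro i x r hi hx hr
    rw [hc1 i x hi hx]
    exact hsub _ x r (by omega) hx hr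
  · intro i r hi hr
    rw [hb1 i hi]
    exact hsub _ 0 r (by omega) hQ0 hr
  · intro x t I hx ht hI
    exact (key x t I hx ht hI).2
  · have h1 := (key 0 0 ∅ hQ0 (Nat.zero_le _) (empty_subset _)).1
    have h2 : CC c 0 0 ∪ (∅ : Finset ℕ).biUnion b = c 0 0 := by
      unfold CC
      rw [biUnion_empty, union_empty, zero_add, range_one, singleton_biUnion]
    rw [h2] at h1
    exact h1
  · intro r hr1 hr2 x y x' y' hx hy hx' hy' hn
    rw [hV1 r hr2] at hx hy hx' hy'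
    exact hex r hr2 x y x' y' hx hy hx' hy' hn

end Pool.Agent.Lib.MP_90b327_co.WW
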