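import Mathlib
import Pool.Agent.Lib.MP_90b327_co.WW.WDefs

/-!
MODULE Copies (45 minutes, old scale). Exchangeable copies.

PROOF. Let `m ≥ 1`, `F = (1/m) ∑ a ∈ range m, G a ∈ [0, 1]`. `E F = μ`. Jensen (or Hölder; `inner_le_nnorm_mul_nnorm` not needed): `μ ^ Q ≤ E F ^ Q`
(`ConvexOn.map_integral_le` for `x ↦ x ^ Q` on `Set.Ici 0`, `convexOn_pow`; or: `F ^ Q ≥ μ ^ Q + Q μ ^ (Q-1) (F - μ)` (Bernoulli type inequality,
`one_add_mul_le_pow` scaled) and integrate). `F ^ Q = m ^ (-Q) ∑ f : Fin Q → Fin m, ∏ i, G (f i)` (`Finset.sum_pow'`, `Finset.prod_univ_sum`,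
`Fintype.piFinset`). For injective `f` the mean is `β`; for the others it is `≤ 1`. The number of injective `f` is `≤ m ^ Q`, `β ≥ 0`? (if `Q ≤ m`,
there is an injective `f`, so `β ≥ 0` as a mean of nonnegative functions). The number of non-injective `f` is at most
`Q² m ^ (Q - 1)` (choose a pair `i ≠ j` with `f i = f j`; union bound; `Q ≥ 1`): `{f | f i = f j}` injects into the functions on `Fin Q` without `j`. So
`E F ^ Q ≤ β + Q² / m` for all `m ≥ Q`, `m ≥ 1`; `m → ∞`. (`Q = 0`: both sides are `1`.)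
-/

set_option autoImplicit false

namespace Pool.Agent.Lib.MP_90b327_co.WW

open Finset MeasureTheory Pool.Agent.Lib.MP_90b327_co Pool.Agent.Lib.MP_90b327_co.RB

private theorem copies_key {Ω : Type} [MeasurableSpace Ω] (P : Measure Ω) [IsProbabilityMeasure P]
    (G : ℕ → Ω → ℝ) (Q : ℕ) (μ β : ℝ) (h0 : ∀ a ω, 0 ≤ G a ω) (h1 : ∀ a ω, G a ω ≤ 1)
    (hm : ∀ a, Measurable (G a)) (hμ : ∀ a, ∫ ω, G a ω ∂P = μ)
    (hβ : ∀ f : Fin Q → ℕ, Function.Injective f → ∫ ω, ∏ i, G (f i) ω ∂P = β) (hβ0 : 0 ≤ β)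
    (m : ℕ) (hm0 : 0 < m) (hQm : Q ≤ m) : μ ^ Q ≤ β + (Q : ℝ) * ((Q : ℝ) - 1) / m := by
  classical
  have hp0 : ∀ (f : Fin Q → ℕ) ω, 0 ≤ ∏ i, G (f i) ω := fun f ω =>
    Finset.prod_nonneg fun i _ => h0 _ _
  have hp1 : ∀ (f : Fin Q → ℕ) ω, ∏ i, G (f i) ω ≤ 1 := fun f ω =>
    Finset.prod_le_one (fun i _ => h0 _ _) fun i _ => h1 _ _
  have hpm : ∀ f : Fin Q → ℕ, Measurable fun ω => ∏ i, G (f i) ω := fun f =>
    Finset.measurable_prod _ fun i _ => hm _
  have hint : ∀ f : Fin Q → ℕ, Integrable (fun ω => ∏ i, G (f i) ω) P := fun f =>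
    Integrable.of_bound (hpm f).aestronglyMeasurable 1 (Filter.Eventually.of_forall fun ω => by
      rw [Real.norm_eq_abs, abs_of_nonneg (hp0 f ω)]
      exact hp1 f ω)
  have hGint : ∀ a, Integrable (G a) P := fun a =>
    Integrable.of_bound (hm a).aestronglyMeasurable 1 (Filter.Eventually.of_forall fun ω => by
      rw [Real.norm_eq_abs, abs_of_nonneg (h0 a ω)]
      exact h1 a ω)
  obtain ⟨S, hS⟩ : ∃ S : Finset (Fin Q → ℕ), S = Fintype.piFinset (fun _ : Fin Q => range m) :=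
    ⟨_, rfl⟩
  have hcard : (S.card : ℝ) = (m : ℝ) ^ Q := by
    rw [hS, Fintype.card_piFinset, Finset.prod_const, Finset.card_univ, Fintype.card_fin,
      card_range]
    push_cast
    rfl
  have hF : ∀ ω, (∑ a ∈ range m, G a ω) ^ Q = ∑ f ∈ S, ∏ i, G (f i) ω := by
    intro ω
    rw [hS, ← Finset.prod_univ_sum (fun _ : Fin Q => range m) (fun _ a => G a ω),
      Finset.prod_const, Finset.card_univ, Fintype.card_fin]
  have hJ : (∫ ω, ∑ a ∈ range m, G a ω ∂P) ^ Q ≤ ∫ ω, (∑ a ∈ range m, G a ω) ^ Q ∂P := by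
    refine ConvexOn.map_integral_le (convexOn_pow Q) ((continuous_pow Q).continuousOn)
      isClosed_Ici ?_ (integrable_finsetSum _ fun a _ => hGint a) ?_
    · exact Filter.Eventually.of_forall fun ω => Finset.sum_nonneg fun a _ => h0 a ω
    · show Integrable (fun ω => (∑ a ∈ range m, G a ω) ^ Q) P
      simp only [hF]
      exact integrable_finsetSum _ fun f _ => hint f
  have hsum : ∫ ω, ∑ a ∈ range m, G a ω ∂P = m * μ := by
    rw [integral_finsetSum _ fun a _ => hGint a]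
    simp only [hμ]
    rw [Finset.sum_const, card_range, nsmul_eq_mul]
  simp only [hF] at hJ
  rw [hsum, integral_finsetSum _ fun f _ => hint f] at hJ
  obtain ⟨n, hn⟩ : ∃ n : ℕ, n = (S.filter fun f => Function.Injective f).card := ⟨_, rfl⟩
  have hb : ∑ f ∈ S, ∫ ω, ∏ i, G (f i) ω ∂P ≤ n * β + ((m : ℝ) ^ Q - n) := by
    have e1 := Finset.sum_filter_add_sum_filter_not S (fun f => Function.Injective f)
      (fun f => ∫ ω, ∏ i, G (f i) ω ∂P)
    have e2 : ∑ f ∈ S.filter (fun f => Function.Injective f), ∫ ω, ∏ i, G (f i) ω ∂P = n * β := by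
      rw [Finset.sum_congr rfl fun f hf => hβ f (Finset.mem_filter.1 hf).2, Finset.sum_const,
        nsmul_eq_mul, hn]
    have e3 : ∑ f ∈ S.filter (fun f => ¬ Function.Injective f), ∫ ω, ∏ i, G (f i) ω ∂P ≤
        (S.filter (fun f => ¬ Function.Injective f)).card := by
      have : ∀ f ∈ S.filter (fun f => ¬ Function.Injective f),
          ∫ ω, ∏ i, G (f i) ω ∂P ≤ (1 : ℝ) := by
        intro f _
        calc ∫ ω, ∏ i, G (f i) ω ∂P ≤ ∫ _, (1 : ℝ) ∂P :=
              integral_mono (hint f) (integrable_const _) (hp1 f)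
          _ = 1 := by simp
      refine (Finset.sum_le_sum this).trans (le_of_eq ?_)
      rw [Finset.sum_const, nsmul_eq_mul, mul_one]
    have e4 := Finset.card_filter_add_card_filter_not (s := S) (fun f => Function.Injective f)
    have e5 : ((S.filter (fun f => ¬ Function.Injective f)).card : ℝ) = (m : ℝ) ^ Q - n := by
      rw [← hcard, ← e4, hn]
      push_cast
      ring
    linarith
  have hinj : (m + 1 - Q) ^ Q ≤ n := by
    have h2 : Fintype.card (Fin Q ↪ Fin m) ≤ n := by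
      rw [hn, ← Finset.card_univ]
      refine Finset.card_le_card_of_injOn (fun (e : Fin Q ↪ Fin m) (i : Fin Q) => (e i : ℕ)) ?_ ?_
      · intro e _
        rw [Finset.mem_coe, Finset.mem_filter, hS, Fintype.mem_piFinset]
        refine ⟨fun i => Finset.mem_range.2 (e i).2, ?_⟩
        intro i j hij
        exact e.injective (Fin.val_injective hij)
      · intro e _ e' _ hee
        refine DFunLike.ext _ _ fun i => Fin.val_injective (congrFun hee i)
    rw [Fintype.card_embedding_eq, Fintype.card_fin, Fintype.card_fin] at h2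
    exact (Nat.pow_sub_le_descFactorial m Q).trans h2
  have hinjR : (((m : ℝ) + 1 - Q)) ^ Q ≤ n := by
    have h3 : (((m + 1 - Q : ℕ) : ℝ)) ^ Q ≤ n := by
      exact_mod_cast hinj
    rwa [Nat.cast_sub (by omega), Nat.cast_add, Nat.cast_one] at h3
  have hmR : (0 : ℝ) < m := Nat.cast_pos.2 hm0
  have hQmR : (Q : ℝ) ≤ m := Nat.cast_le.2 hQm
  have hbern : 1 + (Q : ℝ) * ((1 - Q) / m) ≤ (1 + (1 - (Q : ℝ)) / m) ^ Q := by
    refine one_add_mul_le_pow ?_ Q
    rw [le_div_iff₀ hmR]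
    linarith
  have hpow : (1 + (1 - (Q : ℝ)) / m) ^ Q * (m : ℝ) ^ Q = ((m : ℝ) + 1 - Q) ^ Q := by
    rw [← mul_pow]
    congr 1
    field_simp
    ring
  have hmQ : (0 : ℝ) < (m : ℝ) ^ Q := pow_pos hmR Q
  have hfin : (m : ℝ) ^ Q * μ ^ Q ≤ (m : ℝ) ^ Q * (β + (Q : ℝ) * ((Q : ℝ) - 1) / m) := by
    have e1 : ((m : ℝ) * μ) ^ Q = (m : ℝ) ^ Q * μ ^ Q := mul_pow _ _ _
    have e2 : (n : ℝ) ≤ (m : ℝ) ^ Q := by
      rw [← hcard, hn]
      exact_mod_cast Finset.card_filter_le _ _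
    have e3 : (1 + (Q : ℝ) * ((1 - Q) / m)) * (m : ℝ) ^ Q ≤ n := by
      refine (mul_le_mul_of_nonneg_right hbern hmQ.le).trans ?_
      rw [hpow]
      exact hinjR
    have e4 : (m : ℝ) ^ Q * ((Q : ℝ) * ((Q : ℝ) - 1) / m) =
        (m : ℝ) ^ Q - (1 + (Q : ℝ) * ((1 - Q) / m)) * (m : ℝ) ^ Q := by
      ring
    have e5 : (n : ℝ) * β ≤ (m : ℝ) ^ Q * β := mul_le_mul_of_nonneg_right e2 hβ0
    rw [mul_add, e4, ← e1]
    linarith [hJ.trans hb]
  exact le_of_mul_le_mul_left hfin hmQ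

theorem copies {Ω : Type} [MeasurableSpace Ω] (P : Measure Ω) [IsProbabilityMeasure P]
    (G : ℕ → Ω → ℝ) (Q : ℕ) (μ β : ℝ) (h0 : ∀ a ω, 0 ≤ G a ω) (h1 : ∀ a ω, G a ω ≤ 1)
    (hm : ∀ a, Measurable (G a)) (hμ : ∀ a, ∫ ω, G a ω ∂P = μ)
    (hβ : ∀ f : Fin Q → ℕ, Function.Injective f → ∫ ω, ∏ i, G (f i) ω ∂P = β) : μ ^ Q ≤ β := by
  have hβ0 : 0 ≤ β := by
    rw [← hβ (fun i => (i : ℕ)) Fin.val_injective]
    exact integral_nonneg fun ω => Finset.prod_nonneg fun i _ => h0 _ _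
  refine le_of_forall_pos_le_add fun ε hε => ?_
  obtain ⟨C, hC⟩ : ∃ C : ℝ, C = (Q : ℝ) * ((Q : ℝ) - 1) := ⟨_, rfl⟩
  obtain ⟨m, hmm⟩ := exists_nat_gt (max (|C| / ε) Q)
  have h2 : |C| / ε < m := lt_of_le_of_lt (le_max_left _ _) hmm
  have h3 : (Q : ℝ) < m := lt_of_le_of_lt (le_max_right _ _) hmm
  have h4 : Q < m := Nat.cast_lt.1 h3
  have h5 := copies_key P G Q μ β h0 h1 hm hμ hβ hβ0 m (by omega) h4.le
  refine h5.trans ?_
  rw [← hC]
  have h6 : (0 : ℝ) < m := lt_of_le_of_lt (Nat.cast_nonneg Q) h3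
  have h7 : C / m ≤ ε := by
    rw [div_le_iff₀ h6]
    rw [div_lt_iff₀ hε] at h2
    have := le_abs_self C
    linarith
  linarith

end Pool.Agent.Lib.MP_90b327_co.WW
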