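import Mathlib
import Pool.Agent.Lib.MP_90b327_co.WW.WDefs
import Pool.Agent.Lib.MP_90b327_co.WW.HRa

/-!
MODULE HRb (30 minutes, old scale). Invariance of products of the `HR`.

PROOF. Define `hrT : List (ℕ × Finset ℕ) → ℕ → Finset ℕ → List (ℕ × Finset ℕ)`, `hrT [] t S = [(t, S)]`, `hrT (p :: L) t S = hrT L t S ++ hrT L p.1 (S ∪ p.2)`.
(1) `HR H L t S ω = ((hrT L t S).map (fun q => H q.1 q.2 ω)).prod` (induction). (2) `hrT (L.map f) t (S.image σ) = (hrT L t S).map f` with
`f p = (p.1, p.2.image σ)` (induction, `Finset.image_union`). So `∏ i, HR H (L i) (t i) (S i) ω` is a product over the finite type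
`Σ i, Fin (hrT (L i) (t i) (S i)).length` of the `H`'s (`List.prod_ofFn`, `Finset.prod_sigma`), and `h.inv σ` applies (disjointness from `∅` and fixing `∅`
are trivial). The types for `L i` and for the mapped list agree up to the equality of the lengths (`List.length_map`; use the type
`Σ i, Fin (hrT (L i) (t i) (S i)).length` for both, with `List.getElem_map`), or argue by writing the finite products of lists as
`List` products of one long list and by a general statement: for every list `Q` of pairs `∫ (Q.map (fun q => H q.1 (q.2.image σ) ω)).prod =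
∫ (Q.map (fun q => H q.1 q.2 ω)).prod` (from `h.inv` with `ι = Fin Q.length`).
-/

set_option autoImplicit false

namespace Pool.Agent.Lib.MP_90b327_co.WW

open Finset MeasureTheory Pool.Agent.Lib.MP_90b327_co Pool.Agent.Lib.MP_90b327_co.RB

/-- the factors of `HR H L t S` -/
private def hrT : List (ℕ × Finset ℕ) → ℕ → Finset ℕ → List (ℕ × Finset ℕ)
  | [], t, S => [(t, S)]
  | p :: L, t, S => hrT L t S ++ hrT L p.1 (S ∪ p.2)

private theorem hrT_prod {Ω : Type} (H : ℕ → Finset ℕ → Ω → ℝ) (L : List (ℕ × Finset ℕ)) (t : ℕ) (S : Finset ℕ) (ω : Ω) :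
    HR H L t S ω = ((hrT L t S).map (fun q => H q.1 q.2 ω)).prod := by
  induction L generalizing t S with
  | nil => simp [HR, hrT]
  | cons q L ih =>
    show HR H L t S ω * HR H L q.1 (S ∪ q.2) ω = _
    rw [ih, ih, hrT, List.map_append, List.prod_append]

private theorem hrT_map (σ : ℕ → ℕ) (L : List (ℕ × Finset ℕ)) (t : ℕ) (S : Finset ℕ) :
    hrT (L.map (fun p => (p.1, p.2.image σ))) t (S.image σ) = (hrT L t S).map (fun p => (p.1, p.2.image σ)) := by
  induction L generalizing t S with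
  | nil => rfl
  | cons q L ih =>
    rw [List.map_cons, hrT, ih, ← image_union, ih, hrT, List.map_append]

private theorem hr_list {Ω : Type} [MeasurableSpace Ω] {P : Measure Ω} {H : ℕ → Finset ℕ → Ω → ℝ}
    (h : EF P ∅ H) (σ : ℕ → ℕ) (hσ : Function.Injective σ) (Q : List (ℕ × Finset ℕ)) :
    ∫ ω, (Q.map (fun q => H q.1 (q.2.image σ) ω)).prod ∂P = ∫ ω, (Q.map (fun q => H q.1 q.2 ω)).prod ∂P := by
  have h1 := h.inv σ hσ (fun v hv => absurd hv (notMem_empty v)) (Fin Q.length) (fun i => (Q.get i).1) (fun i => (Q.get i).2)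
    (fun i => disjoint_empty_right _)
  have e : ∀ F : ℕ × Finset ℕ → ℝ, ∏ i : Fin Q.length, F (Q.get i) = (Q.map F).prod := by
    intro F
    rw [← List.prod_ofFn]
    conv_rhs => rw [← List.ofFn_get Q, List.map_ofFn]
    rfl
  have e1 : ∀ ω, ∏ i : Fin Q.length, H (Q.get i).1 ((Q.get i).2.image σ) ω = (Q.map (fun q => H q.1 (q.2.image σ) ω)).prod :=
    fun ω => e (fun q => H q.1 (q.2.image σ) ω)
  have e2 : ∀ ω, ∏ i : Fin Q.length, H (Q.get i).1 (Q.get i).2 ω = (Q.map (fun q => H q.1 q.2 ω)).prod :=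
    fun ω => e (fun q => H q.1 q.2 ω)
  simp only [e1, e2] at h1
  exact h1

private theorem hr_flat {ι : Type} (l : List ι) (F : ι → List (ℕ × Finset ℕ)) (G : ℕ × Finset ℕ → ℝ) :
    ((l.flatMap F).map G).prod = (l.map (fun i => ((F i).map G).prod)).prod := by
  induction l with
  | nil => simp
  | cons a l ih =>
    rw [List.flatMap_cons, List.map_append, List.prod_append, ih, List.map_cons, List.prod_cons]

theorem hr_inv {Ω : Type} [MeasurableSpace Ω] {P : Measure Ω} {H : ℕ → Finset ℕ → Ω → ℝ}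
    (h : EF P ∅ H) (σ : ℕ → ℕ) (hσ : Function.Injective σ) (ι : Type) [Fintype ι]
    (L : ι → List (ℕ × Finset ℕ)) (t : ι → ℕ) (S : ι → Finset ℕ) :
    ∫ ω, ∏ i, HR H ((L i).map (fun p => (p.1, p.2.image σ))) (t i) ((S i).image σ) ω ∂P =
      ∫ ω, ∏ i, HR H (L i) (t i) (S i) ω ∂P := by
  have e2 : ∀ ω, ∏ i, HR H (L i) (t i) (S i) ω =
      (((univ : Finset ι).toList.flatMap (fun i => hrT (L i) (t i) (S i))).map (fun q => H q.1 q.2 ω)).prod := by
    intro ω
    rw [hr_flat, ← prod_map_toList]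
    simp only [hrT_prod]
  have e1 : ∀ ω, ∏ i, HR H ((L i).map (fun p => (p.1, p.2.image σ))) (t i) ((S i).image σ) ω =
      (((univ : Finset ι).toList.flatMap (fun i => hrT (L i) (t i) (S i))).map (fun q => H q.1 (q.2.image σ) ω)).prod := by
    intro ω
    rw [hr_flat, ← prod_map_toList]
    simp only [hrT_prod, hrT_map, List.map_map]
    rfl
  simp only [e1, e2]
  exact hr_list h σ hσ _

end Pool.Agent.Lib.MP_90b327_co.WW
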