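import Mathlib
import Pool.Agent.Lib.MP_90b327_co.WW.WDefs
import Pool.Agent.Lib.MP_90b327_co.WW.HRa
import Pool.Agent.Lib.MP_90b327_co.WW.HRb
import Pool.Agent.Lib.MP_90b327_co.WW.Copies
import Pool.Agent.Lib.MP_90b327_co.WW.BlkGeo
import Pool.Agent.Lib.MP_90b327_co.WW.ExInj

/-!
MODULE CopyCfg (50 minutes, old scale). `Q` copies of the configuration.

PROOF. `a r := (Y r).card`. Infinitely many copies: choose pairwise disjoint sets `W r x` (`r ≤ R`, `x ∈ ℕ`) with `(W r x).card = a r`, for instance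
`W r x = (range (a r)).image (fun i => (R + 1) * (x * a r + i) + r)`; put `x̂ r x = if r ≠ 0 ∧ r % 2 = 0 then 0 else x` and
`G x ω = HR H (List.ofFn (fun r : Fin R => (τ (r + 1), W (r + 1) (x̂ (r + 1) x)))) (τ 0) (W 0 x) ω`. `G x ∈ [0, 1]`, measurable (module HRa).
(1) `∫ G x = ∫ HR H (List.ofFn (.. Y ..)) (τ 0) (Y 0) =: μ ≥ c`: `exists_inj` (`κ = Fin (R + 1)`, `B = ∅`) gives `σ` with `(Y r).image σ = W r (x̂ r x)`; `hr_inv`
with `ι = Unit` (`List.map_ofFn`).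
(2) For injective `f : Fin Q → ℕ`: `∫ ∏ i, G (f i) = β := ∫ ∏ x : Fin Q, HR H (List.ofFn (.. blk a Q (r + 1) x ..)) (τ 0) (blk a Q 0 x)`: the pairwise disjoint
blocks are: `blk a Q r x` for `r ≤ R` with `r = 0` or `r` odd, `x < Q`, and `blk a Q r 0` for `r ≤ R` even, `r ≠ 0`; index type `κ = {p : Fin (R + 1) × Fin Q //
p.2 = 0 ∨ p.1 = 0 ∨ p.1 % 2 = 1}` (`Q ≥ 1`), `u p = blk a Q p.1 p.2`, `v p = W p.1 (f p.2)` for `p.1` odd or `0` and `W p.1 0` for `p.1` even, `≠ 0`; `exists_inj` gives one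
`σ`, and `hr_inv` with `ι = Fin Q`. (`blk_common`: the block number `r` of the copy `x` is the one of the copy `0` for even `r ≠ 0`.)
`copies` gives `μ ^ Q ≤ β`, and `c ^ Q ≤ μ ^ Q`. `Finset.prod_range` converts `∏ x ∈ range Q` to `∏ x : Fin Q`.
-/

set_option autoImplicit false

namespace Pool.Agent.Lib.MP_90b327_co.WW

open Finset MeasureTheory Pool.Agent.Lib.MP_90b327_co Pool.Agent.Lib.MP_90b327_co.RB

/-- the blocks of the infinitely many copies -/
private def ccW (a : ℕ → ℕ) (r x : ℕ) : Finset ℕ :=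
  (range (a r)).image (fun i => Nat.pair r (Nat.pair x i))

private theorem ccW_card (a : ℕ → ℕ) (r x : ℕ) : (ccW a r x).card = a r := by
  unfold ccW
  rw [card_image_of_injective, card_range]
  intro i j hij
  have h1 := (Nat.pair_eq_pair.mp hij).2
  exact (Nat.pair_eq_pair.mp h1).2

private theorem ccW_disj (a : ℕ → ℕ) {r x r' x' : ℕ} (h : r ≠ r' ∨ x ≠ x') :
    Disjoint (ccW a r x) (ccW a r' x') := by
  rw [disjoint_left]
  intro y hy hy'
  unfold ccW at hy hy'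
  obtain ⟨i, _, hi⟩ := mem_image.mp hy
  obtain ⟨j, _, hj⟩ := mem_image.mp hy'
  rw [← hj] at hi
  obtain ⟨h1, h2⟩ := Nat.pair_eq_pair.mp hi
  obtain ⟨h3, _⟩ := Nat.pair_eq_pair.mp h2
  rcases h with h | h
  · exact h h1
  · exact h h3

private def ccX (r x : ℕ) : ℕ := if r ≠ 0 ∧ r % 2 = 0 then 0 else x

/-- the list of a configuration with blocks `B r` -/
private def ccL (R : ℕ) (τ : ℕ → ℕ) (B : ℕ → Finset ℕ) : List (ℕ × Finset ℕ) :=
  List.ofFn (fun r : Fin R => (τ (r + 1), B (r + 1)))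

private theorem ccL_map (R : ℕ) (τ : ℕ → ℕ) (B B' : ℕ → Finset ℕ) (σ : ℕ → ℕ)
    (h : ∀ r, r ≤ R → (B r).image σ = B' r) :
    (ccL R τ B).map (fun p => (p.1, p.2.image σ)) = ccL R τ B' := by
  unfold ccL
  rw [List.map_ofFn]
  congr 1
  funext r
  simp only [Function.comp_apply]
  rw [h (r + 1) (by have := r.2; omega)]

/-- the copies -/
private noncomputable def ccG {Ω : Type} (H : ℕ → Finset ℕ → Ω → ℝ) (R : ℕ) (τ a : ℕ → ℕ) (x : ℕ)
    (ω : Ω) : ℝ :=
  HR H (ccL R τ (fun r => ccW a r (ccX r x))) (τ 0) (ccW a 0 (ccX 0 x)) ω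

private theorem ccG_mean {Ω : Type} [MeasurableSpace Ω] {P : Measure Ω}
    {H : ℕ → Finset ℕ → Ω → ℝ} (h : EF P ∅ H) (R : ℕ) (τ : ℕ → ℕ) (Y : ℕ → Finset ℕ)
    (hY : ∀ r s, r ≤ R → s ≤ R → r ≠ s → Disjoint (Y r) (Y s)) (x : ℕ) :
    ∫ ω, ccG H R τ (fun r => (Y r).card) x ω ∂P = ∫ ω, HR H (ccL R τ Y) (τ 0) (Y 0) ω ∂P := by
  obtain ⟨σ, hσ, -, hi⟩ := exists_inj (Fin (R + 1)) ∅ (fun j => Y j)
    (fun j => ccW (fun r => (Y r).card) j (ccX j x))
    (fun j j' hj => hY j j' (by have := j.2; omega) (by have := j'.2; omega) (fun e => hj (Fin.ext e)))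
    (fun j j' hj => ccW_disj _ (Or.inl (fun e => hj (Fin.ext e))))
    (fun j => disjoint_empty_right _) (fun j => disjoint_empty_right _)
    (fun j => (ccW_card (fun r => (Y r).card) j (ccX j x)).symm)
  have hi' : ∀ r, r ≤ R → (Y r).image σ = ccW (fun r => (Y r).card) r (ccX r x) := fun r hr =>
    hi ⟨r, by omega⟩
  have h2 := hr_inv h σ hσ Unit (fun _ => ccL R τ Y) (fun _ => τ 0) (fun _ => Y 0)
  simp only [Fintype.prod_unique] at h2
  rw [ccL_map R τ Y _ σ hi', hi' 0 (Nat.zero_le _)] at h2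
  exact h2

private theorem ccG_mix {Ω : Type} [MeasurableSpace Ω] {P : Measure Ω}
    {H : ℕ → Finset ℕ → Ω → ℝ} (h : EF P ∅ H) (R Q : ℕ) (τ a : ℕ → ℕ) (f : Fin Q → ℕ)
    (hf : Function.Injective f) :
    ∫ ω, ∏ i, ccG H R τ a (f i) ω ∂P =
      ∫ ω, ∏ i : Fin Q, HR H (ccL R τ (fun r => blk a Q r i)) (τ 0) (blk a Q 0 i) ω ∂P := by
  obtain ⟨σ, hσ, -, hi⟩ := exists_inj
    {p : Fin (R + 1) × Fin Q // (p.2 : ℕ) = 0 ∨ (p.1 : ℕ) = 0 ∨ (p.1 : ℕ) % 2 = 1} ∅
    (fun p => blk a Q p.1.1 p.1.2) (fun p => ccW a p.1.1 (ccX p.1.1 (f p.1.2)))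
    (by
      rintro ⟨⟨r, x⟩, hp⟩ ⟨⟨r', x'⟩, hp'⟩ hne
      simp only at hp hp' ⊢
      by_cases hr : (r : ℕ) = r'
      · have hr2 : r = r' := Fin.ext hr
        subst hr2
        have hx : x ≠ x' := by
          rintro rfl
          exact hne rfl
        have hx2 : (x : ℕ) ≠ x' := fun e => hx (Fin.ext e)
        refine blk_disj' a Q r x x' x.2 x'.2 ?_ hx2
        rcases hp with h1 | h1
        · rcases hp' with h2 | h2
          · exact absurd (h1.trans h2.symm) hx2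
          · exact h2
        · exact h1
      · exact blk_disj a Q r x r' x' x.2 x'.2 hr)
    (by
      rintro ⟨⟨r, x⟩, hp⟩ ⟨⟨r', x'⟩, hp'⟩ hne
      simp only at hp hp' ⊢
      by_cases hr : (r : ℕ) = r'
      · have hr2 : r = r' := Fin.ext hr
        subst hr2
        have hx : x ≠ x' := by
          rintro rfl
          exact hne rfl
        have hx2 : (x : ℕ) ≠ x' := fun e => hx (Fin.ext e)
        refine ccW_disj a (Or.inr ?_)
        have h3 : (r : ℕ) = 0 ∨ (r : ℕ) % 2 = 1 := by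
          rcases hp with h1 | h1
          · rcases hp' with h2 | h2
            · exact absurd (h1.trans h2.symm) hx2
            · exact h2
          · exact h1
        have h4 : ¬ ((r : ℕ) ≠ 0 ∧ (r : ℕ) % 2 = 0) := by
          rintro ⟨h5, h6⟩
          omega
        unfold ccX
        rw [if_neg h4, if_neg h4]
        exact fun e => hx (hf e)
      · exact ccW_disj a (Or.inl hr))
    (fun p => disjoint_empty_right _) (fun p => disjoint_empty_right _)
    (fun p => (blk_card a Q _ _).trans (ccW_card a _ _).symm)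
  have hi' : ∀ (x : Fin Q) (r : ℕ), r ≤ R → (blk a Q r x).image σ = ccW a r (ccX r (f x)) := by
    intro x r hr
    by_cases h4 : r ≠ 0 ∧ r % 2 = 0
    · have h5 := hi ⟨(⟨r, by omega⟩, ⟨0, x.pos⟩), Or.inl rfl⟩
      simp only at h5
      rw [blk_common a Q r x 0 h4.1 h4.2]
      have h6 : ccX r (f ⟨0, x.pos⟩) = ccX r (f x) := by
        unfold ccX
        rw [if_pos h4, if_pos h4]
      rw [h6] at h5
      exact h5
    · have h5 : r = 0 ∨ r % 2 = 1 := by
        by_contra hcon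
        apply h4
        constructor
        · intro h0; exact hcon (Or.inl h0)
        · have : r % 2 ≠ 1 := fun e => hcon (Or.inr e)
          omega
      exact hi ⟨(⟨r, by omega⟩, x), Or.inr h5⟩
  have h2 := hr_inv h σ hσ (Fin Q) (fun i => ccL R τ (fun r => blk a Q r i)) (fun _ => τ 0)
    (fun i => blk a Q 0 i)
  rw [← h2]
  congr 1
  funext ω
  refine prod_congr rfl fun i _ => ?_
  unfold ccG
  rw [ccL_map R τ (fun r => blk a Q r i) _ σ (hi' i), hi' i 0 (Nat.zero_le _)]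

theorem copy_cfg {Ω : Type} [MeasurableSpace Ω] {P : Measure Ω} [IsProbabilityMeasure P]
    {H : ℕ → Finset ℕ → Ω → ℝ} (h : EF P ∅ H) (R Q : ℕ) (hQ : 1 ≤ Q) (τ : ℕ → ℕ) (Y : ℕ → Finset ℕ)
    (hY : ∀ r s, r ≤ R → s ≤ R → r ≠ s → Disjoint (Y r) (Y s)) (c : ℝ) (hc : 0 ≤ c)
    (h1 : c ≤ ∫ ω, HR H (List.ofFn (fun r : Fin R => (τ (r + 1), Y (r + 1)))) (τ 0) (Y 0) ω ∂P) :
    c ^ Q ≤ ∫ ω, ∏ x ∈ range Q, HR H
      (List.ofFn (fun r : Fin R => (τ (r + 1), blk (fun r => (Y r).card) Q (r + 1) x))) (τ 0)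
      (blk (fun r => (Y r).card) Q 0 x) ω ∂P := by
  have h2 := copies P (ccG H R τ (fun r => (Y r).card)) Q
    (∫ ω, HR H (ccL R τ Y) (τ 0) (Y 0) ω ∂P)
    (∫ ω, ∏ i : Fin Q, HR H (ccL R τ (fun r => blk (fun r => (Y r).card) Q r i)) (τ 0)
      (blk (fun r => (Y r).card) Q 0 i) ω ∂P)
    (fun x ω => hr_nonneg h.nonneg _ _ _ _) (fun x ω => hr_le_one h.nonneg h.le_one _ _ _ _)
    (fun x => hr_meas h.meas _ _ _) (fun x => ccG_mean h R τ Y hY x)
    (fun f hf => ccG_mix h R Q τ _ f hf)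
  refine (pow_le_pow_left₀ hc h1 Q).trans (h2.trans (le_of_eq ?_))
  congr 1
  funext ω
  rw [prod_range]
  rfl

end Pool.Agent.Lib.MP_90b327_co.WW
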