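import Mathlib
import Pool.Agent.Lib.MP_90b327_co.WW.WDefs

/-!
MODULE TypesA (35 minutes, old scale). Types of cells: `pc β J` = the cells with entries in the blocks `β i`, `i ∈ J`, which
meet each of these blocks; `XF β F` = the union of the `pc β J`, `J ∈ F`.

PROOFS.
`pc_sub`: filter, `pw` mono. `pc_mem`: unfold (`Fintype.mem_piFinset`, `Finset.mem_biUnion`).
`pc_empty`: a cell `c` of `pc β J` gives for each `i ∈ J` an index `j i : Fin D` with `c (j i) ∈ β i`; disjointness makes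
`i ↦ j i` injective on `J`, so `J.card ≤ D`.
`xf_pow`: `⊇`: for `c ∈ pw D (J.biUnion β)` put `J' = J.filter (fun i => ∃ j, c j ∈ β i)`; every entry `c j` is in some `β i`,
`i ∈ J`, so `i ∈ J'` and `c ∈ pc β J'`; `J' ≠ ∅` because `1 ≤ D` (the entry number `0`). `⊆`: `pc_sub` and monotonicity.
`xf_one`: `pc β {i} = pw D (β i)` for `1 ≤ D` (entry number `0` is in `β i`).
`xf_sub`: `pc_sub`. `xf_congr`: `pc β J` depends only on the values `β i`, `i ∈ J`.
-/

set_option autoImplicit false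

namespace Pool.Agent.Lib.MP_90b327_co.WW

open Finset MeasureTheory Pool.Agent.Lib.MP_90b327_co Pool.Agent.Lib.MP_90b327_co.RB

theorem pc_mem {D : ℕ} (β : Nm → Finset ℕ) (J : Finset Nm) (c : Ce D) :
    c ∈ pc β J ↔ (∀ j, ∃ i ∈ J, c j ∈ β i) ∧ ∀ i ∈ J, ∃ j, c j ∈ β i := by
  unfold pc pw
  rw [Finset.mem_filter, Fintype.mem_piFinset]
  simp only [Finset.mem_biUnion]

theorem pc_empty {D : ℕ} (β : Nm → Finset ℕ) (hd : ∀ i i', i ≠ i' → Disjoint (β i) (β i'))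
    (J : Finset Nm) (hJ : D < J.card) : (pc β J : Co D) = ∅ := by
  rw [Finset.eq_empty_iff_forall_notMem]
  intro c hc
  rw [pc_mem] at hc
  obtain ⟨-, h2⟩ := hc
  choose f hf using h2
  have hinj : Function.Injective (fun x : {x // x ∈ J} => f x.1 x.2) := by
    intro x y hxy
    by_contra hne
    have h1 := hf x.1 x.2
    have h3 := hf y.1 y.2
    have hxy' : f x.1 x.2 = f y.1 y.2 := hxy
    rw [hxy'] at h1
    exact (Finset.disjoint_left.mp (hd x.1 y.1 (fun h => hne (Subtype.ext h)))) h1 h3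
  have := Fintype.card_le_of_injective _ hinj
  rw [Fintype.card_fin, Fintype.card_coe] at this
  omega

theorem xf_union {D : ℕ} (β : Nm → Finset ℕ) (F F' : Finset (Finset Nm)) :
    (XF β (F ∪ F') : Co D) = XF β F ∪ XF β F' := by
  unfold XF
  rw [Finset.union_biUnion]

private theorem xf_mem {D : ℕ} (β : Nm → Finset ℕ) (F : Finset (Finset Nm)) (c : Ce D) :
    c ∈ (XF β F : Co D) ↔ ∃ J ∈ F, c ∈ pc β J := by
  unfold XF
  rw [Finset.mem_biUnion]

private theorem pw_mem {D : ℕ} (V : Finset ℕ) (c : Ce D) : c ∈ pw D V ↔ ∀ j, c j ∈ V := by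
  unfold pw
  rw [Fintype.mem_piFinset]

theorem xf_pow {D : ℕ} (hD : 1 ≤ D) (β : Nm → Finset ℕ) (J : Finset Nm) :
    (XF β (J.powerset.erase ∅) : Co D) = pw D (J.biUnion β) := by
  classical
  ext c
  rw [xf_mem, pw_mem]
  constructor
  · rintro ⟨J', hJ', hc⟩ j
    rw [pc_mem] at hc
    obtain ⟨i, hi, hci⟩ := hc.1 j
    rw [Finset.mem_erase, Finset.mem_powerset] at hJ'
    rw [Finset.mem_biUnion]
    exact ⟨i, hJ'.2 hi, hci⟩
  · intro h
    refine ⟨J.filter (fun i => ∃ j, c j ∈ β i), ?_, ?_⟩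
    · rw [Finset.mem_erase, Finset.mem_powerset]
      refine ⟨?_, Finset.filter_subset _ _⟩
      have h0 := h ⟨0, hD⟩
      rw [Finset.mem_biUnion] at h0
      obtain ⟨i, hi, hci⟩ := h0
      apply Finset.Nonempty.ne_empty
      exact ⟨i, Finset.mem_filter.mpr ⟨hi, _, hci⟩⟩
    · rw [pc_mem]
      constructor
      · intro j
        have hj := h j
        rw [Finset.mem_biUnion] at hj
        obtain ⟨i, hi, hci⟩ := hj
        exact ⟨i, Finset.mem_filter.mpr ⟨hi, _, hci⟩, hci⟩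
      · intro i hi
        exact (Finset.mem_filter.mp hi).2

theorem xf_one {D : ℕ} (hD : 1 ≤ D) (β : Nm → Finset ℕ) (i : Nm) :
    (XF β {{i}} : Co D) = pw D (β i) := by
  ext c
  rw [xf_mem, pw_mem]
  constructor
  · rintro ⟨J', hJ', hc⟩ j
    rw [Finset.mem_singleton] at hJ'
    subst hJ'
    rw [pc_mem] at hc
    obtain ⟨i', hi', hci⟩ := hc.1 j
    rw [Finset.mem_singleton] at hi'
    rw [hi'] at hci
    exact hci
  · intro h
    refine ⟨{i}, Finset.mem_singleton_self _, ?_⟩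
    rw [pc_mem]
    refine ⟨fun j => ⟨i, Finset.mem_singleton_self _, h j⟩, fun i' hi' => ?_⟩
    rw [Finset.mem_singleton] at hi'
    rw [hi']
    exact ⟨⟨0, hD⟩, h _⟩

theorem xf_sub {D : ℕ} (β : Nm → Finset ℕ) (F : Finset (Finset Nm)) (V : Finset ℕ)
    (h : ∀ J ∈ F, ∀ i ∈ J, β i ⊆ V) : (XF β F : Co D) ⊆ pw D V := by
  intro c hc
  rw [xf_mem] at hc
  obtain ⟨J, hJ, hc⟩ := hc
  rw [pc_mem] at hc
  rw [pw_mem]
  intro j
  obtain ⟨i, hi, hci⟩ := hc.1 j
  exact h J hJ i hi hci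

theorem xf_congr {D : ℕ} (β β' : Nm → Finset ℕ) (F : Finset (Finset Nm))
    (h : ∀ J ∈ F, ∀ i ∈ J, β i = β' i) : (XF β F : Co D) = XF β' F := by
  ext c
  rw [xf_mem, xf_mem]
  have key : ∀ J ∈ F, (c ∈ (pc β J : Co D) ↔ c ∈ (pc β' J : Co D)) := by
    intro J hJ
    rw [pc_mem, pc_mem]
    constructor
    · rintro ⟨h1, h2⟩
      refine ⟨fun j => ?_, fun i hi => ?_⟩
      · obtain ⟨i, hi, hci⟩ := h1 j
        exact ⟨i, hi, by rw [← h J hJ i hi]; exact hci⟩
      · obtain ⟨j, hj⟩ := h2 i hi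
        exact ⟨j, by rw [← h J hJ i hi]; exact hj⟩
    · rintro ⟨h1, h2⟩
      refine ⟨fun j => ?_, fun i hi => ?_⟩
      · obtain ⟨i, hi, hci⟩ := h1 j
        exact ⟨i, hi, by rw [h J hJ i hi]; exact hci⟩
      · obtain ⟨j, hj⟩ := h2 i hi
        exact ⟨j, by rw [h J hJ i hi]; exact hj⟩
  constructor
  · rintro ⟨J, hJ, hc⟩
    exact ⟨J, hJ, (key J hJ).mp hc⟩
  · rintro ⟨J, hJ, hc⟩
    exact ⟨J, hJ, (key J hJ).mpr hc⟩

end Pool.Agent.Lib.MP_90b327_co.WW
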