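import Mathlib
import Pool.Agent.Lib.MP_90b327_co.WW.WDefs
import Pool.Agent.Lib.MP_90b327_co.WW.TypesA
import Pool.Agent.Lib.MP_90b327_co.WW.CkDist

/-!
MODULE RnEq (25 minutes, old scale). The number `Rn`.

PROOFS. `bl_disj`: `bl c b s (inl a) = CC c a (s a)`, a union of blocks `c i a`; `bl c b s (inr i) = b i`; from `hc.dcc`, `hc.dbb`,
`hc.dcb` (`Finset.disjoint_biUnion_left`, `_right`).
`rn_eq`: `xf_congr` (module TypesA): only the names `inl a`, `inl a'` and `inr i` occur in the two families, and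
`lv2 a t a' t' a = t = s a`, `lv2 a t a' t' a' = t' = s a'` (here `a ≠ a'`).
`rn_conj`: `rn_eq` with `s = lv2 a t a' t'` for `Rn k c b J a' t' a t`, and `hk.herm`.
`rn_sub`: the content is in `pw D (V r)`: `xf_sub`; `inl a` has the block `CC c a t`, the union of the `c i a`, `i ≤ t`, and `2 i - 1 < r`
because `stg t J < r` (`hc.Vc`); `inr i`, `i ∈ J`, has the block `b i`, `2 i + 2 ≤ J.sup _ < r` (`hc.Vb`, `Finset.le_sup`).
`rn_ex`: two numbers `Rn` of contents below the stage `r` which are `MM D * η r`-close are equal: `hc.ex r` and `rn_sub`.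
`rn_ex1`: the same with `1 = k ∅ ∅` (`hk.one`), `∅ ⊆ _`.
-/

set_option autoImplicit false

namespace Pool.Agent.Lib.MP_90b327_co.WW

open Finset MeasureTheory Pool.Agent.Lib.MP_90b327_co Pool.Agent.Lib.MP_90b327_co.RB

private theorem RnEq_cc {D : ℕ} {k : Co D → Co D → ℂ} {Q : ℕ} {c : ℕ → ℕ → Finset ℕ}
    {b V : ℕ → Finset ℕ} {η : ℕ → ℝ} (hc : Cfg k Q c b V η) (a t a' t' : ℕ) (h : a ≠ a') :
    Disjoint (CC c a t) (CC c a' t') := by
  unfold CC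
  rw [Finset.disjoint_biUnion_left]
  intro i _
  rw [Finset.disjoint_biUnion_right]
  intro i' _
  refine hc.dcc i a i' a' fun he => h ?_
  rw [Prod.mk.injEq] at he
  exact he.2

private theorem RnEq_cb {D : ℕ} {k : Co D → Co D → ℂ} {Q : ℕ} {c : ℕ → ℕ → Finset ℕ}
    {b V : ℕ → Finset ℕ} {η : ℕ → ℝ} (hc : Cfg k Q c b V η) (a t j : ℕ) :
    Disjoint (CC c a t) (b j) := by
  unfold CC
  rw [Finset.disjoint_biUnion_left]
  intro i _
  exact hc.dcb i a j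

theorem bl_disj {D : ℕ} {k : Co D → Co D → ℂ} {Q : ℕ} {c : ℕ → ℕ → Finset ℕ} {b V : ℕ → Finset ℕ}
    {η : ℕ → ℝ} (hc : Cfg k Q c b V η) (s : ℕ → ℕ) (i i' : Nm) (h : i ≠ i') :
    Disjoint (bl c b s i) (bl c b s i') := by
  unfold bl
  rcases i with a | j <;> rcases i' with a' | j'
  · simp only [Sum.elim_inl]
    exact RnEq_cc hc a _ a' _ fun he => h (by rw [he])
  · simp only [Sum.elim_inl, Sum.elim_inr]
    exact RnEq_cb hc a _ j'
  · simp only [Sum.elim_inl, Sum.elim_inr]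
    exact (RnEq_cb hc a' _ j).symm
  · simp only [Sum.elim_inr]
    exact hc.dbb j j' fun he => h (by rw [he])

private theorem RnEq_mem {J : Finset ℕ} {x : ℕ} {K : Finset Nm}
    (hK : K ∈ base J ∪ {insert (Sum.inl x) (bn J)}) {i : Nm} (hi : i ∈ K) :
    i = Sum.inl x ∨ ∃ j ∈ J, i = Sum.inr j := by
  rw [Finset.mem_union, Finset.mem_singleton] at hK
  have hbn : i ∈ bn J → ∃ j ∈ J, i = Sum.inr j := by
    intro h
    unfold bn at h
    rw [Finset.mem_image] at h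
    obtain ⟨j, hj, he⟩ := h
    exact ⟨j, hj, he.symm⟩
  rcases hK with hK | hK
  · unfold base at hK
    rw [Finset.mem_erase, Finset.mem_powerset] at hK
    exact Or.inr (hbn (hK.2 hi))
  · rw [hK, Finset.mem_insert] at hi
    rcases hi with hi | hi
    · exact Or.inl hi
    · exact Or.inr (hbn hi)

private theorem RnEq_xf {D : ℕ} (c : ℕ → ℕ → Finset ℕ) (b : ℕ → Finset ℕ) (J : Finset ℕ) (x : ℕ)
    (s s' : ℕ → ℕ) (h : s x = s' x) :
    (XF (bl c b s) (base J ∪ {insert (Sum.inl x) (bn J)}) : Co D) =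
      XF (bl c b s') (base J ∪ {insert (Sum.inl x) (bn J)}) := by
  refine xf_congr _ _ _ fun K hK i hi => ?_
  rcases RnEq_mem hK hi with rfl | ⟨j, -, rfl⟩
  · simp only [bl, Sum.elim_inl, h]
  · simp only [bl, Sum.elim_inr]

private theorem RnEq_l1 (a t a' t' : ℕ) : lv2 a t a' t' a = t := by
  simp [lv2]

private theorem RnEq_l2 (a t a' t' : ℕ) (h : a ≠ a') : lv2 a t a' t' a' = t' := by
  simp [lv2, h.symm]

theorem rn_eq {D : ℕ} (k : Co D → Co D → ℂ) (c : ℕ → ℕ → Finset ℕ) (b : ℕ → Finset ℕ)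
    (J : Finset ℕ) (a t a' t' : ℕ) (ha : a ≠ a') (s : ℕ → ℕ) (hs : s a = t) (hs' : s a' = t') :
    k (XF (bl c b s) (base J ∪ {insert (Sum.inl a) (bn J)}))
      (XF (bl c b s) (base J ∪ {insert (Sum.inl a') (bn J)})) = Rn k c b J a t a' t' := by
  unfold Rn
  rw [RnEq_xf c b J a s (lv2 a t a' t') (by rw [RnEq_l1, hs]),
    RnEq_xf c b J a' s (lv2 a t a' t') (by rw [RnEq_l2 _ _ _ _ ha, hs'])]

theorem rn_conj {D : ℕ} {k : Co D → Co D → ℂ} (hk : CK k) (c : ℕ → ℕ → Finset ℕ) (b : ℕ → Finset ℕ)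
    (J : Finset ℕ) (a t a' t' : ℕ) (ha : a ≠ a') :
    Rn k c b J a' t' a t = (starRingEnd ℂ) (Rn k c b J a t a' t') := by
  rw [← rn_eq k c b J a' t' a t ha.symm (lv2 a t a' t') (RnEq_l2 _ _ _ _ ha) (RnEq_l1 _ _ _ _)]
  unfold Rn
  exact hk.herm _ _

private theorem RnEq_sub {D : ℕ} {k : Co D → Co D → ℂ} {Q : ℕ} {c : ℕ → ℕ → Finset ℕ}
    {b V : ℕ → Finset ℕ} {η : ℕ → ℝ} (hc : Cfg k Q c b V η) (J : Finset ℕ) (hJ : J ⊆ range D)
    (r x : ℕ) (s : ℕ → ℕ) (hx : x < Q) (hs : s x ≤ D) (h1 : stg (s x) J < r) :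
    (XF (bl c b s) (base J ∪ {insert (Sum.inl x) (bn J)}) : Co D) ⊆ pw D (V r) := by
  unfold stg at h1
  rw [max_lt_iff] at h1
  refine xf_sub _ _ _ fun K hK i hi => ?_
  rcases RnEq_mem hK hi with rfl | ⟨j, hj, rfl⟩
  · simp only [bl, Sum.elim_inl]
    unfold CC
    rw [Finset.biUnion_subset]
    intro i hi
    rw [Finset.mem_range] at hi
    exact hc.Vc i x r (by omega) hx (by omega)
  · simp only [bl, Sum.elim_inr]
    have h2 : 2 * j + 2 ≤ J.sup (fun i => 2 * i + 2) := Finset.le_sup (f := fun i => 2 * i + 2) hj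
    exact hc.Vb j r (Finset.mem_range.1 (hJ hj)) (by omega)

theorem rn_ex {D : ℕ} {k : Co D → Co D → ℂ} {Q : ℕ} {c : ℕ → ℕ → Finset ℕ} {b V : ℕ → Finset ℕ}
    {η : ℕ → ℝ} (hc : Cfg k Q c b V η) (J : Finset ℕ) (hJ : J ⊆ range D) (r : ℕ) (hr : 1 ≤ r)
    (hr' : r ≤ 2 * D) (a t a' t' x s x' s' : ℕ) (ha : a < Q) (ha' : a' < Q) (hx : x < Q) (hx' : x' < Q)
    (ht : t ≤ D) (ht' : t' ≤ D) (hs : s ≤ D) (hs' : s' ≤ D) (hn : a ≠ a') (hn' : x ≠ x')
    (h1 : stg t J < r) (h2 : stg t' J < r) (h3 : stg s J < r) (h4 : stg s' J < r)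
    (h : ‖Rn k c b J a t a' t' - Rn k c b J x s x' s'‖ ≤ MM D * η r) :
    Rn k c b J a t a' t' = Rn k c b J x s x' s' := by
  unfold Rn at h ⊢
  refine hc.ex r hr hr' _ _ _ _ ?_ ?_ ?_ ?_ h
  · exact RnEq_sub hc J hJ r a _ ha (by rw [RnEq_l1]; exact ht) (by rw [RnEq_l1]; exact h1)
  · exact RnEq_sub hc J hJ r a' _ ha' (by rw [RnEq_l2 _ _ _ _ hn]; exact ht')
      (by rw [RnEq_l2 _ _ _ _ hn]; exact h2)
  · exact RnEq_sub hc J hJ r x _ hx (by rw [RnEq_l1]; exact hs) (by rw [RnEq_l1]; exact h3)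
  · exact RnEq_sub hc J hJ r x' _ hx' (by rw [RnEq_l2 _ _ _ _ hn']; exact hs')
      (by rw [RnEq_l2 _ _ _ _ hn']; exact h4)

theorem rn_ex1 {D : ℕ} {k : Co D → Co D → ℂ} (hk : CK k) {Q : ℕ} {c : ℕ → ℕ → Finset ℕ}
    {b V : ℕ → Finset ℕ} {η : ℕ → ℝ} (hc : Cfg k Q c b V η) (J : Finset ℕ) (hJ : J ⊆ range D) (r : ℕ)
    (hr : 1 ≤ r) (hr' : r ≤ 2 * D) (a t a' t' : ℕ) (ha : a < Q) (ha' : a' < Q)
    (ht : t ≤ D) (ht' : t' ≤ D) (hn : a ≠ a') (h1 : stg t J < r) (h2 : stg t' J < r)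
    (h : ‖1 - Rn k c b J a t a' t'‖ ≤ MM D * η r) : Rn k c b J a t a' t' = 1 := by
  rw [← hk.one ∅] at h ⊢
  symm
  unfold Rn at h ⊢
  refine hc.ex r hr hr' _ _ _ _ (Finset.empty_subset _) (Finset.empty_subset _) ?_ ?_ h
  · exact RnEq_sub hc J hJ r a _ ha (by rw [RnEq_l1]; exact ht) (by rw [RnEq_l1]; exact h1)
  · exact RnEq_sub hc J hJ r a' _ ha' (by rw [RnEq_l2 _ _ _ _ hn]; exact ht')
      (by rw [RnEq_l2 _ _ _ _ hn]; exact h2)

end Pool.Agent.Lib.MP_90b327_co.WW
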