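import Mathlib
import Pool.Agent.Lib.MP_90b327_co.WW.WDefs

/-!
MODULE LemN (75 minutes, old scale). Lemma N of the text, for an abstract pseudo-metric on families of types.

`𝔡` is symmetric, satisfies the triangle inequality, and common types which are not below a difference type may be
removed (`del`). `𝒬` = the set of the carriers (copies).

PROOF. Induction on `n = J.card` (strong, for all `J`). We may use: `MM` is monotone and nonnegative.
`n = 0` (`J = ∅`): `base (∅ ∪ A) ∪ pie a ∅ A = full a (∅ ∪ A)` (a non-empty subset of `insert (inl a) (bn A)` either does not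
contain `inl a`, or it is `insert (inl a) (bn A')` with `A' ⊆ A`), so both sides are within `η` of `∅`; `2 η = MM 0 * η`.
`n = m + 1`. `𝒫 := J.powerset.erase J` (the proper subsets), `2^n - 1` elements. There is `κ : Finset ℕ → ℕ`, injective on `𝒫`
with values in `𝒬 \ {a, a'}` (at least `2^n - 1` elements). For a copy `x ∈ {a, a'}` and `𝒟 ⊆ 𝒫` closed under subsets
(`J'' ⊆ J' ∈ 𝒟 → J'' ∈ 𝒟`) put
  `Φ x 𝒟 := base (J ∪ A) ∪ (𝒟.biUnion fun J' => pie (κ J') J' A) ∪ ((J.powerset \ 𝒟).biUnion fun J' => pie x J' A)`.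
(1) `Φ x ∅ = full x (J ∪ A)`: every subset of `J ∪ A` is `J' ∪ A'`, `J' ⊆ J`, `A' ⊆ A`.
(2) `𝔡 (full x (J ∪ A)) (Φ x 𝒟) ≤ 𝒟.card * (MM m * η)` for closed `𝒟 ⊆ 𝒫`: induction on the cardinality. Let `J'` be an element of
`𝒟` of largest cardinality, `𝒟' = 𝒟.erase J'` (closed). Put `F = base (J' ∪ A) ∪ pie x J' A`,
`F' = base (J' ∪ A) ∪ pie (κ J') J' A` and `U` = all types of `Φ x 𝒟'` outside `base (J' ∪ A)` and `pie x J' A`; then
`Φ x 𝒟' = F ∪ U`, `Φ x 𝒟 = F' ∪ U` (as sets: write `U = (base (J ∪ A) \ base (J' ∪ A)) ∪ (𝒟'.biUnion pie (κ ·) · A) ∪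
((J.powerset \ 𝒟).biUnion pie x · A)`). `del` applies: a type `T ∈ U` is not contained in a type of `pie x J' A` or of
`pie (κ J') J' A`: (i) `T ⊆ bn (J ∪ A)`, `T ≠ ∅`, `T ⊄ bn (J' ∪ A)`: clear. (ii) `T = insert (inl (κ J'')) _`, `J'' ∈ 𝒟'`: `κ J'' ≠ x` and
`κ J'' ≠ κ J'`. (iii) `T = insert (inl x) (bn (J'' ∪ A''))`, `J'' ⊆ J`, `J'' ∉ 𝒟`: not contained in a type of `pie (κ J') J' A` because of
`inl x`; contained in `insert (inl x) (bn (J' ∪ A'))` gives `J'' ∪ A'' ⊆ J' ∪ A'`, so `J'' ⊆ J'` (`J` and `A` are disjoint), so `J'' ∈ 𝒟`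
(closed), contradiction. So `𝔡 (Φ x 𝒟') (Φ x 𝒟) = 𝔡 F F' ≤ MM J'.card * η ≤ MM m * η` by induction for `J'` (`J'.card ≤ m`, `J'` is
disjoint from `A`, the hypotheses for subsets of `J'` are among those for `J`, `2 ^ J'.card + 1 ≤ 𝒬.card`, `x ≠ κ J'`).
(3) `𝒫` is closed; `Φ x 𝒫 = base (J ∪ A) ∪ pie x J A ∪ U`, `U = 𝒫.biUnion fun J' => pie (κ J') J' A`. `del`: the types of `U` contain
`inl (κ J')`, the difference types of `base ∪ pie a J A`, `base ∪ pie a' J A` do not.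
So the distance in question is `𝔡 (Φ a 𝒫) (Φ a' 𝒫) ≤ 2 (2^n - 1) MM m η + 𝔡 (full a (J ∪ A)) ∅ + 𝔡 ∅ (full a' (J ∪ A)) ≤
(2 + 2^(n+1) MM m) η = MM n * η` (`MM (m + 1) = 2 + 2 ^ (m + 2) * MM m`, `n = m + 1`).
-/

set_option autoImplicit false

namespace Pool.Agent.Lib.MP_90b327_co.WW

open Finset MeasureTheory Pool.Agent.Lib.MP_90b327_co Pool.Agent.Lib.MP_90b327_co.RB

theorem mm_nonneg (n : ℕ) : 0 ≤ MM n := by
  induction n with
  | zero => exact zero_le_two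
  | succ n ih =>
    change (0 : ℝ) ≤ 2 + 2 ^ (n + 2) * MM n
    positivity

private theorem LemN_step (n : ℕ) : MM n ≤ MM (n + 1) := by
  change MM n ≤ 2 + 2 ^ (n + 2) * MM n
  have h1 := mm_nonneg n
  have h2 : (1 : ℝ) ≤ 2 ^ (n + 2) := one_le_pow₀ (by norm_num)
  nlinarith

theorem mm_mono {m n : ℕ} (h : m ≤ n) : MM m ≤ MM n :=
  monotone_nat_of_le_succ LemN_step h

theorem mm_two (n : ℕ) : 2 ≤ MM n := mm_mono (Nat.zero_le n)

private theorem LemN_bn {S S' : Finset ℕ} : bn S ⊆ bn S' ↔ S ⊆ S' := by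
  unfold bn
  exact Finset.image_subset_image_iff Sum.inr_injective

private theorem LemN_inl {x : ℕ} {S : Finset ℕ} : (Sum.inl x : Nm) ∉ bn S := by
  unfold bn
  simp

private theorem LemN_base {S : Finset ℕ} {T : Finset Nm} : T ∈ base S ↔ T ≠ ∅ ∧ T ⊆ bn S := by
  unfold base
  rw [mem_erase, mem_powerset]

private theorem LemN_full {x : ℕ} {S : Finset ℕ} {T : Finset Nm} : T ∈ full x S ↔ T ≠ ∅ ∧ T ⊆ insert (Sum.inl x) (bn S) := by
  unfold full
  rw [mem_erase, mem_powerset]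

private theorem LemN_pie {x : ℕ} {J A : Finset ℕ} {T : Finset Nm} :
    T ∈ pie x J A ↔ ∃ A' ⊆ A, insert (Sum.inl x) (bn (J ∪ A')) = T := by
  unfold pie
  rw [mem_image]
  constructor
  · rintro ⟨A', h1, h2⟩
    exact ⟨A', mem_powerset.1 h1, h2⟩
  · rintro ⟨A', h1, h2⟩
    exact ⟨A', mem_powerset.2 h1, h2⟩

private theorem LemN_sub {x y : ℕ} {S S' : Finset ℕ} (h : (insert (Sum.inl x) (bn S) : Finset Nm) ⊆ insert (Sum.inl y) (bn S')) :
    x = y ∧ S ⊆ S' := by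
  constructor
  · have h1 := h (mem_insert_self _ _)
    rcases mem_insert.1 h1 with h2 | h2
    · exact Sum.inl_injective h2
    · exact absurd h2 LemN_inl
  · rw [← LemN_bn]
    intro i hi
    have h1 := h (mem_insert_of_mem hi)
    rcases mem_insert.1 h1 with h2 | h2
    · rw [h2] at hi
      exact absurd hi LemN_inl
    · exact h2

/-- the family with the copy `f J'` in the piece of `J'` -/
private def LemN_Psi (J A : Finset ℕ) (f : Finset ℕ → ℕ) : Finset (Finset Nm) :=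
  base (J ∪ A) ∪ J.powerset.biUnion (fun J' => pie (f J') J' A)

private theorem LemN_full_eq (J A : Finset ℕ) (x : ℕ) : full x (J ∪ A) = LemN_Psi J A (fun _ => x) := by
  ext T
  unfold LemN_Psi
  rw [LemN_full, mem_union, LemN_base, mem_biUnion]
  constructor
  · rintro ⟨h1, h2⟩
    by_cases h3 : (Sum.inl x : Nm) ∈ T
    · right
      set S := (J ∪ A).filter (fun i => (Sum.inr i : Nm) ∈ T) with hS
      have hT : insert (Sum.inl x) (bn S) = T := by
        ext t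
        rw [mem_insert]
        unfold bn
        rw [mem_image]
        constructor
        · rintro (h4 | ⟨i, hi, h4⟩)
          · rw [h4]
            exact h3
          · rw [← h4]
            exact (mem_filter.1 hi).2
        · intro h4
          rcases mem_insert.1 (h2 h4) with h5 | h5
          · exact Or.inl h5
          · right
            unfold bn at h5
            obtain ⟨i, hi, h6⟩ := mem_image.1 h5
            exact ⟨i, mem_filter.2 ⟨hi, by rw [h6]; exact h4⟩, h6⟩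
      refine ⟨S ∩ J, mem_powerset.2 inter_subset_right, ?_⟩
      rw [LemN_pie]
      refine ⟨S ∩ A, inter_subset_right, ?_⟩
      have h4 : S ∩ J ∪ S ∩ A = S := by
        rw [← inter_union_distrib_left]
        exact inter_eq_left.2 (filter_subset _ _)
      rw [h4, hT]
    · left
      refine ⟨h1, ?_⟩
      intro t ht
      rcases mem_insert.1 (h2 ht) with h4 | h4
      · rw [h4] at ht
        exact absurd ht h3
      · exact h4
  · rintro (⟨h1, h2⟩ | ⟨J', h1, h2⟩)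
    · exact ⟨h1, h2.trans (subset_insert _ _)⟩
    · rw [LemN_pie] at h2
      obtain ⟨A', h3, h4⟩ := h2
      rw [← h4]
      refine ⟨insert_ne_empty _ _, insert_subset_insert _ ?_⟩
      rw [LemN_bn]
      exact union_subset_union (mem_powerset.1 h1) h3

private theorem LemN_split (J A : Finset ℕ) (g : Finset ℕ → ℕ) (J' : Finset ℕ) (hJ' : J' ⊆ J) :
    LemN_Psi J A g = (base (J' ∪ A) ∪ pie (g J') J' A) ∪ ((base (J ∪ A) \ base (J' ∪ A)) ∪
      (J.powerset.erase J').biUnion (fun J'' => pie (g J'') J'' A)) := by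
  ext T
  unfold LemN_Psi
  simp only [mem_union, mem_sdiff, mem_biUnion, mem_erase, mem_powerset]
  have hsub : T ∈ base (J' ∪ A) → T ∈ base (J ∪ A) := by
    rw [LemN_base, LemN_base]
    rintro ⟨h1, h2⟩
    exact ⟨h1, h2.trans (LemN_bn.2 (union_subset_union hJ' (Subset.refl _)))⟩
  constructor
  · rintro (h | ⟨J'', h1, h2⟩)
    · by_cases h3 : T ∈ base (J' ∪ A)
      · exact Or.inl (Or.inl h3)
      · exact Or.inr (Or.inl ⟨h, h3⟩)
    · by_cases h3 : J'' = J'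
      · rw [h3] at h2
        exact Or.inl (Or.inr h2)
      · exact Or.inr (Or.inr ⟨J'', ⟨h3, h1⟩, h2⟩)
  · rintro ((h | h) | (⟨h, -⟩ | ⟨J'', ⟨-, h1⟩, h2⟩))
    · exact Or.inl (hsub h)
    · exact Or.inr ⟨J', hJ', h⟩
    · exact Or.inl h
    · exact Or.inr ⟨J'', h1, h2⟩

private theorem LemN_del (𝔡 : Finset (Finset Nm) → Finset (Finset Nm) → ℝ)
    (del : ∀ F F' U : Finset (Finset Nm), (∀ J ∈ U, ∀ J', J ⊆ J' → (J' ∈ F ↔ J' ∈ F')) →
      𝔡 (F ∪ U) (F' ∪ U) = 𝔡 F F')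
    (B P1 P2 U : Finset (Finset Nm)) (hU : ∀ T ∈ U, ∀ T', T ⊆ T' → T' ∉ P1 ∧ T' ∉ P2) :
    𝔡 (B ∪ P1 ∪ U) (B ∪ P2 ∪ U) = 𝔡 (B ∪ P1) (B ∪ P2) := by
  refine del _ _ _ ?_
  intro T hT T' hT'
  obtain ⟨h1, h2⟩ := hU T hT T' hT'
  rw [mem_union, mem_union]
  constructor
  · rintro (h | h)
    · exact Or.inl h
    · exact absurd h h1
  · rintro (h | h)
    · exact Or.inl h
    · exact absurd h h2

private theorem LemN_n1 {J A J' : Finset ℕ} {T T' : Finset Nm} {y : ℕ} (h1 : T ∈ base (J ∪ A)) (h2 : T ∉ base (J' ∪ A))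
    (h3 : T ⊆ T') : T' ∉ pie y J' A := by
  intro h
  rw [LemN_pie] at h
  obtain ⟨A', h4, h5⟩ := h
  rw [LemN_base] at h1 h2
  apply h2
  refine ⟨h1.1, ?_⟩
  intro t ht
  have h6 := h3 ht
  rw [← h5] at h6
  rcases mem_insert.1 h6 with h7 | h7
  · have h8 := h1.2 ht
    rw [h7] at h8
    exact absurd h8 LemN_inl
  · exact (LemN_bn.2 (union_subset_union (Subset.refl _) h4)) h7

private theorem LemN_n2 {A J' J'' : Finset ℕ} {T T' : Finset Nm} {y z : ℕ} (h1 : T ∈ pie z J'' A) (hne : z ≠ y)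
    (h3 : T ⊆ T') : T' ∉ pie y J' A := by
  intro h
  rw [LemN_pie] at h h1
  obtain ⟨A', h4, h5⟩ := h
  obtain ⟨A'', h6, h7⟩ := h1
  rw [← h5, ← h7] at h3
  exact hne (LemN_sub h3).1

private theorem LemN_n3 {J A J' J'' : Finset ℕ} (hJA : Disjoint J A) (hJ'' : J'' ⊆ J) {T T' : Finset Nm} {y z : ℕ}
    (h1 : T ∈ pie z J'' A) (h3 : T ⊆ T') (h : T' ∈ pie y J' A) : J'' ⊆ J' := by
  rw [LemN_pie] at h h1
  obtain ⟨A', h4, h5⟩ := h
  obtain ⟨A'', h6, h7⟩ := h1
  rw [← h5, ← h7] at h3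
  have h8 := (LemN_sub h3).2
  intro i hi
  rcases mem_union.1 (h8 (mem_union_left _ hi)) with h9 | h9
  · exact h9
  · exact absurd (h4 h9) (Finset.disjoint_left.1 hJA (hJ'' hi))

/-- the second step -/
private theorem LemN_two (𝔡 : Finset (Finset Nm) → Finset (Finset Nm) → ℝ)
    (ht : ∀ F F' F'', 𝔡 F F'' ≤ 𝔡 F F' + 𝔡 F' F'')
    (del : ∀ F F' U : Finset (Finset Nm), (∀ J ∈ U, ∀ J', J ⊆ J' → (J' ∈ F ↔ J' ∈ F')) →
      𝔡 (F ∪ U) (F' ∪ U) = 𝔡 F F')
    (J A : Finset ℕ) (hJA : Disjoint J A) (κ : Finset ℕ → ℕ) (x : ℕ) (W : ℝ)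
    (hinj : ∀ J' ∈ J.powerset.erase J, ∀ J'' ∈ J.powerset.erase J, κ J' = κ J'' → J' = J'')
    (hx : ∀ J' ∈ J.powerset.erase J, x ≠ κ J')
    (hW : ∀ J' ∈ J.powerset.erase J, 𝔡 (base (J' ∪ A) ∪ pie x J' A) (base (J' ∪ A) ∪ pie (κ J') J' A) ≤ W)
    (n : ℕ) : ∀ 𝒟 : Finset (Finset ℕ), 𝒟.card = n + 1 → 𝒟 ⊆ J.powerset.erase J →
    (∀ J' ∈ 𝒟, ∀ J'' ⊆ J', J'' ∈ 𝒟) →
    𝔡 (full x (J ∪ A)) (LemN_Psi J A (fun J' => if J' ∈ 𝒟 then κ J' else x)) ≤ ((n : ℝ) + 1) * W := by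
  have main : ∀ 𝒟 : Finset (Finset ℕ), 𝒟.Nonempty → 𝒟 ⊆ J.powerset.erase J → (∀ J' ∈ 𝒟, ∀ J'' ⊆ J', J'' ∈ 𝒟) →
      ∃ J' ∈ 𝒟, (∀ K ∈ 𝒟.erase J', ∀ K' ⊆ K, K' ∈ 𝒟.erase J') ∧
      𝔡 (LemN_Psi J A (fun K => if K ∈ 𝒟.erase J' then κ K else x)) (LemN_Psi J A (fun K => if K ∈ 𝒟 then κ K else x)) ≤ W := by
    intro 𝒟 hne hsub hcl
    obtain ⟨J', hJ', hmax⟩ := Finset.exists_max_image 𝒟 Finset.card hne
    have hJP := hsub hJ'
    have hJJ : J' ⊆ J := mem_powerset.1 (mem_of_mem_erase hJP)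
    refine ⟨J', hJ', ?_, ?_⟩
    · intro K hK K' hK'
      rw [mem_erase] at hK ⊢
      refine ⟨?_, hcl K hK.2 K' hK'⟩
      intro he
      rw [he] at hK'
      exact hK.1 (eq_of_subset_of_card_le hK' (hmax K hK.2)).symm
    · have h2 : 𝔡 (LemN_Psi J A (fun K => if K ∈ 𝒟.erase J' then κ K else x)) (LemN_Psi J A (fun K => if K ∈ 𝒟 then κ K else x)) =
          𝔡 (base (J' ∪ A) ∪ pie x J' A) (base (J' ∪ A) ∪ pie (κ J') J' A) := by
        rw [LemN_split J A _ J' hJJ, LemN_split J A (fun K => if K ∈ 𝒟 then κ K else x) J' hJJ]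
        have e1 : (if J' ∈ 𝒟.erase J' then κ J' else x) = x := by simp
        have e2 : (if J' ∈ 𝒟 then κ J' else x) = κ J' := by simp [hJ']
        have e3 : (J.powerset.erase J').biUnion (fun J'' => pie (if J'' ∈ 𝒟.erase J' then κ J'' else x) J'' A) =
            (J.powerset.erase J').biUnion (fun J'' => pie (if J'' ∈ 𝒟 then κ J'' else x) J'' A) := by
          apply Finset.biUnion_congr rfl
          intro K hK
          have h3 : K ≠ J' := (mem_erase.1 hK).1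
          have h4 : (K ∈ 𝒟.erase J') ↔ K ∈ 𝒟 := by
            rw [mem_erase]
            exact ⟨fun h => h.2, fun h => ⟨h3, h⟩⟩
          simp only [h4]
        rw [e1, e2, e3]
        apply LemN_del 𝔡 del
        intro T hT T' hT'
        rw [mem_union] at hT
        rcases hT with hT | hT
        · rw [mem_sdiff] at hT
          exact ⟨LemN_n1 hT.1 hT.2 hT', LemN_n1 hT.1 hT.2 hT'⟩
        · rw [mem_biUnion] at hT
          obtain ⟨K, hK, hT⟩ := hT
          rw [mem_erase, mem_powerset] at hK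
          by_cases hKD : K ∈ 𝒟
          · rw [if_pos hKD] at hT
            have hKP := hsub hKD
            refine ⟨LemN_n2 hT (fun h => hx K hKP h.symm) hT', LemN_n2 hT (fun h => hK.1 (hinj K hKP J' hJP h)) hT'⟩
          · rw [if_neg hKD] at hT
            refine ⟨?_, LemN_n2 hT (hx J' hJP) hT'⟩
            intro h
            exact hKD (hcl J' hJ' K (LemN_n3 hJA hK.2 hT hT' h))
      rw [h2]
      exact hW J' hJP
  induction n with
  | zero =>
    intro 𝒟 hcard hsub hcl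
    have hne : 𝒟.Nonempty := by
      rw [← Finset.card_pos]
      omega
    obtain ⟨J', hJ', -, h2⟩ := main 𝒟 hne hsub hcl
    have h3 : 𝒟.erase J' = ∅ := by
      rw [← Finset.card_eq_zero, card_erase_of_mem hJ', hcard]
    rw [h3] at h2
    rw [LemN_full_eq]
    simpa using h2
  | succ n ih =>
    intro 𝒟 hcard hsub hcl
    have hne : 𝒟.Nonempty := by
      rw [← Finset.card_pos]
      omega
    obtain ⟨J', hJ', hcl', h2⟩ := main 𝒟 hne hsub hcl
    have h1 := ih (𝒟.erase J') (by rw [card_erase_of_mem hJ', hcard]; rfl) ((erase_subset _ _).trans hsub) hcl'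
    have h3 := ht (full x (J ∪ A)) (LemN_Psi J A (fun K => if K ∈ 𝒟.erase J' then κ K else x))
      (LemN_Psi J A (fun K => if K ∈ 𝒟 then κ K else x))
    push_cast
    linarith

private theorem LemN_kappa (PP : Finset (Finset ℕ)) (R : Finset ℕ) (h : PP.card ≤ R.card) : ∃ κ : Finset ℕ → ℕ,
    (∀ J' ∈ PP, κ J' ∈ R) ∧ ∀ J' ∈ PP, ∀ J'' ∈ PP, κ J' = κ J'' → J' = J'' := by
  classical
  have h1 : Fintype.card PP ≤ Fintype.card R := by
    rw [Fintype.card_coe, Fintype.card_coe]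
    exact h
  obtain ⟨e⟩ := Function.Embedding.nonempty_of_card_le h1
  refine ⟨fun J' => if hJ : J' ∈ PP then (e ⟨J', hJ⟩ : ℕ) else 0, ?_, ?_⟩
  · intro J' hJ'
    simp only [hJ', dif_pos]
    exact (e ⟨J', hJ'⟩).2
  · intro J' hJ' J'' hJ'' he
    simp only [hJ', hJ'', dif_pos] at he
    have h2 := e.injective (Subtype.ext he)
    exact congrArg Subtype.val h2

private theorem LemN_aux (𝔡 : Finset (Finset Nm) → Finset (Finset Nm) → ℝ)
    (hs : ∀ F F', 𝔡 F F' = 𝔡 F' F) (ht : ∀ F F' F'', 𝔡 F F'' ≤ 𝔡 F F' + 𝔡 F' F'')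
    (del : ∀ F F' U : Finset (Finset Nm), (∀ J ∈ U, ∀ J', J ⊆ J' → (J' ∈ F ↔ J' ∈ F')) →
      𝔡 (F ∪ U) (F' ∪ U) = 𝔡 F F')
    (𝒬 : Finset ℕ) (η : ℝ) (hη : 0 ≤ η) (A : Finset ℕ) (n : ℕ) :
    ∀ J : Finset ℕ, J.card = n → Disjoint J A → 2 ^ n + 1 ≤ 𝒬.card →
    (∀ a ∈ 𝒬, ∀ J' ⊆ J, 𝔡 ∅ (full a (J' ∪ A)) ≤ η) → ∀ a a' : ℕ, a ∈ 𝒬 → a' ∈ 𝒬 → a ≠ a' →
    𝔡 (base (J ∪ A) ∪ pie a J A) (base (J ∪ A) ∪ pie a' J A) ≤ MM n * η := by
  induction n using Nat.strong_induction_on with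
  | _ n IH =>
    intro J hJ hJA hQ h a a' ha ha' hne
    have hfull : 𝔡 (full a (J ∪ A)) ∅ ≤ η := by
      rw [hs]
      exact h a ha J (Subset.refl _)
    have hfull' := h a' ha' J (Subset.refl _)
    rcases Nat.eq_zero_or_pos n with hn | hn
    · have hJe : J = ∅ := by
        rw [← Finset.card_eq_zero, hJ, hn]
      have key : ∀ x, base (J ∪ A) ∪ pie x J A = full x (J ∪ A) := by
        intro x
        rw [LemN_full_eq]
        unfold LemN_Psi
        rw [hJe]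
        simp
      rw [key, key, hn]
      have h1 := ht (full a (J ∪ A)) ∅ (full a' (J ∪ A))
      have h2 : MM 0 = 2 := rfl
      rw [h2]
      linarith
    · obtain ⟨m, rfl⟩ : ∃ m, n = m + 1 := ⟨n - 1, by omega⟩
      set PP := J.powerset.erase J with hPP
      have hPc : PP.card = 2 ^ (m + 1) - 1 := by
        rw [hPP, card_erase_of_mem (mem_powerset_self J), card_powerset, hJ]
      have h2m : 1 ≤ 2 ^ (m + 1) := Nat.one_le_two_pow
      obtain ⟨κ, hκ1, hκ2⟩ := LemN_kappa PP ((𝒬.erase a).erase a') (by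
        rw [card_erase_of_mem (mem_erase.2 ⟨hne.symm, ha'⟩), card_erase_of_mem ha, hPc]
        omega)
      have hJPP : J ∉ PP := fun h1 => (mem_erase.1 h1).1 rfl
      have hsubJ : ∀ J' ∈ PP, J' ⊆ J := fun J' h1 => mem_powerset.1 (mem_of_mem_erase h1)
      have hcardJ : ∀ J' ∈ PP, J'.card < m + 1 := by
        intro J' h1
        rw [← hJ]
        exact card_lt_card (Finset.ssubset_iff_subset_ne.2 ⟨hsubJ J' h1, (mem_erase.1 h1).1⟩)
      have hκQ : ∀ J' ∈ PP, κ J' ∈ 𝒬 := fun J' h1 => mem_of_mem_erase (mem_of_mem_erase (hκ1 J' h1))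
      have hκa : ∀ J' ∈ PP, a ≠ κ J' := fun J' h1 => ((mem_erase.1 (mem_of_mem_erase (hκ1 J' h1))).1).symm
      have hκa' : ∀ J' ∈ PP, a' ≠ κ J' := fun J' h1 => ((mem_erase.1 (hκ1 J' h1)).1).symm
      have hstep : ∀ x ∈ 𝒬, (∀ J' ∈ PP, x ≠ κ J') →
          𝔡 (full x (J ∪ A)) (LemN_Psi J A (fun J' => if J' ∈ PP then κ J' else x)) ≤ ((2 : ℝ) ^ (m + 1) - 1) * (MM m * η) := by
        intro x hx hxκ
        have h3 := LemN_two 𝔡 ht del J A hJA κ x (MM m * η) hκ2 hxκ (by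
          intro J' hJ'
          have h4 := hcardJ J' hJ'
          have h5 := IH J'.card h4 J' rfl (Finset.disjoint_of_subset_left (hsubJ J' hJ') hJA) (by
            have h6 : 2 ^ J'.card ≤ 2 ^ (m + 1) := Nat.pow_le_pow_right (by norm_num) h4.le
            omega) (fun b hb K hK => h b hb K (hK.trans (hsubJ J' hJ'))) x (κ J') hx (hκQ J' hJ') (hxκ J' hJ')
          exact h5.trans (mul_le_mul_of_nonneg_right (mm_mono (by omega)) hη)) (2 ^ (m + 1) - 2) PP (by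
            rw [hPc]
            have h6 : 2 ≤ 2 ^ (m + 1) := by
              calc 2 = 2 ^ 1 := by norm_num
                _ ≤ 2 ^ (m + 1) := Nat.pow_le_pow_right (by norm_num) (by omega)
            omega) (Subset.refl _) (by
            intro J' hJ' J'' hJ''
            rw [hPP, mem_erase, mem_powerset]
            refine ⟨?_, hJ''.trans (hsubJ J' hJ')⟩
            intro he
            rw [he] at hJ''
            exact (mem_erase.1 hJ').1 (Subset.antisymm (hsubJ J' hJ') hJ''))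
        refine h3.trans (le_of_eq ?_)
        have h6 : 2 ≤ 2 ^ (m + 1) := by
          calc 2 = 2 ^ 1 := by norm_num
            _ ≤ 2 ^ (m + 1) := Nat.pow_le_pow_right (by norm_num) (by omega)
        rw [Nat.cast_sub h6]
        push_cast
        ring
      have hdel : 𝔡 (LemN_Psi J A (fun J' => if J' ∈ PP then κ J' else a)) (LemN_Psi J A (fun J' => if J' ∈ PP then κ J' else a')) =
          𝔡 (base (J ∪ A) ∪ pie a J A) (base (J ∪ A) ∪ pie a' J A) := by
        rw [LemN_split J A _ J (Subset.refl _), LemN_split J A (fun J' => if J' ∈ PP then κ J' else a') J (Subset.refl _)]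
        have e1 : ∀ x : ℕ, (if J ∈ PP then κ J else x) = x := fun x => if_neg hJPP
        have e3 : ∀ x : ℕ, (J.powerset.erase J).biUnion (fun J'' => pie (if J'' ∈ PP then κ J'' else x) J'' A) =
            PP.biUnion (fun J'' => pie (κ J'') J'' A) := by
          intro x
          apply Finset.biUnion_congr rfl
          intro K hK
          rw [if_pos hK]
        rw [e1, e1, e3, e3]
        apply LemN_del 𝔡 del
        intro T hT T' hT'
        rw [mem_union] at hT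
        rcases hT with hT | hT
        · rw [mem_sdiff] at hT
          exact absurd hT.1 hT.2
        · rw [mem_biUnion] at hT
          obtain ⟨K, hK, hT⟩ := hT
          exact ⟨LemN_n2 hT (fun h1 => hκa K hK h1.symm) hT', LemN_n2 hT (fun h1 => hκa' K hK h1.symm) hT'⟩
      rw [← hdel]
      have s1 := hstep a ha hκa
      have s2 := hstep a' ha' hκa'
      rw [hs] at s1
      have t1 := ht (LemN_Psi J A (fun J' => if J' ∈ PP then κ J' else a)) (full a (J ∪ A)) (LemN_Psi J A (fun J' => if J' ∈ PP then κ J' else a'))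
      have t2 := ht (full a (J ∪ A)) ∅ (LemN_Psi J A (fun J' => if J' ∈ PP then κ J' else a'))
      have t3 := ht ∅ (full a' (J ∪ A)) (LemN_Psi J A (fun J' => if J' ∈ PP then κ J' else a'))
      have hMM : MM (m + 1) = 2 + 2 ^ (m + 2) * MM m := rfl
      have hmn := mm_nonneg m
      have hMη : 0 ≤ MM m * η := mul_nonneg hmn hη
      have hfin : 2 * (((2 : ℝ) ^ (m + 1) - 1) * (MM m * η)) + 2 * η ≤ MM (m + 1) * η := by
        rw [hMM, pow_succ 2 (m + 1)]
        have : (2 + 2 ^ (m + 1) * 2 * MM m) * η = 2 * (((2 : ℝ) ^ (m + 1) - 1) * (MM m * η)) + 2 * η + 2 * (MM m * η) := by ring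
        rw [this]
        linarith
      linarith

theorem lem_n (𝔡 : Finset (Finset Nm) → Finset (Finset Nm) → ℝ)
    (hs : ∀ F F', 𝔡 F F' = 𝔡 F' F) (ht : ∀ F F' F'', 𝔡 F F'' ≤ 𝔡 F F' + 𝔡 F' F'')
    (h0 : ∀ F F', 0 ≤ 𝔡 F F')
    (del : ∀ F F' U : Finset (Finset Nm), (∀ J ∈ U, ∀ J', J ⊆ J' → (J' ∈ F ↔ J' ∈ F')) →
      𝔡 (F ∪ U) (F' ∪ U) = 𝔡 F F')
    (𝒬 : Finset ℕ) (η : ℝ) (hη : 0 ≤ η) (J A : Finset ℕ) (hJA : Disjoint J A)
    (hQ : 2 ^ J.card + 1 ≤ 𝒬.card)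
    (h : ∀ a ∈ 𝒬, ∀ J' ⊆ J, 𝔡 ∅ (full a (J' ∪ A)) ≤ η)
    (a a' : ℕ) (ha : a ∈ 𝒬) (ha' : a' ∈ 𝒬) (hne : a ≠ a') :
    𝔡 (base (J ∪ A) ∪ pie a J A) (base (J ∪ A) ∪ pie a' J A) ≤ MM J.card * η :=
  LemN_aux 𝔡 hs ht del 𝒬 η hη A J.card J rfl hJA hQ h a a' ha ha' hne

end Pool.Agent.Lib.MP_90b327_co.WW
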