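import Mathlib
import Pool.Agent.Lib.MP_90b327_co.WW.WDefs

/-!
MODULE CkUnion (15 minutes, old scale). Common cells which are not below a difference cell may be added.

PROOF of `ck_union`: induction on `u` (`Finset.induction_on`, for all `x`, `y` or with the statement for `x ∪ u`).
`x ∪ insert c u = insert c (x ∪ u)`. By hypothesis `∀ c', Bel c c' → (c' ∈ x ∪ u ↔ c' ∈ y ∪ u)`. `Bel c c` holds (take
`j = i`), so `c ∈ x ∪ u ↔ c ∈ y ∪ u`. If `c` is in both, `Finset.insert_eq_of_mem`; otherwise `hk.rem`.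
`dst_union`: `dst` is a function of the value of `k`.
-/

set_option autoImplicit false

namespace Pool.Agent.Lib.MP_90b327_co.WW

open Finset MeasureTheory Pool.Agent.Lib.MP_90b327_co Pool.Agent.Lib.MP_90b327_co.RB

theorem ck_union {D : ℕ} {k : Co D → Co D → ℂ} (hk : CK k) (x y u : Co D)
    (h : ∀ c ∈ u, ∀ c', Bel c c' → (c' ∈ x ↔ c' ∈ y)) : k (x ∪ u) (y ∪ u) = k x y := by
  classical
  induction u using Finset.induction_on with
  | empty => rw [union_empty, union_empty]
  | insert c u hc ih =>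
    have ih' := ih fun d hd => h d (mem_insert_of_mem hd)
    rw [union_insert, union_insert]
    have hB : Bel c c := fun i => ⟨i, rfl⟩
    have h1 : ∀ c', Bel c c' → (c' ∈ x ∪ u ↔ c' ∈ y ∪ u) := by
      intro c' hc'
      rw [mem_union, mem_union, h c (mem_insert_self _ _) c' hc']
    by_cases hx : c ∈ x ∪ u
    · have hy := (h1 c hB).1 hx
      rw [insert_eq_of_mem hx, insert_eq_of_mem hy, ih']
    · have hy : c ∉ y ∪ u := fun h2 => hx ((h1 c hB).2 h2)
      rw [hk.rem _ _ c hx hy h1, ih']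

theorem dst_union {D : ℕ} {k : Co D → Co D → ℂ} (hk : CK k) (x y u : Co D)
    (h : ∀ c ∈ u, ∀ c', Bel c c' → (c' ∈ x ↔ c' ∈ y)) : dst k (x ∪ u) (y ∪ u) = dst k x y := by
  unfold dst
  rw [ck_union hk x y u h]

end Pool.Agent.Lib.MP_90b327_co.WW
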