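import Mathlib
import Pool.Agent.Lib.MP_90b327_co.WW.WDefs
import Pool.Agent.Lib.MP_90b327_co.WW.TypesA
import Pool.Agent.Lib.MP_90b327_co.WW.CkUnion

/-!
MODULE TypesB (20 minutes, old scale). Removal of common types.

PROOF of `xf_del`. `xf_union`, then `ck_union hk (XF β F) (XF β F') (XF β U)`: let `c ∈ XF β U`, so `c ∈ pc β J`, `J ∈ U`, and
`Bel c c'`. If `c' ∈ XF β F`, so `c' ∈ pc β J'`, `J' ∈ F`: for `i ∈ J` the cell `c` has an entry in `β i`, so (`Bel`) `c'` has an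
entry in `β i`; this entry is also in some `β i'`, `i' ∈ J'`, so `i = i'` by disjointness. So `J ⊆ J'`, and `h` gives
`J' ∈ F'`, so `c' ∈ XF β F'`. The other direction is the same. (`pc_mem` of module TypesA.)
-/

set_option autoImplicit false

namespace Pool.Agent.Lib.MP_90b327_co.WW

open Finset MeasureTheory Pool.Agent.Lib.MP_90b327_co Pool.Agent.Lib.MP_90b327_co.RB

theorem xf_del {D : ℕ} {k : Co D → Co D → ℂ} (hk : CK k) (β : Nm → Finset ℕ)
    (hd : ∀ i i', i ≠ i' → Disjoint (β i) (β i')) (F F' U : Finset (Finset Nm))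
    (h : ∀ J ∈ U, ∀ J', J ⊆ J' → (J' ∈ F ↔ J' ∈ F')) :
    k (XF β (F ∪ U)) (XF β (F' ∪ U)) = k (XF β F) (XF β F') := by
  rw [xf_union, xf_union]
  refine ck_union hk _ _ _ ?_
  intro c hc c' hb
  unfold XF at hc
  rw [Finset.mem_biUnion] at hc
  obtain ⟨J, hJU, hcJ⟩ := hc
  rw [pc_mem] at hcJ
  have hsub : ∀ J', c' ∈ (pc β J' : Co D) → J ⊆ J' := by
    intro J' hJ' i hi
    rw [pc_mem] at hJ'
    obtain ⟨j, hj⟩ := hcJ.2 i hi
    obtain ⟨j', hj'⟩ := hb j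
    rw [hj'] at hj
    obtain ⟨i', hi', hi''⟩ := hJ'.1 j'
    by_cases hii : i = i'
    · rw [hii]
      exact hi'
    · exact absurd hi'' (Finset.disjoint_left.mp (hd i i' hii) hj)
  unfold XF
  rw [Finset.mem_biUnion, Finset.mem_biUnion]
  constructor
  · rintro ⟨J', hJ', hc'⟩
    exact ⟨J', (h J hJU J' (hsub J' hc')).mp hJ', hc'⟩
  · rintro ⟨J', hJ', hc'⟩
    exact ⟨J', (h J hJU J' (hsub J' hc')).mpr hJ', hc'⟩

theorem xf_deld {D : ℕ} {k : Co D → Co D → ℂ} (hk : CK k) (β : Nm → Finset ℕ)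
    (hd : ∀ i i', i ≠ i' → Disjoint (β i) (β i')) (F F' U : Finset (Finset Nm))
    (h : ∀ J ∈ U, ∀ J', J ⊆ J' → (J' ∈ F ↔ J' ∈ F')) :
    dst k (XF β (F ∪ U)) (XF β (F' ∪ U)) = dst k (XF β F) (XF β F') := by
  unfold dst
  rw [xf_del hk β hd F F' U h]

end Pool.Agent.Lib.MP_90b327_co.WW
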