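import Mathlib
import Pool.Agent.Lib.MP_90b327_co.WW.WDefs
import Pool.Agent.Lib.MP_90b327_co.WW.LemN
import Pool.Agent.Lib.MP_90b327_co.WW.TypesA
import Pool.Agent.Lib.MP_90b327_co.WW.TypesB
import Pool.Agent.Lib.MP_90b327_co.WW.CkDist
import Pool.Agent.Lib.MP_90b327_co.WW.RnEq

/-!
MODULE Near (25 minutes, old scale). Lemma N in the configuration.

PROOF. `lem_n` (module LemN) with `𝔡 F F' := dst k (XF (bl c b s) F) (XF (bl c b s) F')`, `𝒬 := range Q`, `η := η r`. Symmetry, triangle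
inequality: module CkDist. `del`: `xf_deld` (module TypesB) with `bl_disj`. `2 ^ J.card + 1 ≤ Q`: `J ⊆ range D` (as `J ∪ A ⊆ range D`), so
`J.card ≤ D`, and `hc.hQ`. The hypothesis `h`: `XF β (full a I) = pw D ((insert (inl a) (bn I)).biUnion β)` (`xf_pow`) and
`(insert (inl a) (bn I)).biUnion (bl c b s) = CC c a (s a) ∪ I.biUnion b`; `XF β ∅ = ∅`; so `hc.crit a (s a) I` gives
`≤ η (stg (s a) I) = η r` for `I = J' ∪ A` (`hst`). Finally `MM J.card ≤ MM D`.
-/

set_option autoImplicit false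

namespace Pool.Agent.Lib.MP_90b327_co.WW

open Finset MeasureTheory Pool.Agent.Lib.MP_90b327_co Pool.Agent.Lib.MP_90b327_co.RB

theorem near {D : ℕ} (hD : 1 ≤ D) {k : Co D → Co D → ℂ} (hk : CK k) {Q : ℕ} {c : ℕ → ℕ → Finset ℕ}
    {b V : ℕ → Finset ℕ} {η : ℕ → ℝ} (hc : Cfg k Q c b V η) (s : ℕ → ℕ) (hs : ∀ a, a < Q → s a ≤ D)
    (J A : Finset ℕ) (hJA : Disjoint J A) (hJ : J ∪ A ⊆ range D) (r : ℕ)
    (hst : ∀ a, a < Q → ∀ J' ⊆ J, stg (s a) (J' ∪ A) = r) (a a' : ℕ) (ha : a < Q) (ha' : a' < Q)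
    (hne : a ≠ a') :
    dst k (XF (bl c b s) (base (J ∪ A) ∪ pie a J A)) (XF (bl c b s) (base (J ∪ A) ∪ pie a' J A)) ≤
      MM D * η r := by
  have hJD : J ⊆ range D := (Finset.subset_union_left).trans hJ
  have hcard : J.card ≤ D := by
    have h1 := Finset.card_le_card hJD
    rwa [Finset.card_range] at h1
  have hpow : 2 ^ J.card + 1 ≤ (range Q).card := by
    rw [Finset.card_range]
    have h1 : 2 ^ J.card ≤ 2 ^ D := Nat.pow_le_pow_right (by norm_num) hcard
    have h2 := hc.hQ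
    omega
  have hfull : ∀ x ∈ range Q, ∀ J' ⊆ J,
      dst k (XF (bl c b s) ∅) (XF (bl c b s) (full x (J' ∪ A))) ≤ η r := by
    intro x hx J' hJ'
    have hx' : x < Q := Finset.mem_range.mp hx
    have h1 : (XF (bl c b s) (full x (J' ∪ A)) : Co D) =
        pw D (CC c x (s x) ∪ (J' ∪ A).biUnion b) := by
      rw [full, xf_pow hD, Finset.biUnion_insert, bn, Finset.image_biUnion]
      rfl
    have h0 : (XF (bl c b s) ∅ : Co D) = ∅ := by
      rw [XF, Finset.biUnion_empty]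
    rw [h1, h0]
    have h2 : J' ∪ A ⊆ range D := (Finset.union_subset_union_left hJ').trans hJ
    have h3 := hc.crit x (s x) (J' ∪ A) hx' (hs x hx') h2
    rwa [hst x hx' J' hJ'] at h3
  have key := lem_n (fun F F' => dst k (XF (bl c b s) F) (XF (bl c b s) F'))
    (fun F F' => dst_symm hk _ _) (fun F F' F'' => dst_tri hk _ _ _) (fun F F' => dst_nonneg k _ _)
    (fun F F' U h => xf_deld hk (bl c b s) (fun i i' h => bl_disj hc s i i' h) F F' U h)
    (range Q) (η r) (hc.nonneg r) J A hJA hpow hfull a a' (Finset.mem_range.mpr ha)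
    (Finset.mem_range.mpr ha') hne
  exact key.trans (mul_le_mul_of_nonneg_right (mm_mono hcard) (hc.nonneg r))

end Pool.Agent.Lib.MP_90b327_co.WW
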