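import Mathlib
import Pool.Agent.Lib.MP_90b327_co.WW.WDefs
import Pool.Agent.Lib.MP_90b327_co.WW.Near
import Pool.Agent.Lib.MP_90b327_co.WW.RnEq
import Pool.Agent.Lib.MP_90b327_co.WW.TypesA
import Pool.Agent.Lib.MP_90b327_co.WW.TypesB
import Pool.Agent.Lib.MP_90b327_co.WW.CkDist

/-!
MODULE StepA (35 minutes, old scale). `Rn` does not depend on the first copy.

PROOF. `J = range m`, `w = m`, `J ∪ {m} = range (m + 1)`. Levels `s`: `s x0 = t0`, `s x1 = t1`, `s x2 = t2`, `0` elsewhere; all `≤ m + 1`.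
`β = bl c b s`, `B = base (range (m + 1))`, `P x = insert (inl x) (bn (range m))`, `Pw x = insert (inl x) (bn (range (m + 1)))`.
`f0 = XF β (B ∪ {P x0, Pw x0})`, `f1 = XF β (B ∪ {P x1, Pw x0})`, `f2 = XF β (B ∪ {P x1, Pw x2})`, `f3 = XF β (B ∪ {P x2, Pw x2})`.
(1) `k f0 f1 = Rn k c b (range m) x0 t0 x1 t1`: `xf_del` with `U = (B \ base (range m)) ∪ {Pw x0}`: the types of `U` contain `inr m`, the difference
types `P x0`, `P x1` do not; `rn_eq`. (2) `k f3 f2 = Rn k c b (range m) x2 t2 x1 t1`: the same with `U = (B \ base (range m)) ∪ {Pw x2}`.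
(3) `k f1 f2 = Rn k c b (range (m + 1)) x0 t0 x2 t2 = 1` (`hcl`): `xf_del` with `U = {P x1}` (`P x1` contains `inl x1`, the difference types `Pw x0`,
`Pw x2` do not). So `k f1 z = k f2 z` for all `z` (`ck_eq_of_one`) and `k z f1 = k z f2` (hermitian).
(4) `dst k f0 f3 ≤ MM D * η (2 m + 2)`: `near` with `J = range m`, `A = {m}`, `r = 2 m + 2`: `pie x J A = {P x, Pw x}`; `stg (s a) (J' ∪ {m}) = 2 m + 2` because
`2 (s a) - 1 ≤ 2 m + 1`.
So `‖Rn .. x0 t0 x1 t1 - Rn .. x2 t2 x1 t1‖ = ‖k f0 f1 - k f3 f2‖ = ‖k f0 f2 - k f3 f2‖ ≤ dst k f0 f3 ≤ MM D * η (2 m + 2)` (`ck_lip`), and `rn_ex` with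
`r = 2 m + 2` gives equality (`stg t (range m) < 2 m + 2` for `t ≤ m + 1`; `2 m + 2 ≤ 2 D`).
-/

set_option autoImplicit false

namespace Pool.Agent.Lib.MP_90b327_co.WW

open Finset MeasureTheory Pool.Agent.Lib.MP_90b327_co Pool.Agent.Lib.MP_90b327_co.RB

/-- the types `P x` of the text -/
private def Pt (m x : ℕ) : Finset Nm := insert (Sum.inl x) (bn (range m))

private theorem inr_mem_bn {J : Finset ℕ} {i : ℕ} : (Sum.inr i : Nm) ∈ bn J ↔ i ∈ J := by
  unfold bn
  rw [Finset.mem_image]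
  constructor
  · rintro ⟨j, hj, h⟩
    rwa [← Sum.inr_injective h]
  · intro h
    exact ⟨i, h, rfl⟩

private theorem inl_not_mem_bn {J : Finset ℕ} {i : ℕ} : (Sum.inl i : Nm) ∉ bn J := by
  unfold bn
  rw [Finset.mem_image]
  rintro ⟨j, hj, h⟩
  cases h

private theorem mem_base' {J : Finset ℕ} {T : Finset Nm} : T ∈ base J ↔ T ≠ ∅ ∧ T ⊆ bn J := by
  unfold base
  rw [Finset.mem_erase, Finset.mem_powerset]

private theorem bn_succ (m : ℕ) : bn (range (m + 1)) = insert (Sum.inr m) (bn (range m)) := by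
  unfold bn
  rw [Finset.range_add_one, Finset.image_insert]

private theorem inr_of_not {m : ℕ} {T : Finset Nm} (h : T ⊆ bn (range (m + 1)))
    (h' : ¬ T ⊆ bn (range m)) : (Sum.inr m : Nm) ∈ T := by
  by_contra hc
  apply h'
  intro x hx
  have hx' := h hx
  rw [bn_succ, Finset.mem_insert] at hx'
  rcases hx' with rfl | hx'
  · exact absurd hx hc
  · exact hx'

private theorem base_sub (m : ℕ) : base (range m) ⊆ base (range (m + 1)) := by
  intro T hT
  rw [mem_base'] at hT ⊢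
  refine ⟨hT.1, hT.2.trans ?_⟩
  rw [bn_succ]
  exact Finset.subset_insert _ _

private theorem sup_range_le (m : ℕ) (J : Finset ℕ) (hJ : J ⊆ range m) :
    J.sup (fun i => 2 * i + 2) ≤ 2 * m := by
  refine Finset.sup_le fun i hi => ?_
  have h := Finset.mem_range.mp (hJ hi)
  show 2 * i + 2 ≤ 2 * m
  omega

theorem step_a {D : ℕ} (hD : 1 ≤ D) {k : Co D → Co D → ℂ} (hk : CK k) {Q : ℕ} {c : ℕ → ℕ → Finset ℕ}
    {b V : ℕ → Finset ℕ} {η : ℕ → ℝ} (hc : Cfg k Q c b V η) (m : ℕ) (hm : m + 1 < D)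
    (hcl : ∀ a t a' t', a < Q → a' < Q → a ≠ a' → t ≤ m + 1 → t' ≤ m + 1 →
      Rn k c b (range (m + 1)) a t a' t' = 1)
    (x0 x1 x2 t0 t1 t2 : ℕ) (h0 : x0 < Q) (h1 : x1 < Q) (h2 : x2 < Q) (h01 : x0 ≠ x1) (h02 : x0 ≠ x2)
    (h12 : x1 ≠ x2) (ht0 : t0 ≤ m + 1) (ht1 : t1 ≤ m + 1) (ht2 : t2 ≤ m + 1) :
    Rn k c b (range m) x0 t0 x1 t1 = Rn k c b (range m) x2 t2 x1 t1 := by
  set s : ℕ → ℕ := fun x => if x = x0 then t0 else if x = x1 then t1 else if x = x2 then t2 else 0
    with hs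
  have hs0 : s x0 = t0 := by simp [hs]
  have hs1 : s x1 = t1 := by simp [hs, h01.symm]
  have hs2 : s x2 = t2 := by simp [hs, h02.symm, h12.symm]
  have hsle : ∀ x, s x ≤ m + 1 := by
    intro x
    simp only [hs]
    split_ifs <;> omega
  have hd : ∀ i i' : Nm, i ≠ i' → Disjoint (bl c b s i) (bl c b s i') :=
    fun i i' h => bl_disj hc s i i' h
  -- removal of the types which contain `inr m`
  have hdel1 : ∀ x x' y : ℕ,
      k (XF (bl c b s) (base (range (m + 1)) ∪ {Pt m x, Pt (m + 1) y}))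
        (XF (bl c b s) (base (range (m + 1)) ∪ {Pt m x', Pt (m + 1) y})) =
      k (XF (bl c b s) (base (range m) ∪ {Pt m x})) (XF (bl c b s) (base (range m) ∪ {Pt m x'})) := by
    intro x x' y
    have hU : ∀ J ∈ (base (range (m + 1)) \ base (range m)) ∪ {Pt (m + 1) y},
        (Sum.inr m : Nm) ∈ J := by
      intro J hJ
      rw [Finset.mem_union, Finset.mem_sdiff, Finset.mem_singleton] at hJ
      rcases hJ with ⟨h3, h4⟩ | rfl
      · rw [mem_base'] at h3 h4
        exact inr_of_not h3.2 fun h5 => h4 ⟨h3.1, h5⟩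
      · unfold Pt
        rw [Finset.mem_insert]
        right
        rw [inr_mem_bn]
        exact Finset.mem_range.mpr (Nat.lt_succ_self m)
    have hF : ∀ z : ℕ, ∀ J ∈ base (range m) ∪ {Pt m z}, (Sum.inr m : Nm) ∉ J := by
      intro z J hJ h3
      rw [Finset.mem_union, Finset.mem_singleton] at hJ
      rcases hJ with h4 | rfl
      · rw [mem_base'] at h4
        have h5 := h4.2 h3
        rw [inr_mem_bn, Finset.mem_range] at h5
        omega
      · unfold Pt at h3
        rw [Finset.mem_insert] at h3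
        rcases h3 with h3 | h3
        · cases h3
        · rw [inr_mem_bn, Finset.mem_range] at h3
          omega
    have heq : ∀ z : ℕ, base (range (m + 1)) ∪ {Pt m z, Pt (m + 1) y} =
        (base (range m) ∪ {Pt m z}) ∪ ((base (range (m + 1)) \ base (range m)) ∪ {Pt (m + 1) y}) := by
      intro z
      ext T
      simp only [Finset.mem_union, Finset.mem_insert, Finset.mem_singleton, Finset.mem_sdiff]
      have h3 : T ∈ base (range m) → T ∈ base (range (m + 1)) := fun h => base_sub m h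
      tauto
    rw [heq x, heq x']
    refine xf_del hk (bl c b s) hd _ _ _ ?_
    intro J hJ J' hJJ'
    have h3 := hJJ' (hU J hJ)
    exact ⟨fun h4 => absurd h3 (hF x J' h4), fun h4 => absurd h3 (hF x' J' h4)⟩
  -- removal of `P x1`
  have hdel2 : k (XF (bl c b s) (base (range (m + 1)) ∪ {Pt m x1, Pt (m + 1) x0}))
        (XF (bl c b s) (base (range (m + 1)) ∪ {Pt m x1, Pt (m + 1) x2})) =
      k (XF (bl c b s) (base (range (m + 1)) ∪ {Pt (m + 1) x0}))
        (XF (bl c b s) (base (range (m + 1)) ∪ {Pt (m + 1) x2})) := by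
    have heq : ∀ z : ℕ, base (range (m + 1)) ∪ {Pt m x1, Pt (m + 1) z} =
        (base (range (m + 1)) ∪ {Pt (m + 1) z}) ∪ {Pt m x1} := by
      intro z
      ext T
      simp only [Finset.mem_union, Finset.mem_insert, Finset.mem_singleton]
      tauto
    have hF : ∀ z : ℕ, x1 ≠ z → ∀ J ∈ base (range (m + 1)) ∪ {Pt (m + 1) z},
        (Sum.inl x1 : Nm) ∉ J := by
      intro z hz J hJ h3
      rw [Finset.mem_union, Finset.mem_singleton] at hJ
      rcases hJ with h4 | rfl
      · rw [mem_base'] at h4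
        exact inl_not_mem_bn (h4.2 h3)
      · unfold Pt at h3
        rw [Finset.mem_insert] at h3
        rcases h3 with h3 | h3
        · exact hz (Sum.inl_injective h3)
        · exact inl_not_mem_bn h3
    rw [heq x0, heq x2]
    refine xf_del hk (bl c b s) hd _ _ _ ?_
    intro J hJ J' hJJ'
    rw [Finset.mem_singleton] at hJ
    subst hJ
    have h3 : (Sum.inl x1 : Nm) ∈ J' := hJJ' (by unfold Pt; exact Finset.mem_insert_self _ _)
    exact ⟨fun h4 => absurd h3 (hF x0 h01.symm J' h4), fun h4 => absurd h3 (hF x2 h12 J' h4)⟩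
  set f0 : Co D := XF (bl c b s) (base (range (m + 1)) ∪ {Pt m x0, Pt (m + 1) x0}) with hf0
  set f1 : Co D := XF (bl c b s) (base (range (m + 1)) ∪ {Pt m x1, Pt (m + 1) x0}) with hf1
  set f2 : Co D := XF (bl c b s) (base (range (m + 1)) ∪ {Pt m x1, Pt (m + 1) x2}) with hf2
  set f3 : Co D := XF (bl c b s) (base (range (m + 1)) ∪ {Pt m x2, Pt (m + 1) x2}) with hf3
  have e01 : k f0 f1 = Rn k c b (range m) x0 t0 x1 t1 := by
    rw [hf0, hf1, hdel1 x0 x1 x0]
    exact rn_eq k c b (range m) x0 t0 x1 t1 h01 s hs0 hs1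
  have e32 : k f3 f2 = Rn k c b (range m) x2 t2 x1 t1 := by
    rw [hf3, hf2, hdel1 x2 x1 x2]
    exact rn_eq k c b (range m) x2 t2 x1 t1 h12.symm s hs2 hs1
  have e12 : k f1 f2 = 1 := by
    rw [hdel2]
    have h3 := rn_eq k c b (range (m + 1)) x0 t0 x2 t2 h02 s hs0 hs2
    rw [hcl x0 t0 x2 t2 h0 h2 h02 ht0 ht2] at h3
    exact h3
  have e02 : k f0 f1 = k f0 f2 := by
    have h3 := ck_eq_of_one hk f1 f2 e12 f0
    rw [hk.herm f1 f0, hk.herm f2 f0, h3]
  -- lemma N
  have hpie : ∀ x : ℕ, base (range m ∪ {m}) ∪ pie x (range m) {m} =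
      base (range (m + 1)) ∪ {Pt m x, Pt (m + 1) x} := by
    intro x
    have h3 : range m ∪ {m} = range (m + 1) := by
      rw [Finset.range_add_one, Finset.union_comm]
      rfl
    have h4 : pie x (range m) {m} = {Pt m x, Pt (m + 1) x} := by
      unfold pie Pt
      rw [show ({m} : Finset ℕ).powerset = {∅, {m}} from rfl, Finset.image_insert,
        Finset.image_singleton, Finset.union_empty, h3]
    rw [h3, h4]
  have hnear := near hD hk hc s (fun a _ => (hsle a).trans (by omega)) (range m) {m}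
    (by simp) (by
      intro i hi
      rw [Finset.mem_union, Finset.mem_range, Finset.mem_singleton] at hi
      rw [Finset.mem_range]
      omega) (2 * m + 2)
    (by
      intro a ha J' hJ'
      unfold stg
      rw [Finset.sup_union, Finset.sup_singleton]
      have h3 := sup_range_le m J' hJ'
      have h4 := hsle a
      have h5 : J'.sup (fun i => 2 * i + 2) ⊔ (2 * m + 2) = 2 * m + 2 := by
        rw [sup_eq_right]
        omega
      rw [h5]
      omega) x0 x2 h0 h2 h02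
  rw [hpie x0, hpie x2] at hnear
  have hfin : ‖Rn k c b (range m) x0 t0 x1 t1 - Rn k c b (range m) x2 t2 x1 t1‖ ≤
      MM D * η (2 * m + 2) := by
    rw [← e01, ← e32, e02]
    exact (ck_lip hk f0 f3 f2).trans hnear
  have hstg : ∀ t, t ≤ m + 1 → stg t (range m) < 2 * m + 2 := by
    intro t ht
    unfold stg
    have h3 := sup_range_le m (range m) (Finset.Subset.refl _)
    omega
  exact rn_ex hc (range m) (by
      intro i hi
      rw [Finset.mem_range] at hi ⊢
      omega) (2 * m + 2) (by omega) (by omega) x0 t0 x1 t1 x2 t2 x1 t1 h0 h1 h2 h1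
    (by omega) (by omega) (by omega) (by omega) h01 h12.symm (hstg t0 ht0) (hstg t1 ht1)
    (hstg t2 ht2) (hstg t1 ht1) hfin

end Pool.Agent.Lib.MP_90b327_co.WW
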