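import Mathlib
import Pool.Agent.Lib.MP_90b327_co.WW.WDefs
import Pool.Agent.Lib.MP_90b327_co.WW.Near
import Pool.Agent.Lib.MP_90b327_co.WW.RnEq
import Pool.Agent.Lib.MP_90b327_co.WW.StepA
import Pool.Agent.Lib.MP_90b327_co.WW.TypesA
import Pool.Agent.Lib.MP_90b327_co.WW.CkDist

/-!
MODULE StepB (25 minutes, old scale). The claim for `m` from the claim for `m + 1`.

PROOF. `Q ≥ 2 ^ D + 2 ≥ 6` (`D ≥ 2` as `m + 1 < D`). `step_a` (with `hcl` restricted to levels `≤ m + 1`) says: `Rn` of the pair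
`(x0,t0), (x1,t1)` equals `Rn` of `(x2,t2), (x1,t1)`; with `rn_conj` the second argument can be changed too (up to conjugation, and the
value 1 is invariant under conjugation). Let `P a t a' t'` be the statement `Rn k c b (range m) a t a' t' = 1`; so
`P a t a' t' ↔ P x s a' t'` (`x ≠ a, a'`; all levels `≤ m + 1`) and `P a t a' t' ↔ P a' t' a t`.
(1) `near` with `J = range m`, `A = ∅`, `s = fun _ => m + 1`, `r = 2 m + 1`: `stg (m + 1) J' = 2 m + 1` for `J' ⊆ range m` (`2 i + 2 ≤ 2 m`). `pie a J ∅ = {insert (inl a) (bn J)}`,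
so `‖1 - Rn k c b (range m) 0 (m+1) 1 (m+1)‖ ≤ MM D * η (2 m + 1)` (`rn_eq`, `ck_one_sub`).
(2) `step_a`: `Rn .. 0 (m+1) 1 (m+1) = Rn .. 2 m 1 (m+1)`; `rn_conj`; `step_a`: `Rn .. 1 (m+1) 2 m = Rn .. 3 m 2 m`. So
`‖1 - Rn .. 3 m 2 m‖ ≤ MM D * η (2 m + 1)`, and `rn_ex1` with `r = 2 m + 1` gives `P 3 m 2 m`: `stg m (range m) < 2 m + 1` (`2 m - 1` and `2 i + 2 ≤ 2 m`).
(3) For any `a ≠ a'` choose `y ≠ z` in `range 6` outside `{2, 3, a, a'}` (possible when at most 4 values are forbidden): `P 3 m 2 m → P y m 2 m → P 2 m y m →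
P z m y m → P a t y m` (`a ≠ z, y`) `→ P y m a t → P a' t' a t → P a t a' t'`.
-/

set_option autoImplicit false

namespace Pool.Agent.Lib.MP_90b327_co.WW

open Finset MeasureTheory Pool.Agent.Lib.MP_90b327_co Pool.Agent.Lib.MP_90b327_co.RB

private theorem sup_range_le_b (m : ℕ) (J : Finset ℕ) (hJ : J ⊆ range m) :
    J.sup (fun i => 2 * i + 2) ≤ 2 * m := by
  refine Finset.sup_le fun i hi => ?_
  have h := Finset.mem_range.mp (hJ hi)
  show 2 * i + 2 ≤ 2 * m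
  omega

private theorem two_free (a a' : ℕ) : ∃ y z : ℕ, y < 6 ∧ z < 6 ∧ y ≠ z ∧ y ≠ 2 ∧ y ≠ 3 ∧ y ≠ a ∧
    y ≠ a' ∧ z ≠ 2 ∧ z ≠ 3 ∧ z ≠ a ∧ z ≠ a' := by
  have h : 1 < (range 6 \ {2, 3, a, a'}).card := by
    have h1 := Finset.le_card_sdiff ({2, 3, a, a'} : Finset ℕ) (range 6)
    have h2 : ({2, 3, a, a'} : Finset ℕ).card ≤ 4 := Finset.card_le_four
    rw [Finset.card_range] at h1
    omega
  rw [Finset.one_lt_card] at h
  obtain ⟨y, hy, z, hz, hyz⟩ := h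
  simp only [Finset.mem_sdiff, Finset.mem_range, Finset.mem_insert, Finset.mem_singleton,
    not_or] at hy hz
  exact ⟨y, z, hy.1, hz.1, hyz, hy.2.1, hy.2.2.1, hy.2.2.2.1, hy.2.2.2.2, hz.2.1, hz.2.2.1,
    hz.2.2.2.1, hz.2.2.2.2⟩

theorem step_b {D : ℕ} (hD : 1 ≤ D) {k : Co D → Co D → ℂ} (hk : CK k) {Q : ℕ} {c : ℕ → ℕ → Finset ℕ}
    {b V : ℕ → Finset ℕ} {η : ℕ → ℝ} (hc : Cfg k Q c b V η) (m : ℕ) (hm : m + 1 < D)
    (hcl : ∀ a t a' t', a < Q → a' < Q → a ≠ a' → t ≤ m + 2 → t' ≤ m + 2 →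
      Rn k c b (range (m + 1)) a t a' t' = 1)
    (a t a' t' : ℕ) (ha : a < Q) (ha' : a' < Q) (hne : a ≠ a') (ht : t ≤ m + 1) (ht' : t' ≤ m + 1) :
    Rn k c b (range m) a t a' t' = 1 := by
  have hQ : 6 ≤ Q := by
    have h1 : 2 ^ 2 ≤ 2 ^ D := Nat.pow_le_pow_right (by norm_num) (by omega)
    have h2 := hc.hQ
    omega
  have hcl' : ∀ a t a' t', a < Q → a' < Q → a ≠ a' → t ≤ m + 1 → t' ≤ m + 1 →
      Rn k c b (range (m + 1)) a t a' t' = 1 := fun a t a' t' h1 h2 h3 h4 h5 =>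
    hcl a t a' t' h1 h2 h3 (by omega) (by omega)
  have hchg : ∀ x0 t0 x1 t1 x2 t2 : ℕ, x0 < Q → x1 < Q → x2 < Q → x0 ≠ x1 → x0 ≠ x2 → x1 ≠ x2 →
      t0 ≤ m + 1 → t1 ≤ m + 1 → t2 ≤ m + 1 →
      Rn k c b (range m) x0 t0 x1 t1 = Rn k c b (range m) x2 t2 x1 t1 :=
    fun x0 t0 x1 t1 x2 t2 h0 h1 h2 h01 h02 h12 g0 g1 g2 =>
      step_a hD hk hc m hm hcl' x0 x1 x2 t0 t1 t2 h0 h1 h2 h01 h02 h12 g0 g1 g2
  -- change of the first argument and symmetry for the value `1`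
  have chg : ∀ x0 t0 x1 t1 x2 t2 : ℕ, x0 < Q → x1 < Q → x2 < Q → x0 ≠ x1 → x0 ≠ x2 → x1 ≠ x2 →
      t0 ≤ m + 1 → t1 ≤ m + 1 → t2 ≤ m + 1 →
      Rn k c b (range m) x0 t0 x1 t1 = 1 → Rn k c b (range m) x2 t2 x1 t1 = 1 := by
    intro x0 t0 x1 t1 x2 t2 h0 h1 h2 h01 h02 h12 g0 g1 g2 h
    rw [← hchg x0 t0 x1 t1 x2 t2 h0 h1 h2 h01 h02 h12 g0 g1 g2]
    exact h
  have sym : ∀ x0 t0 x1 t1 : ℕ, x0 ≠ x1 → Rn k c b (range m) x0 t0 x1 t1 = 1 →
      Rn k c b (range m) x1 t1 x0 t0 = 1 := by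
    intro x0 t0 x1 t1 h01 h
    rw [rn_conj hk c b (range m) x0 t0 x1 t1 h01, h, map_one]
  -- lemma N
  have hnear := near hD hk hc (fun _ => m + 1) (fun _ _ => by show m + 1 ≤ D; omega) (range m) ∅
    (by simp) (by
      intro i hi
      rw [Finset.union_empty, Finset.mem_range] at hi
      rw [Finset.mem_range]
      omega) (2 * m + 1)
    (by
      intro a ha J' hJ'
      unfold stg
      rw [Finset.union_empty]
      have h3 := sup_range_le_b m J' hJ'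
      omega) 0 1 (by omega) (by omega) (by omega)
  have hpie : ∀ x : ℕ, base (range m ∪ ∅) ∪ pie x (range m) ∅ =
      base (range m) ∪ {insert (Sum.inl x) (bn (range m))} := by
    intro x
    unfold pie
    rw [Finset.powerset_empty, Finset.image_singleton, Finset.union_empty]
  rw [hpie 0, hpie 1] at hnear
  have h01 := rn_eq k c b (range m) 0 (m + 1) 1 (m + 1) (by norm_num) (fun _ => m + 1) rfl rfl
  have hR : ‖1 - Rn k c b (range m) 0 (m + 1) 1 (m + 1)‖ ≤ MM D * η (2 * m + 1) := by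
    rw [← h01]
    exact (ck_one_sub hk _ _).trans hnear
  have h32 : Rn k c b (range m) 3 m 2 m =
      (starRingEnd ℂ) (Rn k c b (range m) 0 (m + 1) 1 (m + 1)) := by
    rw [hchg 0 (m + 1) 1 (m + 1) 2 m (by omega) (by omega) (by omega) (by omega) (by omega)
      (by omega) (by omega) (by omega) (by omega),
      ← rn_conj hk c b (range m) 2 m 1 (m + 1) (by norm_num)]
    exact (hchg 1 (m + 1) 2 m 3 m (by omega) (by omega) (by omega) (by omega) (by omega)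
      (by omega) (by omega) (by omega) (by omega)).symm
  have hR' : ‖1 - Rn k c b (range m) 3 m 2 m‖ ≤ MM D * η (2 * m + 1) := by
    rw [h32]
    have h3 : (1 : ℂ) - (starRingEnd ℂ) (Rn k c b (range m) 0 (m + 1) 1 (m + 1)) =
        (starRingEnd ℂ) (1 - Rn k c b (range m) 0 (m + 1) 1 (m + 1)) := by
      rw [map_sub, map_one]
    rw [h3, Complex.norm_conj]
    exact hR
  have hstg : stg m (range m) < 2 * m + 1 := by
    unfold stg
    have h3 := sup_range_le_b m (range m) (Finset.Subset.refl _)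
    omega
  have P32 : Rn k c b (range m) 3 m 2 m = 1 :=
    rn_ex1 hk hc (range m) (by
      intro i hi
      rw [Finset.mem_range] at hi ⊢
      omega) (2 * m + 1) (by omega) (by omega) 3 m 2 m (by omega) (by omega) (by omega) (by omega)
      (by norm_num) hstg hstg hR'
  obtain ⟨y, z, hy6, hz6, hyz, hy2, hy3, hya, hya', hz2, hz3, hza, hza'⟩ := two_free a a'
  have q1 := chg 3 m 2 m y m (by omega) (by omega) (by omega) (by omega) (by omega) (by omega)
    (by omega) (by omega) (by omega) P32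
  have q2 := sym y m 2 m (by omega) q1
  have q3 := chg 2 m y m z m (by omega) (by omega) (by omega) (by omega) (by omega) (by omega)
    (by omega) (by omega) (by omega) q2
  have q4 := chg z m y m a t (by omega) (by omega) ha (by omega) hza hya
    (by omega) (by omega) ht q3
  have q5 := sym a t y m (by omega) q4
  have q6 := chg y m a t a' t' (by omega) ha ha' hya hya' hne (by omega) ht ht' q5
  exact sym a' t' a t (by omega) q6

end Pool.Agent.Lib.MP_90b327_co.WW
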