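import Mathlib
import Pool.Agent.Lib.MP_90b327_co.WW.WDefs
import Pool.Agent.Lib.MP_90b327_co.WW.Near
import Pool.Agent.Lib.MP_90b327_co.WW.RnEq
import Pool.Agent.Lib.MP_90b327_co.WW.TypesA
import Pool.Agent.Lib.MP_90b327_co.WW.TypesB
import Pool.Agent.Lib.MP_90b327_co.WW.CkDist

/-!
MODULE TopC (30 minutes, old scale). The first claim (`m = D - 1`).

PROOF. `J = range (D - 1)`, `A = {D - 1}`, `J ∪ A = range D`, `s = lv2 a t a' t'` (values `≤ D`), `β = bl c b s`, `r = 2 * D`.
`near` applies: for `J' ⊆ J` `stg (s x) (J' ∪ {D - 1}) = max (2 (s x) - 1) (sup) = 2 D`: the sup is `2 (D - 1) + 2 = 2 D` (all elements of `J'` are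
smaller), and `2 (s x) - 1 ≤ 2 D - 1`. So `dst (XF β (base (J ∪ A) ∪ pie a J A)) (XF β (base (J ∪ A) ∪ pie a' J A)) ≤ MM D * η (2 D)`.
`pie a J A = {insert (inl a) (bn J), insert (inl a) (bn (range D))}` (subsets of `{D - 1}`), and
`pc β (insert (inl a) (bn (range D))) = ∅` by `pc_empty` (`D + 1` names). So
`XF β (base (J ∪ A) ∪ pie a J A) = XF β ((base J ∪ {insert (inl a) (bn J)}) ∪ U)` with `U = base (range D) \ base J`, and `xf_deld` removes `U`:
a type of `U` contains a name `inr i` with `i ∉ J`, which is not in the difference types `insert (inl a) (bn J)`, `insert (inl a') (bn J)`.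
So `‖1 - Rn k c b J a t a' t'‖ ≤ MM D * η (2 D)` (`ck_one_sub`, `rn_eq`), and `rn_ex1` with `r = 2 D` gives the claim:
`stg t J < 2 D` as `2 t - 1 < 2 D` and `2 i + 2 ≤ 2 (D - 2) + 2 < 2 D` for `i < D - 1`.
-/

set_option autoImplicit false

namespace Pool.Agent.Lib.MP_90b327_co.WW

open Finset MeasureTheory Pool.Agent.Lib.MP_90b327_co Pool.Agent.Lib.MP_90b327_co.RB

private theorem tc_bn_card (J : Finset ℕ) : (bn J).card = J.card :=
  Finset.card_image_of_injective _ Sum.inr_injective

private theorem tc_bn_sub {J K : Finset ℕ} (h : J ⊆ K) : bn J ⊆ bn K := Finset.image_subset_image h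

private theorem tc_inl_bn (a : ℕ) (J : Finset ℕ) : (Sum.inl a : Nm) ∉ bn J := by
  unfold bn
  simp

private theorem tc_mem_base {J : Finset ℕ} {T : Finset Nm} : T ∈ base J ↔ T ≠ ∅ ∧ T ⊆ bn J := by
  unfold base
  rw [Finset.mem_erase, Finset.mem_powerset]

private theorem tc_pie {D : ℕ} (hD : 1 ≤ D) (β : Nm → Finset ℕ)
    (hd : ∀ i i', i ≠ i' → Disjoint (β i) (β i')) (a : ℕ) :
    (XF β (base (range (D - 1) ∪ {D - 1}) ∪ pie a (range (D - 1)) {D - 1}) : Co D) =
      XF β ((base (range (D - 1)) ∪ {insert (Sum.inl a) (bn (range (D - 1)))}) ∪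
        (base (range (D - 1) ∪ {D - 1}) \ base (range (D - 1)))) := by
  have e0 : range (D - 1) ∪ {D - 1} = range D := by
    ext x
    simp only [Finset.mem_union, Finset.mem_range, Finset.mem_singleton]
    omega
  have e1 : (pc β (insert (Sum.inl a) (bn (range D))) : Co D) = ∅ := by
    refine pc_empty β hd _ ?_
    rw [Finset.card_insert_of_notMem (tc_inl_bn _ _), tc_bn_card, Finset.card_range]
    omega
  have e2 : pie a (range (D - 1)) {D - 1} =
      {insert (Sum.inl a) (bn (range (D - 1))), insert (Sum.inl a) (bn (range D))} := by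
    unfold pie
    have e3 : ({D - 1} : Finset ℕ).powerset = {∅, {D - 1}} := by
      ext T
      rw [Finset.mem_powerset, Finset.subset_singleton_iff, Finset.mem_insert, Finset.mem_singleton]
    rw [e3, Finset.image_insert, Finset.image_singleton, Finset.union_empty, e0]
  have e4 : base (range (D - 1)) ⊆ base (range D) := by
    intro T hT
    rw [tc_mem_base] at hT ⊢
    exact ⟨hT.1, hT.2.trans (tc_bn_sub (Finset.range_mono (by omega)))⟩
  rw [e0, e2]
  unfold XF
  ext x
  simp only [Finset.mem_biUnion, Finset.mem_union, Finset.mem_insert, Finset.mem_singleton,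
    Finset.mem_sdiff]
  constructor
  · rintro ⟨T, hT, hx⟩
    rcases hT with hT | rfl | rfl
    · by_cases h : T ∈ base (range (D - 1))
      · exact ⟨T, Or.inl (Or.inl h), hx⟩
      · exact ⟨T, Or.inr ⟨hT, h⟩, hx⟩
    · exact ⟨_, Or.inl (Or.inr rfl), hx⟩
    · rw [e1] at hx
      exact absurd hx (Finset.notMem_empty _)
  · rintro ⟨T, hT, hx⟩
    rcases hT with (hT | rfl) | hT
    · exact ⟨T, Or.inl (e4 hT), hx⟩
    · exact ⟨_, Or.inr (Or.inl rfl), hx⟩
    · exact ⟨T, Or.inl hT.1, hx⟩

private theorem tc_stg {D t : ℕ} (hD : 1 ≤ D) (ht : t ≤ D) {J' : Finset ℕ}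
    (hJ : J' ⊆ range (D - 1)) : stg t (J' ∪ {D - 1}) = 2 * D := by
  unfold stg
  have h1 : (J' ∪ {D - 1}).sup (fun i => 2 * i + 2) = 2 * D := by
    apply le_antisymm
    · refine Finset.sup_le fun i hi => ?_
      rw [Finset.mem_union, Finset.mem_singleton] at hi
      rcases hi with hi | hi
      · have := Finset.mem_range.1 (hJ hi)
        omega
      · omega
    · have h2 : 2 * (D - 1) + 2 ≤ (J' ∪ {D - 1}).sup (fun i => 2 * i + 2) :=
        Finset.le_sup (f := fun i => 2 * i + 2)
          (Finset.mem_union_right _ (Finset.mem_singleton_self _))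
      omega
  rw [h1]
  omega

private theorem tc_stg' {D t : ℕ} (hD : 1 ≤ D) (ht : t ≤ D) : stg t (range (D - 1)) < 2 * D := by
  unfold stg
  rw [max_lt_iff]
  refine ⟨by omega, ?_⟩
  rw [Finset.sup_lt_iff (by simp; omega)]
  intro i hi
  have := Finset.mem_range.1 hi
  omega

theorem top_c {D : ℕ} (hD : 1 ≤ D) {k : Co D → Co D → ℂ} (hk : CK k) {Q : ℕ} {c : ℕ → ℕ → Finset ℕ}
    {b V : ℕ → Finset ℕ} {η : ℕ → ℝ} (hc : Cfg k Q c b V η) (a t a' t' : ℕ) (ha : a < Q) (ha' : a' < Q)
    (hne : a ≠ a') (ht : t ≤ D) (ht' : t' ≤ D) : Rn k c b (range (D - 1)) a t a' t' = 1 := by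
  have hs : ∀ x, x < Q → lv2 a t a' t' x ≤ D := by
    intro x _
    unfold lv2
    split_ifs <;> omega
  have e0 : range (D - 1) ∪ {D - 1} ⊆ range D := by
    intro x
    simp only [Finset.mem_union, Finset.mem_range, Finset.mem_singleton]
    omega
  have hdis : Disjoint (range (D - 1)) {D - 1} := by
    rw [Finset.disjoint_singleton_right, Finset.mem_range]
    omega
  have hd := fun i i' h => bl_disj hc (lv2 a t a' t') i i' h
  have h1 := near hD hk hc (lv2 a t a' t') hs (range (D - 1)) {D - 1} hdis e0 (2 * D)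
    (fun x hx J' hJ' => tc_stg hD (hs x hx) hJ') a a' ha ha' hne
  rw [tc_pie hD _ hd a, tc_pie hD _ hd a', xf_deld hk _ hd] at h1
  · refine rn_ex1 hk hc (range (D - 1)) (Finset.range_mono (by omega)) (2 * D) (by omega) le_rfl a t
      a' t' ha ha' ht ht' hne (tc_stg' hD ht) (tc_stg' hD ht') ?_
    exact (ck_one_sub hk _ _).trans h1
  · intro T hT T' hTT
    rw [Finset.mem_sdiff] at hT
    have hT1 := tc_mem_base.1 hT.1
    have hT2 : ¬ T ⊆ bn (range (D - 1)) := fun h => hT.2 (tc_mem_base.2 ⟨hT1.1, h⟩)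
    have key : ∀ a : ℕ, T' ≠ insert (Sum.inl a) (bn (range (D - 1))) := by
      intro a h
      apply hT2
      intro y hy
      have h3 := hTT hy
      rw [h, Finset.mem_insert] at h3
      rcases h3 with h3 | h3
      · have h4 := hT1.2 hy
        rw [h3] at h4
        exact absurd h4 (tc_inl_bn _ _)
      · exact h3
    simp only [Finset.mem_union, Finset.mem_singleton, key a, key a', or_false]

end Pool.Agent.Lib.MP_90b327_co.WW
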