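import Mathlib
import Pool.Agent.Lib.MP_90b327_co.WW.WDefs
import Pool.Agent.Lib.MP_90b327_co.WW.TopC
import Pool.Agent.Lib.MP_90b327_co.WW.StepB
import Pool.Agent.Lib.MP_90b327_co.WW.RnEq
import Pool.Agent.Lib.MP_90b327_co.WW.TypesA
import Pool.Agent.Lib.MP_90b327_co.WW.CkDist

/-!
MODULE DetEnd (20 minutes, old scale). End of the deterministic part.

PROOF. Claim `m` (`m < D`): `Rn k c b (range m) a t a' t' = 1` for `a ≠ a' < Q`, `t, t' ≤ m + 1`. `m = D - 1`: `top_c` (`D ≤ D`). Downwards: `step_b`.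
Claim `0`: `base (range 0) = ∅`, `bn ∅ = ∅`, so `Rn k c b ∅ 0 0 1 1 = k (XF β {{inl 0}}) (XF β {{inl 1}}) = k (pw D (CC c 0 0)) (pw D (CC c 1 1)) = 1`
(`xf_one`; `β = bl c b (lv2 0 0 1 1)`), and `CC c 0 0 = c 0 0`. By `ck_eq_of_one` and `hk.herm`: `k ∅ (pw D (c 0 0)) = k ∅ (pw D (CC c 1 1))`, and
`‖1 - k ∅ (pw D (CC c 1 1))‖ ≤ dst ≤ η (stg 1 ∅) = η 1 ≤ MM D * η 1` (`hc.crit 1 1 ∅`, `ck_one_sub`, `mm_two`). `hc.ex 1` (`1 ≤ 2 D`) with the contents `∅`,
`pw D (c 0 0) ⊆ pw D (V 1)` (`hc.Vc 0 0 1`: `2 * 0 - 1 = 0 < 1`) and `∅`, `∅` (`k ∅ ∅ = 1`) gives `k ∅ (pw D (c 0 0)) = 1`, against `hc.ne`. (`Q ≥ 4`.)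
-/

set_option autoImplicit false

namespace Pool.Agent.Lib.MP_90b327_co.WW

open Finset MeasureTheory Pool.Agent.Lib.MP_90b327_co Pool.Agent.Lib.MP_90b327_co.RB

theorem det {D : ℕ} (hD : 1 ≤ D) {k : Co D → Co D → ℂ} (hk : CK k) {Q : ℕ} {c : ℕ → ℕ → Finset ℕ}
    {b V : ℕ → Finset ℕ} {η : ℕ → ℝ} (hc : Cfg k Q c b V η) : False := by
  have hclaim : ∀ n, n < D → ∀ a t a' t', a < Q → a' < Q → a ≠ a' → t ≤ D - 1 - n + 1 →
      t' ≤ D - 1 - n + 1 → Rn k c b (range (D - 1 - n)) a t a' t' = 1 := by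
    intro n
    induction n with
    | zero =>
      intro _ a t a' t' ha ha' hne ht ht'
      exact top_c hD hk hc a t a' t' ha ha' hne (by omega) (by omega)
    | succ n ih =>
      intro hn a t a' t' ha ha' hne ht ht'
      have e : D - 1 - n = D - 1 - (n + 1) + 1 := by omega
      have ih' := ih (by omega)
      rw [e] at ih'
      exact step_b hD hk hc (D - 1 - (n + 1)) (by omega)
        (fun a t a' t' ha ha' hne ht ht' => ih' a t a' t' ha ha' hne (by omega) (by omega))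
        a t a' t' ha ha' hne ht ht'
  have hQ : 4 ≤ Q := by
    have h1 := hc.hQ
    have h2 : 2 ^ 1 ≤ 2 ^ D := Nat.pow_le_pow_right (by norm_num) hD
    omega
  have h0 : Rn k c b (range 0) 0 0 1 1 = 1 := by
    have h1 := hclaim (D - 1) (by omega) 0 0 1 1 (by omega) (by omega) (by omega) (by omega)
      (by omega)
    rwa [Nat.sub_self] at h1
  have hbase : (base (range 0) : Finset (Finset Nm)) = ∅ := by
    unfold base bn
    rfl
  have hbn : bn (range 0) = ∅ := rfl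
  have hβ0 : bl c b (lv2 0 0 1 1) (Sum.inl 0) = c 0 0 := by
    unfold bl CC lv2
    simp
  have hβ1 : bl c b (lv2 0 0 1 1) (Sum.inl 1) = CC c 1 1 := by
    unfold bl lv2
    simp
  unfold Rn at h0
  rw [hbase, hbn, Finset.empty_union, Finset.empty_union] at h0
  have hi : ∀ i : Nm, (insert i ∅ : Finset Nm) = {i} := fun i => rfl
  rw [hi, hi, xf_one hD, xf_one hD, hβ0, hβ1] at h0
  have h1 := ck_eq_of_one hk _ _ h0 ∅
  have h2 : k ∅ (pw D (c 0 0)) = k ∅ (pw D (CC c 1 1)) := by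
    rw [hk.herm (pw D (c 0 0)) ∅, hk.herm (pw D (CC c 1 1)) ∅, h1]
  have h3 := hc.crit 1 1 ∅ (by omega) hD (Finset.empty_subset _)
  have hst : stg 1 ∅ = 1 := by
    unfold stg
    simp
  rw [hst, Finset.biUnion_empty, Finset.union_empty] at h3
  have h4 : ‖k ∅ ∅ - k ∅ (pw D (c 0 0))‖ ≤ MM D * η 1 := by
    rw [hk.one, h2]
    have h5 := ck_one_sub hk ∅ (pw D (CC c 1 1))
    have h6 := hc.nonneg 1
    have h7 := mm_two D
    nlinarith
  have hV : c 0 0 ⊆ V 1 := hc.Vc 0 0 1 (by omega) (by omega) (by omega)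
  have hsub : pw D (c 0 0) ⊆ pw D (V 1) := by
    unfold pw
    exact Fintype.piFinset_subset _ _ fun _ => hV
  have h8 := hc.ex 1 (le_refl _) (by omega) ∅ ∅ ∅ (pw D (c 0 0)) (Finset.empty_subset _)
    (Finset.empty_subset _) (Finset.empty_subset _) hsub h4
  rw [hk.one] at h8
  exact hc.ne h8.symm

end Pool.Agent.Lib.MP_90b327_co.WW
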