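import Mathlib
import Pool.Agent.Lib.MP_90b327_co.WW.WDefs
import Pool.Agent.Lib.MP_90b327_co.WW.CkDist
import Pool.Agent.Lib.MP_90b327_co.NS.AvA

/-!
MODULE EfTk (25 minutes, old scale). The functionals `Hk` are exchangeable.

PROOF. `nonneg`: `NS.tk_nonneg`. `le_one`: `NS.tk_le_one` and `ck_norm (T.ck ω)`. `meas`: `NS.tk_meas`, `T.meas`.
`inv`: `pw D (S.image σ) = mv σ (pw D S)` (a tuple with entries in `S.image σ` is `σ ∘ c'`, `c'` with entries in `S`; choose preimages). So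
`∏ i, Hk T kk (t i) ((S i).image σ) ω = Φ (fun i => T.z ω (mv σ ∅) (mv σ (pw D (S i))))`, `Φ v = ∏ i, NS.Tk (kk (t i)) (v i)` measurable on `ι → ℂ`
(`mv σ ∅ = ∅`). `T.law ι (fun _ => ∅) (fun i => pw D (S i)) σ` and `MeasureTheory.integral_map` on both sides (`AEMeasurable` from `T.meas`,
`measurable_pi_iff`; `Φ` is `AEStronglyMeasurable`).
-/

set_option autoImplicit false

namespace Pool.Agent.Lib.MP_90b327_co.WW

open Finset MeasureTheory Pool.Agent.Lib.MP_90b327_co Pool.Agent.Lib.MP_90b327_co.RB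

private theorem eftk_pw {D : ℕ} (σ : ℕ → ℕ) (S : Finset ℕ) :
    pw D (S.image σ) = mv σ (pw D S) := by
  ext c
  unfold pw mv
  rw [Fintype.mem_piFinset, Finset.mem_image]
  constructor
  · intro hc
    choose c' hc' using fun j => Finset.mem_image.1 (hc j)
    refine ⟨c', ?_, ?_⟩
    · rw [Fintype.mem_piFinset]
      exact fun j => (hc' j).1
    · funext j
      exact (hc' j).2
  · rintro ⟨c', hc', rfl⟩ j
    rw [Fintype.mem_piFinset] at hc'
    exact Finset.mem_image_of_mem σ (hc' j)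

private theorem eftk_empty {D : ℕ} (σ : ℕ → ℕ) : mv σ (∅ : Co D) = ∅ := by
  unfold mv
  exact Finset.image_empty _

theorem ef_tk {D : ℕ} (T : CS D) (kk : ℕ → ℕ) : EF T.P ∅ (Hk T kk) where
  nonneg t S ω := NS.tk_nonneg _ _
  le_one t S ω := NS.tk_le_one _ _ (ck_norm (T.ck ω) _ _)
  meas t S := (NS.tk_meas _).comp (T.meas _ _)
  inv := by
    intro σ hσ _ ι _ t S _
    obtain ⟨Φ, hΦ⟩ : ∃ Φ : (ι → ℂ) → ℝ, Φ = fun v => ∏ i, NS.Tk (kk (t i)) (v i) := ⟨_, rfl⟩
    have hΦm : Measurable Φ := by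
      rw [hΦ]
      exact Finset.measurable_fun_prod _ fun i _ => (NS.tk_meas _).comp (measurable_pi_apply i)
    have hlaw := T.law ι (fun _ => ∅) (fun i => pw D (S i)) σ hσ
    have m1 : Measurable (fun ω i => T.z ω (mv σ ∅) (mv σ (pw D (S i)))) :=
      measurable_pi_iff.2 fun i => T.meas _ _
    have m2 : Measurable (fun ω i => T.z ω ∅ (pw D (S i))) :=
      measurable_pi_iff.2 fun i => T.meas _ _
    have e1 : ∫ ω, ∏ i, Hk T kk (t i) ((S i).image σ) ω ∂T.P =
        ∫ ω, Φ (fun i => T.z ω (mv σ ∅) (mv σ (pw D (S i)))) ∂T.P := by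
      refine integral_congr_ae (Filter.Eventually.of_forall fun ω => ?_)
      rw [hΦ]
      simp only
      refine Finset.prod_congr rfl fun i _ => ?_
      unfold Hk
      rw [eftk_pw, eftk_empty]
    have e2 : ∫ ω, ∏ i, Hk T kk (t i) (S i) ω ∂T.P =
        ∫ ω, Φ (fun i => T.z ω ∅ (pw D (S i))) ∂T.P := by
      refine integral_congr_ae (Filter.Eventually.of_forall fun ω => ?_)
      rw [hΦ]
      rfl
    rw [e1, e2, ← integral_map m1.aemeasurable hΦm.aestronglyMeasurable,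
      ← integral_map m2.aemeasurable hΦm.aestronglyMeasurable]
    rw [hlaw]

end Pool.Agent.Lib.MP_90b327_co.WW
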