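import Mathlib
import Pool.Agent.Lib.MP_90b327_co.WW.WDefs
import Pool.Agent.Lib.MP_90b327_co.WW.ExInj

/-!
MODULE EfEq (20 minutes, old scale). Exchangeability in terms of disjoint blocks.

PROOF of `ef_eq`. `exists_inj` gives `σ`; `(I i).biUnion u` has the image `(I i).biUnion v` under `σ` (`Finset.image_biUnion`,
`Finset.biUnion_image`), it is disjoint from `B`. Use `h.inv σ`.
`ef_int`: bounded measurable functions are integrable; `ef_prod`: a finite product of values in `[0,1]` is in `[0,1]`.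
-/

set_option autoImplicit false

namespace Pool.Agent.Lib.MP_90b327_co.WW

open Finset MeasureTheory Pool.Agent.Lib.MP_90b327_co Pool.Agent.Lib.MP_90b327_co.RB

theorem ef_int {Ω : Type} [MeasurableSpace Ω] {P : Measure Ω} [IsProbabilityMeasure P] {B : Finset ℕ}
    {H : ℕ → Finset ℕ → Ω → ℝ} (h : EF P B H) (ι : Type) [Fintype ι] (t : ι → ℕ) (S : ι → Finset ℕ) :
    Integrable (fun ω => ∏ i, H (t i) (S i) ω) P := by
  refine Integrable.of_bound
    (Finset.measurable_fun_prod _ fun i _ => h.meas (t i) (S i)).aestronglyMeasurable 1 ?_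
  refine Filter.Eventually.of_forall fun ω => ?_
  rw [Real.norm_eq_abs, abs_of_nonneg (Finset.prod_nonneg fun i _ => h.nonneg _ _ _)]
  exact Finset.prod_le_one (fun i _ => h.nonneg _ _ _) (fun i _ => h.le_one _ _ _)

theorem ef_eq {Ω : Type} [MeasurableSpace Ω] {P : Measure Ω} {B : Finset ℕ}
    {H : ℕ → Finset ℕ → Ω → ℝ} (h : EF P B H) (κ : Type) [Fintype κ] (u v : κ → Finset ℕ)
    (hu : ∀ j j', j ≠ j' → Disjoint (u j) (u j')) (hv : ∀ j j', j ≠ j' → Disjoint (v j) (v j'))
    (huB : ∀ j, Disjoint (u j) B) (hvB : ∀ j, Disjoint (v j) B) (hc : ∀ j, (u j).card = (v j).card)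
    (ι : Type) [Fintype ι] (t : ι → ℕ) (I : ι → Finset κ) :
    ∫ ω, ∏ i, H (t i) ((I i).biUnion u) ω ∂P = ∫ ω, ∏ i, H (t i) ((I i).biUnion v) ω ∂P := by
  obtain ⟨σ, hσ, hB, him⟩ := exists_inj κ B u v hu hv huB hvB hc
  have h1 := h.inv σ hσ hB ι t (fun i => (I i).biUnion u) (fun i => by
    rw [Finset.disjoint_biUnion_left]
    exact fun j _ => huB j)
  have h2 : ∀ i, ((I i).biUnion u).image σ = (I i).biUnion v := by
    intro i
    rw [Finset.biUnion_image]
    refine Finset.biUnion_congr rfl fun j _ => him j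
  simp only [h2] at h1
  exact h1.symm

/-- one functional, sets of the same size -/
theorem ef_one {Ω : Type} [MeasurableSpace Ω] {P : Measure Ω} {B : Finset ℕ}
    {H : ℕ → Finset ℕ → Ω → ℝ} (h : EF P B H) (t : ℕ) (S S' : Finset ℕ) (hS : Disjoint S B)
    (hS' : Disjoint S' B) (hc : S.card = S'.card) : ∫ ω, H t S ω ∂P = ∫ ω, H t S' ω ∂P := by
  have h1 := ef_eq h Unit (fun _ => S) (fun _ => S') (fun j j' hj => absurd rfl hj)
    (fun j j' hj => absurd rfl hj) (fun _ => hS) (fun _ => hS') (fun _ => hc) Unit (fun _ => t)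
    (fun _ => Finset.univ)
  simpa using h1

/-- two functionals, `S` and `y` disjoint -/
theorem ef_two {Ω : Type} [MeasurableSpace Ω] {P : Measure Ω} {B : Finset ℕ}
    {H : ℕ → Finset ℕ → Ω → ℝ} (h : EF P B H) (t t' : ℕ) (S S' y y' : Finset ℕ) (hS : Disjoint S B)
    (hS' : Disjoint S' B) (hy : Disjoint y B) (hy' : Disjoint y' B) (hSy : Disjoint S y)
    (hSy' : Disjoint S' y') (hc : S.card = S'.card) (hc' : y.card = y'.card) :
    ∫ ω, H t S ω * H t' y ω ∂P = ∫ ω, H t S' ω * H t' y' ω ∂P ∧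
    ∫ ω, H t S ω * H t' (S ∪ y) ω ∂P = ∫ ω, H t S' ω * H t' (S' ∪ y') ω ∂P := by
  have key : ∀ (ι : Type) [Fintype ι] (tt : ι → ℕ) (I : ι → Finset Bool),
      ∫ ω, ∏ i, H (tt i) ((I i).biUnion (fun b => if b then S else y)) ω ∂P =
        ∫ ω, ∏ i, H (tt i) ((I i).biUnion (fun b => if b then S' else y')) ω ∂P := by
    intro ι _ tt I
    refine ef_eq h Bool _ _ ?_ ?_ ?_ ?_ ?_ ι tt I
    · intro j j' hj
      cases j <;> cases j' <;> simp_all [disjoint_comm]
    · intro j j' hj
      cases j <;> cases j' <;> simp_all [disjoint_comm]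
    · intro j
      cases j <;> simp_all
    · intro j
      cases j <;> simp_all
    · intro j
      cases j <;> simp_all
  constructor
  · have h1 := key Bool (fun b => if b then t else t') (fun b => if b then {true} else {false})
    simpa [Fintype.prod_bool] using h1
  · have h1 := key Bool (fun b => if b then t else t') (fun b => if b then {true} else {true, false})
    simpa [Fintype.prod_bool] using h1

end Pool.Agent.Lib.MP_90b327_co.WW
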