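import Mathlib
import Pool.Agent.Lib.MP_90b327_co.WW.WDefs

/-!
MODULE EfStep (15 minutes, old scale). The functional of the next step.

PROOF. `nonneg`, `le_one`: products of numbers in `[0,1]`. `meas`: `Measurable.mul`. `inv`: let `σ` be injective and fix `B ∪ y`; write
`∏ i, H (t i) (S i) * H t' (S i ∪ y)` as a product over the index type `ι ⊕ ι` (`Fintype.prod_sum_type`, `Finset.prod_mul_distrib`) and use `h.inv`
for `Sum.elim t (fun _ => t')`, `Sum.elim S (fun i => S i ∪ y)`; `(S i ∪ y).image σ = (S i).image σ ∪ y` because `σ` fixes `y`; the sets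
`S i`, `S i ∪ y` are disjoint from `B` (`hy`).
-/

set_option autoImplicit false

namespace Pool.Agent.Lib.MP_90b327_co.WW

open Finset MeasureTheory Pool.Agent.Lib.MP_90b327_co Pool.Agent.Lib.MP_90b327_co.RB

theorem ef_step {Ω : Type} [MeasurableSpace Ω] {P : Measure Ω} {B : Finset ℕ}
    {H : ℕ → Finset ℕ → Ω → ℝ} (h : EF P B H) (y : Finset ℕ) (hy : Disjoint y B) (t' : ℕ) :
    EF P (B ∪ y) (fun t S ω => H t S ω * H t' (S ∪ y) ω) := by
  refine ⟨fun t S ω => mul_nonneg (h.nonneg _ _ _) (h.nonneg _ _ _),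
    fun t S ω => mul_le_one₀ (h.le_one _ _ _) (h.nonneg _ _ _) (h.le_one _ _ _),
    fun t S => (h.meas _ _).mul (h.meas _ _), ?_⟩
  intro σ hσ hfix ι _ t S hS
  have himg : y.image σ = y := by
    ext v
    rw [mem_image]
    constructor
    · rintro ⟨a, ha, rfl⟩
      rwa [hfix a (mem_union_right _ ha)]
    · intro hv
      exact ⟨v, hv, hfix v (mem_union_right _ hv)⟩
  have key := h.inv σ hσ (fun v hv => hfix v (mem_union_left _ hv)) (ι ⊕ ι) (Sum.elim t (fun _ => t'))
    (Sum.elim S (fun i => S i ∪ y)) (by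
      rintro (i | i)
      · exact (hS i).mono_right subset_union_left
      · exact disjoint_union_left.2 ⟨(hS i).mono_right subset_union_left, hy⟩)
  simp only [Fintype.prod_sum_type, Sum.elim_inl, Sum.elim_inr, image_union, himg] at key
  simp only [prod_mul_distrib]
  exact key

end Pool.Agent.Lib.MP_90b327_co.WW
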