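import Mathlib
import Pool.Agent.Lib.MP_90b327_co.WW.WDefs
import Pool.Agent.Lib.MP_90b327_co.WW.EfEq

/-!
MODULE Samp (50 minutes, old scale). Lemma S (sampling).

PROOF. `s = S.card`, `Z` a set with `s + y.card` elements, disjoint from `B`. Choose `m` pairwise disjoint subsets `S i ⊆ Z` of size `s`
(possible: `m * s ≤ s + y.card`) and `m` pairwise disjoint sets `S' i` of size `s` outside `B ∪ Z`. (For instance with `b` larger than all
elements of `B`: `Z = Ico b (b + s + y.card)`, `S i = Ico (b + i s) (b + (i + 1) s)`, `S' i = Ico (b' + i s) (b' + (i + 1) s)`, `b' = b + s + y.card`.)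
`E H t (S i) * H t' Z = E H t S * H t' (S ∪ y)` (`ef_two`, `Z = S i ∪ (Z \ S i)`), `E H t (S' i) * H t' Z = E H t S * H t' y''` (`ef_two`).
So with `f = (1/m) ∑ i, (H t (S i) - H t (S' i))` the difference is `E f * H t' Z`, and `|E f * H t' Z| ≤ E |f| ≤ (E f²)^(1/2)`.
`E f² = (1/m²) ∑ i, ∑ j, E (H t (S i) - H t (S' i)) * (H t (S j) - H t (S' j))`. For `i ≠ j` the four sets `S i, S' i, S j, S' j` are pairwise disjoint
of size `s`, so the four products have the same mean (`ef_two` with the same scale `t`) and the term is `0`. For `i = j` it is `≤ 1`.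
So `E f² ≤ 1/m`. (`(E |f|)² ≤ E f²`: for instance `∫ (|f| - ∫ |f|)² ≥ 0`.) If `s = 0`: all sets may be empty, the argument is the same.
-/

set_option autoImplicit false

namespace Pool.Agent.Lib.MP_90b327_co.WW

open Finset MeasureTheory Pool.Agent.Lib.MP_90b327_co Pool.Agent.Lib.MP_90b327_co.RB

private theorem samp_int {Ω : Type} [MeasurableSpace Ω] {P : Measure Ω} [IsProbabilityMeasure P]
    {f : Ω → ℝ} (hf : Measurable f) (C : ℝ) (hC : ∀ ω, |f ω| ≤ C) : Integrable f P :=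
  Integrable.of_bound hf.aestronglyMeasurable C (Filter.Eventually.of_forall fun ω => by
    simpa [Real.norm_eq_abs] using hC ω)

private theorem samp_sq {Ω : Type} [MeasurableSpace Ω] {P : Measure Ω} [IsProbabilityMeasure P]
    {f : Ω → ℝ} (hf : Measurable f) (C : ℝ) (hC : ∀ ω, |f ω| ≤ C) :
    (∫ ω, f ω ∂P) ^ 2 ≤ ∫ ω, (f ω) ^ 2 ∂P := by
  have hi : Integrable f P := samp_int hf C hC
  have hi2 : Integrable (fun ω => (f ω) ^ 2) P := by
    refine samp_int (hf.pow_const 2) (C ^ 2) (fun ω => ?_)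
    rw [abs_pow]
    exact pow_le_pow_left₀ (abs_nonneg _) (hC ω) 2
  set c : ℝ := ∫ ω, f ω ∂P with hc
  have h0 : 0 ≤ ∫ ω, (f ω - c) ^ 2 ∂P := integral_nonneg fun ω => sq_nonneg _
  have h1 : ∫ ω, (f ω - c) ^ 2 ∂P = ∫ ω, (f ω) ^ 2 ∂P - c ^ 2 := by
    have e : ∀ ω, (f ω - c) ^ 2 = (f ω) ^ 2 - (2 * c * f ω - c ^ 2) := fun ω => by ring
    have hi3 : Integrable (fun ω => 2 * c * f ω) P := hi.const_mul _
    have hi4 : Integrable (fun ω => 2 * c * f ω - c ^ 2) P := hi3.sub (integrable_const _)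
    rw [integral_congr_ae (Filter.Eventually.of_forall e), integral_sub hi2 hi4,
      integral_sub hi3 (integrable_const _), integral_const_mul, ← hc]
    simp
    ring
  linarith

private theorem samp_dis (b s i j : ℕ) (hij : i < j) :
    Disjoint (Ico (b + i * s) (b + (i + 1) * s)) (Ico (b + j * s) (b + (j + 1) * s)) := by
  rw [Finset.disjoint_left]
  intro x hx hx'
  rw [Finset.mem_Ico] at hx hx'
  have : (i + 1) * s ≤ j * s := Nat.mul_le_mul_right s hij
  omega

theorem samp {Ω : Type} [MeasurableSpace Ω] {P : Measure Ω} [IsProbabilityMeasure P] {B : Finset ℕ}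
    {H : ℕ → Finset ℕ → Ω → ℝ} (h : EF P B H) (t t' m : ℕ) (hm : 1 ≤ m) (S y y' : Finset ℕ)
    (hS : Disjoint S B) (hy : Disjoint y B) (hy' : Disjoint y' B) (hSy : Disjoint S y)
    (hSy' : Disjoint S y') (hc : y'.card = S.card + y.card) (hm' : m * S.card ≤ S.card + y.card) :
    |∫ ω, H t S ω * H t' (S ∪ y) ω ∂P - ∫ ω, H t S ω * H t' y' ω ∂P| ≤ 1 / Real.sqrt m := by
  classical
  set s : ℕ := S.card with hs
  set n : ℕ := s + y.card with hn
  set b : ℕ := B.sup id + 1 with hb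
  have hbB : ∀ a c : ℕ, b ≤ a → Disjoint (Ico a c) B := by
    intro a c hac
    rw [Finset.disjoint_left]
    intro x hx hxB
    rw [Finset.mem_Ico] at hx
    have h1 : x ≤ B.sup id := Finset.le_sup (f := id) hxB
    omega
  set Z : Finset ℕ := Ico b (b + n) with hZ
  let A : ℕ → Finset ℕ := fun i => Ico (b + i * s) (b + (i + 1) * s)
  let A' : ℕ → Finset ℕ := fun i => Ico (b + n + i * s) (b + n + (i + 1) * s)
  have hAc : ∀ i, (A i).card = s := by
    intro i
    simp only [A, Nat.card_Ico]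
    have : (i + 1) * s = i * s + s := by ring
    omega
  have hAc' : ∀ i, (A' i).card = s := by
    intro i
    simp only [A', Nat.card_Ico]
    have : (i + 1) * s = i * s + s := by ring
    omega
  have hAB : ∀ i, Disjoint (A i) B := fun i => hbB _ _ (by omega)
  have hAB' : ∀ i, Disjoint (A' i) B := fun i => hbB _ _ (by omega)
  have hZB : Disjoint Z B := hbB _ _ le_rfl
  have hAZ : ∀ i < m, A i ⊆ Z := by
    intro i hi x hx
    simp only [A, Finset.mem_Ico] at hx
    have h1 : (i + 1) * s ≤ m * s := Nat.mul_le_mul_right s hi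
    rw [hZ, Finset.mem_Ico]
    omega
  have hAZ' : ∀ i, Disjoint (A' i) Z := by
    intro i
    rw [Finset.disjoint_left]
    intro x hx hx'
    simp only [A', Finset.mem_Ico] at hx
    rw [hZ, Finset.mem_Ico] at hx'
    omega
  have hZc : Z.card = n := by rw [hZ, Nat.card_Ico]; omega
  have hAA : ∀ i j, i ≠ j → Disjoint (A i) (A j) := by
    intro i j hij
    rcases lt_or_gt_of_ne hij with hlt | hlt
    · exact samp_dis b s i j hlt
    · exact (samp_dis b s j i hlt).symm
  have hAA' : ∀ i j, i ≠ j → Disjoint (A' i) (A' j) := by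
    intro i j hij
    rcases lt_or_gt_of_ne hij with hlt | hlt
    · exact samp_dis (b + n) s i j hlt
    · exact (samp_dis (b + n) s j i hlt).symm
  have hAX : ∀ i < m, ∀ j, Disjoint (A i) (A' j) := by
    intro i hi j
    exact (Disjoint.mono_right (hAZ i hi) (hAZ' j)).symm
  -- the two means
  have e1 : ∀ i < m, ∫ ω, H t (A i) ω * H t' Z ω ∂P = ∫ ω, H t S ω * H t' (S ∪ y) ω ∂P := by
    intro i hi
    have h1 := (ef_two h t t' (A i) S (Z \ A i) y (hAB i) hS
      (Disjoint.mono_left Finset.sdiff_subset hZB) hy Finset.disjoint_sdiff hSy (hAc i) (by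
        rw [Finset.card_sdiff_of_subset (hAZ i hi), hZc, hAc i]; omega)).2
    rw [Finset.union_sdiff_of_subset (hAZ i hi)] at h1
    exact h1
  have e2 : ∀ i, ∫ ω, H t (A' i) ω * H t' Z ω ∂P = ∫ ω, H t S ω * H t' y' ω ∂P := by
    intro i
    exact (ef_two h t t' (A' i) S Z y' (hAB' i) hS hZB hy' (hAZ' i) hSy' (hAc' i)
      (by rw [hZc, hc])).1
  -- the function
  have hmp : (0 : ℝ) < m := by exact_mod_cast hm
  let g : ℕ → Ω → ℝ := fun i ω => H t (A i) ω - H t (A' i) ω
  have hgm : ∀ i, Measurable (g i) := fun i => (h.meas t (A i)).sub (h.meas t (A' i))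
  have hgb : ∀ i ω, |g i ω| ≤ 1 := by
    intro i ω
    have := h.nonneg t (A i) ω
    have := h.nonneg t (A' i) ω
    have := h.le_one t (A i) ω
    have := h.le_one t (A' i) ω
    simp only [g]
    rw [abs_le]
    constructor <;> linarith
  have hprod : ∀ (u u' : Finset ℕ) (v v' : ℕ), Integrable (fun ω => H v u ω * H v' u' ω) P := by
    intro u u' v v'
    refine samp_int ((h.meas v u).mul (h.meas v' u')) 1 (fun ω => ?_)
    rw [abs_mul, abs_of_nonneg (h.nonneg _ _ _), abs_of_nonneg (h.nonneg _ _ _)]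
    exact mul_le_one₀ (h.le_one _ _ _) (h.nonneg _ _ _) (h.le_one _ _ _)
  have hdiff : ∀ (u u' : Finset ℕ) (v v' : ℕ) (x x' : Finset ℕ) (w w' : ℕ),
      Integrable (fun ω => H v u ω * H v' u' ω - H w x ω * H w' x' ω) P :=
    fun u u' v v' x x' w w' => (hprod _ _ _ _).sub (hprod _ _ _ _)
  let F : Ω → ℝ := fun ω => (∑ i ∈ range m, g i ω) * H t' Z ω
  have hFm : Measurable F :=
    (Finset.measurable_sum _ fun i _ => hgm i).mul (h.meas t' Z)
  have hsb : ∀ ω, |∑ i ∈ range m, g i ω| ≤ m := by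
    intro ω
    refine (Finset.abs_sum_le_sum_abs _ _).trans ?_
    refine (Finset.sum_le_sum fun i _ => hgb i ω).trans ?_
    simp
  have hFb : ∀ ω, |F ω| ≤ m := by
    intro ω
    simp only [F]
    rw [abs_mul, abs_of_nonneg (h.nonneg t' Z ω)]
    calc |∑ i ∈ range m, g i ω| * H t' Z ω ≤ m * 1 :=
          mul_le_mul (hsb ω) (h.le_one _ _ _) (h.nonneg _ _ _) hmp.le
      _ = m := mul_one _
  have hD : ∫ ω, F ω ∂P = m * (∫ ω, H t S ω * H t' (S ∪ y) ω ∂P - ∫ ω, H t S ω * H t' y' ω ∂P) := by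
    have e : ∀ ω, F ω = ∑ i ∈ range m, (H t (A i) ω * H t' Z ω - H t (A' i) ω * H t' Z ω) := by
      intro ω
      simp only [F, g]
      rw [Finset.sum_mul]
      exact Finset.sum_congr rfl fun i _ => by ring
    rw [integral_congr_ae (Filter.Eventually.of_forall e), integral_finsetSum _
      (fun i _ => hdiff _ _ _ _ _ _ _ _)]
    have e3 : ∀ i ∈ range m, ∫ ω, (H t (A i) ω * H t' Z ω - H t (A' i) ω * H t' Z ω) ∂P =
        ∫ ω, H t S ω * H t' (S ∪ y) ω ∂P - ∫ ω, H t S ω * H t' y' ω ∂P := by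
      intro i hi
      rw [integral_sub (hprod _ _ _ _) (hprod _ _ _ _), e1 i (Finset.mem_range.mp hi), e2 i]
    rw [Finset.sum_congr rfl e3, Finset.sum_const, Finset.card_range, nsmul_eq_mul]
  -- second moment
  have hgg : ∀ i j, Integrable (fun ω => g i ω * g j ω) P := by
    intro i j
    refine samp_int ((hgm i).mul (hgm j)) 1 (fun ω => ?_)
    rw [abs_mul]
    exact mul_le_one₀ (hgb i ω) (abs_nonneg _) (hgb j ω)
  have hij : ∀ i < m, ∀ j < m, i ≠ j → ∫ ω, g i ω * g j ω ∂P = 0 := by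
    intro i hi j hj hne
    have e : ∀ ω, g i ω * g j ω = (H t (A i) ω * H t (A j) ω - H t (A i) ω * H t (A' j) ω) -
        (H t (A' i) ω * H t (A j) ω - H t (A' i) ω * H t (A' j) ω) := by
      intro ω
      simp only [g]
      ring
    rw [integral_congr_ae (Filter.Eventually.of_forall e), integral_sub
      (hdiff _ _ _ _ _ _ _ _) (hdiff _ _ _ _ _ _ _ _),
      integral_sub (hprod _ _ _ _) (hprod _ _ _ _), integral_sub (hprod _ _ _ _) (hprod _ _ _ _)]
    have q1 := (ef_two h t t (A i) (A i) (A j) (A' j) (hAB i) (hAB i) (hAB j) (hAB' j)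
      (hAA i j hne) (hAX i hi j) rfl (by rw [hAc, hAc'])).1
    have q2 := (ef_two h t t (A' i) (A' i) (A j) (A' j) (hAB' i) (hAB' i) (hAB j) (hAB' j)
      (hAX j hj i).symm (hAA' i j hne) rfl (by rw [hAc, hAc'])).1
    rw [q1, q2]
    ring
  have hii : ∀ i, ∫ ω, g i ω * g i ω ∂P ≤ 1 := by
    intro i
    have : ∫ ω, g i ω * g i ω ∂P ≤ ∫ _ω, (1 : ℝ) ∂P := by
      refine integral_mono (hgg i i) (integrable_const _) (fun ω => ?_)
      have := hgb i ω
      have h2 : |g i ω| * |g i ω| ≤ 1 := mul_le_one₀ this (abs_nonneg _) this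
      rwa [abs_mul_abs_self] at h2
    simpa using this
  have hF2 : ∫ ω, (F ω) ^ 2 ∂P ≤ m := by
    have e0 : ∫ ω, (F ω) ^ 2 ∂P ≤ ∫ ω, ∑ i ∈ range m, ∑ j ∈ range m, g i ω * g j ω ∂P := by
      refine integral_mono (samp_int (hFm.pow_const 2) ((m : ℝ) ^ 2) (fun ω => ?_))
        (integrable_finsetSum _ fun i _ => integrable_finsetSum _ fun j _ => hgg i j)
        (fun ω => ?_)
      · rw [abs_pow]
        exact pow_le_pow_left₀ (abs_nonneg _) (hFb ω) 2
      · have e : ∑ i ∈ range m, ∑ j ∈ range m, g i ω * g j ω = (∑ i ∈ range m, g i ω) ^ 2 := by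
          rw [sq, Finset.sum_mul_sum]
        change (F ω) ^ 2 ≤ ∑ i ∈ range m, ∑ j ∈ range m, g i ω * g j ω
        rw [e]
        simp only [F]
        rw [mul_pow]
        have h1 : H t' Z ω ^ 2 ≤ 1 := pow_le_one₀ (h.nonneg _ _ _) (h.le_one _ _ _)
        calc (∑ i ∈ range m, g i ω) ^ 2 * H t' Z ω ^ 2 ≤ (∑ i ∈ range m, g i ω) ^ 2 * 1 :=
              mul_le_mul_of_nonneg_left h1 (sq_nonneg _)
          _ = (∑ i ∈ range m, g i ω) ^ 2 := mul_one _
    refine e0.trans ?_
    rw [integral_finsetSum _ (fun i _ => integrable_finsetSum _ fun j _ => hgg i j)]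
    have e1 : ∀ i ∈ range m, ∫ ω, ∑ j ∈ range m, g i ω * g j ω ∂P ≤ 1 := by
      intro i hi
      rw [integral_finsetSum _ (fun j _ => hgg i j)]
      rw [Finset.sum_eq_single_of_mem i hi (fun j hj hne =>
        hij i (Finset.mem_range.mp hi) j (Finset.mem_range.mp hj) (Ne.symm hne))]
      exact hii i
    refine (Finset.sum_le_sum e1).trans ?_
    simp
  have hfin := (samp_sq hFm m hFb (P := P)).trans hF2
  rw [hD] at hfin
  set D : ℝ := ∫ ω, H t S ω * H t' (S ∪ y) ω ∂P - ∫ ω, H t S ω * H t' y' ω ∂P with hDd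
  have h1 : D ^ 2 ≤ 1 / m := by
    rw [le_div_iff₀ hmp]
    have h2 : m * (D ^ 2 * m) ≤ m * 1 := by nlinarith
    exact le_of_mul_le_mul_left h2 hmp
  have h3 : |D| ≤ Real.sqrt (1 / m) := Real.abs_le_sqrt h1
  rwa [Real.sqrt_div zero_le_one, Real.sqrt_one] at h3

end Pool.Agent.Lib.MP_90b327_co.WW
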