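import Mathlib
import Pool.Agent.Lib.MP_90b327_co.WW.WDefs
import Pool.Agent.Lib.MP_90b327_co.WW.EfEq
import Pool.Agent.Lib.MP_90b327_co.WW.Samp

/-!
MODULE GaBe (25 minutes, old scale). Comparison of `ga` and `be`.

PROOF. (1) For `b` with `m * a ≤ a + b`: `be P B H t a t' (a + b) ≤ ga P B H t a t' b + 1 / √m`: `samp` with `S = fs B _ 0 a`, `y = fs B _ 1 b` and any
`y'` of size `a + b` disjoint from `S`, `B`; `ef_two` identifies the integrals with `ga`, `be` (the sets `fs B L 0 a`, `fs B L 1 b` are disjoint if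
`a ≤ L`, of sizes `a`, `b`, disjoint from `B`).
(2) `0 ≤ be ≤ 1`, `0 ≤ ga`. Sum over `b' = b + 1`, `b < L`: the terms with `b + 1 ≤ (m + 1) * a` contribute at most `(m + 1) * a`; for `b + 1 > (m + 1) a` write
`b + 1 = a + b'` with `b' > m a`, `1 ≤ b' ≤ L`, and use (1) (the map `b ↦ b + 1 - a` is injective into `1..L`): at most
`∑ b ∈ range L, ga P B H t a t' (b + 1) + L / √m`.
-/

set_option autoImplicit false

namespace Pool.Agent.Lib.MP_90b327_co.WW

open Finset MeasureTheory Pool.Agent.Lib.MP_90b327_co Pool.Agent.Lib.MP_90b327_co.RB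

private theorem gb_fs_card (B : Finset ℕ) (L r a : ℕ) : (fs B L r a).card = a := by
  unfold fs
  rw [Finset.card_image_of_injective _ (fun i j hij => by simpa using hij), Finset.card_range]

private theorem gb_fs_disj (B : Finset ℕ) (L r a : ℕ) : Disjoint (fs B L r a) B := by
  rw [Finset.disjoint_left]
  intro x hx hxB
  unfold fs at hx
  rw [Finset.mem_image] at hx
  obtain ⟨i, -, rfl⟩ := hx
  have h1 : B.sup id + 1 + r * L + i ≤ B.sup id := Finset.le_sup (f := id) hxB
  omega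

private theorem gb_fs_sep (B : Finset ℕ) (L a b : ℕ) (h : a ≤ L) (L' : ℕ) :
    Disjoint (fs B L' 0 a) (fs B L 1 b) := by
  rw [Finset.disjoint_left]
  intro x hx hx'
  unfold fs at hx hx'
  rw [Finset.mem_image] at hx hx'
  obtain ⟨i, hi, rfl⟩ := hx
  obtain ⟨j, -, hj⟩ := hx'
  rw [Finset.mem_range] at hi
  simp only [Nat.zero_mul, Nat.one_mul] at hj
  omega

theorem ga_nonneg {Ω : Type} [MeasurableSpace Ω] {P : Measure Ω} {B : Finset ℕ}
    {H : ℕ → Finset ℕ → Ω → ℝ} (h : EF P B H) (t a t' b : ℕ) : 0 ≤ ga P B H t a t' b :=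
  integral_nonneg fun ω => mul_nonneg (h.nonneg _ _ _) (h.nonneg _ _ _)

private theorem gb_int {Ω : Type} [MeasurableSpace Ω] {P : Measure Ω} [IsProbabilityMeasure P]
    {B : Finset ℕ} {H : ℕ → Finset ℕ → Ω → ℝ} (h : EF P B H) (t t' : ℕ) (S S' : Finset ℕ) :
    Integrable (fun ω => H t S ω * H t' S' ω) P := by
  refine Integrable.of_bound ((h.meas t S).mul (h.meas t' S')).aestronglyMeasurable 1
    (Filter.Eventually.of_forall fun ω => ?_)
  show ‖H t S ω * H t' S' ω‖ ≤ 1
  rw [Real.norm_eq_abs, abs_mul, abs_of_nonneg (h.nonneg _ _ _), abs_of_nonneg (h.nonneg _ _ _)]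
  exact mul_le_one₀ (h.le_one _ _ _) (h.nonneg _ _ _) (h.le_one _ _ _)

private theorem gb_le_one {Ω : Type} [MeasurableSpace Ω] {P : Measure Ω} [IsProbabilityMeasure P]
    {B : Finset ℕ} {H : ℕ → Finset ℕ → Ω → ℝ} (h : EF P B H) (t t' : ℕ) (S S' : Finset ℕ) :
    ∫ ω, H t S ω * H t' S' ω ∂P ≤ 1 := by
  have h1 : ∫ ω, H t S ω * H t' S' ω ∂P ≤ ∫ _ω, (1 : ℝ) ∂P :=
    integral_mono (gb_int h t t' S S') (integrable_const _) fun ω =>
      mul_le_one₀ (h.le_one _ _ _) (h.nonneg _ _ _) (h.le_one _ _ _)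
  simpa using h1

theorem ga_le_one {Ω : Type} [MeasurableSpace Ω] {P : Measure Ω} [IsProbabilityMeasure P] {B : Finset ℕ}
    {H : ℕ → Finset ℕ → Ω → ℝ} (h : EF P B H) (t a t' b : ℕ) : ga P B H t a t' b ≤ 1 :=
  gb_le_one h _ _ _ _

private theorem gb_step {Ω : Type} [MeasurableSpace Ω] {P : Measure Ω} [IsProbabilityMeasure P]
    {B : Finset ℕ} {H : ℕ → Finset ℕ → Ω → ℝ} (h : EF P B H) (t t' a m b : ℕ) (hm : 1 ≤ m)
    (hb : m * a ≤ a + b) :
    be P B H t a t' (a + b) ≤ ga P B H t a t' b + 1 / Real.sqrt m := by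
  have e0 : fs B (a + (a + b)) 0 a = fs B (a + b) 0 a := by
    unfold fs
    simp
  have h1 := samp h t t' m hm (fs B (a + b) 0 a) (fs B (a + b) 1 b) (fs B (a + (a + b)) 1 (a + b))
    (gb_fs_disj _ _ _ _) (gb_fs_disj _ _ _ _) (gb_fs_disj _ _ _ _)
    (gb_fs_sep _ _ _ _ (by omega) _) (gb_fs_sep _ _ _ _ (by omega) _)
    (by rw [gb_fs_card, gb_fs_card, gb_fs_card])
    (by rw [gb_fs_card, gb_fs_card]; exact hb)
  have h2 := (abs_le.1 h1).1
  unfold be ga
  rw [e0]
  linarith

theorem ga_be {Ω : Type} [MeasurableSpace Ω] {P : Measure Ω} [IsProbabilityMeasure P] {B : Finset ℕ}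
    {H : ℕ → Finset ℕ → Ω → ℝ} (h : EF P B H) (t t' a L m : ℕ) (hm : 1 ≤ m) :
    ∑ b ∈ range L, be P B H t a t' (b + 1) ≤
      ∑ b ∈ range L, ga P B H t a t' (b + 1) + ((m : ℝ) + 1) * a + L / Real.sqrt m := by
  classical
  rw [← Finset.sum_filter_add_sum_filter_not (range L) (fun b => b + 1 ≤ (m + 1) * a)
    (fun b => be P B H t a t' (b + 1))]
  have h1 : ∑ b ∈ (range L).filter (fun b => b + 1 ≤ (m + 1) * a), be P B H t a t' (b + 1) ≤
      ((m : ℝ) + 1) * a := by
    have hc : ((range L).filter (fun b => b + 1 ≤ (m + 1) * a)).card ≤ (m + 1) * a := by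
      have : (range L).filter (fun b => b + 1 ≤ (m + 1) * a) ⊆ range ((m + 1) * a) := by
        intro b hb
        rw [Finset.mem_filter] at hb
        rw [Finset.mem_range]
        omega
      simpa using Finset.card_le_card this
    calc ∑ b ∈ (range L).filter (fun b => b + 1 ≤ (m + 1) * a), be P B H t a t' (b + 1)
        ≤ ∑ _b ∈ (range L).filter (fun b => b + 1 ≤ (m + 1) * a), (1 : ℝ) :=
          Finset.sum_le_sum fun b _ => gb_le_one h _ _ _ _
      _ = (((range L).filter (fun b => b + 1 ≤ (m + 1) * a)).card : ℝ) := by simp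
      _ ≤ (((m + 1) * a : ℕ) : ℝ) := by exact_mod_cast hc
      _ = ((m : ℝ) + 1) * a := by push_cast; ring
  have hs : 0 ≤ 1 / Real.sqrt m := by positivity
  have h2 : ∑ b ∈ (range L).filter (fun b => ¬ (b + 1 ≤ (m + 1) * a)), be P B H t a t' (b + 1) ≤
      ∑ b ∈ range L, ga P B H t a t' (b + 1) + L / Real.sqrt m := by
    set A := (range L).filter (fun b => ¬ (b + 1 ≤ (m + 1) * a)) with hA
    have hAa : ∀ b ∈ A, a ≤ b ∧ b < L ∧ m * a ≤ a + (b - a + 1) := by
      intro b hb
      rw [hA, Finset.mem_filter, Finset.mem_range] at hb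
      have e : (m + 1) * a = m * a + a := by ring
      have h3 := hb.2
      rw [e] at h3
      exact ⟨by omega, hb.1, by omega⟩
    have h3 : ∑ b ∈ A, be P B H t a t' (b + 1) ≤
        ∑ b ∈ A, (ga P B H t a t' (b - a + 1) + 1 / Real.sqrt m) := by
      refine Finset.sum_le_sum fun b hb => ?_
      obtain ⟨g1, g2, g3⟩ := hAa b hb
      have h4 := gb_step h t t' a m (b - a + 1) hm g3
      rwa [show a + (b - a + 1) = b + 1 by omega] at h4
    rw [Finset.sum_add_distrib] at h3
    have h4 : ∑ b ∈ A, ga P B H t a t' (b - a + 1) ≤ ∑ b ∈ range L, ga P B H t a t' (b + 1) := by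
      rw [← Finset.sum_image (f := fun c => ga P B H t a t' (c + 1)) (g := fun b => b - a) (s := A)]
      · refine Finset.sum_le_sum_of_subset_of_nonneg ?_ fun c _ _ => ga_nonneg h _ _ _ _
        intro c hc
        rw [Finset.mem_image] at hc
        obtain ⟨b, hb, rfl⟩ := hc
        have := hAa b hb
        rw [Finset.mem_range]
        omega
      · intro b hb b' hb' hbb
        have g1 := hAa b hb
        have g2 := hAa b' hb'
        have g3 : b - a = b' - a := hbb
        omega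
    have h5 : ∑ _b ∈ A, 1 / Real.sqrt m ≤ L / Real.sqrt m := by
      rw [Finset.sum_const, nsmul_eq_mul]
      have hc : A.card ≤ L := by
        have := Finset.card_filter_le (range L) (fun b => ¬ (b + 1 ≤ (m + 1) * a))
        rw [Finset.card_range] at this
        exact this
      calc (A.card : ℝ) * (1 / Real.sqrt m) ≤ L * (1 / Real.sqrt m) :=
            mul_le_mul_of_nonneg_right (by exact_mod_cast hc) hs
        _ = L / Real.sqrt m := by ring
    linarith
  linarith

end Pool.Agent.Lib.MP_90b327_co.WW
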