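import Mathlib
import Pool.Agent.Lib.MP_90b327_co.WW.WDefs
import Pool.Agent.Lib.MP_90b327_co.WW.EfEq

/-!
MODULE PstA (45 minutes, old scale). Lemma P, first part: second moment.

PROOF. Choose pairwise disjoint sets `S t a` (`t ∈ TT`, `a < l t`) of size `a + 1`, disjoint from `B` (for instance in disjoint intervals).
`f = ∑ t ∈ TT, (1 / l t) ∑ a ∈ range (l t), H t (S t a)`. `E f ≥ n e` (`n = TT.card`; `ef_one`: `E H t (S t a) = mn P B H t (a + 1)`), so
`E f² ≥ (E f)² ≥ n² e²`. `E f² = ∑ t ∑ t' E F t * F t'`, `F t = (1 / l t) ∑ a, H t (S t a) ∈ [0, 1]`. The diagonal is `≤ n`. For `t ≠ t'` (`ef_two`)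
`E F t * F t' = (∑ a, ∑ b, be P B H t (a+1) t' (b+1)) / (l t * l t') =: G t t'`, symmetric in `(t, t')` (`mul_comm`). So
`n² e² ≤ n + 2 ∑ t' ∈ TT, ∑ t ∈ TT, t < t', G t t'`, and some `t'` has `∑ t < t', G t t' ≥ (n e² - 1) / 2` (otherwise the sum over the `n ≥ 1` values of
`t'` is smaller than `n (n e² - 1) / 2`).
-/

set_option autoImplicit false

namespace Pool.Agent.Lib.MP_90b327_co.WW

open Finset MeasureTheory Pool.Agent.Lib.MP_90b327_co Pool.Agent.Lib.MP_90b327_co.RB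

private theorem PstA_fs_card (B : Finset ℕ) (L r a : ℕ) : (fs B L r a).card = a := by
  unfold fs
  rw [card_image_of_injective _ (fun i j h => by
    have h' : B.sup id + 1 + r * L + i = B.sup id + 1 + r * L + j := h
    omega), card_range]

private theorem PstA_fs_B (B : Finset ℕ) (L r a : ℕ) : Disjoint (fs B L r a) B := by
  rw [Finset.disjoint_left]
  intro x hx hxB
  unfold fs at hx
  obtain ⟨i, _, h1⟩ := mem_image.1 hx
  have h2 : x ≤ B.sup id := Finset.le_sup (f := id) hxB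
  omega

private theorem PstA_fs_dis {B : Finset ℕ} {L r r' a b : ℕ} (hr : r ≠ r') (ha : a ≤ L) (hb : b ≤ L) :
    Disjoint (fs B L r a) (fs B L r' b) := by
  rw [Finset.disjoint_left]
  intro x hx hx'
  unfold fs at hx hx'
  obtain ⟨i, hi, h1⟩ := mem_image.1 hx
  obtain ⟨j, hj, h2⟩ := mem_image.1 hx'
  rw [mem_range] at hi hj
  have h3 : r * L + i = r' * L + j := by omega
  rcases Nat.lt_or_gt_of_ne hr with h | h
  · have h4 : (r + 1) * L ≤ r' * L := Nat.mul_le_mul_right _ h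
    rw [Nat.add_mul, Nat.one_mul] at h4
    omega
  · have h4 : (r' + 1) * L ≤ r * L := Nat.mul_le_mul_right _ h
    rw [Nat.add_mul, Nat.one_mul] at h4
    omega

private theorem PstA_sym (TT : Finset ℕ) (I : ℕ → ℕ → ℝ) (hI : ∀ t t', I t t' = I t' t) :
    ∑ t ∈ TT, ∑ t' ∈ TT, I t t' = ∑ t' ∈ TT, (I t' t' + 2 * ∑ t ∈ TT.filter (fun t => t < t'), I t t') := by
  have h1 : ∀ t' ∈ TT, ∑ t ∈ TT, I t t' = ∑ t ∈ TT.filter (fun t => t < t'), I t t' + I t' t' +
      ∑ t ∈ TT.filter (fun t => t' < t), I t t' := by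
    intro t' ht'
    have h2 : ∀ t ∈ TT, I t t' = (if t < t' then I t t' else 0) + (if t = t' then I t t' else 0) + (if t' < t then I t t' else 0) := by
      intro t _
      rcases lt_trichotomy t t' with h | h | h
      · rw [if_pos h, if_neg (by omega), if_neg (by omega)]
        ring
      · rw [if_neg (by omega), if_pos h, if_neg (by omega)]
        ring
      · rw [if_neg (by omega), if_neg (by omega), if_pos h]
        ring
    rw [sum_congr rfl h2, sum_add_distrib, sum_add_distrib, Finset.sum_ite_eq' TT t' (fun t => I t t'), if_pos ht', ← sum_filter, ← sum_filter]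
  have h3 : ∑ t' ∈ TT, ∑ t ∈ TT.filter (fun t => t' < t), I t t' = ∑ t' ∈ TT, ∑ t ∈ TT.filter (fun t => t < t'), I t t' := by
    have e1 : ∀ t' ∈ TT, ∑ t ∈ TT.filter (fun t => t' < t), I t t' = ∑ t ∈ TT, if t' < t then I t t' else 0 := fun t' _ => sum_filter _ _
    have e2 : ∀ t' ∈ TT, ∑ t ∈ TT.filter (fun t => t < t'), I t t' = ∑ t ∈ TT, if t < t' then I t t' else 0 := fun t' _ => sum_filter _ _
    rw [sum_congr rfl e1, sum_congr rfl e2, sum_comm]
    refine sum_congr rfl fun t _ => sum_congr rfl fun t' _ => ?_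
    rw [hI t t']
  rw [sum_comm, sum_congr rfl h1, sum_add_distrib, sum_add_distrib, h3, sum_add_distrib, ← mul_sum]
  ring

private theorem PstA_int {Ω : Type} [MeasurableSpace Ω] {P : Measure Ω} [IsProbabilityMeasure P] {f : Ω → ℝ}
    (hf : Measurable f) (C : ℝ) (h0 : ∀ ω, |f ω| ≤ C) : Integrable f P :=
  Integrable.of_bound hf.aestronglyMeasurable C (Filter.Eventually.of_forall h0)

private theorem PstA_sq {Ω : Type} [MeasurableSpace Ω] {P : Measure Ω} [IsProbabilityMeasure P] {f : Ω → ℝ}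
    (hf : Measurable f) (C : ℝ) (h0 : ∀ ω, |f ω| ≤ C) : (∫ ω, f ω ∂P) ^ 2 ≤ ∫ ω, f ω ^ 2 ∂P := by
  set c := ∫ ω, f ω ∂P with hc
  have hi := PstA_int (P := P) hf C h0
  have hi2 : Integrable (fun ω => f ω ^ 2) P := by
    refine PstA_int (hf.pow_const 2) (C ^ 2) fun ω => ?_
    rw [abs_pow]
    exact pow_le_pow_left₀ (abs_nonneg _) (h0 ω) 2
  have h1 : 0 ≤ ∫ ω, (f ω - c) ^ 2 ∂P := integral_nonneg fun ω => sq_nonneg _
  have h2 : ∫ ω, (f ω - c) ^ 2 ∂P = ∫ ω, f ω ^ 2 ∂P - c ^ 2 := by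
    have e1 : ∀ ω, (f ω - c) ^ 2 = f ω ^ 2 - (2 * c * f ω - c ^ 2) := fun ω => by ring
    simp only [e1]
    have i1 : Integrable (fun ω => 2 * c * f ω) P := hi.const_mul (2 * c)
    have i2 : Integrable (fun ω => 2 * c * f ω - c ^ 2) P := i1.sub (integrable_const _)
    rw [integral_sub hi2 i2, integral_sub i1 (integrable_const _), integral_const_mul, integral_const, ← hc]
    simp only [probReal_univ, smul_eq_mul, one_mul]
    ring
  linarith

theorem pst_a {Ω : Type} [MeasurableSpace Ω] {P : Measure Ω} [IsProbabilityMeasure P] {B : Finset ℕ}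
    {H : ℕ → Finset ℕ → Ω → ℝ} (h : EF P B H) (TT : Finset ℕ) (hne : TT.Nonempty) (l : ℕ → ℕ)
    (hl : ∀ t ∈ TT, 1 ≤ l t) (e : ℝ) (he : 0 ≤ e)
    (hm : ∀ t ∈ TT, e * l t ≤ ∑ a ∈ range (l t), mn P B H t (a + 1)) :
    ∃ t' ∈ TT, ((TT.card : ℝ) * e ^ 2 - 1) / 2 ≤ ∑ t ∈ TT.filter (fun t => t < t'),
      (∑ a ∈ range (l t), ∑ b ∈ range (l t'), be P B H t (a + 1) t' (b + 1)) /
        ((l t : ℝ) * (l t' : ℝ)) := by
  set L := TT.sup l with hL
  set S : ℕ → ℕ → Finset ℕ := fun t a => fs B L t (a + 1) with hS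
  have hSB : ∀ t a, Disjoint (S t a) B := fun t a => PstA_fs_B B L t (a + 1)
  have hSc : ∀ t a, (S t a).card = a + 1 := fun t a => PstA_fs_card B L t (a + 1)
  have hlL : ∀ t ∈ TT, l t ≤ L := fun t ht => Finset.le_sup ht
  have hSd : ∀ t ∈ TT, ∀ t' ∈ TT, t ≠ t' → ∀ a ∈ range (l t), ∀ b ∈ range (l t'), Disjoint (S t a) (S t' b) := by
    intro t ht t' ht' hne a ha b hb
    rw [mem_range] at ha hb
    have h1 := hlL t ht
    have h2 := hlL t' ht'
    exact PstA_fs_dis hne (by omega) (by omega)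
  have hint : ∀ t (A : Finset ℕ), Integrable (H t A) P := fun t A =>
    PstA_int (h.meas t A) 1 fun ω => by
      rw [abs_of_nonneg (h.nonneg t A ω)]
      exact h.le_one t A ω
  have hint2 : ∀ t (A : Finset ℕ) t' (A' : Finset ℕ), Integrable (fun ω => H t A ω * H t' A' ω) P := fun t A t' A' =>
    PstA_int ((h.meas t A).mul (h.meas t' A')) 1 fun ω => by
      rw [abs_of_nonneg (mul_nonneg (h.nonneg t A ω) (h.nonneg t' A' ω))]
      exact mul_le_one₀ (h.le_one t A ω) (h.nonneg t' A' ω) (h.le_one t' A' ω)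
  set F : ℕ → Ω → ℝ := fun t ω => 1 / (l t : ℝ) * ∑ a ∈ range (l t), H t (S t a) ω with hF
  have hFm : ∀ t, Measurable (F t) := by
    intro t
    simp only [hF]
    exact (Finset.measurable_fun_sum _ fun a _ => h.meas t (S t a)).const_mul _
  have hF0 : ∀ t ω, 0 ≤ F t ω := by
    intro t ω
    simp only [hF]
    exact mul_nonneg (by positivity) (sum_nonneg fun a _ => h.nonneg _ _ _)
  have hF1 : ∀ t ∈ TT, ∀ ω, F t ω ≤ 1 := by
    intro t ht ω
    have h1 : (0 : ℝ) < l t := by exact_mod_cast hl t ht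
    simp only [hF]
    rw [div_mul_eq_mul_div, one_mul, div_le_one h1]
    calc ∑ a ∈ range (l t), H t (S t a) ω ≤ ∑ _a ∈ range (l t), (1 : ℝ) := sum_le_sum fun a _ => h.le_one _ _ _
      _ = l t := by rw [sum_const, card_range, nsmul_eq_mul, mul_one]
  set f : Ω → ℝ := fun ω => ∑ t ∈ TT, F t ω with hf
  have hfm : Measurable f := Finset.measurable_fun_sum _ fun t _ => hFm t
  have hf0 : ∀ ω, 0 ≤ f ω := fun ω => sum_nonneg fun t _ => hF0 t ω
  have hfb : ∀ ω, |f ω| ≤ (TT.card : ℝ) := by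
    intro ω
    rw [abs_of_nonneg (hf0 ω)]
    calc f ω ≤ ∑ _t ∈ TT, (1 : ℝ) := sum_le_sum fun t ht => hF1 t ht ω
      _ = TT.card := by rw [sum_const, nsmul_eq_mul, mul_one]
  -- the mean
  have hEF : ∀ t ∈ TT, e ≤ ∫ ω, F t ω ∂P := by
    intro t ht
    have h1 : (0 : ℝ) < l t := by exact_mod_cast hl t ht
    have h2 : ∫ ω, F t ω ∂P = 1 / (l t : ℝ) * ∑ a ∈ range (l t), mn P B H t (a + 1) := by
      simp only [hF]
      rw [integral_const_mul, integral_finsetSum _ fun a _ => hint t (S t a)]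
      congr 1
      refine sum_congr rfl fun a _ => ?_
      unfold mn
      exact ef_one h t _ _ (hSB t a) (PstA_fs_B B 0 0 (a + 1)) (by rw [hSc, PstA_fs_card])
    rw [h2, div_mul_eq_mul_div, one_mul, le_div_iff₀ h1]
    exact hm t ht
  have hEf : (TT.card : ℝ) * e ≤ ∫ ω, f ω ∂P := by
    simp only [hf]
    rw [integral_finsetSum _ fun t ht => PstA_int (hFm t) 1 fun ω => by
      rw [abs_of_nonneg (hF0 t ω)]
      exact hF1 t ht ω]
    calc (TT.card : ℝ) * e = ∑ _t ∈ TT, e := by rw [sum_const, nsmul_eq_mul]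
      _ ≤ _ := sum_le_sum hEF
  have hE2 : ((TT.card : ℝ) * e) ^ 2 ≤ ∫ ω, f ω ^ 2 ∂P :=
    (pow_le_pow_left₀ (by positivity) hEf 2).trans (PstA_sq hfm _ hfb)
  -- the second moment
  set I : ℕ → ℕ → ℝ := fun t t' => ∫ ω, F t ω * F t' ω ∂P with hI
  have hIs : ∀ t t', I t t' = I t' t := by
    intro t t'
    simp only [hI]
    congr 1
    funext ω
    ring
  have hIint : ∀ t ∈ TT, ∀ t' ∈ TT, Integrable (fun ω => F t ω * F t' ω) P := fun t ht t' ht' =>
    PstA_int ((hFm t).mul (hFm t')) 1 fun ω => by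
      rw [abs_of_nonneg (mul_nonneg (hF0 t ω) (hF0 t' ω))]
      exact mul_le_one₀ (hF1 t ht ω) (hF0 t' ω) (hF1 t' ht' ω)
  have h2 : ∫ ω, f ω ^ 2 ∂P = ∑ t ∈ TT, ∑ t' ∈ TT, I t t' := by
    have e1 : ∀ ω, f ω ^ 2 = ∑ t ∈ TT, ∑ t' ∈ TT, F t ω * F t' ω := by
      intro ω
      simp only [hf]
      rw [pow_two, sum_mul_sum]
    simp only [e1]
    rw [integral_finsetSum _ fun t ht => integrable_finsetSum _ fun t' ht' => hIint t ht t' ht']
    refine sum_congr rfl fun t ht => ?_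
    rw [integral_finsetSum _ fun t' ht' => hIint t ht t' ht']
  have hdiag : ∀ t ∈ TT, I t t ≤ 1 := by
    intro t ht
    simp only [hI]
    calc ∫ ω, F t ω * F t ω ∂P ≤ ∫ _ω, (1 : ℝ) ∂P := by
          refine integral_mono (hIint t ht t ht) (integrable_const _) fun ω => ?_
          exact mul_le_one₀ (hF1 t ht ω) (hF0 t ω) (hF1 t ht ω)
      _ = 1 := by simp
  have hoff : ∀ t ∈ TT, ∀ t' ∈ TT, t ≠ t' → I t t' = (∑ a ∈ range (l t), ∑ b ∈ range (l t'), be P B H t (a + 1) t' (b + 1)) /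
        ((l t : ℝ) * (l t' : ℝ)) := by
    intro t ht t' ht' hne'
    simp only [hI, hF]
    have e1 : ∀ ω, (1 / (l t : ℝ) * ∑ a ∈ range (l t), H t (S t a) ω) * (1 / (l t' : ℝ) * ∑ a ∈ range (l t'), H t' (S t' a) ω) =
        1 / ((l t : ℝ) * (l t' : ℝ)) * ∑ a ∈ range (l t), ∑ b ∈ range (l t'), H t (S t a) ω * H t' (S t' b) ω := by
      intro ω
      rw [mul_mul_mul_comm, sum_mul_sum]
      congr 1
      rw [div_mul_div_comm, one_mul]
    simp only [e1]
    rw [integral_const_mul, div_mul_eq_mul_div, one_mul]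
    congr 1
    rw [integral_finsetSum _ fun a _ => integrable_finsetSum _ fun b _ => hint2 t (S t a) t' (S t' b)]
    refine sum_congr rfl fun a ha => ?_
    rw [integral_finsetSum _ fun b _ => hint2 t (S t a) t' (S t' b)]
    refine sum_congr rfl fun b hb => ?_
    unfold be
    exact (ef_two h t t' _ _ _ _ (hSB t a) (PstA_fs_B _ _ _ _) (hSB t' b) (PstA_fs_B _ _ _ _)
      (hSd t ht t' ht' hne' a ha b hb) (PstA_fs_dis (by norm_num) (by omega) (by omega)) (by rw [hSc, PstA_fs_card])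
      (by rw [hSc, PstA_fs_card])).1
  rw [h2, PstA_sym TT I hIs] at hE2
  by_contra hcon
  push Not at hcon
  have hn : (0 : ℝ) < TT.card := by exact_mod_cast hne.card_pos
  have hlt : ∑ t' ∈ TT, (I t' t' + 2 * ∑ t ∈ TT.filter (fun t => t < t'), I t t') < ∑ _t' ∈ TT, ((TT.card : ℝ) * e ^ 2) := by
    refine sum_lt_sum_of_nonempty hne fun t' ht' => ?_
    have e1 := hdiag t' ht'
    have e2 := hcon t' ht'
    have e3 : ∑ t ∈ TT.filter (fun t => t < t'), I t t' = ∑ t ∈ TT.filter (fun t => t < t'),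
      (∑ a ∈ range (l t), ∑ b ∈ range (l t'), be P B H t (a + 1) t' (b + 1)) / ((l t : ℝ) * (l t' : ℝ)) := by
      refine sum_congr rfl fun t ht => ?_
      rw [mem_filter] at ht
      exact hoff t ht.1 t' ht' (by omega)
    rw [e3]
    linarith
  rw [sum_const, nsmul_eq_mul] at hlt
  have : ((TT.card : ℝ) * e) ^ 2 = (TT.card : ℝ) * ((TT.card : ℝ) * e ^ 2) := by ring
  linarith

end Pool.Agent.Lib.MP_90b327_co.WW
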