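import Mathlib
import Pool.Agent.Lib.MP_90b327_co.WW.WDefs
import Pool.Agent.Lib.MP_90b327_co.WW.EfEq
import Pool.Agent.Lib.MP_90b327_co.WW.EfStep
import Pool.Agent.Lib.MP_90b327_co.WW.PstA
import Pool.Agent.Lib.MP_90b327_co.WW.GaBe

/-!
MODULE PStep (45 minutes, old scale). Lemma P (one step).

PROOF. Choose `m ≥ 1` with `n / √m ≤ 1/4` and `Λ ≥ 4 n (m + 1)`, `Λ ≥ 1`. `pst_a` gives `t'`. `L := l t'`. For `t ∈ TT`, `t < t'`, `a ≤ l t`: by `ga_be`,
`(1/L) ∑ b, be t a t' (b+1) ≤ (1/L) ∑ b, ga t a t' (b+1) + (m + 1) (l t) / L + 1 / √m`, and `(m + 1) l t / L ≤ (m + 1) / Λ ≤ 1 / (4 n)`. Average over `a`, sum over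
the `≤ n` values of `t`: with `Ga t b = (1 / l t) ∑ a, ga t (a+1) t' (b+1)`, `(1/L) ∑ b ∑ t, Ga t b ≥ (n e² - 1)/2 - 1/2 = n e²/2 - 1`. So some `b < L` has
`∑ t, Ga t b ≥ n e² / 2 - 1` (`L ≥ 1`). `TT' := {t ∈ TT, t < t', Ga t b ≥ e²/8}`. As `Ga ≤ 1` (`ga_le_one`): `n e²/2 - 1 ≤ TT'.card + n e²/8`, so
`TT'.card ≥ n e²/4 - 1`. `y := fs B 0 0 (b + 1)`: size `b + 1`, disjoint from `B`. For `t ∈ TT'`: `mn P (B ∪ y) H' t (a + 1) = ga P B H t (a + 1) t' (b + 1)` by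
`ef_two` (the set `fs (B ∪ y) 0 0 (a + 1)` is disjoint from `B ∪ y`), `H' t S = H t S * H t' (S ∪ y)`.
-/

set_option autoImplicit false

namespace Pool.Agent.Lib.MP_90b327_co.WW

open Finset MeasureTheory Pool.Agent.Lib.MP_90b327_co Pool.Agent.Lib.MP_90b327_co.RB

private theorem ps_card (B : Finset ℕ) (L r a : ℕ) : (fs B L r a).card = a := by
  unfold fs
  rw [Finset.card_image_of_injective _ (fun x y h => by simpa using h), Finset.card_range]

private theorem ps_gt (B : Finset ℕ) (L r a x : ℕ) (hx : x ∈ fs B L r a) : B.sup id < x := by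
  unfold fs at hx
  obtain ⟨i, _, rfl⟩ := Finset.mem_image.mp hx
  have := Nat.zero_le (r * L)
  omega

private theorem ps_disj (B B' : Finset ℕ) (hB : B' ⊆ B) (L r a : ℕ) : Disjoint (fs B L r a) B' := by
  rw [Finset.disjoint_left]
  intro x hx hx'
  have h1 := ps_gt B L r a x hx
  have h2 : id x ≤ B.sup id := Finset.le_sup (hB hx')
  simp only [id] at h2
  omega

private theorem ps_disj2 (B : Finset ℕ) (L a b : ℕ) (h : a ≤ L) :
    Disjoint (fs B L 0 a) (fs B L 1 b) := by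
  rw [Finset.disjoint_left]
  intro x hx hx'
  unfold fs at hx hx'
  obtain ⟨i, hi, rfl⟩ := Finset.mem_image.mp hx
  obtain ⟨j, hj, hj'⟩ := Finset.mem_image.mp hx'
  have := Finset.mem_range.mp hi
  omega

theorem p_step (n : ℕ) (hn : 1 ≤ n) : ∃ Λ : ℕ, 1 ≤ Λ ∧
    ∀ (Ω : Type) [MeasurableSpace Ω] (P : Measure Ω) [IsProbabilityMeasure P] (B : Finset ℕ)
      (H : ℕ → Finset ℕ → Ω → ℝ) (_ : EF P B H) (TT : Finset ℕ) (_ : TT.card = n) (l : ℕ → ℕ)
      (_ : ∀ t ∈ TT, 1 ≤ l t) (_ : ∀ t ∈ TT, ∀ t' ∈ TT, t < t' → Λ * l t ≤ l t')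
      (e : ℝ) (_ : 0 ≤ e) (_ : ∀ t ∈ TT, e * l t ≤ ∑ a ∈ range (l t), mn P B H t (a + 1)),
      ∃ t' ∈ TT, ∃ y : Finset ℕ, 1 ≤ y.card ∧ y.card ≤ l t' ∧ Disjoint y B ∧
        ∃ TT' ⊆ TT, (∀ t ∈ TT', t < t') ∧ (n : ℝ) * e ^ 2 / 4 - 1 ≤ (TT'.card : ℝ) ∧
          ∀ t ∈ TT', e ^ 2 / 8 * l t ≤ ∑ a ∈ range (l t),
            mn P (B ∪ y) (fun t S ω => H t S ω * H t' (S ∪ y) ω) t (a + 1) := by
  refine ⟨4 * n * (16 * n ^ 2 + 1), ?_, ?_⟩
  · have h1 : 0 < 4 * n * (16 * n ^ 2 + 1) := by positivity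
    exact h1
  intro Ω _ P _ B H h TT hcard l hl hsep e he hm
  have hnR : (1 : ℝ) ≤ n := by exact_mod_cast hn
  have hne : TT.Nonempty := by
    rw [← Finset.card_pos, hcard]
    exact hn
  obtain ⟨t', ht', hpst⟩ := pst_a h TT hne l hl e he hm
  rw [hcard] at hpst
  set L := l t' with hL
  have hL1 : 1 ≤ L := hl t' ht'
  have hLR : (1 : ℝ) ≤ L := by exact_mod_cast hL1
  have hsqrt : Real.sqrt ((16 * n ^ 2 : ℕ) : ℝ) = 4 * n := by
    have h1 : ((16 * n ^ 2 : ℕ) : ℝ) = (4 * (n : ℝ)) ^ 2 := by push_cast; ring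
    rw [h1, Real.sqrt_sq (by positivity)]
  -- the averages
  set U := TT.filter (fun t => t < t') with hU
  have hUcard : (U.card : ℝ) ≤ n := by
    rw [← hcard]
    exact_mod_cast Finset.card_filter_le _ _
  -- comparison
  have hcomp : ∀ t ∈ U, (∑ a ∈ range (l t), ∑ b ∈ range L, be P B H t (a + 1) t' (b + 1)) /
        ((l t : ℝ) * (L : ℝ)) ≤ (∑ a ∈ range (l t), ∑ b ∈ range L, ga P B H t (a + 1) t' (b + 1)) /
        ((l t : ℝ) * (L : ℝ)) + 1 / (2 * n) := by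
    intro t ht
    have htT : t ∈ TT := (Finset.mem_filter.mp ht).1
    have htt : t < t' := (Finset.mem_filter.mp ht).2
    have hlt : 1 ≤ l t := hl t htT
    have hltR : (1 : ℝ) ≤ l t := by exact_mod_cast hlt
    have hs := hsep t htT t' ht' htt
    have hsR : ((4 * n * (16 * n ^ 2 + 1) : ℕ) : ℝ) * l t ≤ L := by exact_mod_cast hs
    have h1 : ∀ a ∈ range (l t), ∑ b ∈ range L, be P B H t (a + 1) t' (b + 1) ≤
        ∑ b ∈ range L, ga P B H t (a + 1) t' (b + 1) +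
          (((16 * n ^ 2 : ℕ) : ℝ) + 1) * l t + L / (4 * n) := by
      intro a ha
      have h2 := ga_be h t t' (a + 1) L (16 * n ^ 2) (by
        have : 0 < 16 * n ^ 2 := by positivity
        exact this)
      rw [hsqrt] at h2
      have h3 : ((a + 1 : ℕ) : ℝ) ≤ l t := by
        exact_mod_cast Finset.mem_range.mp ha
      have h4 : (((16 * n ^ 2 : ℕ) : ℝ) + 1) * ((a + 1 : ℕ) : ℝ) ≤
          (((16 * n ^ 2 : ℕ) : ℝ) + 1) * l t := by
        apply mul_le_mul_of_nonneg_left h3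
        positivity
      linarith
    have h5 := Finset.sum_le_sum h1
    have h6 : ∑ a ∈ range (l t), (∑ b ∈ range L, ga P B H t (a + 1) t' (b + 1) +
          (((16 * n ^ 2 : ℕ) : ℝ) + 1) * l t + L / (4 * n)) =
        ∑ a ∈ range (l t), ∑ b ∈ range L, ga P B H t (a + 1) t' (b + 1) +
          l t * ((((16 * n ^ 2 : ℕ) : ℝ) + 1) * l t + L / (4 * n)) := by
      simp only [Finset.sum_add_distrib, Finset.sum_const, Finset.card_range, nsmul_eq_mul]
      ring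
    rw [h6] at h5
    have hpos : 0 < (l t : ℝ) * (L : ℝ) := by positivity
    rw [div_le_iff₀ hpos, add_mul, div_mul_cancel₀ _ hpos.ne']
    refine h5.trans ?_
    apply add_le_add le_rfl
    have h7 : (((16 * n ^ 2 : ℕ) : ℝ) + 1) * l t ≤ L / (4 * n) := by
      rw [le_div_iff₀ (by positivity)]
      push_cast at hsR ⊢
      nlinarith [hsR]
    have h8 : 1 / (2 * (n : ℝ)) * (l t * L) = l t * (L / (4 * n) + L / (4 * n)) := by
      field_simp
      ring
    rw [h8]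
    apply mul_le_mul_of_nonneg_left _ (by positivity)
    linarith
  have hsum1 : (n : ℝ) * e ^ 2 / 2 - 1 ≤ ∑ t ∈ U,
      (∑ a ∈ range (l t), ∑ b ∈ range L, ga P B H t (a + 1) t' (b + 1)) /
        ((l t : ℝ) * (L : ℝ)) := by
    have h1 := Finset.sum_le_sum hcomp
    rw [Finset.sum_add_distrib, Finset.sum_const, nsmul_eq_mul] at h1
    have h2 : (U.card : ℝ) * (1 / (2 * n)) ≤ 1 / 2 := by
      calc (U.card : ℝ) * (1 / (2 * n)) ≤ n * (1 / (2 * n)) := by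
            apply mul_le_mul_of_nonneg_right hUcard; positivity
        _ = 1 / 2 := by field_simp
    linarith
  -- choose b
  set Ga : ℕ → ℕ → ℝ := fun t b => (∑ a ∈ range (l t), ga P B H t (a + 1) t' (b + 1)) / (l t : ℝ)
    with hGa
  have hswap : ∑ t ∈ U, (∑ a ∈ range (l t), ∑ b ∈ range L, ga P B H t (a + 1) t' (b + 1)) /
        ((l t : ℝ) * (L : ℝ)) = (∑ b ∈ range L, ∑ t ∈ U, Ga t b) / L := by
    rw [Finset.sum_comm, Finset.sum_div]
    apply Finset.sum_congr rfl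
    intro t _
    rw [Finset.sum_comm, ← Finset.sum_div, div_div]
  rw [hswap, le_div_iff₀ (by positivity)] at hsum1
  have hexb : ∃ b ∈ range L, (n : ℝ) * e ^ 2 / 2 - 1 ≤ ∑ t ∈ U, Ga t b := by
    by_contra hcon
    push Not at hcon
    have h1 : ∑ b ∈ range L, ∑ t ∈ U, Ga t b < ∑ b ∈ range L, ((n : ℝ) * e ^ 2 / 2 - 1) := by
      apply Finset.sum_lt_sum_of_nonempty
      · exact ⟨0, Finset.mem_range.mpr hL1⟩
      · exact hcon
    rw [Finset.sum_const, Finset.card_range, nsmul_eq_mul] at h1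
    linarith
  obtain ⟨b, hb, hbsum⟩ := hexb
  have hbL : b < L := Finset.mem_range.mp hb
  have hGa1 : ∀ t ∈ U, Ga t b ≤ 1 := by
    intro t ht
    have htT : t ∈ TT := (Finset.mem_filter.mp ht).1
    have hlt : 1 ≤ l t := hl t htT
    have hltR : (1 : ℝ) ≤ l t := by exact_mod_cast hlt
    simp only [hGa]
    rw [div_le_one (by positivity)]
    calc ∑ a ∈ range (l t), ga P B H t (a + 1) t' (b + 1) ≤ ∑ a ∈ range (l t), (1 : ℝ) :=
          Finset.sum_le_sum (fun a _ => ga_le_one h t (a + 1) t' (b + 1))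
      _ = l t := by simp
  refine ⟨t', ht', fs B 0 0 (b + 1), ?_, ?_, ps_disj B B (Finset.Subset.refl B) 0 0 (b + 1),
    U.filter (fun t => e ^ 2 / 8 ≤ Ga t b), ?_, ?_, ?_, ?_⟩
  · rw [ps_card]; omega
  · rw [ps_card]; exact hbL
  · exact (Finset.filter_subset _ _).trans (Finset.filter_subset _ _)
  · intro t ht
    exact (Finset.mem_filter.mp (Finset.mem_filter.mp ht).1).2
  · have h1 := Finset.sum_filter_add_sum_filter_not U (fun t => e ^ 2 / 8 ≤ Ga t b)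
      (fun t => Ga t b)
    have h2 : ∑ t ∈ U.filter (fun t => e ^ 2 / 8 ≤ Ga t b), Ga t b ≤
        ((U.filter (fun t => e ^ 2 / 8 ≤ Ga t b)).card : ℝ) := by
      calc ∑ t ∈ U.filter (fun t => e ^ 2 / 8 ≤ Ga t b), Ga t b ≤
          ∑ t ∈ U.filter (fun t => e ^ 2 / 8 ≤ Ga t b), (1 : ℝ) :=
            Finset.sum_le_sum (fun t ht => hGa1 t (Finset.mem_filter.mp ht).1)
        _ = _ := by simp
    have h3 : ∑ t ∈ U.filter (fun t => ¬ e ^ 2 / 8 ≤ Ga t b), Ga t b ≤ n * (e ^ 2 / 8) := by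
      calc ∑ t ∈ U.filter (fun t => ¬ e ^ 2 / 8 ≤ Ga t b), Ga t b ≤
          ∑ t ∈ U.filter (fun t => ¬ e ^ 2 / 8 ≤ Ga t b), (e ^ 2 / 8) :=
            Finset.sum_le_sum (fun t ht => (not_le.mp (Finset.mem_filter.mp ht).2).le)
        _ = ((U.filter (fun t => ¬ e ^ 2 / 8 ≤ Ga t b)).card : ℝ) * (e ^ 2 / 8) := by
            rw [Finset.sum_const, nsmul_eq_mul]
        _ ≤ n * (e ^ 2 / 8) := by
            apply mul_le_mul_of_nonneg_right _ (by positivity)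
            refine le_trans ?_ hUcard
            exact_mod_cast Finset.card_filter_le _ _
    have h4 : 0 ≤ (n : ℝ) * e ^ 2 := by positivity
    nlinarith [h1, h2, h3, h4, hbsum]
  · intro t ht
    have htU : t ∈ U := (Finset.mem_filter.mp ht).1
    have htT : t ∈ TT := (Finset.mem_filter.mp htU).1
    have hlt : 1 ≤ l t := hl t htT
    have hltR : (1 : ℝ) ≤ l t := by exact_mod_cast hlt
    have h1 : e ^ 2 / 8 ≤ Ga t b := (Finset.mem_filter.mp ht).2
    simp only [hGa] at h1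
    rw [le_div_iff₀ (by positivity)] at h1
    refine h1.trans (le_of_eq ?_)
    apply Finset.sum_congr rfl
    intro a _
    unfold mn ga
    refine ((ef_two h t t' (fs (B ∪ fs B 0 0 (b + 1)) 0 0 (a + 1))
      (fs B (a + 1 + (b + 1)) 0 (a + 1)) (fs B 0 0 (b + 1)) (fs B (a + 1 + (b + 1)) 1 (b + 1))
      ?_ ?_ ?_ ?_ ?_ ?_ ?_ ?_).2).symm
    · exact ps_disj _ _ Finset.subset_union_left _ _ _
    · exact ps_disj _ _ (Finset.Subset.refl B) _ _ _
    · exact ps_disj _ _ (Finset.Subset.refl B) _ _ _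
    · exact ps_disj _ _ (Finset.Subset.refl B) _ _ _
    · exact ps_disj _ _ Finset.subset_union_right _ _ _
    · exact ps_disj2 _ _ _ _ (by omega)
    · rw [ps_card, ps_card]
    · rw [ps_card, ps_card]

end Pool.Agent.Lib.MP_90b327_co.WW
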