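import Mathlib
import Pool.Agent.Lib.MP_90b327_co.WW.WDefs
import Pool.Agent.Lib.MP_90b327_co.WW.PStep
import Pool.Agent.Lib.MP_90b327_co.WW.EfStep
import Pool.Agent.Lib.MP_90b327_co.WW.EfEq
import Pool.Agent.Lib.MP_90b327_co.WW.HRa

/-!
MODULE PIter (50 minutes, old scale). `R` steps.

PROOF. Induction on `R` (for all `e`). `R = 0`: `n = 1`, `c = e`, `Λ = 1`: take `t ∈ TT`; some `a < l t` has `mn P B H t (a + 1) ≥ e` (the mean is `≥ e`); `τ = fun _ => t`,
`Y = fun _ => fs B 0 0 (a + 1)`; `HR H [] t S = H t S`.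
`R + 1`: let `e' = e²/8` and `n', c', Λ'` be the numbers for `R`, `e'`. Choose `n ≥ 1` with `n e² / 4 - 1 ≥ n'`; `Λ₁` from `p_step n`; `Λ = max Λ₁ Λ'`; `c = c'`.
Given `TT` with `n ≤ TT.card`, replace it by a subset with exactly `n` elements (`Finset.exists_subset_card_eq`). `p_step` gives `t'`, `y`, `TT'`. Apply
the induction hypothesis to `B ∪ y`, `H' t S = H t S * H t' (S ∪ y)` (`ef_step`), `TT'`: `τ'`, `Y'`. Put `τ r = τ' r`, `Y r = Y' r` for `r ≤ R`,
`τ (R + 1) = t'`, `Y (R + 1) = y`. `τ' r ∈ TT'` gives `τ' r < t'`; `Y' r` is disjoint from `B ∪ y`. The list for `R + 1` is the list for `R` followed by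
`(t', y)` (`List.ofFn_succ'`, `List.concat_eq_append`), and `hr_append`.
-/

set_option autoImplicit false

namespace Pool.Agent.Lib.MP_90b327_co.WW

open Finset MeasureTheory Pool.Agent.Lib.MP_90b327_co Pool.Agent.Lib.MP_90b327_co.RB

private theorem PIter_fs_card (B : Finset ℕ) (L r a : ℕ) : (fs B L r a).card = a := by
  unfold fs
  rw [Finset.card_image_of_injective, Finset.card_range]
  intro i j h
  simp only at h
  omega

private theorem PIter_fs_disj (B : Finset ℕ) (L r a : ℕ) : Disjoint (fs B L r a) B := by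
  rw [Finset.disjoint_left]
  intro v hv hB
  unfold fs at hv
  rw [Finset.mem_image] at hv
  obtain ⟨i, -, hi⟩ := hv
  have h1 : v ≤ B.sup id := Finset.le_sup (f := id) hB
  have h2 : B.sup id + 1 ≤ v := by
    rw [← hi]
    have : 0 ≤ r * L := Nat.zero_le _
    omega
  omega

theorem p_iter (R : ℕ) (e : ℝ) (he : 0 < e) : ∃ (n : ℕ) (c : ℝ) (Λ : ℕ), 1 ≤ n ∧ 0 < c ∧ 1 ≤ Λ ∧
    ∀ (Ω : Type) [MeasurableSpace Ω] (P : Measure Ω) [IsProbabilityMeasure P] (B : Finset ℕ)
      (H : ℕ → Finset ℕ → Ω → ℝ) (_ : EF P B H) (TT : Finset ℕ) (_ : n ≤ TT.card) (l : ℕ → ℕ)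
      (_ : ∀ t ∈ TT, 1 ≤ l t) (_ : ∀ t ∈ TT, ∀ t' ∈ TT, t < t' → Λ * l t ≤ l t')
      (_ : ∀ t ∈ TT, e * l t ≤ ∑ a ∈ range (l t), mn P B H t (a + 1)),
      ∃ (τ : ℕ → ℕ) (Y : ℕ → Finset ℕ), (∀ r ≤ R, τ r ∈ TT) ∧
        (∀ r s, r < s → s ≤ R → τ r < τ s) ∧
        (∀ r ≤ R, 1 ≤ (Y r).card ∧ (Y r).card ≤ l (τ r) ∧ Disjoint (Y r) B) ∧
        (∀ r s, r ≤ R → s ≤ R → r ≠ s → Disjoint (Y r) (Y s)) ∧
        c ≤ ∫ ω, HR H (List.ofFn (fun r : Fin R => (τ (r + 1), Y (r + 1)))) (τ 0) (Y 0) ω ∂P := by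
  induction R generalizing e with
  | zero =>
    refine ⟨1, e, 1, le_rfl, he, le_rfl, ?_⟩
    intro Ω _ P _ B H hH TT hTT l hl hΛ hm
    obtain ⟨t, ht⟩ : TT.Nonempty := Finset.card_pos.1 (by omega)
    have h1 : ∑ _a ∈ range (l t), e ≤ ∑ a ∈ range (l t), mn P B H t (a + 1) := by
      rw [Finset.sum_const, Finset.card_range, nsmul_eq_mul, mul_comm]
      exact hm t ht
    have hne : (range (l t)).Nonempty := by
      rw [Finset.nonempty_range_iff]
      have := hl t ht
      omega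
    obtain ⟨a, ha, hea⟩ := Finset.exists_le_of_sum_le hne h1
    rw [Finset.mem_range] at ha
    refine ⟨fun _ => t, fun _ => fs B 0 0 (a + 1), fun _ _ => ht, ?_, ?_, ?_, ?_⟩
    · intro r s hrs hs
      omega
    · intro r _
      simp only
      rw [PIter_fs_card]
      exact ⟨by omega, by omega, PIter_fs_disj B 0 0 (a + 1)⟩
    · intro r s hr hs hrs
      omega
    · rw [List.ofFn_zero]
      exact hea
  | succ R ih =>
    obtain ⟨n', c', Λ', hn', hc', hΛ', hI⟩ := ih (e ^ 2 / 8) (by positivity)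
    obtain ⟨n, hn⟩ := exists_nat_ge ((n' + 1 : ℝ) * (4 / e ^ 2) + 1)
    have he2 : 0 < e ^ 2 := by positivity
    have hn1 : 1 ≤ n := by
      have h0 : (0 : ℝ) ≤ (n' + 1 : ℝ) * (4 / e ^ 2) := by positivity
      have : (1 : ℝ) ≤ n := by linarith
      exact_mod_cast this
    have hnn : (n' : ℝ) ≤ (n : ℝ) * e ^ 2 / 4 - 1 := by
      have h0 : ((n' + 1 : ℝ) * (4 / e ^ 2)) * e ^ 2 ≤ n * e ^ 2 :=
        mul_le_mul_of_nonneg_right (by linarith) he2.le
      have h1 : ((n' + 1 : ℝ) * (4 / e ^ 2)) * e ^ 2 = 4 * (n' + 1) := by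
        field_simp
      linarith
    obtain ⟨Λ₁, hΛ₁, hS⟩ := p_step n hn1
    refine ⟨n, c', max Λ₁ Λ', hn1, hc', le_max_of_le_left hΛ₁, ?_⟩
    intro Ω _ P _ B H hH TT hTT l hl hΛ hm
    obtain ⟨TT₀, hsub, hcard⟩ := Finset.exists_subset_card_eq hTT
    obtain ⟨t', ht', y, hy1, hy2, hyB, TT', hTT', hlt, hcard', hm'⟩ :=
      hS Ω P B H hH TT₀ hcard l (fun t ht => hl t (hsub ht))
        (fun t ht s hs hts => (Nat.mul_le_mul_right _ (le_max_left _ _)).trans
          (hΛ t (hsub ht) s (hsub hs) hts)) e he.le (fun t ht => hm t (hsub ht))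
    have hcn : n' ≤ TT'.card := by
      have : (n' : ℝ) ≤ TT'.card := hnn.trans hcard'
      exact_mod_cast this
    obtain ⟨τ', Y', h1, h2, h3, h4, h5⟩ := hI Ω P (B ∪ y) (fun t S ω => H t S ω * H t' (S ∪ y) ω)
      (ef_step hH y hyB t') TT' hcn l (fun t ht => hl t (hsub (hTT' ht)))
        (fun t ht s hs hts => (Nat.mul_le_mul_right _ (le_max_right _ _)).trans
          (hΛ t (hsub (hTT' ht)) s (hsub (hTT' hs)) hts)) hm'
    refine ⟨fun r => if r ≤ R then τ' r else t', fun r => if r ≤ R then Y' r else y,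
      ?_, ?_, ?_, ?_, ?_⟩
    · intro r hr
      simp only
      split_ifs with h
      · exact hsub (hTT' (h1 r h))
      · exact hsub ht'
    · intro r s hrs hs
      simp only
      by_cases h : s ≤ R
      · rw [if_pos h, if_pos (by omega)]
        exact h2 r s hrs h
      · rw [if_neg h, if_pos (by omega)]
        exact hlt _ (h1 r (by omega))
    · intro r hr
      simp only
      by_cases h : r ≤ R
      · rw [if_pos h, if_pos h]
        obtain ⟨a1, a2, a3⟩ := h3 r h
        exact ⟨a1, a2, (Finset.disjoint_union_right.1 a3).1⟩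
      · rw [if_neg h, if_neg h]
        exact ⟨hy1, hy2, hyB⟩
    · intro r s hr hs hrs
      simp only
      by_cases h : r ≤ R
      · by_cases h' : s ≤ R
        · rw [if_pos h, if_pos h']
          exact h4 r s h h' hrs
        · rw [if_pos h, if_neg h']
          exact (Finset.disjoint_union_right.1 (h3 r h).2.2).2
      · have h' : s ≤ R := by omega
        rw [if_neg h, if_pos h']
        exact (Finset.disjoint_union_right.1 (h3 s h').2.2).2.symm
    · refine h5.trans (le_of_eq ?_)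
      refine integral_congr_ae (Filter.Eventually.of_forall fun ω => ?_)
      simp only
      rw [← hr_append H _ (t', y), List.ofFn_succ', List.concat_eq_append]
      simp only [Fin.val_castSucc, Fin.val_last]
      rw [if_pos (Nat.zero_le R), if_pos (Nat.zero_le R), if_neg (by omega), if_neg (by omega)]
      congr 2
      refine congrArg List.ofFn ?_
      funext r
      rw [if_pos (by omega), if_pos (by omega)]

end Pool.Agent.Lib.MP_90b327_co.WW
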