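import Mathlib
import Pool.Agent.Lib.MP_90b327_co.WW.WDefs

/-!
MODULE Excep (25 minutes, old scale). Exceptional events.

PROOF. There are finitely many contents with rows `< L`: the subsets of `pw D (range L)`. For a quadruple `q = (x, y, x', y')` of such contents let
`E q j = {ω | 0 < ‖z ω x y - z ω x' y'‖ ≤ 1 / (j + 1)}`: measurable, decreasing in `j`, with empty intersection, so `P (E q j) → 0`
(`MeasureTheory.tendsto_measure_iInter_atTop` or `tendsto_measure_iInter`). Choose `j` with `P.real (E q j) ≤ ε / (number of quadruples)` for all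
quadruples (finitely many; take the maximum of the `j`). `η₀ = 1 / (j + 1)`. If `η ≤ η₀` and `¬ Exa (z ω) L η`, then some quadruple has `‖..‖ ≤ η ≤ η₀` and
`z ω x y ≠ z ω x' y'`, so `ω ∈ E q j`. Union bound (`MeasureTheory.measure_biUnion_finset_le`; the set `{ω | ¬ Exa ..}` need not be measurable:
monotonicity of the measure suffices).
-/

set_option autoImplicit false

namespace Pool.Agent.Lib.MP_90b327_co.WW

open Finset MeasureTheory Pool.Agent.Lib.MP_90b327_co Pool.Agent.Lib.MP_90b327_co.RB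

private theorem excep_tend {Ω : Type} [MeasurableSpace Ω] (P : Measure Ω) [IsProbabilityMeasure P]
    {f g : Ω → ℂ} (hf : Measurable f) (hg : Measurable g) :
    Filter.Tendsto (fun j : ℕ => P.real {ω | f ω ≠ g ω ∧ ‖f ω - g ω‖ ≤ 1 / ((j : ℝ) + 1)})
      Filter.atTop (nhds 0) := by
  have hm : ∀ j : ℕ, MeasurableSet {ω | f ω ≠ g ω ∧ ‖f ω - g ω‖ ≤ 1 / ((j : ℝ) + 1)} := by
    intro j
    exact (measurableSet_eq_fun hf hg).compl.inter
      (measurableSet_le (hf.sub hg).norm measurable_const)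
  have hanti : Antitone (fun j : ℕ => {ω | f ω ≠ g ω ∧ ‖f ω - g ω‖ ≤ 1 / ((j : ℝ) + 1)}) := by
    intro i j hij ω hω
    refine ⟨hω.1, hω.2.trans ?_⟩
    have hij' : (i : ℝ) ≤ j := by exact_mod_cast hij
    have hi : (0 : ℝ) < (i : ℝ) + 1 := by positivity
    exact one_div_le_one_div_of_le hi (by linarith)
  have hemp : ⋂ j : ℕ, {ω | f ω ≠ g ω ∧ ‖f ω - g ω‖ ≤ 1 / ((j : ℝ) + 1)} = ∅ := by
    rw [Set.eq_empty_iff_forall_notMem]
    intro ω hω
    rw [Set.mem_iInter] at hω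
    have hne : f ω ≠ g ω := (hω 0).1
    have hpos : 0 < ‖f ω - g ω‖ := norm_pos_iff.mpr (sub_ne_zero.mpr hne)
    obtain ⟨j, hj⟩ := exists_nat_one_div_lt hpos
    exact absurd (hω j).2 (not_le.mpr hj)
  have ht := tendsto_measure_iInter_atTop (μ := P) (fun j => (hm j).nullMeasurableSet) hanti
    ⟨0, measure_ne_top _ _⟩
  rw [hemp, measure_empty] at ht
  have h2 := (ENNReal.tendsto_toReal ENNReal.zero_ne_top).comp ht
  simpa [Measure.real, Function.comp_def] using h2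

theorem excep {D : ℕ} (T : CS D) (L : ℕ) (ε : ℝ) (hε : 0 < ε) : ∃ η₀ : ℝ, 0 < η₀ ∧
    ∀ η : ℝ, η ≤ η₀ → T.P.real {ω | ¬ Exa (T.z ω) L η} ≤ ε := by
  classical
  let 𝒳 : Finset (Co D) := (pw D (range L)).powerset
  let Q : Finset (Co D × Co D × Co D × Co D) := 𝒳 ×ˢ 𝒳 ×ˢ 𝒳 ×ˢ 𝒳
  let E : (Co D × Co D × Co D × Co D) → ℕ → Set T.Ω := fun q j =>
    {ω | T.z ω q.1 q.2.1 ≠ T.z ω q.2.2.1 q.2.2.2 ∧
      ‖T.z ω q.1 q.2.1 - T.z ω q.2.2.1 q.2.2.2‖ ≤ 1 / ((j : ℝ) + 1)}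
  have ht : Filter.Tendsto (fun j : ℕ => ∑ q ∈ Q, T.P.real (E q j)) Filter.atTop
      (nhds (∑ q ∈ Q, (0 : ℝ))) :=
    tendsto_finsetSum _ fun q _ => excep_tend T.P (T.meas q.1 q.2.1) (T.meas q.2.2.1 q.2.2.2)
  rw [Finset.sum_const_zero] at ht
  obtain ⟨j, hj⟩ := (ht.eventually (gt_mem_nhds hε)).exists
  have hjpos : (0 : ℝ) < 1 / ((j : ℝ) + 1) := by positivity
  refine ⟨1 / ((j : ℝ) + 1), hjpos, fun η hη => ?_⟩
  have hsub : {ω | ¬ Exa (T.z ω) L η} ⊆ ⋃ q ∈ Q, E q j := by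
    intro ω hω
    rw [Set.mem_ofPred_eq] at hω
    unfold Exa at hω
    push Not at hω
    obtain ⟨x, y, x', y', hx, hy, hx', hy', hle, hne⟩ := hω
    rw [Set.mem_iUnion₂]
    refine ⟨(x, y, x', y'), ?_, hne, hle.trans hη⟩
    simp only [Q, 𝒳, Finset.mem_product, Finset.mem_powerset]
    exact ⟨hx, hy, hx', hy'⟩
  calc T.P.real {ω | ¬ Exa (T.z ω) L η} ≤ T.P.real (⋃ q ∈ Q, E q j) :=
        measureReal_mono hsub (measure_ne_top _ _)
    _ ≤ ∑ q ∈ Q, T.P.real (E q j) := measureReal_biUnion_finset_le _ _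
    _ ≤ ε := hj.le

end Pool.Agent.Lib.MP_90b327_co.WW
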