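import Mathlib
import Pool.Agent.Lib.MP_90b327_co.WW.WDefs
import Pool.Agent.Lib.MP_90b327_co.WW.Excep

/-!
MODULE Scales (35 minutes, old scale). Choice of the scales.

PROOF. Strong recursion. Given `l 0, .., l (t - 1)` put `Lt = bnd l Q t = Q * ∑ i ∈ range t, l i`, let `η₀ > 0` be from `excep T Lt ε`; choose
`kk t ≥ max k₀ (max K₁ 1)` with `MM D * et (kk t) ≤ η₀` (`et k = sqrt (2 / sqrt k) → 0`); then `l t ≥ 1 + Λ * ∑ i ∈ range t, l i` from `hbad (kk t)`. For the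
recursion in Lean: a step function `F : (prefix : List ℕ or ℕ → ℕ) → ℕ × ℕ` chosen by `Classical.choose` from the statement
`∀ (Lt B : ℕ), ∃ k l : ℕ, k₀ ≤ k ∧ K₁ ≤ k ∧ 1 ≤ k ∧ 1 ≤ l ∧ B ≤ l ∧ (e * l ≤ ∑ ..) ∧ P.real {¬ Exa Lt (MM D * et k)} ≤ ε`; iterate the SUM `s t = ∑ i ∈ range t, l i` (state of an ordinary
`Nat.rec`): `s 0 = 0`, `l t` and `kk t` from the step with `Lt = Q * s t`, `B = Λ * s t + 1`, `s (t + 1) = s t + l t`. `Λ * l t ≤ l t'` for `t < t'`: `l t ≤ s t'`.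
-/

set_option autoImplicit false

namespace Pool.Agent.Lib.MP_90b327_co.WW

open Finset MeasureTheory Pool.Agent.Lib.MP_90b327_co Pool.Agent.Lib.MP_90b327_co.RB

private theorem Scales_et (M η₀ : ℝ) (hη : 0 < η₀) : ∀ᶠ k : ℕ in Filter.atTop, M * et k ≤ η₀ := by
  have h1 : Filter.Tendsto (fun k : ℕ => Real.sqrt (k : ℝ)) Filter.atTop Filter.atTop :=
    Real.tendsto_sqrt_atTop.comp tendsto_natCast_atTop_atTop
  have h2 : Filter.Tendsto (fun k : ℕ => 2 / Real.sqrt (k : ℝ)) Filter.atTop (nhds 0) :=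
    Filter.Tendsto.div_atTop tendsto_const_nhds h1
  have h3 : Filter.Tendsto (fun k : ℕ => Real.sqrt (2 / Real.sqrt (k : ℝ))) Filter.atTop (nhds 0) := by
    have := (Real.continuous_sqrt.tendsto 0).comp h2
    rwa [Real.sqrt_zero] at this
  have h4 : Filter.Tendsto (fun k : ℕ => M * et k) Filter.atTop (nhds 0) := by
    have := h3.const_mul M
    rw [mul_zero] at this
    exact this
  exact h4.eventually (ge_mem_nhds hη)

theorem scales {D : ℕ} (T : CS D) (e : ℝ) (k₀ : ℕ)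
    (hbad : ∀ k, k₀ ≤ k → 1 ≤ k → ∀ L : ℕ, ∃ l : ℕ, L ≤ l ∧
      e * l < ∑ a ∈ range l, ∫ ω, NS.Tk k (T.z ω ∅ (pw D (range (a + 1)))) ∂T.P)
    (Q Λ K₁ : ℕ) (ε : ℝ) (hε : 0 < ε) :
    ∃ kk l : ℕ → ℕ, (∀ t, K₁ ≤ kk t ∧ 1 ≤ kk t) ∧ (∀ t, 1 ≤ l t) ∧
      (∀ t t', t < t' → Λ * l t ≤ l t') ∧
      (∀ t, e * l t ≤ ∑ a ∈ range (l t), ∫ ω, NS.Tk (kk t) (T.z ω ∅ (pw D (range (a + 1)))) ∂T.P) ∧
      (∀ t, T.P.real {ω | ¬ Exa (T.z ω) (bnd l Q t) (MM D * et (kk t))} ≤ ε) := by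
  classical
  have step : ∀ (Lt B : ℕ), ∃ p : ℕ × ℕ, K₁ ≤ p.1 ∧ 1 ≤ p.1 ∧ 1 ≤ p.2 ∧ B ≤ p.2 ∧
      (e * p.2 ≤ ∑ a ∈ range p.2, ∫ ω, NS.Tk p.1 (T.z ω ∅ (pw D (range (a + 1)))) ∂T.P) ∧
      T.P.real {ω | ¬ Exa (T.z ω) Lt (MM D * et p.1)} ≤ ε := by
    intro Lt B
    obtain ⟨η₀, hη₀, hη⟩ := excep T Lt ε hε
    obtain ⟨k, hk1, hk2⟩ := ((Scales_et (MM D) η₀ hη₀).and
      (Filter.eventually_ge_atTop (max k₀ (max K₁ 1)))).exists
    have hk₀ : k₀ ≤ k := le_trans (le_max_left _ _) hk2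
    have hk1' : 1 ≤ k := le_trans (le_trans (le_max_right K₁ 1) (le_max_right _ _)) hk2
    have hK₁ : K₁ ≤ k := le_trans (le_trans (le_max_left K₁ 1) (le_max_right _ _)) hk2
    obtain ⟨l, hl1, hl2⟩ := hbad k hk₀ hk1' (max B 1)
    exact ⟨(k, l), hK₁, hk1', le_trans (le_max_right _ _) hl1, le_trans (le_max_left _ _) hl1,
      hl2.le, hη _ hk1⟩
  choose F hF using step
  -- the sums of the previous sizes
  let s : ℕ → ℕ := fun t => Nat.rec (motive := fun _ => ℕ) 0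
    (fun _ x => x + (F (Q * x) (Λ * x + 1)).2) t
  have hs0 : s 0 = 0 := rfl
  have hs1 : ∀ t, s (t + 1) = s t + (F (Q * s t) (Λ * s t + 1)).2 := fun t => rfl
  let kk : ℕ → ℕ := fun t => (F (Q * s t) (Λ * s t + 1)).1
  let l : ℕ → ℕ := fun t => (F (Q * s t) (Λ * s t + 1)).2
  have hsum : ∀ t, ∑ i ∈ range t, l i = s t := by
    intro t
    induction t with
    | zero => simp [hs0]
    | succ t ih => rw [Finset.sum_range_succ, ih, hs1]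
  refine ⟨kk, l, fun t => ⟨(hF (Q * s t) (Λ * s t + 1)).1, (hF (Q * s t) (Λ * s t + 1)).2.1⟩,
    fun t => (hF (Q * s t) (Λ * s t + 1)).2.2.1, ?_,
    fun t => (hF (Q * s t) (Λ * s t + 1)).2.2.2.2.1, ?_⟩
  · intro t t' htt
    have h1 : l t ≤ s t' := by
      rw [← hsum t']
      exact Finset.single_le_sum (f := l) (fun _ _ => Nat.zero_le _) (Finset.mem_range.2 htt)
    have h2 : Λ * s t' + 1 ≤ l t' := (hF (Q * s t') (Λ * s t' + 1)).2.2.2.1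
    have h3 : Λ * l t ≤ Λ * s t' := Nat.mul_le_mul_left _ h1
    omega
  · intro t
    have h := (hF (Q * s t) (Λ * s t + 1)).2.2.2.2.2
    have hb : bnd l Q t = Q * s t := by
      unfold bnd
      rw [hsum]
    rw [hb]
    exact h

end Pool.Agent.Lib.MP_90b327_co.WW
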