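import Mathlib
import Pool.Agent.Lib.MP_90b327_co.WW.WDefs
import Pool.Agent.Lib.MP_90b327_co.WW.DetEnd
import Pool.Agent.Lib.MP_90b327_co.WW.PIter
import Pool.Agent.Lib.MP_90b327_co.WW.CopyCfg
import Pool.Agent.Lib.MP_90b327_co.WW.EfTk
import Pool.Agent.Lib.MP_90b327_co.WW.Scales
import Pool.Agent.Lib.MP_90b327_co.WW.AsmA
import Pool.Agent.Lib.MP_90b327_co.WW.HRa

/-!
MODULE Crit (35 minutes, old scale). The critical mass lemma.

PROOF. By contradiction: for every `k ≥ k₀`, `k ≥ 1` and every `L` there is `l ≥ L` with `∑ > e * l`. `R = 2 D`, `Q = 2 ^ D + 2`; `n, c, Λ` from `p_iter R e`;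
`cs = c ^ Q > 0`; `K₁ ≥ max 1 (8 / cs)` (natural number; so `4 / K₁ ≤ cs / 2`); `ε = cs / (4 n)`. `scales` gives `kk`, `l`. `H = Hk T kk` is exchangeable (`ef_tk`);
`p_iter` with `B = ∅`, `TT = range n`: `mn T.P ∅ H t (a + 1) = ∫ Tk (kk t) (z ∅ (pw D (fs ∅ 0 0 (a + 1))))`, equal to the integral for `range (a + 1)` by `ef_one`
(module EfEq; or `h.inv` with a shift). `copy_cfg`: `cs ≤ ∫ Π`, `Π = ∏ x ∈ range Q, HR .. ∈ [0, 1]`. With `θ = 4 / K₁`: `Π ≤ θ + 1(Π > θ)`, so `P.real {Π > θ} ≥ cs - θ ≥ cs / 2`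
(`{Π > θ}` is measurable, `hr_meas`). The exceptional events for `t < n` have total measure `≤ n ε = cs / 4 < cs / 2`. So there is `ω` with `Π ω > θ` and
`Exa (z ω) (bnd l Q t) (MM D * et (kk t))` for all `t < n`, in particular for `t = τ r`, `r ≤ 2 D`. `asm_a` and `det`.
(If `P.real A ≥ cs/2` and `P.real (⋃ bad) ≤ cs/4 < cs/2` then `A` is not contained in `⋃ bad`: `measureReal_mono`.)
-/

set_option autoImplicit false

namespace Pool.Agent.Lib.MP_90b327_co.WW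

open Finset MeasureTheory Pool.Agent.Lib.MP_90b327_co Pool.Agent.Lib.MP_90b327_co.RB

private theorem cr_mean {D : ℕ} (T : CS D) (kk : ℕ → ℕ) (t a : ℕ) :
    mn T.P ∅ (Hk T kk) t a = ∫ ω, NS.Tk (kk t) (T.z ω ∅ (pw D (range a))) ∂T.P := by
  have h := (ef_tk T kk).inv (fun i => (∅ : Finset ℕ).sup id + 1 + 0 * 0 + i)
    (fun i j hij => Nat.add_left_cancel hij) (fun v hv => absurd hv (notMem_empty v)) Unit
    (fun _ => t) (fun _ => range a) (fun _ => disjoint_empty_right _)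
  simp only [Fintype.prod_unique] at h
  exact h

private theorem cr_find {Ω : Type} [MeasurableSpace Ω] {P : Measure Ω} [IsProbabilityMeasure P]
    {F : Ω → ℝ} (hm : Measurable F) (h0 : ∀ ω, 0 ≤ F ω) (h1 : ∀ ω, F ω ≤ 1) {cs θ : ℝ} (hcs : 0 < cs)
    (hθ0 : 0 ≤ θ) (hθ : θ ≤ cs / 2) (hF : cs ≤ ∫ ω, F ω ∂P) (n : ℕ) (E : ℕ → Set Ω)
    (hE : ∑ t ∈ range n, P.real (E t) ≤ cs / 4) : ∃ ω, θ < F ω ∧ ∀ t < n, ω ∉ E t := by
  by_contra hcon
  push Not at hcon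
  have hA : MeasurableSet {ω | θ < F ω} := measurableSet_lt measurable_const hm
  have hsub : {ω | θ < F ω} ⊆ ⋃ t ∈ range n, E t := by
    intro ω hω
    obtain ⟨t, ht, hω2⟩ := hcon ω hω
    exact Set.mem_biUnion (mem_coe.mpr (mem_range.mpr ht)) hω2
  have h2 : P.real {ω | θ < F ω} ≤ cs / 4 :=
    (measureReal_mono hsub (measure_ne_top P _)).trans ((measureReal_biUnion_finset_le _ _).trans hE)
  have hint : Integrable F P := Integrable.of_bound hm.aestronglyMeasurable 1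
    (Filter.Eventually.of_forall fun ω => by rw [Real.norm_eq_abs, abs_of_nonneg (h0 ω)]; exact h1 ω)
  have hind : Integrable (Set.indicator {ω | θ < F ω} (1 : Ω → ℝ)) P :=
    (integrable_const (1 : ℝ)).indicator hA
  have h3 : ∫ ω, F ω ∂P ≤ ∫ ω, (θ + Set.indicator {ω | θ < F ω} (1 : Ω → ℝ) ω) ∂P := by
    apply integral_mono hint ((integrable_const θ).add hind)
    intro ω
    by_cases hω : θ < F ω
    · have h4 : Set.indicator {ω | θ < F ω} (1 : Ω → ℝ) ω = 1 :=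
        Set.indicator_of_mem (show ω ∈ {ω | θ < F ω} from hω) _
      change F ω ≤ θ + Set.indicator {ω | θ < F ω} (1 : Ω → ℝ) ω
      rw [h4]
      have := h1 ω
      linarith
    · have h4 : Set.indicator {ω | θ < F ω} (1 : Ω → ℝ) ω = 0 :=
        Set.indicator_of_notMem (show ω ∉ {ω | θ < F ω} from hω) _
      change F ω ≤ θ + Set.indicator {ω | θ < F ω} (1 : Ω → ℝ) ω
      rw [h4]
      push Not at hω
      linarith
  rw [integral_add (integrable_const θ) hind, integral_const, integral_indicator_one hA] at h3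
  simp only [probReal_univ, smul_eq_mul, one_mul] at h3
  linarith

theorem crit_mass {D : ℕ} (hD : 1 ≤ D) (T : CS D) (e : ℝ) (he : 0 < e) (k₀ : ℕ) :
    ∃ k, k₀ ≤ k ∧ 1 ≤ k ∧ ∃ L : ℕ, ∀ l, L ≤ l →
      ∑ a ∈ range l, ∫ ω, NS.Tk k (T.z ω ∅ (pw D (range (a + 1)))) ∂T.P ≤ e * l := by
  by_contra hcon
  push Not at hcon
  obtain ⟨n, c, Λ, hn, hc, hΛ, hp⟩ := p_iter (2 * D) e he
  obtain ⟨Q, hQ⟩ : ∃ Q : ℕ, Q = 2 ^ D + 2 := ⟨_, rfl⟩
  have hQ1 : 1 ≤ Q := by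
    rw [hQ]
    exact Nat.le_add_left 1 (2 ^ D + 1)
  have hcs : 0 < c ^ Q := pow_pos hc Q
  obtain ⟨K₀, hK₀⟩ := exists_nat_ge (8 / c ^ Q)
  obtain ⟨K₁, hK₁⟩ : ∃ K₁ : ℕ, K₁ = max 1 K₀ := ⟨_, rfl⟩
  have hK1 : 1 ≤ K₁ := by rw [hK₁]; exact le_max_left _ _
  have hK0 : (0 : ℝ) < K₁ := by exact_mod_cast hK1
  have hK2 : 8 / c ^ Q ≤ K₁ := by
    refine hK₀.trans ?_
    rw [hK₁]
    exact_mod_cast le_max_right 1 K₀
  have hθ : 4 / (K₁ : ℝ) ≤ c ^ Q / 2 := by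
    rw [div_le_iff₀ hcs] at hK2
    rw [div_le_iff₀ hK0]
    linarith
  have hn0 : (0 : ℝ) < n := by exact_mod_cast hn
  obtain ⟨kk, l, h1, h2, h3, h4, h5⟩ := scales T e k₀ hcon Q Λ K₁ (c ^ Q / (4 * n)) (by positivity)
  have hEF := ef_tk T kk
  obtain ⟨τ, Y, hτm, hτ, hY, hYd, hint⟩ := hp T.Ω T.P ∅ (Hk T kk) hEF (range n)
    (by rw [card_range]) l (fun t _ => h2 t) (fun t _ t' _ htt => h3 t t' htt)
    (fun t _ => by
      rw [sum_congr rfl fun a _ => cr_mean T kk t (a + 1)]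
      exact h4 t)
  have hcopy := copy_cfg hEF (2 * D) Q hQ1 τ Y hYd c hc.le hint
  have hF0 : ∀ (ω : T.Ω) (x : ℕ), 0 ≤ HR (Hk T kk)
      (List.ofFn (fun r : Fin (2 * D) => (τ (r + 1), blk (fun r => (Y r).card) Q (r + 1) x))) (τ 0)
      (blk (fun r => (Y r).card) Q 0 x) ω := fun ω x => hr_nonneg hEF.nonneg _ _ _ _
  have hF1 : ∀ (ω : T.Ω) (x : ℕ), HR (Hk T kk)
      (List.ofFn (fun r : Fin (2 * D) => (τ (r + 1), blk (fun r => (Y r).card) Q (r + 1) x))) (τ 0)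
      (blk (fun r => (Y r).card) Q 0 x) ω ≤ 1 := fun ω x => hr_le_one hEF.nonneg hEF.le_one _ _ _ _
  obtain ⟨ω, hω1, hω2⟩ := cr_find (P := T.P)
    (F := fun ω => ∏ x ∈ range Q, HR (Hk T kk)
      (List.ofFn (fun r : Fin (2 * D) => (τ (r + 1), blk (fun r => (Y r).card) Q (r + 1) x))) (τ 0)
      (blk (fun r => (Y r).card) Q 0 x) ω)
    (Finset.measurable_fun_prod _ fun x _ => hr_meas hEF.meas _ _ _)
    (fun ω => prod_nonneg fun x _ => hF0 ω x)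
    (fun ω => prod_le_one (fun x _ => hF0 ω x) fun x _ => hF1 ω x)
    hcs (by positivity) hθ hcopy n
    (fun t => {ω | ¬ Exa (T.z ω) (bnd l Q t) (MM D * et (kk t))})
    (by
      calc ∑ t ∈ range n, T.P.real {ω | ¬ Exa (T.z ω) (bnd l Q t) (MM D * et (kk t))}
          ≤ ∑ _t ∈ range n, c ^ Q / (4 * n) := sum_le_sum fun t _ => h5 t
        _ = c ^ Q / 4 := by
          rw [sum_const, card_range, nsmul_eq_mul]
          field_simp)
  obtain ⟨cc, b, V, η, hcfg⟩ := asm_a T Q (by rw [hQ]) kk l τ Y hτ (fun r hr => (hY r hr).2.1) K₁ hK1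
    (fun t => (h1 t).1) ω hω1 (fun r hr => by
      have h6 := hω2 (τ r) (mem_range.mp (hτm r hr))
      by_contra h7
      exact h6 h7)
  exact det hD (T.ck ω) hcfg

end Pool.Agent.Lib.MP_90b327_co.WW
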