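import Mathlib
import Pool.Agent.Lib.MP_90b327_co.WW.WDefs

/-!
MODULE PosStep (25 minutes, old scale). Positivity argument of the removal lemma.

PROOF. `|g X Y| ≤ δ` for all `X`, `Y` and `0 ≤ δ` (`hg.psd` with two vectors and coefficients `1, ± 1`; `0 ≤ δ` from `δ² ≤ g X X = δ`, or from one
vector). For `m ≥ 1` take `x`, `y`, `ρ` from `h` and use `hg.psd` for the index type `Option (Fin (2 * m))` with the vectors `x` (coefficient `lam`), `y t`
(coefficient `1 / m` for `t < m`, `- 1 / m` for `t ≥ m`): the right side is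
`lam² δ + 2 lam (A - B) + 2 δ / m + ρ * ((∑ c t)² - ∑ c t²) = lam² δ + 2 lam (A - B) + 2 (δ - ρ) / m` because `∑ c t = 0`, `∑ c t² = 2 / m`, and the left
side is `δ² lam² ≥ 0`. As `ρ = g (y 0) (y 1) ≥ - δ` (`2 m ≥ 2`): `0 ≤ lam² δ + 2 lam (A - B) + 4 δ / m` for all `lam` and all `m ≥ 1`, so
`0 ≤ lam² δ + 2 lam (A - B)` for all real `lam` (`m → ∞`), so `A = B` (`lam = ± s`, `s → 0+`; or `lam = - (A - B) / δ` if `δ > 0`, `lam` arbitrary if `δ = 0`).
-/

set_option autoImplicit false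

namespace Pool.Agent.Lib.MP_90b327_co.WW

open Finset MeasureTheory Pool.Agent.Lib.MP_90b327_co Pool.Agent.Lib.MP_90b327_co.RB

private theorem ps_low {D : ℕ} {δ : ℝ} {g : Bp D → Bp D → ℝ} (hg : BK D δ g) (X Y : Bp D) :
    -δ ≤ g X Y := by
  have h := hg.psd (Fin 2) ![X, Y] ![1, 1]
  simp only [Fin.sum_univ_two, Matrix.cons_val_zero, Matrix.cons_val_one, one_mul] at h
  rw [hg.diag, hg.diag, hg.symm Y X] at h
  have : 0 ≤ δ ^ 2 * (1 + 1) ^ 2 := by positivity
  linarith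

private theorem ps_nonneg {D : ℕ} {δ : ℝ} {g : Bp D → Bp D → ℝ} (hg : BK D δ g) : 0 ≤ δ := by
  have h := ps_low hg ∅ ∅
  rw [hg.diag] at h
  linarith

private theorem ps_key {D : ℕ} {δ : ℝ} {g : Bp D → Bp D → ℝ} (hg : BK D δ g) {A B : ℝ} {m : ℕ}
    (hm : 1 ≤ m) {x : Bp D} {y : ℕ → Bp D} {ρ : ℝ} (h1 : ∀ t, t < m → g x (y t) = A)
    (h2 : ∀ t, m ≤ t → t < 2 * m → g x (y t) = B)
    (h3 : ∀ t t', t < 2 * m → t' < 2 * m → t ≠ t' → g (y t) (y t') = ρ) (lam : ℝ) :
    0 ≤ lam ^ 2 * δ + 2 * lam * (A - B) + 2 * (δ - ρ) / m := by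
  have hm0 : (m : ℝ) ≠ 0 := by
    have : (0 : ℝ) < m := by exact_mod_cast hm
    exact this.ne'
  set τ : Bool × Fin m → ℕ := fun p => if p.1 then (p.2 : ℕ) else m + p.2 with hτ
  set s : Bool → ℝ := fun b => if b then 1 else -1 with hs
  have hτlt : ∀ p, τ p < 2 * m := by
    rintro ⟨b, t⟩
    have := t.2
    simp only [hτ]
    split_ifs <;> omega
  have hτinj : ∀ p q, p ≠ q → τ p ≠ τ q := by
    rintro ⟨b, t⟩ ⟨b', t'⟩ hne heq
    apply hne
    have ht := t.2
    have ht' := t'.2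
    cases b <;> cases b' <;> simp only [hτ, if_true, Bool.false_eq_true, if_false] at heq
    · have : t = t' := Fin.ext (by omega)
      rw [this]
    · omega
    · omega
    · have : t = t' := Fin.ext (by omega)
      rw [this]
  have hgx : ∀ p : Bool × Fin m, s p.1 * g x (y (τ p)) = s p.1 * ((A + B) / 2) + (A - B) / 2 := by
    rintro ⟨b, t⟩
    have ht := t.2
    cases b
    · simp only [hτ, hs, Bool.false_eq_true, if_false]
      rw [h2 _ (by omega) (by omega)]
      ring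
    · simp only [hτ, hs, if_true]
      rw [h1 _ ht]
      ring
  have hgy : ∀ p q : Bool × Fin m, g (y (τ p)) (y (τ q)) = ρ + (if p = q then δ - ρ else 0) := by
    intro p q
    by_cases hpq : p = q
    · rw [hpq, if_pos rfl, hg.diag]; ring
    · rw [if_neg hpq, h3 _ _ (hτlt p) (hτlt q) (hτinj p q hpq)]; ring
  have hsum0 : ∑ p : Bool × Fin m, s p.1 = 0 := by
    rw [Fintype.sum_prod_type, Fintype.sum_bool]
    simp [hs]
  have hs2 : ∀ b, s b * s b = 1 := by
    intro b; cases b <;> simp [hs]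
  have hcard : ∑ _p : Bool × Fin m, (1 : ℝ) = 2 * m := by
    rw [Finset.sum_const, Finset.card_univ, Fintype.card_prod, Fintype.card_bool, Fintype.card_fin]
    simp
  have h := hg.psd (Option (Bool × Fin m)) (fun o => o.elim x (fun p => y (τ p)))
    (fun o => o.elim lam (fun p => s p.1 / m))
  simp only [Fintype.sum_option, Option.elim_none, Option.elim_some] at h
  -- the pieces
  have e1 : ∑ p : Bool × Fin m, s p.1 / m = 0 := by
    rw [← Finset.sum_div, hsum0, zero_div]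
  have e2 : ∑ p : Bool × Fin m, lam * (s p.1 / m) * g x (y (τ p)) = lam * (A - B) := by
    have : ∀ p : Bool × Fin m, lam * (s p.1 / m) * g x (y (τ p)) =
        lam / m * ((A + B) / 2) * s p.1 + lam / m * ((A - B) / 2) * 1 := by
      intro p
      have := hgx p
      calc lam * (s p.1 / m) * g x (y (τ p)) = lam / m * (s p.1 * g x (y (τ p))) := by ring
        _ = _ := by rw [this]; ring
    rw [Finset.sum_congr rfl (fun p _ => this p), Finset.sum_add_distrib, ← Finset.mul_sum,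
      ← Finset.mul_sum, hsum0, hcard]
    field_simp
    ring
  have e3 : ∑ p : Bool × Fin m, s p.1 / m * lam * g (y (τ p)) x = lam * (A - B) := by
    rw [← e2]
    refine Finset.sum_congr rfl (fun p _ => ?_)
    rw [hg.symm (y (τ p)) x]; ring
  have e4 : ∑ p : Bool × Fin m, ∑ q : Bool × Fin m, s p.1 / m * (s q.1 / m) * g (y (τ p)) (y (τ q)) =
      2 * (δ - ρ) / m := by
    have : ∀ p : Bool × Fin m, ∑ q : Bool × Fin m, s p.1 / m * (s q.1 / m) * g (y (τ p)) (y (τ q)) =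
        (δ - ρ) / (m * m) * 1 := by
      intro p
      have h5 : ∀ q : Bool × Fin m, s p.1 / m * (s q.1 / m) * g (y (τ p)) (y (τ q)) =
          (s p.1 / m * ρ / m) * s q.1 + (if p = q then s p.1 / m * (s q.1 / m) * (δ - ρ) else 0) := by
        intro q
        rw [hgy p q]
        split_ifs <;> ring
      rw [Finset.sum_congr rfl (fun q _ => h5 q), Finset.sum_add_distrib, ← Finset.mul_sum, hsum0,
        mul_zero, zero_add, Finset.sum_ite_eq Finset.univ p, if_pos (Finset.mem_univ _)]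
      have h6 := hs2 p.1
      calc s p.1 / m * (s p.1 / m) * (δ - ρ) = (s p.1 * s p.1) * ((δ - ρ) / (m * m)) := by
            field_simp
        _ = _ := by rw [h6]; ring
    rw [Finset.sum_congr rfl (fun p _ => this p), ← Finset.mul_sum, hcard]
    field_simp
  have e5 : ∑ p : Bool × Fin m, (s p.1 / m * lam * g (y (τ p)) x +
      ∑ q : Bool × Fin m, s p.1 / m * (s q.1 / m) * g (y (τ p)) (y (τ q))) =
      lam * (A - B) + 2 * (δ - ρ) / m := by
    rw [Finset.sum_add_distrib, e3, e4]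
  rw [e1, e2, e5, hg.diag] at h
  have h7 : 0 ≤ δ ^ 2 * (lam + 0) ^ 2 := by positivity
  nlinarith [h, h7]

theorem pos_step {D : ℕ} {δ : ℝ} {g : Bp D → Bp D → ℝ} (hg : BK D δ g) (A B : ℝ)
    (h : ∀ m : ℕ, 1 ≤ m → ∃ (x : Bp D) (y : ℕ → Bp D) (ρ : ℝ), (∀ t, t < m → g x (y t) = A) ∧
      (∀ t, m ≤ t → t < 2 * m → g x (y t) = B) ∧
      (∀ t t', t < 2 * m → t' < 2 * m → t ≠ t' → g (y t) (y t') = ρ)) : A = B := by
  have hδ := ps_nonneg hg
  have h1 : ∀ m : ℕ, 1 ≤ m → ∀ lam : ℝ, 0 ≤ lam ^ 2 * δ + 2 * lam * (A - B) + 4 * δ / m := by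
    intro m hm lam
    obtain ⟨x, y, ρ, ha, hb, hc⟩ := h m hm
    have hk := ps_key hg hm ha hb hc lam
    have hρ : -δ ≤ ρ := by
      rw [← hc 0 1 (by omega) (by omega) (by omega)]
      exact ps_low hg _ _
    have hm0 : (0 : ℝ) < m := by exact_mod_cast hm
    have : 2 * (δ - ρ) / m ≤ 4 * δ / m := div_le_div_of_nonneg_right (by linarith) hm0.le
    linarith
  have h2 : ∀ lam : ℝ, 0 ≤ lam ^ 2 * δ + 2 * lam * (A - B) := by
    intro lam
    by_contra hcon
    push Not at hcon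
    set q := lam ^ 2 * δ + 2 * lam * (A - B) with hq
    obtain ⟨m, hm⟩ := exists_nat_gt (4 * δ / (-q))
    have hq' : 0 < -q := by linarith
    have hm1 : 1 ≤ m := by
      have : (0 : ℝ) ≤ 4 * δ / (-q) := by positivity
      have h3 : (0 : ℝ) < m := lt_of_le_of_lt this hm
      exact_mod_cast h3
    have hm0 : (0 : ℝ) < m := by exact_mod_cast hm1
    have h3 := h1 m hm1 lam
    rw [div_lt_iff₀ hq'] at hm
    have h4 : 4 * δ / m < -q := by
      rw [div_lt_iff₀ hm0]; linarith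
    linarith
  by_contra hne
  have hd : A - B ≠ 0 := sub_ne_zero.2 hne
  have h3 := h2 (-(A - B) / (δ + 1))
  have hδ1 : 0 < δ + 1 := by linarith
  have h4 : (-(A - B) / (δ + 1)) ^ 2 * δ + 2 * (-(A - B) / (δ + 1)) * (A - B) =
      -((A - B) ^ 2 * (δ + 2) / (δ + 1) ^ 2) := by
    field_simp
    ring
  rw [h4] at h3
  have h5 : 0 < (A - B) ^ 2 * (δ + 2) / (δ + 1) ^ 2 := by positivity
  linarith

end Pool.Agent.Lib.MP_90b327_co.WW
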