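import Mathlib
import Pool.Agent.Lib.MP_90b327_co.WW.WDefs

/-!
MODULE RemCopy (40 minutes, old scale). Duplication of a row vertex: the patterns `x`, `y t` of the removal lemma.

`q` is a row vertex, `f t` (`t < n`) are fresh vertices; `cp q p e` = the row tuple `e` with `q` replaced by `p` everywhere.
`dup q f n X` = the cells of `X` without `q` and the copies `(cp q (f t) e, j)`, `t < n`, of the cells `(e, j)` with `q`.
`dupt q f n X Y t` = the cells of `Y` without `q`, the copies number `t` of the cells of `Y` with `q`, and the copies number `s ≠ t`, `s < n`, of the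
cells of `X` with `q`.
All statements are set equalities or follow from `hg.row` (removal of all cells which contain the vertex `f s`, if the two patterns agree on them)
used for all `s < n` in `U` (induction on the finite set `U` of copies to be removed) and from `hg.inv` (relabelling `q ↦ f t`; take
`σ = Equiv.swap q (f t)`, which fixes all other vertices; `f t` does not occur in `X`, `Y`).

`row_many`: if two patterns agree on all cells which contain one of the vertices of the finite set `U`, these cells may be removed from both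
(induction on `U`, `hg.row`).
-/

set_option autoImplicit false

namespace Pool.Agent.Lib.MP_90b327_co.WW

open Finset MeasureTheory Pool.Agent.Lib.MP_90b327_co Pool.Agent.Lib.MP_90b327_co.RB

/-- replace the vertex `q` by `p` -/
def cp {D : ℕ} (q p : ℕ) (e : Ce D) : Ce D := fun i => if e i = q then p else e i

theorem row_many {D : ℕ} {δ : ℝ} {g : Bp D → Bp D → ℝ} (hg : BK D δ g) (U : Finset ℕ) (X Y : Bp D)
    (h : ∀ (c : Ce D) (j : ℕ), (∃ i, c i ∈ U) → ((c, j) ∈ X ↔ (c, j) ∈ Y)) :
    g X Y = g (X.filter (fun c => ∀ i, c.1 i ∉ U)) (Y.filter (fun c => ∀ i, c.1 i ∉ U)) := by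
  induction U using Finset.induction_on generalizing X Y with
  | empty =>
    have hf : ∀ Z : Bp D, Z.filter (fun c => ∀ i, c.1 i ∉ (∅ : Finset ℕ)) = Z := by
      intro Z
      exact Finset.filter_true_of_mem (fun c _ i => Finset.notMem_empty _)
    rw [hf, hf]
  | insert v U hv IH =>
    have hf : ∀ Z : Bp D, Z.filter (fun c => ∀ i, c.1 i ∉ insert v U) =
        (Z.filter (fun c => ∀ i, c.1 i ≠ v)).filter (fun c => ∀ i, c.1 i ∉ U) := by
      intro Z
      rw [Finset.filter_filter]
      apply Finset.filter_congr
      intro c _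
      constructor
      · intro h1
        exact ⟨fun i hi => h1 i (Finset.mem_insert.mpr (Or.inl hi)),
          fun i hi => h1 i (Finset.mem_insert.mpr (Or.inr hi))⟩
      · rintro ⟨h1, h2⟩ i hi
        rcases Finset.mem_insert.mp hi with h3 | h3
        · exact h1 i h3
        · exact h2 i h3
    rw [hf, hf, hg.row X Y v]
    · apply IH
      rintro c j ⟨i, hi⟩
      have h1 := h c j ⟨i, Finset.mem_insert.mpr (Or.inr hi)⟩
      simp only [Finset.mem_filter, h1]
    · rintro c j ⟨i, hi⟩
      exact h c j ⟨i, Finset.mem_insert.mpr (Or.inl hi)⟩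

/-- relabelling of one vertex: `f` does not occur in `X`, `Y` -/
theorem row_swap {D : ℕ} {δ : ℝ} {g : Bp D → Bp D → ℝ} (hg : BK D δ g) (q f : ℕ) (X Y : Bp D)
    (hX : ∀ c ∈ X, ∀ i, c.1 i ≠ f) (hY : ∀ c ∈ Y, ∀ i, c.1 i ≠ f) :
    g (X.image (fun c => (cp q f c.1, c.2))) (Y.image (fun c => (cp q f c.1, c.2))) = g X Y := by
  have key : ∀ Z : Bp D, (∀ c ∈ Z, ∀ i, c.1 i ≠ f) →
      Z.image (fun c => (cp q f c.1, c.2)) = rb (fun x => Equiv.swap q f x) id Z := by
    intro Z hZ
    unfold rb
    apply Finset.image_congr
    intro c hc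
    have hc' := hZ c hc
    refine Prod.ext ?_ rfl
    funext i
    simp only [cp, Function.comp]
    by_cases h1 : c.1 i = q
    · rw [if_pos h1, h1, Equiv.swap_apply_left]
    · rw [if_neg h1, Equiv.swap_apply_of_ne_of_ne h1 (hc' i)]
  rw [key X hX, key Y hY]
  exact hg.inv _ _ (Equiv.injective _) Function.injective_id X Y

end Pool.Agent.Lib.MP_90b327_co.WW
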