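import Mathlib
import Pool.Agent.Lib.MP_90b327_co.WW.WDefs
import Pool.Agent.Lib.MP_90b327_co.WW.PosStep
import Pool.Agent.Lib.MP_90b327_co.WW.RemCopy

/-!
MODULE RemA (90 minutes, old scale). Step of the removal lemma: `P(T \ {q})` implies `P(T)`.

PROOF. Let `q ∈ T`, `T' = T.erase q`; `X`, `Y`, `c`, `j` as in `RP g T`. For `m ≥ 1` choose fresh vertices `f t`, `t < 2 m` (larger than `q`, all elements of `T` and all
vertices of `X`, `Y`, `c`; for instance `f t = M + t`; `f` is injective). `cp q p e` (module RemCopy): `q` replaced by `p`. For a set `Z` of cells let `Z° =` the cells of `Z`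
without `q`, `Z^t = {(cp q (f t) e, l) | (e, l) ∈ Z contains q}`; `C^t = {(cp q (f t) c, j)}`. Put
  `x = X° ∪ ⋃ t < 2 m, X^t ∪ ⋃ m ≤ t < 2 m, C^t`,   `y t = Y° ∪ Y^t ∪ ⋃ s < 2 m, s ≠ t, X^s ∪ ⋃ m ≤ s < 2 m, C^s`.
`pos_step` with `A = g X Y`, `B = g (insert (c, j) X) (insert (c, j) Y)` (note `q` is an entry of `c`):
(1) `g x (y t)`: `x` and `y t` agree on all cells which contain some `f s`, `s ≠ t` (both have `X^s` and, for `s ≥ m`, `C^s`). `row_many` with `U = {f s | s ≠ t}`: what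
remains is `X° ∪ X^t (∪ C^t if t ≥ m)` and `Y° ∪ Y^t (∪ C^t if t ≥ m)`, the images of `X`, `Y` (of `insert (c, j) X`, `insert (c, j) Y` for `t ≥ m`) under `cp q (f t)`
(`row_swap`). So `g x (y t) = A` for `t < m` and `= B` for `t ≥ m`.
(2) `g (y t) (y t') = ρ` for `t ≠ t'`, `ρ` independent of `t`, `t'`. First `P(T')` removes the cell of `C^t` if `t ≥ m` and the cell of `C^t'` if `t' ≥ m` from both patterns
(one after the other; they are in both patterns). Hypothesis of `P(T')` for the cell `(cp q (f t) c, j)`: it contains `T'` (`c` contains `T`, the vertices of `T'` are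
`≠ q`); it is not in the two patterns without it (it contains `f t`; the only cells of `y t`, `y t'` with `f t` in the column `j` are copies of cells of `X` or `Y`, and
`(c, j) ∉ X ∪ Y`; `cp q (f t)` is injective on tuples without `f t`); a difference cell `(c', j)` of the two patterns in the column `j` contains `f t` or `f t'`
(outside these both are `Y°`, `X^s`, `C^s`) and is a copy of `(e, j)` with `e ∋ q` in exactly one of `X`, `Y`; if it contained all vertices of `T'`, then `e` contains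
`T' ∪ {q} = T`, against the hypothesis on `X`, `Y`. Then `row_many` with `U = {f s | s ≠ t, t'}`: what remains is
`Y° ∪ Y^t ∪ X^t'` and `Y° ∪ X^t ∪ Y^t'`. The injection which exchanges `f t`, `f t'` with `f 0`, `f 1` (`hg.inv` with a permutation `σ` of the rows, `τ = id`) shows that the
value is `ρ = g (Y° ∪ Y^0 ∪ X^1) (Y° ∪ X^0 ∪ Y^1)`.
-/

set_option autoImplicit false

namespace Pool.Agent.Lib.MP_90b327_co.WW

open Finset MeasureTheory Pool.Agent.Lib.MP_90b327_co Pool.Agent.Lib.MP_90b327_co.RB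

private lemma remA_cp_ne {D : ℕ} (q p : ℕ) (e : Ce D) (h : ∀ i, e i ≠ q) : cp q p e = e := by
  funext i
  simp [cp, h i]

/-- old cells without `q`, copies number `s ∈ W` of the cells of `Z s` with `q` -/
private def remA_asm {D : ℕ} (q M : ℕ) (O : Bp D) (Z : ℕ → Bp D) (W : Finset ℕ) : Bp D :=
  O.filter (fun c => ∀ i, c.1 i ≠ q) ∪ W.biUnion (fun s =>
    ((Z s).filter (fun c => ∃ i, c.1 i = q)).image (fun c => (cp q (M + s) c.1, c.2)))

private lemma remA_mem {D : ℕ} (q M : ℕ) (O : Bp D) (Z : ℕ → Bp D) (W : Finset ℕ)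
    (e : Ce D) (l : ℕ) :
    (e, l) ∈ remA_asm q M O Z W ↔ ((e, l) ∈ O ∧ ∀ i, e i ≠ q) ∨
      ∃ s ∈ W, ∃ e0 : Ce D, (e0, l) ∈ Z s ∧ (∃ i, e0 i = q) ∧ cp q (M + s) e0 = e := by
  unfold remA_asm
  rw [mem_union, mem_filter, mem_biUnion]
  constructor
  · rintro (h | ⟨s, hs, h⟩)
    · exact Or.inl h
    · rw [mem_image] at h
      obtain ⟨⟨e0, l0⟩, h0, h1⟩ := h
      rw [mem_filter] at h0
      rw [Prod.mk.injEq] at h1
      obtain ⟨h1, h2⟩ := h1
      simp only at h1 h2
      subst h2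
      exact Or.inr ⟨s, hs, e0, h0.1, h0.2, h1⟩
  · rintro (h | ⟨s, hs, e0, h0, h1, h2⟩)
    · exact Or.inl h
    · refine Or.inr ⟨s, hs, ?_⟩
      rw [mem_image]
      exact ⟨(e0, l), mem_filter.mpr ⟨h0, h1⟩, by rw [h2]⟩

private lemma remA_fresh {D : ℕ} (q M : ℕ) (O : Bp D) (Z : ℕ → Bp D) (W : Finset ℕ)
    (hO : ∀ c ∈ O, ∀ i, c.1 i < M) (hZ : ∀ s, ∀ c ∈ Z s, ∀ i, c.1 i < M)
    (e : Ce D) (l s : ℕ) (hs : s ∈ W) (he : ∃ i, e i = M + s) :
    (e, l) ∈ remA_asm q M O Z W ↔
      ∃ e0 : Ce D, (e0, l) ∈ Z s ∧ (∃ i, e0 i = q) ∧ cp q (M + s) e0 = e := by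
  rw [remA_mem]
  obtain ⟨i, hi⟩ := he
  constructor
  · rintro (⟨h, -⟩ | ⟨s', hs', e0, h0, h1, h2⟩)
    · have := hO _ h i
      simp only at this
      omega
    · have h3 : cp q (M + s') e0 i = M + s := by rw [h2, hi]
      have hss : s' = s := by
        unfold cp at h3
        by_cases hq : e0 i = q
        · rw [if_pos hq] at h3
          omega
        · rw [if_neg hq] at h3
          have := hZ s' _ h0 i
          simp only at this
          omega
      subst hss
      exact ⟨e0, h0, h1, h2⟩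
  · rintro h
    exact Or.inr ⟨s, hs, h⟩

private lemma remA_old {D : ℕ} (q M : ℕ) (O : Bp D) (Z : ℕ → Bp D) (W : Finset ℕ)
    (e : Ce D) (l : ℕ) (he : ∀ s ∈ W, ∀ i, e i ≠ M + s) :
    (e, l) ∈ remA_asm q M O Z W ↔ ((e, l) ∈ O ∧ ∀ i, e i ≠ q) := by
  rw [remA_mem]
  constructor
  · rintro (h | ⟨s, hs, e0, h0, ⟨i, hi⟩, h2⟩)
    · exact h
    · exfalso
      refine he s hs i ?_
      rw [← h2]
      unfold cp
      rw [if_pos hi]
  · intro h
    exact Or.inl h

private lemma remA_filter {D : ℕ} (q M : ℕ) (O : Bp D) (Z : ℕ → Bp D) (W W' : Finset ℕ)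
    (hW : W' ⊆ W)
    (hO : ∀ c ∈ O, ∀ i, c.1 i < M) (hZ : ∀ s, ∀ c ∈ Z s, ∀ i, c.1 i < M) :
    (remA_asm q M O Z W).filter (fun c => ∀ i, c.1 i ∉ (W \ W').image (fun s => M + s)) =
      remA_asm q M O Z W' := by
  ext ⟨e, l⟩
  rw [mem_filter, remA_mem, remA_mem]
  simp only [mem_image, mem_sdiff, not_exists, not_and]
  constructor
  · rintro ⟨h | ⟨s, hs, e0, h0, h1, h2⟩, h3⟩
    · exact Or.inl h
    · by_cases hs' : s ∈ W'
      · exact Or.inr ⟨s, hs', e0, h0, h1, h2⟩
      · exfalso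
        obtain ⟨i, hi⟩ := h1
        refine h3 i s ⟨hs, hs'⟩ ?_
        rw [← h2]
        unfold cp
        rw [if_pos hi]
  · rintro (h | ⟨s, hs, e0, h0, h1, h2⟩)
    · refine ⟨Or.inl h, ?_⟩
      intro i s hs h4
      have := hO _ h.1 i
      simp only at this
      omega
    · refine ⟨Or.inr ⟨s, hW hs, e0, h0, h1, h2⟩, ?_⟩
      intro i s' hs' h4
      rw [← h2] at h4
      unfold cp at h4
      by_cases hq : e0 i = q
      · rw [if_pos hq] at h4
        have : s' = s := by omega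
        subst this
        exact hs'.2 hs
      · rw [if_neg hq] at h4
        have := hZ s _ h0 i
        simp only at this
        omega

private lemma remA_single {D : ℕ} (q M : ℕ) (O : Bp D) (Z : ℕ → Bp D) (t : ℕ)
    (h : ∀ (e : Ce D) (l : ℕ), (∀ i, e i ≠ q) → ((e, l) ∈ O ↔ (e, l) ∈ Z t)) :
    remA_asm q M O Z {t} = (Z t).image (fun c => (cp q (M + t) c.1, c.2)) := by
  ext ⟨e, l⟩
  rw [remA_mem, mem_image]
  constructor
  · rintro (⟨h0, h1⟩ | ⟨s, hs, e0, h0, h1, h2⟩)
    · refine ⟨(e, l), (h e l h1).mp h0, ?_⟩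
      simp only
      rw [remA_cp_ne q _ e h1]
    · rw [mem_singleton] at hs
      subst hs
      exact ⟨(e0, l), h0, by simp only; rw [h2]⟩
  · rintro ⟨⟨e0, l0⟩, h0, h1⟩
    rw [Prod.mk.injEq] at h1
    obtain ⟨h1, h2⟩ := h1
    simp only at h1 h2
    subst h2
    by_cases hq : ∃ i, e0 i = q
    · exact Or.inr ⟨t, mem_singleton_self t, e0, h0, hq, h1⟩
    · push Not at hq
      rw [remA_cp_ne q _ e0 hq] at h1
      subst h1
      exact Or.inl ⟨(h e0 l0 hq).mpr h0, hq⟩

/-- removal of the cells of the copies outside `W'` -/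
private lemma remA_cut {D : ℕ} {δ : ℝ} {g : Bp D → Bp D → ℝ} (hg : BK D δ g) (q M : ℕ)
    (O O' : Bp D) (Z Z' : ℕ → Bp D) (W W' : Finset ℕ) (hW : W' ⊆ W)
    (hO : ∀ c ∈ O, ∀ i, c.1 i < M) (hZ : ∀ s, ∀ c ∈ Z s, ∀ i, c.1 i < M)
    (hO' : ∀ c ∈ O', ∀ i, c.1 i < M) (hZ' : ∀ s, ∀ c ∈ Z' s, ∀ i, c.1 i < M)
    (hZZ : ∀ s ∈ W, s ∉ W' → Z s = Z' s) :
    g (remA_asm q M O Z W) (remA_asm q M O' Z' W) =
      g (remA_asm q M O Z W') (remA_asm q M O' Z' W') := by
  rw [row_many hg ((W \ W').image (fun s => M + s)) (remA_asm q M O Z W) (remA_asm q M O' Z' W),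
    remA_filter q M O Z W W' hW hO hZ, remA_filter q M O' Z' W W' hW hO' hZ']
  rintro e l ⟨i, hi⟩
  rw [mem_image] at hi
  obtain ⟨s, hs, hi⟩ := hi
  rw [mem_sdiff] at hs
  rw [remA_fresh q M O Z W hO hZ e l s hs.1 ⟨i, hi.symm⟩,
    remA_fresh q M O' Z' W hO' hZ' e l s hs.1 ⟨i, hi.symm⟩, hZZ s hs.1 hs.2]

/-- insertion of the cell `(c, j)` in the copies `s ∈ F` -/
private def remA_fl {D : ℕ} (c : Ce D) (j : ℕ) (F : Finset ℕ) (Z : ℕ → Bp D) : ℕ → Bp D :=
  fun s => if s ∈ F then insert (c, j) (Z s) else Z s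

private lemma remA_mem_fl {D : ℕ} (c : Ce D) (j : ℕ) (F : Finset ℕ) (Z : ℕ → Bp D) (s : ℕ)
    (e : Ce D) (l : ℕ) :
    (e, l) ∈ remA_fl c j F Z s ↔ (s ∈ F ∧ e = c ∧ l = j) ∨ (e, l) ∈ Z s := by
  unfold remA_fl
  by_cases hs : s ∈ F
  · rw [if_pos hs, mem_insert, Prod.mk.injEq]
    simp [hs]
  · rw [if_neg hs]
    simp [hs]

/-- one insertion -/
private lemma remA_ins {D : ℕ} (q M : ℕ) (O : Bp D) (Z : ℕ → Bp D) (W F : Finset ℕ)
    (c : Ce D) (j t : ℕ) (htW : t ∈ W) (hqc : ∃ i, c i = q) :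
    remA_asm q M O (remA_fl c j (insert t F) Z) W =
      insert (cp q (M + t) c, j) (remA_asm q M O (remA_fl c j F Z) W) := by
  ext ⟨e, l⟩
  rw [mem_insert, remA_mem, remA_mem, Prod.mk.injEq]
  simp only [remA_mem_fl]
  constructor
  · rintro (h | ⟨s, hs, e0, h0 | h0, h1, h2⟩)
    · exact Or.inr (Or.inl h)
    · obtain ⟨h0, h3, h4⟩ := h0
      rw [mem_insert] at h0
      rcases h0 with h0 | h0
      · left
        subst h0
        subst h3
        exact ⟨h2.symm, h4⟩
      · exact Or.inr (Or.inr ⟨s, hs, e0, Or.inl ⟨h0, h3, h4⟩, h1, h2⟩)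
    · exact Or.inr (Or.inr ⟨s, hs, e0, Or.inr h0, h1, h2⟩)
  · rintro (⟨h, h'⟩ | h | ⟨s, hs, e0, h0 | h0, h1, h2⟩)
    · exact Or.inr ⟨t, htW, c, Or.inl ⟨mem_insert_self t F, rfl, h'⟩, hqc, h.symm⟩
    · exact Or.inl h
    · exact Or.inr ⟨s, hs, e0, Or.inl ⟨mem_insert_of_mem h0.1, h0.2⟩, h1, h2⟩
    · exact Or.inr ⟨s, hs, e0, Or.inr h0, h1, h2⟩

private lemma remA_cp_inj {D : ℕ} (q M t : ℕ) (e e' : Ce D) (he : ∀ i, e i < M)
    (he' : ∀ i, e' i < M) (h : cp q (M + t) e = cp q (M + t) e') : e = e' := by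
  funext i
  have h1 := congrFun h i
  unfold cp at h1
  have h2 := he i
  have h3 := he' i
  by_cases hq : e i = q
  · by_cases hq' : e' i = q
    · rw [hq, hq']
    · rw [if_pos hq, if_neg hq'] at h1
      omega
  · by_cases hq' : e' i = q
    · rw [if_neg hq, if_pos hq'] at h1
      omega
    · rw [if_neg hq, if_neg hq'] at h1
      exact h1

/-- all inserted copies may be removed -/
private lemma remA_unfl {D : ℕ} {g : Bp D → Bp D → ℝ} (T : Finset ℕ) (q M : ℕ)
    (hq : q ∈ T) (h : RP g (T.erase q)) (O : Bp D) (Z Z' : ℕ → Bp D) (W : Finset ℕ)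
    (c : Ce D) (j : ℕ) (hc : ∀ i, c i < M) (hcT : ∀ v ∈ T, ∃ i, c i = v)
    (hO : ∀ c ∈ O, ∀ i, c.1 i < M) (hZ : ∀ s, ∀ c ∈ Z s, ∀ i, c.1 i < M)
    (hZ' : ∀ s, ∀ c ∈ Z' s, ∀ i, c.1 i < M)
    (hn : ∀ s, (c, j) ∉ Z s) (hn' : ∀ s, (c, j) ∉ Z' s)
    (hT : ∀ s, ∀ e : Ce D, (∀ v ∈ T, ∃ i, e i = v) → ((e, j) ∈ Z s ↔ (e, j) ∈ Z' s))
    (F : Finset ℕ) (hF : F ⊆ W) :
    g (remA_asm q M O (remA_fl c j F Z) W) (remA_asm q M O (remA_fl c j F Z') W) =
      g (remA_asm q M O Z W) (remA_asm q M O Z' W) := by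
  induction F using Finset.induction_on with
  | empty =>
    have h0 : ∀ Z : ℕ → Bp D, remA_fl c j ∅ Z = Z := by
      intro Z
      funext s
      simp [remA_fl]
    rw [h0, h0]
  | insert t F htF ih =>
    have htW : t ∈ W := hF (mem_insert_self t F)
    have hFW : F ⊆ W := fun s hs => hF (mem_insert_of_mem hs)
    have hb : ∀ (Z : ℕ → Bp D), (∀ s, ∀ c ∈ Z s, ∀ i, c.1 i < M) →
        ∀ s, ∀ c' ∈ remA_fl c j F Z s, ∀ i, c'.1 i < M := by
      rintro Z hZ s ⟨e, l⟩ he i
      rw [remA_mem_fl] at he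
      rcases he with ⟨-, he, -⟩ | he
      · subst he
        exact hc i
      · exact hZ s _ he i
    have hnot : ∀ (Z : ℕ → Bp D), (∀ s, ∀ c ∈ Z s, ∀ i, c.1 i < M) → (∀ s, (c, j) ∉ Z s) →
        (cp q (M + t) c, j) ∉ remA_asm q M O (remA_fl c j F Z) W := by
      intro Z hZ hnZ hmem
      obtain ⟨i, hi⟩ := hcT q hq
      rw [remA_fresh q M O (remA_fl c j F Z) W hO (hb Z hZ) _ j t htW
        ⟨i, by unfold cp; rw [if_pos hi]⟩] at hmem
      obtain ⟨e0, h0, h1, h2⟩ := hmem
      have h3 : e0 = c := remA_cp_inj q M t e0 c (fun i => hb Z hZ t _ h0 i) hc h2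
      subst h3
      rw [remA_mem_fl] at h0
      rcases h0 with h0 | h0
      · exact htF h0.1
      · exact hnZ t h0
    rw [remA_ins q M O Z W F c j t htW (hcT q hq), remA_ins q M O Z' W F c j t htW (hcT q hq),
      h _ _ (cp q (M + t) c) j (hnot Z hZ hn) (hnot Z' hZ' hn'), ih hFW]
    · intro v hv
      rw [mem_erase] at hv
      obtain ⟨i, hi⟩ := hcT v hv.2
      refine ⟨i, ?_⟩
      unfold cp
      rw [if_neg (by rw [hi]; exact hv.1), hi]
    · intro c' hc'
      by_cases hfr : ∃ s ∈ W, ∃ i, c' i = M + s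
      · obtain ⟨s, hs, hi⟩ := hfr
        rw [remA_fresh q M O _ W hO (hb Z hZ) c' j s hs hi,
          remA_fresh q M O _ W hO (hb Z' hZ') c' j s hs hi]
        have key : ∀ e0 : Ce D, (∃ i, e0 i = q) → cp q (M + s) e0 = c' →
            ((e0, j) ∈ remA_fl c j F Z s ↔ (e0, j) ∈ remA_fl c j F Z' s) := by
          intro e0 hq0 h2
          rw [remA_mem_fl, remA_mem_fl]
          have : (e0, j) ∈ Z s ↔ (e0, j) ∈ Z' s := by
            refine hT s e0 ?_
            intro v hv
            by_cases hvq : v = q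
            · rw [hvq]
              exact hq0
            · obtain ⟨i, hi'⟩ := hc' v (mem_erase.mpr ⟨hvq, hv⟩)
              refine ⟨i, ?_⟩
              rw [← h2] at hi'
              unfold cp at hi'
              by_cases hqi : e0 i = q
              · exfalso
                rw [if_pos hqi] at hi'
                obtain ⟨i', hi''⟩ := hcT v hv
                have := hc i'
                omega
              · rw [if_neg hqi] at hi'
                exact hi'
          rw [this]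
        constructor
        · rintro ⟨e0, h0, h1, h2⟩
          exact ⟨e0, (key e0 h1 h2).mp h0, h1, h2⟩
        · rintro ⟨e0, h0, h1, h2⟩
          exact ⟨e0, (key e0 h1 h2).mpr h0, h1, h2⟩
      · push Not at hfr
        rw [remA_old q M O _ W c' j hfr, remA_old q M O _ W c' j hfr]

/-- relabelling of the copies -/
private lemma remA_perm {D : ℕ} (q M : ℕ) (O : Bp D) (Z Z' : ℕ → Bp D)
    (W : Finset ℕ) (π : Equiv.Perm ℕ)
    (hO : ∀ c ∈ O, ∀ i, c.1 i < M) (hZ : ∀ s, ∀ c ∈ Z s, ∀ i, c.1 i < M)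
    (hZZ : ∀ s ∈ W, Z s = Z' (π s)) :
    rb (fun v => if v < M then v else M + π (v - M)) id (remA_asm q M O Z W) =
      remA_asm q M O Z' (W.image π) := by
  have hcomp : ∀ (s : ℕ) (e0 : Ce D), (∀ i, e0 i < M) →
      (fun v => if v < M then v else M + π (v - M)) ∘ cp q (M + s) e0 = cp q (M + π s) e0 := by
    intro s e0 he0
    funext i
    simp only [Function.comp_apply]
    unfold cp
    by_cases hq : e0 i = q
    · rw [if_pos hq, if_pos hq, if_neg (by omega)]
      rw [Nat.add_sub_cancel_left]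
    · rw [if_neg hq, if_neg hq, if_pos (he0 i)]
  have hcompO : ∀ (e0 : Ce D), (∀ i, e0 i < M) →
      (fun v => if v < M then v else M + π (v - M)) ∘ e0 = e0 := by
    intro e0 he0
    funext i
    simp only [Function.comp_apply]
    rw [if_pos (he0 i)]
  ext ⟨e, l⟩
  unfold rb
  rw [mem_image, remA_mem]
  constructor
  · rintro ⟨⟨e1, l1⟩, h1, h2⟩
    rw [Prod.mk.injEq] at h2
    obtain ⟨h2, h3⟩ := h2
    simp only [id] at h2 h3
    subst h3
    rw [remA_mem] at h1
    rcases h1 with ⟨h1, h4⟩ | ⟨s, hs, e0, h0, h4, h5⟩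
    · rw [hcompO e1 (fun i => hO _ h1 i)] at h2
      subst h2
      exact Or.inl ⟨h1, h4⟩
    · subst h5
      rw [hcomp s e0 (fun i => hZ s _ h0 i)] at h2
      refine Or.inr ⟨π s, mem_image_of_mem _ hs, e0, ?_, h4, h2⟩
      rw [← hZZ s hs]
      exact h0
  · rintro (⟨h1, h4⟩ | ⟨s', hs', e0, h0, h4, h5⟩)
    · refine ⟨(e, l), (remA_mem q M O Z W e l).mpr (Or.inl ⟨h1, h4⟩), ?_⟩
      simp only [id]
      rw [hcompO e (fun i => hO _ h1 i)]
    · rw [mem_image] at hs'
      obtain ⟨s, hs, hs'⟩ := hs'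
      subst hs'
      rw [← hZZ s hs] at h0
      refine ⟨(cp q (M + s) e0, l), (remA_mem q M O Z W _ l).mpr
        (Or.inr ⟨s, hs, e0, h0, h4, rfl⟩), ?_⟩
      simp only [id]
      rw [hcomp s e0 (fun i => hZ s _ h0 i), h5]

private lemma remA_sig_inj (M : ℕ) (π : Equiv.Perm ℕ) :
    Function.Injective (fun v : ℕ => if v < M then v else M + π (v - M)) := by
  intro a b hab
  simp only at hab
  by_cases ha : a < M
  · by_cases hb : b < M
    · rw [if_pos ha, if_pos hb] at hab
      exact hab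
    · rw [if_pos ha, if_neg hb] at hab
      omega
  · by_cases hb : b < M
    · rw [if_neg ha, if_pos hb] at hab
      omega
    · rw [if_neg ha, if_neg hb] at hab
      have h1 : π (a - M) = π (b - M) := by omega
      have h2 := π.injective h1
      omega

private lemma remA_perm_ex (t t' : ℕ) (h : t ≠ t') : ∃ π : Equiv.Perm ℕ, π t = 0 ∧ π t' = 1 := by
  have hu : Equiv.swap t 0 t' ≠ 0 := by
    intro h0
    have h1 : Equiv.swap t 0 t = 0 := Equiv.swap_apply_left t 0
    exact h ((Equiv.swap t 0).injective (h1.trans h0.symm))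
  refine ⟨(Equiv.swap t 0).trans (Equiv.swap (Equiv.swap t 0 t') 1), ?_, ?_⟩
  · rw [Equiv.trans_apply, Equiv.swap_apply_left]
    exact Equiv.swap_apply_of_ne_of_ne (Ne.symm hu) (by norm_num)
  · rw [Equiv.trans_apply]
    exact Equiv.swap_apply_left _ _

private lemma remA_bd {D : ℕ} (X : Bp D) : ∃ M : ℕ, ∀ c ∈ X, ∀ i, c.1 i < M := by
  refine ⟨X.sup (fun c => (Finset.univ : Finset (Fin D)).sup c.1) + 1, ?_⟩
  intro c hc i
  have h1 : c.1 i ≤ (Finset.univ : Finset (Fin D)).sup c.1 := Finset.le_sup (mem_univ i)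
  have h2 : (Finset.univ : Finset (Fin D)).sup c.1 ≤
      X.sup (fun c => (Finset.univ : Finset (Fin D)).sup c.1) :=
    Finset.le_sup (f := fun c : Ce D × ℕ => (Finset.univ : Finset (Fin D)).sup c.1) hc
  omega

theorem rem_a {D : ℕ} {δ : ℝ} {g : Bp D → Bp D → ℝ} (hg : BK D δ g) (T : Finset ℕ) (q : ℕ)
    (hq : q ∈ T) (h : RP g (T.erase q)) : RP g T := by
  intro X Y c j hcX hcY hcT hT
  obtain ⟨M1, hM1⟩ := remA_bd (insert (c, j) (X ∪ Y))
  obtain ⟨M, hqM, hM⟩ : ∃ M : ℕ, q < M ∧ ∀ c' ∈ insert (c, j) (X ∪ Y), ∀ i, c'.1 i < M :=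
    ⟨M1 + q + 1, by omega, fun c' hc' i => by have := hM1 c' hc' i; omega⟩
  have hc : ∀ i, c i < M := fun i => hM (c, j) (mem_insert_self _ _) i
  have hX : ∀ c' ∈ X, ∀ i, c'.1 i < M := fun c' hc' i =>
    hM c' (mem_insert_of_mem (mem_union_left _ hc')) i
  have hY : ∀ c' ∈ Y, ∀ i, c'.1 i < M := fun c' hc' i =>
    hM c' (mem_insert_of_mem (mem_union_right _ hc')) i
  -- bounds for flagged families
  have hb : ∀ (F : Finset ℕ) (Z : ℕ → Bp D), (∀ s, ∀ c ∈ Z s, ∀ i, c.1 i < M) →
      ∀ s, ∀ c' ∈ remA_fl c j F Z s, ∀ i, c'.1 i < M := by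
    rintro F Z hZ s ⟨e, l⟩ he i
    rw [remA_mem_fl] at he
    rcases he with ⟨-, he, -⟩ | he
    · subst he
      exact hc i
    · exact hZ s _ he i
  -- the families
  have hZX : ∀ s : ℕ, ∀ c' ∈ (fun _ : ℕ => X) s, ∀ i, c'.1 i < M := fun _ => hX
  have hZt : ∀ t s : ℕ, ∀ c' ∈ (fun s : ℕ => if s = t then Y else X) s, ∀ i, c'.1 i < M := by
    intro t s c' hc' i
    simp only at hc'
    by_cases hst : s = t
    · rw [if_pos hst] at hc'
      exact hY c' hc' i
    · rw [if_neg hst] at hc'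
      exact hX c' hc' i
  have hcq : ∃ i, c i = q := hcT q hq
  have hne : ∀ (e : Ce D) (l : ℕ), (∀ i, e i ≠ q) → (e, l) ≠ (c, j) := by
    rintro e l he h0
    rw [Prod.mk.injEq] at h0
    obtain ⟨i, hi⟩ := hcq
    exact he i (by rw [h0.1, hi])
  symm
  refine pos_step hg (g X Y) (g (insert (c, j) X) (insert (c, j) Y)) ?_
  intro m hm
  refine ⟨remA_asm q M X (remA_fl c j ((range (2 * m)).filter (fun s => m ≤ s)) (fun _ => X))
      (range (2 * m)),
    fun t => remA_asm q M Y (remA_fl c j ((range (2 * m)).filter (fun s => m ≤ s))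
      (fun s => if s = t then Y else X)) (range (2 * m)),
    g (remA_asm q M Y (fun s => if s = 0 then Y else X) {0, 1})
      (remA_asm q M Y (fun s => if s = 1 then Y else X) {0, 1}), ?_, ?_, ?_⟩
  · intro t ht
    simp only
    have ht2 : t ∈ range (2 * m) := mem_range.mpr (by omega)
    rw [remA_cut hg q M X Y _ _ (range (2 * m)) {t} (singleton_subset_iff.mpr ht2) hX
      (hb _ _ hZX) hY (hb _ _ (hZt t))
      (fun s _ hs => by
        have hst : s ≠ t := fun h0 => hs (mem_singleton.mpr h0)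
        simp only [remA_fl, if_neg hst])]
    have htF : t ∉ (range (2 * m)).filter (fun s => m ≤ s) := by
      rw [mem_filter]
      rintro ⟨-, h2⟩
      omega
    have e1 : remA_fl c j ((range (2 * m)).filter (fun s => m ≤ s)) (fun _ => X) t = X := by
      unfold remA_fl
      rw [if_neg htF]
    have e2 : remA_fl c j ((range (2 * m)).filter (fun s => m ≤ s))
        (fun s => if s = t then Y else X) t = Y := by
      unfold remA_fl
      rw [if_neg htF]
      exact if_pos rfl
    rw [remA_single q M X _ t (fun e l _ => by rw [e1]),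
      remA_single q M Y _ t (fun e l _ => by rw [e2]), e1, e2]
    exact row_swap hg q (M + t) X Y (fun c' hc' i => by have := hX c' hc' i; omega)
      (fun c' hc' i => by have := hY c' hc' i; omega)
  · intro t htm ht
    simp only
    have ht2 : t ∈ range (2 * m) := mem_range.mpr ht
    rw [remA_cut hg q M X Y _ _ (range (2 * m)) {t} (singleton_subset_iff.mpr ht2) hX
      (hb _ _ hZX) hY (hb _ _ (hZt t))
      (fun s _ hs => by
        have hst : s ≠ t := fun h0 => hs (mem_singleton.mpr h0)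
        simp only [remA_fl, if_neg hst])]
    have htF : t ∈ (range (2 * m)).filter (fun s => m ≤ s) := mem_filter.mpr ⟨ht2, htm⟩
    have e1 : remA_fl c j ((range (2 * m)).filter (fun s => m ≤ s)) (fun _ => X) t =
        insert (c, j) X := by
      unfold remA_fl
      rw [if_pos htF]
    have e2 : remA_fl c j ((range (2 * m)).filter (fun s => m ≤ s))
        (fun s => if s = t then Y else X) t = insert (c, j) Y := by
      unfold remA_fl
      rw [if_pos htF]
      have h0 : (fun s : ℕ => if s = t then Y else X) t = Y := if_pos rfl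
      rw [h0]
    rw [remA_single q M X _ t (fun e l he => by
        rw [e1, mem_insert]
        exact ⟨fun h0 => Or.inr h0, fun h0 => h0.resolve_left (hne e l he)⟩),
      remA_single q M Y _ t (fun e l he => by
        rw [e2, mem_insert]
        exact ⟨fun h0 => Or.inr h0, fun h0 => h0.resolve_left (hne e l he)⟩), e1, e2]
    have hXc : ∀ c' ∈ insert (c, j) X, ∀ i, c'.1 i ≠ M + t := by
      intro c' hc' i
      rw [mem_insert] at hc'
      rcases hc' with hc' | hc'
      · rw [hc']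
        have := hc i
        simp only
        omega
      · have := hX c' hc' i
        omega
    have hYc : ∀ c' ∈ insert (c, j) Y, ∀ i, c'.1 i ≠ M + t := by
      intro c' hc' i
      rw [mem_insert] at hc'
      rcases hc' with hc' | hc'
      · rw [hc']
        have := hc i
        simp only
        omega
      · have := hY c' hc' i
        omega
    exact row_swap hg q (M + t) _ _ hXc hYc
  · intro t t' ht ht' htt
    simp only
    have hsame : ∀ (t : ℕ), ∀ s, (c, j) ∉ (fun s : ℕ => if s = t then Y else X) s := by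
      intro t s
      simp only
      by_cases hst : s = t
      · rw [if_pos hst]
        exact hcY
      · rw [if_neg hst]
        exact hcX
    have hTT : ∀ (t s : ℕ), ∀ e : Ce D, (∀ v ∈ T, ∃ i, e i = v) →
        ((e, j) ∈ (fun s : ℕ => if s = t then Y else X) s ↔ (e, j) ∈ X) := by
      intro t s e he
      simp only
      by_cases hst : s = t
      · rw [if_pos hst]
        exact (hT e he).symm
      · rw [if_neg hst]
    rw [remA_unfl T q M hq h Y (fun s => if s = t then Y else X) (fun s => if s = t' then Y else X)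
      (range (2 * m)) c j hc hcT hY (hZt t) (hZt t') (hsame t) (hsame t')
      (fun s e he => (hTT t s e he).trans (hTT t' s e he).symm) _ (filter_subset _ _)]
    have hsub : ({t, t'} : Finset ℕ) ⊆ range (2 * m) := by
      intro s hs
      rw [mem_insert, mem_singleton] at hs
      rcases hs with hs | hs
      · rw [hs]; exact mem_range.mpr ht
      · rw [hs]; exact mem_range.mpr ht'
    rw [remA_cut hg q M Y Y _ _ (range (2 * m)) {t, t'} hsub hY (hZt t) hY (hZt t')
      (fun s _ hs => by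
        rw [mem_insert, mem_singleton] at hs
        push Not at hs
        simp only [if_neg hs.1, if_neg hs.2])]
    obtain ⟨π, hπ, hπ'⟩ := remA_perm_ex t t' htt
    have himg : ({t, t'} : Finset ℕ).image π = {0, 1} := by
      rw [image_insert, image_singleton, hπ, hπ']
    have hp1 := remA_perm q M Y (fun s => if s = t then Y else X)
      (fun s => if s = 0 then Y else X) {t, t'} π hY (hZt t) (by
        intro s _
        show (if s = t then Y else X) = (if π s = 0 then Y else X)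
        by_cases hst : s = t
        · rw [if_pos hst, hst, hπ, if_pos rfl]
        · have : π s ≠ 0 := fun h0 => hst (π.injective (h0.trans hπ.symm))
          rw [if_neg hst, if_neg this])
    have hp2 := remA_perm q M Y (fun s => if s = t' then Y else X)
      (fun s => if s = 1 then Y else X) {t, t'} π hY (hZt t') (by
        intro s _
        show (if s = t' then Y else X) = (if π s = 1 then Y else X)
        by_cases hst : s = t'
        · rw [if_pos hst, hst, hπ', if_pos rfl]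
        · have : π s ≠ 1 := fun h0 => hst (π.injective (h0.trans hπ'.symm))
          rw [if_neg hst, if_neg this])
    rw [himg] at hp1 hp2
    rw [← hp1, ← hp2]
    exact (hg.inv _ id (remA_sig_inj M π) Function.injective_id _ _).symm

end Pool.Agent.Lib.MP_90b327_co.WW
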