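import Mathlib
import Pool.Agent.Lib.MP_90b327_co.WW.WDefs
import Pool.Agent.Lib.MP_90b327_co.WW.RemA

/-!
MODULE RemB (15 minutes, old scale). The removal lemma.

PROOF. `rp_all`: induction on `T` (`Finset.induction_on` in the form: `T = ∅`, or choose `q ∈ T` and use the statement for `T.erase q`, `rem_a`). `T = ∅`: the hypothesis says
that `X` and `Y` agree on the column `j`, so `insert (c, j) X`, `insert (c, j) Y` agree on it as well; `hg.col` for both pairs, and
`(insert (c, j) X).filter (fun c => c.2 ≠ j) = X.filter _`.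
`bk_rem`: `T =` the set of entries of `c` (`Finset.univ.image c`). `Bel c c' ↔ ∀ v ∈ T, ∃ i, c' i = v`. So `Free X Y c j` gives the hypotheses of `RP g T`.
-/

set_option autoImplicit false

namespace Pool.Agent.Lib.MP_90b327_co.WW

open Finset MeasureTheory Pool.Agent.Lib.MP_90b327_co Pool.Agent.Lib.MP_90b327_co.RB

theorem rp_all {D : ℕ} {δ : ℝ} {g : Bp D → Bp D → ℝ} (hg : BK D δ g) (T : Finset ℕ) : RP g T := by
  refine Finset.strongInduction (p := fun T => RP g T) (fun T ih => ?_) T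
  rcases T.eq_empty_or_nonempty with rfl | ⟨q, hq⟩
  · intro X Y c j _ _ _ hT
    have hT' : ∀ c' : Ce D, (c', j) ∈ X ↔ (c', j) ∈ Y := fun c' => hT c' (by simp)
    have hf : ∀ Z : Bp D, (insert (c, j) Z).filter (fun c => c.2 ≠ j) = Z.filter (fun c => c.2 ≠ j) := by
      intro Z
      rw [filter_insert, if_neg (by simp)]
    rw [hg.col (insert (c, j) X) (insert (c, j) Y) j (by
      intro c'
      rw [mem_insert, mem_insert, hT' c']), hg.col X Y j hT', hf, hf]
  · exact rem_a hg T q hq (ih _ (erase_ssubset hq))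

theorem bk_rem {D : ℕ} {δ : ℝ} {g : Bp D → Bp D → ℝ} (hg : BK D δ g) (X Y : Bp D) (c : Ce D) (j : ℕ)
    (h : Free X Y c j) : g (insert (c, j) X) (insert (c, j) Y) = g X Y := by
  refine rp_all hg (univ.image c) X Y c j h.1 h.2.1 ?_ ?_
  · intro v hv
    obtain ⟨i, _, hi⟩ := mem_image.1 hv
    exact ⟨i, hi⟩
  · intro c' hc'
    refine h.2.2 c' fun i => ?_
    obtain ⟨k, hk⟩ := hc' (c i) (mem_image_of_mem _ (mem_univ _))
    exact ⟨k, hk.symm⟩

end Pool.Agent.Lib.MP_90b327_co.WW
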