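import Mathlib
import Pool.Agent.Lib.MP_90b327_co.WW.WDefs
import Pool.Agent.Lib.MP_90b327_co.WW.RemB

/-!
MODULE KerC (15 minutes, old scale). The normalised kernel.

PROOF. `one`: `hg.diag`, `δ / δ = 1`. `herm`: real, symmetric. `psd`: for `c i = p i + q i I` the real part is `(∑∑ p i p j g + ∑∑ q i q j g) / δ ≥ 0` by `hg.psd` (left side
`≥ 0`); see `lo_ker` in RB/LevelOne.lean. `rel`: case 1 `bk_rem`; case 2 `hg.inv id τ`.
-/

set_option autoImplicit false

namespace Pool.Agent.Lib.MP_90b327_co.WW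

open Finset MeasureTheory Pool.Agent.Lib.MP_90b327_co Pool.Agent.Lib.MP_90b327_co.RB

private theorem KerC_re (a b : ℂ) (r : ℝ) : ((starRingEnd ℂ) a * b * (r : ℂ)).re =
    (a.re * b.re + a.im * b.im) * r := by
  simp only [Complex.mul_re, Complex.mul_im, Complex.conj_re, Complex.conj_im, Complex.ofReal_re,
    Complex.ofReal_im]
  ring

theorem ker_c {D : ℕ} {δ : ℝ} {g : Bp D → Bp D → ℝ} (hg : BK D δ g) (hδ : 0 < δ) :
    Ker (RC (D := D)) (fun X Y => ((g X Y / δ : ℝ) : ℂ)) := by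
  refine ⟨fun X => ?_, fun X Y => ?_, fun ι _ X c => ?_, fun X Y X' Y' hR => ?_⟩
  · rw [hg.diag, div_self hδ.ne', Complex.ofReal_one]
  · rw [Complex.conj_ofReal, hg.symm]
  · rw [Complex.re_sum]
    have h1 : ∀ i, (∑ j, (starRingEnd ℂ) (c i) * c j * ((g (X i) (X j) / δ : ℝ) : ℂ)).re =
        ∑ j, ((c i).re * (c j).re + (c i).im * (c j).im) * (g (X i) (X j) / δ) := by
      intro i
      rw [Complex.re_sum]
      exact Finset.sum_congr rfl fun j _ => KerC_re _ _ _
    rw [Finset.sum_congr rfl fun i _ => h1 i]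
    have h2 : ∑ i, ∑ j, ((c i).re * (c j).re + (c i).im * (c j).im) * (g (X i) (X j) / δ) =
        (∑ i, ∑ j, (c i).re * (c j).re * g (X i) (X j) +
          ∑ i, ∑ j, (c i).im * (c j).im * g (X i) (X j)) / δ := by
      rw [← Finset.sum_add_distrib, Finset.sum_div]
      refine Finset.sum_congr rfl fun i _ => ?_
      rw [← Finset.sum_add_distrib, Finset.sum_div]
      refine Finset.sum_congr rfl fun j _ => ?_
      ring
    rw [h2]
    have h3 := hg.psd ι X (fun i => (c i).re)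
    have h4 := hg.psd ι X (fun i => (c i).im)
    have h5 : 0 ≤ δ ^ 2 * (∑ i, (c i).re) ^ 2 := by positivity
    have h6 : 0 ≤ δ ^ 2 * (∑ i, (c i).im) ^ 2 := by positivity
    exact div_nonneg (by linarith) hδ.le
  · have h1 : g X' Y' = g X Y := by
      rcases hR with ⟨c, j, h1, h2, h3⟩ | ⟨τ, h1, h2, h3⟩
      · rw [h2, h3]
        exact bk_rem hg X Y c j h1
      · rw [h2, h3]
        exact hg.inv id τ Function.injective_id h1 X Y
    rw [h1]

end Pool.Agent.Lib.MP_90b327_co.WW
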