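import Mathlib
import Pool.Agent.Lib.MP_90b327_co.WW.WDefs

/-!
MODULE LawM (75 minutes, old scale). The law of a bounded random vector is determined by its mixed moments.

PROOF. `E := ι → Metric.closedBall (0 : ℂ) 1` (compact metric, so complete and second countable). `Z̃ ω i = ⟨Z ω i, _⟩`, measurable; `P.map Z = (P.map Z̃).map (fun v i => (v i : ℂ))`.
So it suffices to show `μ := P.map Z̃ = P.map Z̃' =: ν`. Both are finite (probability) measures on `E`. Use
`MeasureTheory.ext_of_forall_mem_subalgebra_integral_eq_of_pseudoEMetric_complete_countable` with the star subalgebra `A` of `E →ᵇ ℂ` generated by the coordinates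
`v ↦ (v i : ℂ)` (it separates points). For the equality of the integrals on `A`: `A` is the linear span of the monomials `∏ i, v i ^ p i * conj (v i) ^ q i`: either
take for `A` the star subalgebra whose carrier is this span (closed under products: exponents add; under star: exchange of `p` and `q`), or `StarSubalgebra.adjoin_induction`
for the statement: for all `f` in the algebra and all monomials `m`, `∫ f m dμ = ∫ f m dν` (closed under sums, scalars, and under multiplication by a coordinate or its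
conjugate; for products use that the elements are spans of monomials: `Algebra.adjoin_eq_span`, `Submonoid.closure`). Alternatively: polynomials `MvPolynomial (ι ⊕ ι) ℂ` evaluated at
`(v, conj v)`: the range of this star-closed algebra homomorphism into `E →ᵇ ℂ` is the subalgebra, and the integral of the image of a polynomial is a linear combination of
moments (`MvPolynomial.induction_on` or `as_sum`).
Moments of `μ`: `∫ ∏ i, (v i) ^ p i * conj (v i) ^ q i ∂μ = ∫ ω, ∏ i, Z ω i ^ p i * conj (Z ω i) ^ q i ∂P` (`integral_map`), the same for `ν`.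
-/

set_option autoImplicit false

namespace Pool.Agent.Lib.MP_90b327_co.WW

open Finset MeasureTheory Pool.Agent.Lib.MP_90b327_co Pool.Agent.Lib.MP_90b327_co.RB

private abbrev LMBall : Type := Metric.closedBall (0 : ℂ) 1

private noncomputable def lmW {ι : Type} (v : ι → LMBall) : ι ⊕ ι → ℂ :=
  Sum.elim (fun i => (v i : ℂ)) (fun i => (starRingEnd ℂ) (v i : ℂ))

private theorem lmW_conj {ι : Type} (v : ι → LMBall) :
    (starRingEnd ℂ) ∘ lmW v = lmW v ∘ Sum.swap := by
  funext j
  rcases j with i | i <;> simp [lmW]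

/-- evaluations of polynomials at the coordinates and their conjugates -/
private noncomputable def lmA (ι : Type) [Fintype ι] :
    StarSubalgebra ℂ (BoundedContinuousFunction (ι → LMBall) ℂ) where
  carrier := {g | ∃ p : MvPolynomial (ι ⊕ ι) ℂ, ∀ v, g v = MvPolynomial.eval (lmW v) p}
  mul_mem' := by
    rintro a b ⟨p, hp⟩ ⟨q, hq⟩
    exact ⟨p * q, fun v => by rw [BoundedContinuousFunction.mul_apply, hp, hq, map_mul]⟩
  add_mem' := by
    rintro a b ⟨p, hp⟩ ⟨q, hq⟩
    exact ⟨p + q, fun v => by rw [BoundedContinuousFunction.add_apply, hp, hq, map_add]⟩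
  algebraMap_mem' := by
    intro r
    refine ⟨MvPolynomial.C r, fun v => ?_⟩
    rw [MvPolynomial.eval_C]
    rfl
  star_mem' := by
    rintro a ⟨p, hp⟩
    refine ⟨MvPolynomial.rename Sum.swap (MvPolynomial.map (starRingEnd ℂ) p), fun v => ?_⟩
    rw [MvPolynomial.eval_rename, ← lmW_conj, ← MvPolynomial.map_eval, ← hp]
    rfl

private theorem lm_mem {ι : Type} [Fintype ι] (g : BoundedContinuousFunction (ι → LMBall) ℂ) :
    g ∈ lmA ι ↔ ∃ p : MvPolynomial (ι ⊕ ι) ℂ, ∀ v, g v = MvPolynomial.eval (lmW v) p := Iff.rfl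

/-- the coordinates -/
private noncomputable def lmX {ι : Type} [Fintype ι] (i : ι) :
    BoundedContinuousFunction (ι → LMBall) ℂ :=
  BoundedContinuousFunction.ofNormedAddCommGroup (fun v => (v i : ℂ)) (by fun_prop) 1
    (fun v => by simpa using mem_closedBall_zero_iff.mp (v i).2)

private theorem lmX_mem {ι : Type} [Fintype ι] (i : ι) : lmX i ∈ lmA ι := by
  rw [lm_mem]
  exact ⟨MvPolynomial.X (Sum.inl i), fun v => by rw [MvPolynomial.eval_X]; rfl⟩

private noncomputable def lmM {ι : Type} [Fintype ι] (p q : ι → ℕ) (v : ι → LMBall) : ℂ :=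
  ∏ i, ((v i : ℂ) ^ p i * (starRingEnd ℂ) (v i : ℂ) ^ q i)

private theorem lmM_cont {ι : Type} [Fintype ι] (p q : ι → ℕ) : Continuous (lmM (ι := ι) p q) := by
  unfold lmM
  refine continuous_finset_prod _ fun i _ => ?_
  refine Continuous.mul ?_ ?_
  · exact (continuous_subtype_val.comp (continuous_apply i)).pow _
  · exact (Complex.continuous_conj.comp (continuous_subtype_val.comp (continuous_apply i))).pow _

private theorem lmM_le {ι : Type} [Fintype ι] (p q : ι → ℕ) (v : ι → LMBall) : ‖lmM p q v‖ ≤ 1 := by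
  unfold lmM
  rw [norm_prod]
  refine Finset.prod_le_one (fun i _ => norm_nonneg _) fun i _ => ?_
  have h : ‖(v i : ℂ)‖ ≤ 1 := mem_closedBall_zero_iff.mp (v i).2
  rw [norm_mul, norm_pow, norm_pow, RCLike.norm_conj]
  exact mul_le_one₀ (pow_le_one₀ (norm_nonneg _) h) (by positivity) (pow_le_one₀ (norm_nonneg _) h)

private theorem lmM_int {ι : Type} [Fintype ι] (μ : Measure (ι → LMBall)) [IsFiniteMeasure μ]
    (p q : ι → ℕ) : Integrable (lmM p q) μ :=
  Integrable.of_bound (lmM_cont p q).aestronglyMeasurable 1 (Filter.Eventually.of_forall fun v => lmM_le p q v)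

private theorem lm_eval {ι : Type} [Fintype ι] (P : MvPolynomial (ι ⊕ ι) ℂ) (v : ι → LMBall) :
    MvPolynomial.eval (lmW v) P =
      ∑ m ∈ P.support, P.coeff m * lmM (fun i => m (Sum.inl i)) (fun i => m (Sum.inr i)) v := by
  rw [MvPolynomial.eval_eq']
  refine Finset.sum_congr rfl fun m _ => ?_
  rw [Fintype.prod_sum_type]
  unfold lmM
  rw [← Finset.prod_mul_distrib]
  rfl

private theorem lm_integral {ι : Type} [Fintype ι] (μ : Measure (ι → LMBall)) [IsFiniteMeasure μ]
    (P : MvPolynomial (ι ⊕ ι) ℂ) : ∫ v, MvPolynomial.eval (lmW v) P ∂μ =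
      ∑ m ∈ P.support, P.coeff m * ∫ v, lmM (fun i => m (Sum.inl i)) (fun i => m (Sum.inr i)) v ∂μ := by
  rw [integral_congr_ae (Filter.Eventually.of_forall fun v => lm_eval P v), integral_finset_sum]
  · refine Finset.sum_congr rfl fun m _ => ?_
    exact integral_const_mul _ _
  · intro m _
    exact (lmM_int μ _ _).const_mul _

private theorem lm_ext {ι : Type} [Fintype ι] (μ ν : Measure (ι → LMBall)) [IsFiniteMeasure μ]
    [IsFiniteMeasure ν] (h : ∀ p q : ι → ℕ, ∫ v, lmM p q v ∂μ = ∫ v, lmM p q v ∂ν) : μ = ν := by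
  apply ext_of_forall_mem_subalgebra_integral_eq_of_pseudoEMetric_complete_countable (A := lmA ι)
  · intro v v' hne
    obtain ⟨i, hi⟩ := Function.ne_iff.mp hne
    refine ⟨_, ⟨_, ⟨lmX i, lmX_mem i, rfl⟩, rfl⟩, ?_⟩
    intro hh
    exact hi (Subtype.ext hh)
  · intro g hg
    obtain ⟨P, hP⟩ := (lm_mem g).mp hg
    rw [integral_congr_ae (Filter.Eventually.of_forall hP),
      integral_congr_ae (μ := ν) (Filter.Eventually.of_forall hP), lm_integral, lm_integral]
    refine Finset.sum_congr rfl fun m _ => ?_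
    rw [h]

theorem law_m {Ω : Type} [MeasurableSpace Ω] (P : Measure Ω) [IsProbabilityMeasure P] (ι : Type)
    [Fintype ι] (Z Z' : Ω → ι → ℂ) (hZ : Measurable Z) (hZ' : Measurable Z')
    (hb : ∀ ω i, ‖Z ω i‖ ≤ 1) (hb' : ∀ ω i, ‖Z' ω i‖ ≤ 1)
    (h : ∀ p q : ι → ℕ, ∫ ω, ∏ i, (Z ω i ^ p i * (starRingEnd ℂ) (Z ω i) ^ q i) ∂P =
      ∫ ω, ∏ i, (Z' ω i ^ p i * (starRingEnd ℂ) (Z' ω i) ^ q i) ∂P) : P.map Z = P.map Z' := by
  have key : ∀ (Y : Ω → ι → ℂ), Measurable Y → ∀ hY : ∀ ω i, ‖Y ω i‖ ≤ 1,
      Measurable (fun ω i => (⟨Y ω i, mem_closedBall_zero_iff.mpr (hY ω i)⟩ : LMBall)) := by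
    intro Y hm hY
    exact measurable_pi_lambda _ fun i => ((measurable_pi_apply i).comp hm).subtype_mk
  set W : Ω → ι → LMBall := fun ω i => ⟨Z ω i, mem_closedBall_zero_iff.mpr (hb ω i)⟩ with hW
  set W' : Ω → ι → LMBall := fun ω i => ⟨Z' ω i, mem_closedBall_zero_iff.mpr (hb' ω i)⟩ with hW'
  have hWm : Measurable W := key Z hZ hb
  have hWm' : Measurable W' := key Z' hZ' hb'
  have hval : Measurable (fun (v : ι → LMBall) (i : ι) => (v i : ℂ)) :=
    measurable_pi_lambda _ fun i => measurable_subtype_coe.comp (measurable_pi_apply i)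
  have hP1 : IsProbabilityMeasure (P.map W) := Measure.isProbabilityMeasure_map hWm.aemeasurable
  have hP2 : IsProbabilityMeasure (P.map W') := Measure.isProbabilityMeasure_map hWm'.aemeasurable
  have heq : P.map W = P.map W' := by
    apply lm_ext
    intro p q
    rw [integral_map hWm.aemeasurable (lmM_cont p q).aestronglyMeasurable,
      integral_map hWm'.aemeasurable (lmM_cont p q).aestronglyMeasurable]
    exact h p q
  have e1 : P.map Z = (P.map W).map (fun (v : ι → LMBall) (i : ι) => (v i : ℂ)) := by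
    rw [Measure.map_map hval hWm]
    rfl
  have e2 : P.map Z' = (P.map W').map (fun (v : ι → LMBall) (i : ι) => (v i : ℂ)) := by
    rw [Measure.map_map hval hWm']
    rfl
  rw [e1, e2, heq]

end Pool.Agent.Lib.MP_90b327_co.WW
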