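import Mathlib
import Pool.Agent.Lib.MP_90b327_co.WW.WDefs

/-!
MODULE MrgC (30 minutes, old scale). Merging of columns.

PROOF. As in module Mg of RB (`mrg2`). `rb id τ (insert (c, j) X) = insert (c, τ j) (rb id τ X)`, `rb id τ (X ∪ Y) = rb id τ X ∪ rb id τ Y`, `rb id τ' (rb id τ X) = rb id (τ' ∘ τ) X`,
`(c, j') ∈ rb id τ X ↔ ∃ j, (c, j) ∈ X ∧ τ j = j'`.
`rel`, case 1 (`X' = insert (c, j) X`, ..): `mc (insert (c, j) X) A = insert (c, 2 j) (mc X A)`, and `Free (mc X A) (mc Y B) c (2 j)`: `(c', 2 j) ∈ mc X A ↔ (c', j) ∈ X`. Case 2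
(`X' = rb id τ X`): `mc (rb id τ X) A = rb id τ' (mc X A)`, `τ' n = if n % 2 = 0 then 2 * τ (n / 2) else n` (injective).
`left`: claim: if `k` is constant on related pairs and no cell of `C` is in a column of a cell of `U` or `V` (all cells of `C` are in odd columns, those of `U`, `V` in even
columns), then `k (U ∪ C) (V ∪ C) = k U V` (induction on `C`: the inserted cell `(c, j)`, `j` odd, is `Free` for `U ∪ C'`, `V ∪ C'` because both have the same cells in the column
`j`, namely those of `C'`). With `C` = the odd part `k (mc X A) (mc Y A) = k (rb id (2 ·) X) (rb id (2 ·) Y) = k X Y` (case 2). `right`: the same with the even part removed.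
-/

set_option autoImplicit false

namespace Pool.Agent.Lib.MP_90b327_co.WW

open Finset MeasureTheory Pool.Agent.Lib.MP_90b327_co Pool.Agent.Lib.MP_90b327_co.RB

private theorem mrgC_rb {D : ℕ} (τ : ℕ → ℕ) (X : Bp D) (c : Ce D) (k : ℕ) :
    (c, k) ∈ rb id τ X ↔ ∃ n, (c, n) ∈ X ∧ τ n = k := by
  unfold rb
  simp only [Finset.mem_image, Prod.exists, Prod.mk.injEq, Function.id_comp]
  constructor
  · rintro ⟨c', n, h, rfl, rfl⟩
    exact ⟨n, h, rfl⟩
  · rintro ⟨n, h, rfl⟩
    exact ⟨c, n, h, rfl, rfl⟩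

private theorem mrgC_even {D : ℕ} (X A : Bp D) (c : Ce D) (j : ℕ) :
    (c, 2 * j) ∈ mc X A ↔ (c, j) ∈ X := by
  unfold mc
  rw [Finset.mem_union, mrgC_rb, mrgC_rb]
  constructor
  · rintro (⟨n, hn, hk⟩ | ⟨n, hn, hk⟩)
    · have h : n = j := by omega
      rwa [← h]
    · omega
  · intro h
    exact Or.inl ⟨j, h, rfl⟩

private theorem mrgC_odd {D : ℕ} (X A : Bp D) (c : Ce D) (j : ℕ) :
    (c, 2 * j + 1) ∈ mc X A ↔ (c, j) ∈ A := by
  unfold mc
  rw [Finset.mem_union, mrgC_rb, mrgC_rb]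
  constructor
  · rintro (⟨n, hn, hk⟩ | ⟨n, hn, hk⟩)
    · omega
    · have h : n = j := by omega
      rwa [← h]
  · intro h
    exact Or.inr ⟨j, h, rfl⟩

private theorem mrgC_insert {D : ℕ} (X A : Bp D) (c : Ce D) (j : ℕ) :
    mc (insert (c, j) X) A = insert (c, 2 * j) (mc X A) := by
  unfold mc rb
  rw [Finset.image_insert, Finset.insert_union]
  rfl

private theorem mrgC_rl {D : ℕ} (X A : Bp D) (τ : ℕ → ℕ) :
    mc (rb id τ X) A = rb id (fun n => if n % 2 = 0 then 2 * τ (n / 2) else n) (mc X A) := by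
  ext ⟨c, k⟩
  rw [mrgC_rb]
  constructor
  · intro h
    unfold mc at h
    rw [Finset.mem_union, mrgC_rb, mrgC_rb] at h
    rcases h with ⟨n, hn, hk⟩ | ⟨n, hn, hk⟩
    · obtain ⟨n', hn', rfl⟩ := (mrgC_rb _ _ _ _).1 hn
      refine ⟨2 * n', (mrgC_even _ _ _ _).2 hn', ?_⟩
      rw [if_pos (by omega), Nat.mul_div_cancel_left n' (by norm_num)]
      exact hk
    · refine ⟨2 * n + 1, (mrgC_odd _ _ _ _).2 hn, ?_⟩
      rw [if_neg (by omega)]
      exact hk
  · rintro ⟨n, hn, hk⟩
    rcases Nat.even_or_odd' n with ⟨m, rfl | rfl⟩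
    · rw [if_pos (by omega), Nat.mul_div_cancel_left m (by norm_num)] at hk
      rw [← hk, mrgC_even]
      exact (mrgC_rb _ _ _ _).2 ⟨m, (mrgC_even _ _ _ _).1 hn, rfl⟩
    · rw [if_neg (by omega)] at hk
      rw [← hk, mrgC_odd]
      exact (mrgC_odd _ _ _ _).1 hn

private theorem mrgC_inj {τ : ℕ → ℕ} (hτ : Function.Injective τ) :
    Function.Injective (fun n => if n % 2 = 0 then 2 * τ (n / 2) else n) := by
  intro a b hab
  simp only at hab
  split_ifs at hab with h1 h2 h2
  · have h3 : a / 2 = b / 2 := hτ (by omega)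
    omega
  · omega
  · omega
  · exact hab

private theorem mrgC_drop {D : ℕ} {k : Bp D → Bp D → ℂ}
    (hk : ∀ X Y X' Y', RC X Y X' Y' → k X Y = k X' Y') (U V : Bp D) (C : Bp D)
    (hC : ∀ p ∈ C, ∀ c' : Ce D, (c', p.2) ∉ U ∧ (c', p.2) ∉ V) :
    k (U ∪ C) (V ∪ C) = k U V := by
  induction C using Finset.induction_on with
  | empty => rw [Finset.union_empty, Finset.union_empty]
  | insert p C hp ih =>
    obtain ⟨c, j⟩ := p
    rw [← ih (fun p' hp' => hC p' (Finset.mem_insert_of_mem hp'))]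
    have h0 := hC (c, j) (Finset.mem_insert_self _ _)
    refine (hk _ _ _ _ (Or.inl ⟨c, j, ⟨?_, ?_, ?_⟩, ?_, ?_⟩)).symm
    · rw [Finset.mem_union]
      rintro (h | h)
      · exact (h0 c).1 h
      · exact hp h
    · rw [Finset.mem_union]
      rintro (h | h)
      · exact (h0 c).2 h
      · exact hp h
    · intro c' _
      rw [Finset.mem_union, Finset.mem_union]
      constructor
      · rintro (h | h)
        · exact absurd h (h0 c').1
        · exact Or.inr h
      · rintro (h | h)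
        · exact absurd h (h0 c').2
        · exact Or.inr h
    · rw [Finset.union_insert]
    · rw [Finset.union_insert]

theorem mrg_c (D : ℕ) : Mrg (mc (D := D)) (RC (D := D)) := by
  refine ⟨?_, ?_, ?_⟩
  · rintro X Y X' Y' A B (⟨c, j, hf, rfl, rfl⟩ | ⟨τ, hτ, rfl, rfl⟩)
    · refine Or.inl ⟨c, 2 * j, ⟨?_, ?_, ?_⟩, mrgC_insert _ _ _ _, mrgC_insert _ _ _ _⟩
      · rw [mrgC_even]
        exact hf.1
      · rw [mrgC_even]
        exact hf.2.1
      · intro c' hc'
        rw [mrgC_even, mrgC_even]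
        exact hf.2.2 c' hc'
    · exact Or.inr ⟨_, mrgC_inj hτ, mrgC_rl _ _ _, mrgC_rl _ _ _⟩
  · intro k hk X Y A
    unfold mc
    rw [mrgC_drop hk]
    · exact (hk _ _ _ _ (Or.inr ⟨fun j => 2 * j, fun a b hab => by
        simp only at hab
        omega, rfl, rfl⟩)).symm
    · rintro ⟨c, j⟩ hp c'
      obtain ⟨n, _, hn⟩ := (mrgC_rb _ _ _ _).1 hp
      constructor
      · rw [mrgC_rb]
        rintro ⟨m, _, hm⟩
        simp only at hm hn
        omega
      · rw [mrgC_rb]
        rintro ⟨m, _, hm⟩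
        simp only at hm hn
        omega
  · intro k hk X A B
    unfold mc
    rw [Finset.union_comm, Finset.union_comm (rb id (fun j => 2 * j) X), mrgC_drop hk]
    · exact (hk _ _ _ _ (Or.inr ⟨fun j => 2 * j + 1, fun a b hab => by
        simp only at hab
        omega, rfl, rfl⟩)).symm
    · rintro ⟨c, j⟩ hp c'
      obtain ⟨n, _, hn⟩ := (mrgC_rb _ _ _ _).1 hp
      constructor
      · rw [mrgC_rb]
        rintro ⟨m, _, hm⟩
        simp only at hm hn
        omega
      · rw [mrgC_rb]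
        rintro ⟨m, _, hm⟩
        simp only at hm hn
        omega

end Pool.Agent.Lib.MP_90b327_co.WW
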