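import Mathlib
import Pool.Agent.Lib.MP_90b327_co.WW.WDefs
import Pool.Agent.Lib.MP_90b327_co.WW.MrgC

/-!
MODULE ProdC (35 minutes, old scale). A multiplicative kernel is a product over the columns.

`ck_c`: `one`, `herm`, `psd` from `h` (composition with `sc`). `rem`: `sc (insert c x) = insert (c, 0) (sc x)`, `Free (sc x) (sc y) c 0`: `(c', 0) ∈ sc x ↔ c' ∈ x`; `h.rel`.
`prod_c`: induction on `J` (`Finset.induction_on`), for all `X`, `Y`. `J = ∅`: `X = Y = ∅`, `h.one`. `insert j J`: let `X₁ = X.filter (fun c => c.2 ∈ J)` and the same for `Y`.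
`τ n = if n = j then 0 else 2 n + 1` is injective and `rb id τ X = mc (sc (colm X j)) X₁` (the column `j` goes to `2 * 0`, the column `n ∈ J` to `2 n + 1`; all cells of `X` are in the columns
`insert j J`, `j ∉ J`). So `θ X Y = θ (rb id τ X) (rb id τ Y) = θ (sc (colm X j)) (sc (colm Y j)) * θ X₁ Y₁` (`h.rel` case 2, `hm`), and `colm X₁ i = colm X i` for `i ∈ J`.
-/

set_option autoImplicit false

namespace Pool.Agent.Lib.MP_90b327_co.WW

open Finset MeasureTheory Pool.Agent.Lib.MP_90b327_co Pool.Agent.Lib.MP_90b327_co.RB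

private theorem prodC_sc {D : ℕ} (x : Co D) (c : Ce D) (n : ℕ) :
    (c, n) ∈ sc x ↔ c ∈ x ∧ n = 0 := by
  unfold sc
  simp only [Finset.mem_image, Prod.mk.injEq]
  constructor
  · rintro ⟨c', hc', rfl, rfl⟩
    exact ⟨hc', rfl⟩
  · rintro ⟨hc, rfl⟩
    exact ⟨c, hc, rfl, rfl⟩

private theorem prodC_colm {D : ℕ} (X : Bp D) (j : ℕ) (c : Ce D) :
    c ∈ colm X j ↔ (c, j) ∈ X := by
  unfold colm
  simp only [Finset.mem_image, Finset.mem_filter, Prod.exists]
  constructor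
  · rintro ⟨c', j', ⟨h1, rfl⟩, rfl⟩
    exact h1
  · intro h
    exact ⟨c, j, ⟨h, rfl⟩, rfl⟩

private theorem prodC_rb {D : ℕ} (τ : ℕ → ℕ) (X : Bp D) (c : Ce D) (k : ℕ) :
    (c, k) ∈ rb id τ X ↔ ∃ n, (c, n) ∈ X ∧ τ n = k := by
  unfold rb
  simp only [Finset.mem_image, Prod.exists, Prod.mk.injEq, Function.id_comp]
  constructor
  · rintro ⟨c', n, h, rfl, rfl⟩
    exact ⟨n, h, rfl⟩
  · rintro ⟨n, h, rfl⟩
    exact ⟨c, n, h, rfl, rfl⟩

private theorem prodC_mc {D : ℕ} {X : Bp D} {j : ℕ} {J : Finset ℕ} (hj : j ∉ J)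
    (hX : ∀ c ∈ X, c.2 ∈ insert j J) :
    rb id (fun n => if n = j then 0 else 2 * n + 1) X =
      mc (sc (colm X j)) (X.filter (fun c => c.2 ∈ J)) := by
  ext ⟨c, k⟩
  unfold mc
  rw [Finset.mem_union, prodC_rb, prodC_rb, prodC_rb]
  constructor
  · rintro ⟨n, hn, hk⟩
    by_cases h : n = j
    · subst h
      left
      refine ⟨0, (prodC_sc _ _ _).2 ⟨(prodC_colm _ _ _).2 hn, rfl⟩, ?_⟩
      rw [if_pos rfl] at hk
      rw [← hk]
    · right
      refine ⟨n, Finset.mem_filter.2 ⟨hn, ?_⟩, ?_⟩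
      · exact (Finset.mem_insert.1 (hX _ hn)).resolve_left h
      · rw [if_neg h] at hk
        exact hk
  · rintro (⟨n, hn, hk⟩ | ⟨n, hn, hk⟩)
    · obtain ⟨h1, h2⟩ := (prodC_sc _ _ _).1 hn
      refine ⟨j, (prodC_colm _ _ _).1 h1, ?_⟩
      rw [if_pos rfl, ← hk, h2]
    · obtain ⟨h1, h2⟩ := Finset.mem_filter.1 hn
      have h3 : n ≠ j := fun h => hj (h ▸ h2)
      refine ⟨n, h1, ?_⟩
      rw [if_neg h3]
      exact hk

theorem ck_c {D : ℕ} {θ : Bp D → Bp D → ℂ} (h : Ker (RC (D := D)) θ) :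
    CK (fun x y => θ (sc x) (sc y)) := by
  refine ⟨fun x => h.one _, fun x y => h.herm _ _, fun ι _ X c => h.psd ι (fun i => sc (X i)) c,
    fun x y c hx hy hb => ?_⟩
  refine (h.rel _ _ _ _ (Or.inl ⟨c, 0, ⟨?_, ?_, ?_⟩, ?_, ?_⟩)).symm
  · rw [prodC_sc]
    exact fun h1 => hx h1.1
  · rw [prodC_sc]
    exact fun h1 => hy h1.1
  · intro c' hc'
    rw [prodC_sc, prodC_sc, hb c' hc']
  · unfold sc
    rw [Finset.image_insert]
  · unfold sc
    rw [Finset.image_insert]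

theorem prod_c {D : ℕ} {θ : Bp D → Bp D → ℂ} (h : Ker (RC (D := D)) θ)
    (hm : ∀ X Y A B, θ (mc X A) (mc Y B) = θ X Y * θ A B) (X Y : Bp D) (J : Finset ℕ)
    (hX : ∀ c ∈ X, c.2 ∈ J) (hY : ∀ c ∈ Y, c.2 ∈ J) :
    θ X Y = ∏ j ∈ J, θ (sc (colm X j)) (sc (colm Y j)) := by
  induction J using Finset.induction_on generalizing X Y with
  | empty =>
    have h1 : X = ∅ := Finset.eq_empty_of_forall_notMem
      (fun c hc => Finset.notMem_empty _ (hX c hc))
    have h2 : Y = ∅ := Finset.eq_empty_of_forall_notMem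
      (fun c hc => Finset.notMem_empty _ (hY c hc))
    rw [h1, h2, Finset.prod_empty, h.one]
  | insert j J hj ih =>
    have hinj : Function.Injective (fun n : ℕ => if n = j then 0 else 2 * n + 1) := by
      intro a b hab
      simp only at hab
      split_ifs at hab with h1 h2 h2 <;> omega
    have hrel := h.rel X Y _ _ (Or.inr ⟨fun n : ℕ => if n = j then 0 else 2 * n + 1, hinj,
      rfl, rfl⟩)
    rw [hrel, prodC_mc hj hX, prodC_mc hj hY, hm, Finset.prod_insert hj]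
    congr 1
    rw [ih _ _ (fun c hc => (Finset.mem_filter.1 hc).2) (fun c hc => (Finset.mem_filter.1 hc).2)]
    refine Finset.prod_congr rfl (fun i hi => ?_)
    have h3 : ∀ Z : Bp D, colm (Z.filter (fun c => c.2 ∈ J)) i = colm Z i := by
      intro Z
      ext c
      rw [prodC_colm, prodC_colm, Finset.mem_filter]
      exact ⟨fun h => h.1, fun h => ⟨h, hi⟩⟩
    rw [h3, h3]

end Pool.Agent.Lib.MP_90b327_co.WW
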