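import Mathlib
import Pool.Agent.Lib.MP_90b327_co.WW.WDefs
import Pool.Agent.Lib.MP_90b327_co.WW.ProdC

/-!
MODULE MomC (35 minutes, old scale). Moments of the column kernels.

PROOF. `mom_c`: enumerate `ι ≃ Fin n` (`Fintype.equivFin`). Put `X = Finset.univ.biUnion (fun i => (x i).image (fun c => (c, e i)))` with `e i : ℕ` the number of `i`, `Y` likewise
with `y i`. `colm X (e i) = x i` (`e` injective). `prod_c` with `J = range n`: `θ ω X Y = ∏ i, z ω (x i) (y i)`. So the mean is `g X Y / δ` (`hmean`). For `mv σ (x i)` the patterns are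
`rb σ id X`, `rb σ id Y`, and `hg.inv σ id`.
-/

set_option autoImplicit false

namespace Pool.Agent.Lib.MP_90b327_co.WW

open Finset MeasureTheory Pool.Agent.Lib.MP_90b327_co Pool.Agent.Lib.MP_90b327_co.RB

private def momC_pk {D : ℕ} {ι : Type} [Fintype ι] {n : ℕ} (e : ι → Fin n) (z : ι → Co D) : Bp D :=
  Finset.univ.biUnion (fun i => (z i).image (fun c => (c, (e i : ℕ))))

private theorem momC_mem {D : ℕ} {ι : Type} [Fintype ι] {n : ℕ} (e : ι → Fin n) (z : ι → Co D)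
    (c : Ce D) (j : ℕ) : (c, j) ∈ momC_pk e z ↔ ∃ i, c ∈ z i ∧ (e i : ℕ) = j := by
  unfold momC_pk
  simp only [Finset.mem_biUnion, Finset.mem_univ, true_and, Finset.mem_image, Prod.mk.injEq]
  constructor
  · rintro ⟨i, c', hc', rfl, hj⟩
    exact ⟨i, hc', hj⟩
  · rintro ⟨i, hc, hj⟩
    exact ⟨i, c, hc, rfl, hj⟩

private theorem momC_colm {D : ℕ} {ι : Type} [Fintype ι] {n : ℕ} {e : ι → Fin n}
    (he : Function.Injective e) (z : ι → Co D) (i : ι) :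
    colm (momC_pk e z) (e i : ℕ) = z i := by
  ext c
  unfold colm
  simp only [Finset.mem_image, Finset.mem_filter, Prod.exists]
  constructor
  · rintro ⟨c', j, ⟨h1, h2⟩, rfl⟩
    obtain ⟨i', hi', hj⟩ := (momC_mem e z c' j).1 h1
    have h3 : e i' = e i := by
      apply Fin.ext
      rw [hj, ← h2]
    rw [← he h3]
    exact hi'
  · intro hc
    exact ⟨c, e i, ⟨(momC_mem e z c _).2 ⟨i, hc, rfl⟩, rfl⟩, rfl⟩

private theorem momC_rb {D : ℕ} {ι : Type} [Fintype ι] {n : ℕ} (e : ι → Fin n) (z : ι → Co D)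
    (σ : ℕ → ℕ) : momC_pk e (fun i => mv σ (z i)) = rb σ id (momC_pk e z) := by
  ext ⟨c, j⟩
  rw [momC_mem]
  unfold rb mv
  simp only [Finset.mem_image, Prod.exists, Prod.mk.injEq, id_eq]
  constructor
  · rintro ⟨i, ⟨c', hc', rfl⟩, hj⟩
    exact ⟨c', j, (momC_mem e z c' j).2 ⟨i, hc', hj⟩, rfl, rfl⟩
  · rintro ⟨c', j', h, rfl, rfl⟩
    obtain ⟨i, hi, hj⟩ := (momC_mem e z c' j').1 h
    exact ⟨i, ⟨c', hi, rfl⟩, hj⟩

private theorem momC_prod {D : ℕ} {θ : Bp D → Bp D → ℂ} (h : Ker (RC (D := D)) θ)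
    (hm : ∀ X Y A B, θ (mc X A) (mc Y B) = θ X Y * θ A B) {ι : Type} [Fintype ι]
    (x y : ι → Co D) : ∏ i, θ (sc (x i)) (sc (y i)) =
      θ (momC_pk (Fintype.equivFin ι) x) (momC_pk (Fintype.equivFin ι) y) := by
  rw [prod_c h hm _ _ (range (Fintype.card ι))]
  · rw [Finset.prod_range]
    refine Fintype.prod_equiv (Fintype.equivFin ι) _ _ (fun i => ?_)
    rw [momC_colm (Fintype.equivFin ι).injective, momC_colm (Fintype.equivFin ι).injective]
  · rintro ⟨c, j⟩ hc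
    obtain ⟨i, _, hj⟩ := (momC_mem _ x c j).1 hc
    rw [Finset.mem_range, ← hj]
    exact (Fintype.equivFin ι i).2
  · rintro ⟨c, j⟩ hc
    obtain ⟨i, _, hj⟩ := (momC_mem _ y c j).1 hc
    rw [Finset.mem_range, ← hj]
    exact (Fintype.equivFin ι i).2

theorem mom_c {D : ℕ} {δ : ℝ} {g : Bp D → Bp D → ℝ} (hg : BK D δ g) {Ω : Type} [MeasurableSpace Ω]
    (P : Measure Ω) (θ : Ω → Bp D → Bp D → ℂ) (hk : ∀ ω, Ker (RC (D := D)) (θ ω))
    (hm : ∀ ω X Y A B, θ ω (mc X A) (mc Y B) = θ ω X Y * θ ω A B)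
    (hmean : ∀ X Y, ((g X Y / δ : ℝ) : ℂ) = ∫ ω, θ ω X Y ∂P) (ι : Type) [Fintype ι] (x y : ι → Co D)
    (σ : ℕ → ℕ) (hσ : Function.Injective σ) :
    ∫ ω, ∏ i, θ ω (sc (mv σ (x i))) (sc (mv σ (y i))) ∂P = ∫ ω, ∏ i, θ ω (sc (x i)) (sc (y i)) ∂P := by
  have h1 : ∀ a b : ι → Co D, ∫ ω, ∏ i, θ ω (sc (a i)) (sc (b i)) ∂P =
      ((g (momC_pk (Fintype.equivFin ι) a) (momC_pk (Fintype.equivFin ι) b) / δ : ℝ) : ℂ) := by
    intro a b
    rw [hmean]
    refine integral_congr_ae (Filter.Eventually.of_forall (fun ω => ?_))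
    exact momC_prod (hk ω) (hm ω) a b
  rw [h1 x y, h1 (fun i => mv σ (x i)) (fun i => mv σ (y i)), momC_rb, momC_rb,
    hg.inv σ id hσ Function.injective_id]

end Pool.Agent.Lib.MP_90b327_co.WW
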