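import Mathlib
import Pool.Agent.Lib.MP_90b327_co.WW.WDefs
import Pool.Agent.Lib.MP_90b327_co.WW.KerC
import Pool.Agent.Lib.MP_90b327_co.WW.ProdC
import Pool.Agent.Lib.MP_90b327_co.WW.MomC
import Pool.Agent.Lib.MP_90b327_co.WW.LawM
import Pool.Agent.Lib.MP_90b327_co.WW.MrgC
import Pool.Agent.Lib.MP_90b327_co.RB.RepC

/-!
MODULE ColSp (30 minutes, old scale). The representation by random column kernels.

PROOF. `rep (mrg_c D) _ (ker_c hg hδ)` (RB.RepC) gives `r : Repr mc RC (fun X Y => ((g X Y / δ : ℝ) : ℂ))`. Put `T.Ω = r.Ω`, `T.P = r.P`, `T.z ω x y = r.th ω (sc x) (sc y)`, `ck`: `ck_c (r.ker ω)`,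
`meas`: `r.meas`. `law`: `law_m` with `Z ω i = z ω (mv σ (x i)) (mv σ (y i))`, `Z' ω i = z ω (x i) (y i)` (norms `≤ 1`: `RB.ker_norm_le (r.ker ω)`; measurable: `measurable_pi_iff`). Moments:
`z^p * conj z^q = z (x, y)^p * z (y, x)^q` (`herm`), so the product is a product over the finite type `Σ i : ι, Fin (p i) ⊕ Fin (q i)` of values of `z` at `(x i, y i)` or
`(y i, x i)`; `mom_c`. (The map `Z` for `law` in `CS` is `fun ω i => ..`.)
`Rep`: `r.mean` and `prod_c` under the integral (`integral_congr`).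
-/

set_option autoImplicit false

namespace Pool.Agent.Lib.MP_90b327_co.WW

open Finset MeasureTheory Pool.Agent.Lib.MP_90b327_co Pool.Agent.Lib.MP_90b327_co.RB

private theorem colSp_prod {ι : Type} [Fintype ι] (p q : ι → ℕ) (u v : ι → ℂ)
    (w : (Σ i : ι, Fin (p i) ⊕ Fin (q i)) → ℂ)
    (hw : ∀ i k, w ⟨i, Sum.inl k⟩ = u i) (hw' : ∀ i k, w ⟨i, Sum.inr k⟩ = v i) :
    ∏ i, (u i ^ p i * v i ^ q i) = ∏ j, w j := by
  rw [Fintype.prod_sigma]
  refine Finset.prod_congr rfl (fun i _ => ?_)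
  rw [Fintype.prod_sum_type]
  simp only [hw, hw']
  rw [Finset.prod_const, Finset.prod_const, Finset.card_univ, Finset.card_univ,
    Fintype.card_fin, Fintype.card_fin]

theorem exists_cs {D : ℕ} {δ : ℝ} {g : Bp D → Bp D → ℝ} (hg : BK D δ g) (hδ : 0 < δ) :
    ∃ T : CS D, Rep g δ T := by
  obtain ⟨r⟩ := rep (mrg_c D) _ (ker_c hg hδ)
  refine ⟨{ Ω := r.Ω
            mΩ := r.mΩ
            P := r.P
            prob := r.prob
            z := fun ω x y => r.th ω (sc x) (sc y)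
            ck := fun ω => ck_c (r.ker ω)
            meas := fun x y => r.meas _ _
            law := ?_ }, ?_⟩
  · intro ι _ x y σ hσ
    refine law_m r.P ι _ _ (measurable_pi_iff.2 fun i => r.meas _ _)
      (measurable_pi_iff.2 fun i => r.meas _ _)
      (fun ω i => ker_norm_le (r.ker ω) _ _) (fun ω i => ker_norm_le (r.ker ω) _ _)
      (fun p q => ?_)
    have h := mom_c hg r.P r.th r.ker r.mul r.mean (Σ i : ι, Fin (p i) ⊕ Fin (q i))
      (fun j => Sum.elim (fun _ => x j.1) (fun _ => y j.1) j.2)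
      (fun j => Sum.elim (fun _ => y j.1) (fun _ => x j.1) j.2) σ hσ
    calc ∫ ω, ∏ i, (r.th ω (sc (mv σ (x i))) (sc (mv σ (y i))) ^ p i *
          (starRingEnd ℂ) (r.th ω (sc (mv σ (x i))) (sc (mv σ (y i)))) ^ q i) ∂r.P
        = ∫ ω, ∏ j : (Σ i : ι, Fin (p i) ⊕ Fin (q i)),
            r.th ω (sc (mv σ (Sum.elim (fun _ => x j.1) (fun _ => y j.1) j.2)))
              (sc (mv σ (Sum.elim (fun _ => y j.1) (fun _ => x j.1) j.2))) ∂r.P := by
          refine integral_congr_ae (Filter.Eventually.of_forall (fun ω => ?_))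
          refine colSp_prod p q _ _ _ (fun i k => rfl) (fun i k => ?_)
          exact (r.ker ω).herm _ _
      _ = ∫ ω, ∏ j : (Σ i : ι, Fin (p i) ⊕ Fin (q i)),
            r.th ω (sc (Sum.elim (fun _ => x j.1) (fun _ => y j.1) j.2))
              (sc (Sum.elim (fun _ => y j.1) (fun _ => x j.1) j.2)) ∂r.P := h
      _ = ∫ ω, ∏ i, (r.th ω (sc (x i)) (sc (y i)) ^ p i *
            (starRingEnd ℂ) (r.th ω (sc (x i)) (sc (y i))) ^ q i) ∂r.P := by
          refine (integral_congr_ae (Filter.Eventually.of_forall (fun ω => ?_))).symm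
          refine colSp_prod p q _ _ _ (fun i k => rfl) (fun i k => ?_)
          exact (r.ker ω).herm _ _
  · intro X Y J hX hY
    rw [r.mean X Y]
    refine integral_congr_ae (Filter.Eventually.of_forall (fun ω => ?_))
    exact prod_c (r.ker ω) (r.mul ω) X Y J hX hY

end Pool.Agent.Lib.MP_90b327_co.WW
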