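import Mathlib
import Pool.Agent.Lib.MP_90b327_co.WW.WDefs

/-!
MODULE WShape (10 minutes, old scale). The class of shapes of theorem W.

PROOF of `img`. `P = cyl γ Γ`. The image under `c ↦ ι ∘ c` is `cyl (γ.image ι) (Γ.image ι)`: a tuple `c` with `c i.castSucc ∈ γ.image ι`, `c (last) ∈ Γ.image ι` has preimages
for all coordinates (`Fin.lastCases` or `Fin.snoc` of the preimages). The cardinalities are the same (`ι` injective).
-/

set_option autoImplicit false

namespace Pool.Agent.Lib.MP_90b327_co.WW

open Finset MeasureTheory Pool.Agent.Lib.MP_90b327_co Pool.Agent.Lib.MP_90b327_co.RB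

/-- the sets `γ^D × Γ` with admissible sizes -/
def WSh (D M : ℕ) (F w : ℕ → ℕ) : Shp (D + 1) where
  sh N P := ∃ γ Γ : Finset (Fin N), P = cyl γ Γ ∧ Adm M F w γ.card Γ.card
  img := by
    intro K N ι hι P hP
    obtain ⟨γ, Γ, rfl, hA⟩ := hP
    refine ⟨γ.image ι, Γ.image ι, ?_, by
      rw [card_image_of_injective _ hι, card_image_of_injective _ hι]; exact hA⟩
    ext c
    unfold cyl
    rw [mem_image, mem_filter]
    constructor
    · rintro ⟨b, hb, rfl⟩
      rw [mem_filter] at hb
      refine ⟨mem_univ _, fun i => ?_, ?_⟩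
      · exact mem_image_of_mem _ (hb.2.1 i)
      · exact mem_image_of_mem _ hb.2.2
    · rintro ⟨-, h1, h2⟩
      have h1' : ∀ i : Fin D, ∃ v ∈ γ, ι v = c i.castSucc := fun i => mem_image.1 (h1 i)
      choose v hv hv' using h1'
      obtain ⟨u, hu, hu'⟩ := mem_image.1 h2
      refine ⟨Fin.snoc (α := fun _ => Fin K) v u, ?_, ?_⟩
      · rw [mem_filter]
        refine ⟨mem_univ _, fun i => ?_, ?_⟩
        · rw [Fin.snoc_castSucc]; exact hv i
        · rw [Fin.snoc_last]; exact hu
      · funext i
        induction i using Fin.lastCases with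
        | last => rw [Function.comp_apply, Fin.snoc_last, hu']
        | cast i => rw [Function.comp_apply, Fin.snoc_castSucc, hv' i]

end Pool.Agent.Lib.MP_90b327_co.WW
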