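import Mathlib
import Pool.Agent.Lib.MP_90b327_co.WW.WDefs
import Pool.Agent.Lib.MP_90b327_co.WW.WShape

/-!
MODULE BipW (45 minutes, old scale). The bipartite kernel.

PROOF. `emw` is the image under `ε (c, j) = Fin.snoc (2 c) (2 j + 1)`, injective. `symm`, `diag`, `psd`: from `h` for the patterns `emw (X i)`. `inv`: `emw (rb σ τ X) = mv ρ (emw X)`,
`ρ v = if v % 2 = 0 then 2 * σ (v / 2) else 2 * τ (v / 2) + 1` (injective); `h.inv ρ`.
`row`: `h.rem` for the vertex `2 v`: a cell `ε (c, j)` contains `2 v` iff some `c i = v` (the last entry is odd), so `emw X`, `emw Y` agree on the cells with `2 v`, and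
`(emw X).filter (fun c => ∀ i, c i ≠ 2 v) = emw (X.filter (fun c => ∀ i, c.1 i ≠ v))`. `col`: the same with the vertex `2 j + 1` (only the last entry can be odd).
`bip_bad`: choose `n` larger than all `2 v`, `2 j + 1`; `γ' = {2 v | v ∈ γ}`, `Γ' = {2 j + 1 | j ∈ E}` as sets in `Fin n` (same cardinalities); `up (cyl γ' Γ') = emw (pw D γ ×ˢ E)`, and
`emw (X ∪ pw D γ ×ˢ E) = emw X ∪ emw (pw D γ ×ˢ E)`, disjoint because `ε` is injective; `h.bad`.
-/

set_option autoImplicit false

namespace Pool.Agent.Lib.MP_90b327_co.WW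

open Finset MeasureTheory Pool.Agent.Lib.MP_90b327_co Pool.Agent.Lib.MP_90b327_co.RB

/-- the embedding of the cells -/
private def bipE {D : ℕ} (c : Ce D × ℕ) : Fin (D + 1) → ℕ :=
  Fin.snoc (α := fun _ => ℕ) (fun i : Fin D => 2 * c.1 i) (2 * c.2 + 1)

private theorem bipE_cast {D : ℕ} (c : Ce D × ℕ) (i : Fin D) : bipE c i.castSucc = 2 * c.1 i := by
  unfold bipE; rw [Fin.snoc_castSucc]

private theorem bipE_last {D : ℕ} (c : Ce D × ℕ) : bipE c (Fin.last D) = 2 * c.2 + 1 := by
  unfold bipE; rw [Fin.snoc_last]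

private theorem bipE_inj {D : ℕ} : Function.Injective (bipE (D := D)) := by
  intro c c' h
  apply Prod.ext
  · funext i
    have := congrFun h i.castSucc
    rw [bipE_cast, bipE_cast] at this
    omega
  · have := congrFun h (Fin.last D)
    rw [bipE_last, bipE_last] at this
    omega

private theorem emw_eq {D : ℕ} (X : Bp D) : emw X = X.image bipE := rfl

private theorem bip_mem {D : ℕ} (X : Bp D) (c : Ce D × ℕ) : bipE c ∈ emw X ↔ c ∈ X := by
  rw [emw_eq]
  exact bipE_inj.mem_finset_image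

/-- a cell contains an even vertex iff the row tuple does -/
private theorem bip_even {D : ℕ} (c : Ce D × ℕ) (v : ℕ) : (∃ i, bipE c i = 2 * v) ↔ ∃ i, c.1 i = v := by
  constructor
  · rintro ⟨i, hi⟩
    induction i using Fin.lastCases with
    | last => rw [bipE_last] at hi; omega
    | cast i => rw [bipE_cast] at hi; exact ⟨i, by omega⟩
  · rintro ⟨i, hi⟩
    exact ⟨i.castSucc, by rw [bipE_cast, hi]⟩

private theorem bip_odd {D : ℕ} (c : Ce D × ℕ) (j : ℕ) : (∃ i, bipE c i = 2 * j + 1) ↔ c.2 = j := by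
  constructor
  · rintro ⟨i, hi⟩
    induction i using Fin.lastCases with
    | last => rw [bipE_last] at hi; omega
    | cast i => rw [bipE_cast] at hi; omega
  · intro hi
    exact ⟨Fin.last D, by rw [bipE_last, hi]⟩

private theorem bip_filter {D : ℕ} (X : Bp D) (u : ℕ) (p : Ce D × ℕ → Prop) [DecidablePred p]
    (hp : ∀ c, (∃ i, bipE c i = u) ↔ ¬ p c) :
    (emw X).filter (fun c => ∀ i, c i ≠ u) = emw (X.filter p) := by
  rw [emw_eq, emw_eq]
  ext a
  rw [mem_filter, mem_image, mem_image]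
  constructor
  · rintro ⟨⟨c, hc, rfl⟩, ha⟩
    refine ⟨c, mem_filter.2 ⟨hc, ?_⟩, rfl⟩
    by_contra hcon
    obtain ⟨i, hi⟩ := (hp c).2 hcon
    exact ha i hi
  · rintro ⟨c, hc, rfl⟩
    rw [mem_filter] at hc
    refine ⟨⟨c, hc.1, rfl⟩, fun i hi => ?_⟩
    exact (hp c).1 ⟨i, hi⟩ hc.2

theorem bip_w {D M : ℕ} {F w : ℕ → ℕ} {δ : ℝ}
    {g : Finset (Fin (D + 1) → ℕ) → Finset (Fin (D + 1) → ℕ) → ℝ} (h : JK (D + 1) (WSh D M F w) δ g) :
    BK D δ (bkk g) := by
  refine ⟨fun X Y => h.symm _ _, fun X => h.diag _, fun ι _ X a => h.psd ι (fun i => emw (X i)) a,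
    fun σ τ hσ hτ X Y => ?_, fun X Y v hv => ?_, fun X Y j hj => ?_⟩
  · obtain ⟨ρ, hρ⟩ : ∃ ρ : ℕ → ℕ, ρ = fun v => if v % 2 = 0 then 2 * σ (v / 2) else 2 * τ (v / 2) + 1 :=
      ⟨_, rfl⟩
    have h0 : ∀ i, ρ (2 * i) = 2 * σ i := by
      intro i
      rw [hρ]
      simp
    have h1 : ∀ j, ρ (2 * j + 1) = 2 * τ j + 1 := by
      intro j
      rw [hρ]
      simp only
      have e1 : (2 * j + 1) % 2 = 1 := by omega
      have e2 : (2 * j + 1) / 2 = j := by omega
      rw [e1, e2, if_neg one_ne_zero]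
    have hinj : Function.Injective ρ := by
      intro a b hab
      rcases Nat.even_or_odd' a with ⟨a', ha | ha⟩ <;> rcases Nat.even_or_odd' b with ⟨b', hb | hb⟩
      · rw [ha, hb, h0, h0] at hab
        have := hσ (by omega : σ a' = σ b')
        omega
      · rw [ha, hb, h0, h1] at hab
        omega
      · rw [ha, hb, h1, h0] at hab
        omega
      · rw [ha, hb, h1, h1] at hab
        have := hτ (by omega : τ a' = τ b')
        omega
    have hcell : ∀ c : Ce D × ℕ, bipE (σ ∘ c.1, τ c.2) = ρ ∘ bipE c := by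
      intro c
      funext i
      induction i using Fin.lastCases with
      | last => rw [Function.comp_apply, bipE_last, bipE_last, h1]
      | cast i => rw [Function.comp_apply, bipE_cast, bipE_cast, h0]; rfl
    have h2 : ∀ X : Bp D, emw (rb σ τ X) = mv ρ (emw X) := by
      intro X
      rw [emw_eq, emw_eq]
      unfold rb mv
      rw [image_image, image_image]
      apply image_congr
      intro c _
      exact hcell c
    unfold bkk
    rw [h2, h2]
    exact h.inv ρ hinj _ _
  · have hagree : ∀ c : Fin (D + 1) → ℕ, (∃ i, c i = 2 * v) → (c ∈ emw X ↔ c ∈ emw Y) := by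
      intro c hc
      constructor
      · intro hcX
        obtain ⟨b, hb, rfl⟩ := mem_image.1 (emw_eq X ▸ hcX)
        rw [bip_mem]
        exact (hv b.1 b.2 ((bip_even b v).1 hc)).1 hb
      · intro hcY
        obtain ⟨b, hb, rfl⟩ := mem_image.1 (emw_eq Y ▸ hcY)
        rw [bip_mem]
        exact (hv b.1 b.2 ((bip_even b v).1 hc)).2 hb
    have h1 := h.rem (emw X) (emw Y) (2 * v) hagree
    have h2 : ∀ X : Bp D, (emw X).filter (fun c => ∀ i, c i ≠ 2 * v) =
        emw (X.filter (fun c => ∀ i, c.1 i ≠ v)) := by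
      intro X
      apply bip_filter
      intro c
      rw [bip_even]
      push Not
      rfl
    unfold bkk
    rw [h1, h2, h2]
  · have hagree : ∀ c : Fin (D + 1) → ℕ, (∃ i, c i = 2 * j + 1) → (c ∈ emw X ↔ c ∈ emw Y) := by
      intro c hc
      constructor
      · intro hcX
        obtain ⟨b, hb, rfl⟩ := mem_image.1 (emw_eq X ▸ hcX)
        rw [bip_mem]
        have hbj := (bip_odd b j).1 hc
        have h3 := (hj b.1).1 (by rw [← hbj]; exact hb)
        rw [← hbj] at h3
        exact h3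
      · intro hcY
        obtain ⟨b, hb, rfl⟩ := mem_image.1 (emw_eq Y ▸ hcY)
        rw [bip_mem]
        have hbj := (bip_odd b j).1 hc
        have h3 := (hj b.1).2 (by rw [← hbj]; exact hb)
        rw [← hbj] at h3
        exact h3
    have h1 := h.rem (emw X) (emw Y) (2 * j + 1) hagree
    have h2 : ∀ X : Bp D, (emw X).filter (fun c => ∀ i, c i ≠ 2 * j + 1) =
        emw (X.filter (fun c => c.2 ≠ j)) := by
      intro X
      apply bip_filter
      intro c
      rw [bip_odd, not_not]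
    unfold bkk
    rw [h1, h2, h2]

/-- the even vertices of `γ` in `Fin n` -/
private theorem bip_card {n : ℕ} (f : ℕ → ℕ) (hf : Function.Injective f) (S : Finset ℕ)
    (hS : ∀ v ∈ S, f v < n) :
    (univ.filter (fun u : Fin n => (u : ℕ) ∈ S.image f)).card = S.card := by
  rw [← card_image_of_injective S hf]
  apply card_bij (fun (u : Fin n) _ => (u : ℕ))
  · intro u hu
    exact (mem_filter.1 hu).2
  · intro u _ u' _ huu
    exact Fin.ext huu
  · intro v hv
    obtain ⟨s, hs, rfl⟩ := mem_image.1 hv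
    exact ⟨⟨f s, hS s hs⟩, mem_filter.2 ⟨mem_univ _, hv⟩, rfl⟩

theorem bip_bad {D M : ℕ} {F w : ℕ → ℕ} {δ : ℝ}
    {g : Finset (Fin (D + 1) → ℕ) → Finset (Fin (D + 1) → ℕ) → ℝ} (h : JK (D + 1) (WSh D M F w) δ g)
    (X : Bp D) (γ E : Finset ℕ) (ha : Adm M F w γ.card E.card) (hd : Disjoint X (pw D γ ×ˢ E)) :
    bkk g X (X ∪ pw D γ ×ˢ E) = 0 := by
  -- the number of vertices
  obtain ⟨n, hn1, hn2⟩ : ∃ n : ℕ, (∀ v ∈ γ, 2 * v < n) ∧ ∀ j ∈ E, 2 * j + 1 < n := by
    refine ⟨2 * γ.sup id + 2 * E.sup id + 2, fun v hv => ?_, fun j hj => ?_⟩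
    · have : v ≤ γ.sup id := Finset.le_sup (f := id) hv
      omega
    · have : j ≤ E.sup id := Finset.le_sup (f := id) hj
      omega
  have he : Function.Injective (fun v : ℕ => 2 * v) := by intro a b hab; simp only at hab; omega
  have ho : Function.Injective (fun v : ℕ => 2 * v + 1) := by intro a b hab; simp only at hab; omega
  set γ' : Finset (Fin n) := univ.filter (fun u : Fin n => (u : ℕ) ∈ γ.image (fun v => 2 * v)) with hγ'
  set Γ' : Finset (Fin n) := univ.filter (fun u : Fin n => (u : ℕ) ∈ E.image (fun v => 2 * v + 1)) with hΓ'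
  have hc1 : γ'.card = γ.card := bip_card _ he γ hn1
  have hc2 : Γ'.card = E.card := bip_card _ ho E hn2
  have hup : up (cyl (D := D) γ' Γ') = emw (pw D γ ×ˢ E) := by
    ext a
    unfold up
    rw [emw_eq, mem_image, mem_image]
    constructor
    · rintro ⟨b, hb, rfl⟩
      unfold cyl at hb
      rw [mem_filter] at hb
      obtain ⟨-, h1, h2⟩ := hb
      have h1' : ∀ i : Fin D, ∃ v ∈ γ, 2 * v = (b i.castSucc : ℕ) := fun i =>
        mem_image.1 (mem_filter.1 (h1 i)).2
      choose v hv hv' using h1'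
      obtain ⟨u, hu, hu'⟩ := mem_image.1 (mem_filter.1 h2).2
      refine ⟨(v, u), mem_product.2 ⟨?_, hu⟩, ?_⟩
      · unfold pw
        rw [Fintype.mem_piFinset]
        exact hv
      · funext i
        induction i using Fin.lastCases with
        | last => rw [bipE_last]; exact hu'
        | cast i => rw [bipE_cast]; exact hv' i
    · rintro ⟨c, hc, rfl⟩
      obtain ⟨hc1, hc2⟩ := mem_product.1 hc
      unfold pw at hc1
      rw [Fintype.mem_piFinset] at hc1
      refine ⟨Fin.snoc (α := fun _ => Fin n) (fun i : Fin D => ⟨2 * c.1 i, hn1 _ (hc1 i)⟩)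
        ⟨2 * c.2 + 1, hn2 _ hc2⟩, ?_, ?_⟩
      · unfold cyl
        rw [mem_filter]
        refine ⟨mem_univ _, fun i => ?_, ?_⟩
        · rw [Fin.snoc_castSucc]
          exact mem_filter.2 ⟨mem_univ _, mem_image.2 ⟨c.1 i, hc1 i, rfl⟩⟩
        · rw [Fin.snoc_last]
          exact mem_filter.2 ⟨mem_univ _, mem_image.2 ⟨c.2, hc2, rfl⟩⟩
      · funext i
        induction i using Fin.lastCases with
        | last => rw [Fin.snoc_last, bipE_last]
        | cast i => rw [Fin.snoc_castSucc, bipE_cast]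
  have hun : emw (X ∪ pw D γ ×ˢ E) = emw X ∪ emw (pw D γ ×ˢ E) := by
    rw [emw_eq, emw_eq, emw_eq, image_union]
  have hdis : Disjoint (emw X) (emw (pw D γ ×ˢ E)) := by
    rw [emw_eq, emw_eq, disjoint_image bipE_inj]
    exact hd
  unfold bkk
  rw [hun, ← hup]
  exact h.bad n (cyl γ' Γ') ⟨γ', Γ', rfl, by rw [hc1, hc2]; exact ha⟩ (emw X) (by rw [hup]; exact hdis)

end Pool.Agent.Lib.MP_90b327_co.WW
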