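import Mathlib
import Pool.Agent.Lib.MP_90b327_co.WW.WDefs

/-!
MODULE GFiber (30 minutes, old scale). From `[N₀]^d` to `[N]^d`, `N ≥ N₀`.

PROOF. Copy NS/NFiber.lean (`nfiber`) with `Fin d` instead of `Fin 2` and a general shape: `φ c = fun i => Fin.castLE hN (c i)`, injective; for `O` outside the range of `φ` let
`S_O = {C | O ∪ C.image φ ∈ S}`; some `S_O` has more than `δ 2^(N₀^d)` elements; `h` gives `C ∈ S_O` and a shape `P`, `C.sh N₀ P`; the image `P.image (fun c => Fin.castLE hN ∘ c)` is a shape
by `C.img`. (`Fintype.card (Fin d → Fin N) = N ^ d`.)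
-/

set_option autoImplicit false

namespace Pool.Agent.Lib.MP_90b327_co.WW

open Finset MeasureTheory Pool.Agent.Lib.MP_90b327_co Pool.Agent.Lib.MP_90b327_co.RB

/-- the embedding of cells -/
private def gfiber_emb {d N₀ N : ℕ} (hN : N₀ ≤ N) (c : Fin d → Fin N₀) : Fin d → Fin N :=
  fun i => Fin.castLE hN (c i)

private theorem gfiber_inj {d N₀ N : ℕ} (hN : N₀ ≤ N) : Function.Injective (gfiber_emb (d := d) hN) := by
  intro c c' h
  funext i
  exact Fin.castLE_injective hN (congrFun h i)

theorem gfiber (d : ℕ) (C : Shp d) (δ : ℝ) (hδ : 0 < δ) (N₀ : ℕ)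
    (h : ∀ S : Finset (Finset (Fin d → Fin N₀)), δ * 2 ^ (N₀ ^ d) < (S.card : ℝ) → GoodS C N₀ S)
    (N : ℕ) (hN : N₀ ≤ N) (S : Finset (Finset (Fin d → Fin N)))
    (hS : δ * 2 ^ (N ^ d) < (S.card : ℝ)) : GoodS C N S := by
  classical
  let φ : (Fin d → Fin N₀) → (Fin d → Fin N) := gfiber_emb hN
  have hφ : Function.Injective φ := gfiber_inj hN
  let Rg : Finset (Fin d → Fin N) := Finset.univ.image φ
  have hRgc : Rg.card = N₀ ^ d := by
    rw [Finset.card_image_of_injective _ hφ, Finset.card_univ, Fintype.card_fun, Fintype.card_fin,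
      Fintype.card_fin]
  -- outside parts
  let Out : Finset (Finset (Fin d → Fin N)) := (Finset.univ \ Rg).powerset
  have hOutc : (Out.card : ℝ) * 2 ^ (N₀ ^ d) = 2 ^ (N ^ d) := by
    have h1 : Out.card = 2 ^ (N ^ d - N₀ ^ d) := by
      rw [Finset.card_powerset, Finset.card_sdiff_of_subset (Finset.subset_univ _), hRgc,
        Finset.card_univ, Fintype.card_fun, Fintype.card_fin, Fintype.card_fin]
    have h2 : N₀ ^ d ≤ N ^ d := by
      have h3 := Finset.card_le_univ Rg
      rw [hRgc, Fintype.card_fun, Fintype.card_fin, Fintype.card_fin] at h3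
      exact h3
    rw [h1]
    push_cast
    rw [← pow_add]
    congr 1
    omega
  let SO : Finset (Fin d → Fin N) → Finset (Finset (Fin d → Fin N₀)) := fun O =>
    Finset.univ.filter (fun C => O ∪ C.image φ ∈ S)
  -- some fibre is dense
  have hex : ∃ O ∈ Out, δ * 2 ^ (N₀ ^ d) < ((SO O).card : ℝ) := by
    by_contra hcon
    push Not at hcon
    have h1 : (S.card : ℝ) ≤ ∑ O ∈ Out, ((SO O).card : ℝ) := by
      have h2 : S.card ≤ ∑ O ∈ Out, (SO O).card := by
        rw [← Finset.card_sigma]
        refine Finset.card_le_card_of_injOn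
          (fun A => (⟨A \ Rg, Finset.univ.filter (fun c => φ c ∈ A)⟩ :
            (_ : Finset (Fin d → Fin N)) × Finset (Fin d → Fin N₀))) ?_ ?_
        · intro A hA
          have hA' : A ∈ S := hA
          have h3 : (A \ Rg) ∪ (Finset.univ.filter (fun c => φ c ∈ A)).image φ = A := by
            ext x
            constructor
            · intro h4
              rcases Finset.mem_union.mp h4 with h4 | h4
              · exact (Finset.mem_sdiff.mp h4).1
              · obtain ⟨c, h4c, rfl⟩ := Finset.mem_image.mp h4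
                exact (Finset.mem_filter.mp h4c).2
            · intro h4
              by_cases h5 : x ∈ Rg
              · obtain ⟨c, _, rfl⟩ := Finset.mem_image.mp h5
                exact Finset.mem_union_right _ (Finset.mem_image.mpr
                  ⟨c, Finset.mem_filter.mpr ⟨Finset.mem_univ _, h4⟩, rfl⟩)
              · exact Finset.mem_union_left _ (Finset.mem_sdiff.mpr ⟨h4, h5⟩)
          refine Finset.mem_coe.mpr (Finset.mem_sigma.mpr ⟨?_, ?_⟩)
          · exact Finset.mem_powerset.mpr (Finset.sdiff_subset_sdiff (Finset.subset_univ _)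
              (Finset.Subset.refl _))
          · refine Finset.mem_filter.mpr ⟨Finset.mem_univ _, ?_⟩
            rw [h3]
            exact hA'
        · intro A _ B _ hAB
          have h3 := Sigma.mk.inj_iff.mp hAB
          obtain ⟨h4, h5⟩ := h3
          have h5 := eq_of_heq h5
          ext x
          by_cases h6 : x ∈ Rg
          · obtain ⟨c, _, rfl⟩ := Finset.mem_image.mp h6
            have h7 := Finset.ext_iff.mp h5 c
            simpa using h7
          · have h7 := Finset.ext_iff.mp h4 x
            rw [Finset.mem_sdiff, Finset.mem_sdiff] at h7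
            constructor
            · intro h8; exact (h7.mp ⟨h8, h6⟩).1
            · intro h8; exact (h7.mpr ⟨h8, h6⟩).1
      exact_mod_cast h2
    have h2 : ∑ O ∈ Out, ((SO O).card : ℝ) ≤ Out.card • (δ * 2 ^ (N₀ ^ d)) :=
      Finset.sum_le_card_nsmul _ _ _ hcon
    rw [nsmul_eq_mul] at h2
    have h3 : (Out.card : ℝ) * (δ * 2 ^ (N₀ ^ d)) = δ * 2 ^ (N ^ d) := by
      rw [← hOutc]; ring
    linarith
  obtain ⟨O, hO, hOc⟩ := hex
  obtain ⟨A, hA, P, hP, hdis, hAP⟩ := h (SO O) hOc
  have hOR : ∀ x ∈ O, x ∉ Rg := fun x hx =>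
    (Finset.mem_sdiff.mp (Finset.mem_powerset.mp hO hx)).2
  refine ⟨O ∪ A.image φ, (Finset.mem_filter.mp hA).2, P.image φ, ?_, ?_, ?_⟩
  · exact C.img N₀ N (Fin.castLE hN) (Fin.castLE_injective hN) P hP
  · rw [Finset.disjoint_union_left]
    constructor
    · rw [Finset.disjoint_left]
      intro x hx hx'
      obtain ⟨c, _, rfl⟩ := Finset.mem_image.mp hx'
      exact hOR _ hx (Finset.mem_image.mpr ⟨c, Finset.mem_univ _, rfl⟩)
    · exact (Finset.disjoint_image hφ).mpr hdis
  · rw [Finset.union_assoc, ← Finset.image_union]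
    exact (Finset.mem_filter.mp hAP).2

end Pool.Agent.Lib.MP_90b327_co.WW
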