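import Mathlib
import Pool.Agent.Lib.MP_90b327_co.WW.WDefs

/-!
MODULE GRem (25 minutes, old scale). Cells with one vertex may be emptied if the two patterns agree on them.

PROOF. Copy `g_rem` of RB/GGa.lean (and its private lemmas) with `Fin d` instead of `Fin 2` and `∃ i, c i = v` instead of `c 0 = v ∨ c 1 = v`: `X'`, `Y'` = the patterns `X`, `Y` on the first `K` of
`K + 1` vertices, false on all cells with the last vertex; `L.ext` with `Fin.castSucc` and with `ι₂ w = if w = v then last else castSucc w`.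
-/

set_option autoImplicit false

namespace Pool.Agent.Lib.MP_90b327_co.WW

open Finset MeasureTheory Pool.Agent.Lib.MP_90b327_co Pool.Agent.Lib.MP_90b327_co.RB

/-- push forward of a pattern along a map of vertices -/
private noncomputable def grem_pf {d K K' : ℕ} (ι : Fin K → Fin K') (X : Pat d K) : Pat d K' :=
  open Classical in fun c => if h : ∃ c' : Fin d → Fin K, c = ι ∘ c' then X h.choose else false

private theorem grem_pf_in {d K K' : ℕ} (ι : Fin K → Fin K') (hι : Function.Injective ι)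
    (X : Pat d K) (c : Fin d → Fin K) : grem_pf ι X (ι ∘ c) = X c := by
  have h : ∃ c' : Fin d → Fin K, ι ∘ c = ι ∘ c' := ⟨c, rfl⟩
  unfold grem_pf
  rw [dif_pos h]
  have h1 := h.choose_spec
  have h2 : c = h.choose := hι.comp_left h1
  rw [← h2]

private theorem grem_pf_out {d K K' : ℕ} (ι : Fin K → Fin K')
    (X : Pat d K) (c : Fin d → Fin K') (h : ¬ ∃ c' : Fin d → Fin K, c = ι ∘ c') :
    grem_pf ι X c = false := by
  unfold grem_pf
  rw [dif_neg h]

theorem gg_rem {d : ℕ} {C : Shp d} {δ : ℝ} (L : GLim d C δ) (K : ℕ) (X Y : Pat d K) (v : Fin K)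
    (h : ∀ c : Fin d → Fin K, (∃ i, c i = v) → X c = Y c) :
    L.G K X Y = L.G K (fun c => if ∃ i, c i = v then false else X c)
      (fun c => if ∃ i, c i = v then false else Y c) := by
  classical
  have hι1 : Function.Injective (Fin.castSucc : Fin K → Fin (K + 1)) := Fin.castSucc_injective K
  obtain ⟨ι₂, hι₂⟩ : ∃ ι₂ : Fin K → Fin (K + 1),
      ι₂ = fun w => if w = v then Fin.last K else Fin.castSucc w := ⟨_, rfl⟩
  have hv : ι₂ v = Fin.last K := by
    rw [hι₂]
    simp
  have hnv : ∀ w, w ≠ v → ι₂ w = Fin.castSucc w := by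
    intro w hw
    rw [hι₂]
    simp [hw]
  have hι2 : Function.Injective ι₂ := by
    intro a b hab
    by_cases ha : a = v
    · by_cases hb : b = v
      · rw [ha, hb]
      · rw [ha, hv, hnv b hb] at hab
        exact absurd hab.symm (Fin.castSucc_lt_last b).ne
    · by_cases hb : b = v
      · rw [hb, hv, hnv a ha] at hab
        exact absurd hab (Fin.castSucc_lt_last a).ne
      · rw [hnv a ha, hnv b hb] at hab
        exact hι1 hab
  have hsame : ∀ c : Fin d → Fin K, ¬ (∃ i, c i = v) → ι₂ ∘ c = Fin.castSucc ∘ c := by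
    intro c hc
    push Not at hc
    funext i
    exact hnv _ (hc i)
  have hlast : ∀ c : Fin d → Fin K, (∃ i, c i = v) →
      ¬ ∃ c' : Fin d → Fin K, ι₂ ∘ c = Fin.castSucc ∘ c' := by
    rintro c ⟨i, hc⟩ ⟨c', hc'⟩
    have h1 := congrFun hc' i
    simp only [Function.comp_apply] at h1
    rw [hc, hv] at h1
    exact (Fin.castSucc_lt_last (c' i)).ne h1.symm
  have e1 := L.ext K (K + 1) Fin.castSucc hι1 (grem_pf Fin.castSucc X) (grem_pf Fin.castSucc Y)
    (fun c hc => by rw [grem_pf_out _ _ _ hc, grem_pf_out _ _ _ hc])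
  have e2 := L.ext K (K + 1) ι₂ hι2 (grem_pf Fin.castSucc X) (grem_pf Fin.castSucc Y)
    (fun c hc => by
      by_cases h1 : ∃ c' : Fin d → Fin K, c = Fin.castSucc ∘ c'
      · obtain ⟨c', rfl⟩ := h1
        rw [grem_pf_in _ hι1, grem_pf_in _ hι1]
        apply h
        by_contra h2
        exact hc ⟨c', (hsame c' h2).symm⟩
      · rw [grem_pf_out _ _ _ h1, grem_pf_out _ _ _ h1])
  have e3 : ∀ Z : Pat d K, (fun c => grem_pf Fin.castSucc Z (Fin.castSucc ∘ c)) = Z := by
    intro Z
    funext c
    exact grem_pf_in _ hι1 Z c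
  have e4 : ∀ Z : Pat d K, (fun c => grem_pf Fin.castSucc Z (ι₂ ∘ c)) =
      fun c => if ∃ i, c i = v then false else Z c := by
    intro Z
    funext c
    by_cases hc : ∃ i, c i = v
    · rw [if_pos hc]
      exact grem_pf_out _ _ _ (hlast c hc)
    · rw [if_neg hc, hsame c hc]
      exact grem_pf_in _ hι1 Z c
  rw [e3, e3] at e1
  rw [e4, e4] at e2
  rw [← e1, e2]

end Pool.Agent.Lib.MP_90b327_co.WW
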