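import Mathlib
import Pool.Agent.Lib.MP_90b327_co.WW.WDefs
import Pool.Agent.Lib.MP_90b327_co.WW.GRem

/-!
MODULE GJoint (45 minutes, old scale). The limit kernel on finite patterns of `ℕ^d`.

PROOF. As NS/NJoint.lean (`exists_jker`), with `d` coordinates. `emj n X : Pat d n := fun c => decide ((fun i => (c i : ℕ)) ∈ X)`. `g X Y := L.G (n X Y) (emj _ X) (emj _ Y)` with `n X Y` larger than
all coordinates of the cells of `X`, `Y`.
(0) `g X Y = L.G n (emj n X) (emj n Y)` for every `n` larger than all coordinates (`L.ext` with `Fin.castLE`). `symm`, `diag`, `psd` (with `a₀ = - δ ∑ a`), `inv` (`L.ext` with `v ↦ σ v`), `rem`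
(`gg_rem`; if `v ≥ n` nothing to do) as in NJoint. If `d = 0`: cells are the empty tuple; all statements remain true with the same proofs (there are no coordinates).
`bad`: `n' ≥ n` larger than all coordinates of `X`; `P' = P.image (fun c => Fin.castLE _ ∘ c)` is a shape in `Fin n'` (`C.img`), the patterns `emj n' X`, `emj n' (X ∪ up P)` are false /
true on `P'` and agree outside (`up P` = the tuples of `ℕ` which come from `P'`): `L.bad`.
-/

set_option autoImplicit false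

namespace Pool.Agent.Lib.MP_90b327_co.WW

open Finset MeasureTheory Pool.Agent.Lib.MP_90b327_co Pool.Agent.Lib.MP_90b327_co.RB

/-- the pattern `X` on `n` vertices -/
private def wjE {d : ℕ} (n : ℕ) (X : Finset (Fin d → ℕ)) : Pat d n := fun c => decide ((fun i => (c i : ℕ)) ∈ X)

private def wjN {d : ℕ} (X : Finset (Fin d → ℕ)) : ℕ := X.sup (fun c => Finset.univ.sup c) + 1

private theorem wjN_lt {d : ℕ} (X : Finset (Fin d → ℕ)) : ∀ c ∈ X, ∀ i, c i < wjN X := by
  intro c hc i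
  have h1 : Finset.univ.sup c ≤ X.sup (fun c => Finset.univ.sup c) :=
    Finset.le_sup (f := fun c : Fin d → ℕ => Finset.univ.sup c) hc
  have h2 : c i ≤ Finset.univ.sup c := Finset.le_sup (Finset.mem_univ i)
  unfold wjN
  omega

private def wjM {d : ℕ} (X Y : Finset (Fin d → ℕ)) : ℕ := max (wjN X) (wjN Y)

private theorem wjM_left {d : ℕ} (X Y : Finset (Fin d → ℕ)) : ∀ c ∈ X, ∀ i, c i < wjM X Y :=
  fun c hc i => lt_of_lt_of_le (wjN_lt X c hc i) (le_max_left _ _)

private theorem wjM_right {d : ℕ} (X Y : Finset (Fin d → ℕ)) : ∀ c ∈ Y, ∀ i, c i < wjM X Y :=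
  fun c hc i => lt_of_lt_of_le (wjN_lt Y c hc i) (le_max_right _ _)

private noncomputable def wj {d : ℕ} {C : Shp d} {δ : ℝ} (L : GLim d C δ) (X Y : Finset (Fin d → ℕ)) : ℝ :=
  L.G (wjM X Y) (wjE _ X) (wjE _ Y)

private theorem wj_ext {d : ℕ} {C : Shp d} {δ : ℝ} (L : GLim d C δ) (n n' : ℕ) (σ : ℕ → ℕ)
    (hσ : Function.Injective σ) (h : ∀ v, v < n → σ v < n') (X Y : Finset (Fin d → ℕ))
    (hX : ∀ c ∈ X, ∀ i, c i < n) (hY : ∀ c ∈ Y, ∀ i, c i < n) :
    L.G n' (wjE n' (mv σ X)) (wjE n' (mv σ Y)) = L.G n (wjE n X) (wjE n Y) := by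
  classical
  obtain ⟨ι, hι⟩ : ∃ ι : Fin n → Fin n', ∀ v : Fin n, (ι v : ℕ) = σ v :=
    ⟨fun v => ⟨σ v, h v v.2⟩, fun v => rfl⟩
  have hinj : Function.Injective ι := by
    intro a b hab
    have h1 := congrArg Fin.val hab
    rw [hι, hι] at h1
    exact Fin.ext (hσ h1)
  have hin : ∀ Z : Finset (Fin d → ℕ), (fun c => wjE n' (mv σ Z) (ι ∘ c)) = wjE n Z := by
    intro Z
    funext c
    unfold wjE mv
    rw [decide_eq_decide, Finset.mem_image]
    constructor
    · rintro ⟨c', hc', hcc⟩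
      have h1 : c' = fun i => (c i : ℕ) := by
        funext i
        have h2 := congrFun hcc i
        simp only [Function.comp_apply, hι] at h2
        exact hσ h2
      rw [← h1]
      exact hc'
    · intro h1
      refine ⟨_, h1, ?_⟩
      funext i
      simp only [Function.comp_apply, hι]
  have hout : ∀ Z : Finset (Fin d → ℕ), (∀ c ∈ Z, ∀ i, c i < n) → ∀ c : Fin d → Fin n',
      (¬ ∃ c' : Fin d → Fin n, c = ι ∘ c') → wjE n' (mv σ Z) c = false := by
    intro Z hZ c hc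
    unfold wjE mv
    rw [decide_eq_false_iff_not, Finset.mem_image]
    rintro ⟨c', hc', hcc⟩
    apply hc
    refine ⟨fun i => ⟨c' i, hZ c' hc' i⟩, ?_⟩
    funext i
    apply Fin.ext
    have h2 := congrFun hcc i
    simp only [Function.comp_apply] at h2
    rw [Function.comp_apply, hι]
    exact h2.symm
  rw [L.ext n n' ι hinj (wjE n' (mv σ X)) (wjE n' (mv σ Y))
    (fun c hc => by rw [hout X hX c hc, hout Y hY c hc]), hin X, hin Y]

private theorem wj_mono {d : ℕ} {C : Shp d} {δ : ℝ} (L : GLim d C δ) {n n' : ℕ} (h : n ≤ n') (X Y : Finset (Fin d → ℕ))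
    (hX : ∀ c ∈ X, ∀ i, c i < n) (hY : ∀ c ∈ Y, ∀ i, c i < n) :
    L.G n' (wjE n' X) (wjE n' Y) = L.G n (wjE n X) (wjE n Y) := by
  have hr : ∀ X : Finset (Fin d → ℕ), mv id X = X := by
    intro X
    unfold mv
    have : (fun c : Fin d → ℕ => id ∘ c) = id := by
      funext c
      rfl
    rw [this, Finset.image_id]
  have := wj_ext L n n' id Function.injective_id (fun v hv => lt_of_lt_of_le hv h) X Y hX hY
  rwa [hr, hr] at this

private theorem wj_eq {d : ℕ} {C : Shp d} {δ : ℝ} (L : GLim d C δ) {n : ℕ} {X Y : Finset (Fin d → ℕ)}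
    (hX : ∀ c ∈ X, ∀ i, c i < n) (hY : ∀ c ∈ Y, ∀ i, c i < n) :
    wj L X Y = L.G n (wjE n X) (wjE n Y) := by
  unfold wj
  rw [← wj_mono L (le_max_left (wjM X Y) n) X Y (wjM_left X Y) (wjM_right X Y),
    wj_mono L (le_max_right (wjM X Y) n) X Y hX hY]

private theorem wj_psd {d : ℕ} {C : Shp d} {δ : ℝ} (L : GLim d C δ) (ι : Type) [Fintype ι] (X : ι → Finset (Fin d → ℕ))
    (a : ι → ℝ) : δ ^ 2 * (∑ i, a i) ^ 2 ≤ ∑ i, ∑ j, a i * a j * wj L (X i) (X j) := by
  classical
  obtain ⟨n, hn⟩ : ∃ n : ℕ, ∀ i, ∀ c ∈ X i, ∀ j, c j < n := by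
    refine ⟨wjN (Finset.univ.biUnion X), fun i c hc => wjN_lt _ c ?_⟩
    exact Finset.mem_biUnion.mpr ⟨i, Finset.mem_univ _, hc⟩
  have e1 : ∀ i j, wj L (X i) (X j) = L.G n (wjE n (X i)) (wjE n (X j)) :=
    fun i j => wj_eq L (hn i) (hn j)
  simp only [e1]
  let e := Fintype.equivFin ι
  have h := L.psd n (Fintype.card ι) (fun k => wjE n (X (e.symm k))) (fun k => a (e.symm k))
    (-δ * ∑ i, a i)
  have e2 : ∑ k, a (e.symm k) = ∑ i, a i := Equiv.sum_comp e.symm a
  have e3 : ∑ i : Fin (Fintype.card ι), ∑ j : Fin (Fintype.card ι), a (e.symm i) * a (e.symm j) *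
      L.G n (wjE n (X (e.symm i))) (wjE n (X (e.symm j))) =
      ∑ i, ∑ j, a i * a j * L.G n (wjE n (X i)) (wjE n (X j)) := by
    rw [← Equiv.sum_comp e.symm]
    refine Finset.sum_congr rfl fun i _ => ?_
    exact Equiv.sum_comp e.symm (fun j => a (e.symm i) * a j * L.G n (wjE n (X (e.symm i))) (wjE n (X j)))
  rw [e2, e3] at h
  nlinarith [h]

private theorem wj_inv {d : ℕ} {C : Shp d} {δ : ℝ} (L : GLim d C δ) (σ : ℕ → ℕ)
    (hσ : Function.Injective σ) (X Y : Finset (Fin d → ℕ)) : wj L (mv σ X) (mv σ Y) = wj L X Y := by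
  set n := wjM X Y with hn
  obtain ⟨n', hn'⟩ : ∃ n' : ℕ, ∀ v, v < n → σ v < n' := by
    refine ⟨(Finset.range n).sup σ + 1, fun v hv => ?_⟩
    have h : σ v ≤ (Finset.range n).sup σ := Finset.le_sup (f := σ) (Finset.mem_range.mpr hv)
    omega
  have hb : ∀ Z : Finset (Fin d → ℕ), (∀ c ∈ Z, ∀ i, c i < n) → ∀ c ∈ mv σ Z, ∀ i, c i < n' := by
    intro Z hZ c hc i
    unfold mv at hc
    rw [Finset.mem_image] at hc
    obtain ⟨c', hc', rfl⟩ := hc
    exact hn' _ (hZ c' hc' i)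
  rw [wj_eq L (hb X (wjM_left X Y)) (hb Y (wjM_right X Y)),
    wj_ext L n n' σ hσ hn' X Y (wjM_left X Y) (wjM_right X Y)]
  rfl

private theorem wj_rem {d : ℕ} {C : Shp d} {δ : ℝ} (L : GLim d C δ) (X Y : Finset (Fin d → ℕ)) (v : ℕ)
    (h : ∀ c : Fin d → ℕ, (∃ i, c i = v) → (c ∈ X ↔ c ∈ Y)) :
    wj L X Y = wj L (X.filter (fun c => ∀ i, c i ≠ v)) (Y.filter (fun c => ∀ i, c i ≠ v)) := by
  set n := wjM X Y with hn
  by_cases hi : v < n
  · have hX' : ∀ c ∈ X.filter (fun c => ∀ i, c i ≠ v), ∀ i, c i < n :=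
      fun c hc => wjM_left X Y c (Finset.mem_filter.mp hc).1
    have hY' : ∀ c ∈ Y.filter (fun c => ∀ i, c i ≠ v), ∀ i, c i < n :=
      fun c hc => wjM_right X Y c (Finset.mem_filter.mp hc).1
    rw [wj_eq L hX' hY', wj_eq L (wjM_left X Y) (wjM_right X Y), ← hn]
    obtain ⟨u, hu⟩ : ∃ u : Fin n, (u : ℕ) = v := ⟨⟨v, hi⟩, rfl⟩
    have e : ∀ Z : Finset (Fin d → ℕ), (fun c : Fin d → Fin n => if ∃ i, c i = u then false else wjE n Z c) =
        wjE n (Z.filter (fun c => ∀ i, c i ≠ v)) := by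
      intro Z
      funext c
      by_cases h0 : ∃ i, c i = u
      · rw [if_pos h0]
        symm
        unfold wjE
        rw [decide_eq_false_iff_not, Finset.mem_filter]
        rintro ⟨_, h3⟩
        obtain ⟨i, hi'⟩ := h0
        refine h3 i ?_
        simp only [hi', hu]
      · rw [if_neg h0]
        unfold wjE
        rw [decide_eq_decide, Finset.mem_filter]
        refine ⟨fun h3 => ⟨h3, fun i hh => h0 ⟨i, Fin.ext (hh.trans hu.symm)⟩⟩, fun h3 => h3.1⟩
    have h1 := gg_rem L n (wjE n X) (wjE n Y) u (by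
      rintro c ⟨i, hc⟩
      unfold wjE
      rw [decide_eq_decide]
      exact h _ ⟨i, by simp only [hc, hu]⟩)
    rw [e, e] at h1
    exact h1
  · have hf : ∀ Z : Finset (Fin d → ℕ), (∀ c ∈ Z, ∀ i, c i < n) →
        Z.filter (fun c => ∀ i, c i ≠ v) = Z := by
      intro Z hZ
      rw [Finset.filter_true_of_mem]
      intro c hc i
      have := hZ c hc i
      omega
    rw [hf X (wjM_left X Y), hf Y (wjM_right X Y)]

private theorem wj_bad {d : ℕ} {C : Shp d} {δ : ℝ} (L : GLim d C δ) (m : ℕ) (P : Finset (Fin d → Fin m))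
    (hP : C.sh m P) (X : Finset (Fin d → ℕ)) (hd : Disjoint X (up P)) : wj L X (X ∪ up P) = 0 := by
  classical
  set n := wjM X (X ∪ up P) + m with hn
  have hX : ∀ c ∈ X, ∀ i, c i < n := by
    intro c hc i
    have := wjM_left X (X ∪ up P) c hc i
    omega
  have hY : ∀ c ∈ X ∪ up P, ∀ i, c i < n := by
    intro c hc i
    have := wjM_right X (X ∪ up P) c hc i
    omega
  rw [wj_eq L hX hY]
  obtain ⟨ι, hι⟩ : ∃ ι : Fin m → Fin n, ∀ v : Fin m, (ι v : ℕ) = v :=
    ⟨fun v => ⟨v, by have := v.2; omega⟩, fun v => rfl⟩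
  have hinj : Function.Injective ι := by
    intro a b hab
    have h1 := congrArg Fin.val hab
    rw [hι, hι] at h1
    exact Fin.ext h1
  have hup : ∀ c : Fin d → Fin n, ((fun i => (c i : ℕ)) ∈ up P ↔ c ∈ P.image (fun c => ι ∘ c)) := by
    intro c
    unfold up
    rw [Finset.mem_image, Finset.mem_image]
    constructor
    · rintro ⟨c0, h0, h1⟩
      refine ⟨c0, h0, ?_⟩
      funext i
      apply Fin.ext
      rw [Function.comp_apply, hι]
      exact congrFun h1 i
    · rintro ⟨c0, h0, h1⟩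
      refine ⟨c0, h0, ?_⟩
      funext i
      rw [← h1, Function.comp_apply, hι]
  apply L.bad n (wjE n X) (wjE n (X ∪ up P)) (P.image (fun c => ι ∘ c)) (C.img m n ι hinj P hP)
  · intro c hc
    unfold wjE
    rw [decide_eq_false_iff_not]
    intro h3
    exact Finset.disjoint_left.mp hd h3 ((hup c).mpr hc)
  · intro c hc
    unfold wjE
    rw [decide_eq_true_iff]
    exact Finset.mem_union_right _ ((hup c).mpr hc)
  · intro c hc
    unfold wjE
    rw [decide_eq_decide, Finset.mem_union]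
    constructor
    · rintro (a3 | a3)
      · exact a3
      · exact absurd ((hup c).mp a3) hc
    · intro a3
      exact Or.inl a3

theorem exists_jk {d : ℕ} {C : Shp d} {δ : ℝ} (L : GLim d C δ) :
    ∃ g : Finset (Fin d → ℕ) → Finset (Fin d → ℕ) → ℝ, JK d C δ g := by
  refine ⟨wj L, ?_, ?_, ?_, ?_, ?_, ?_⟩
  · intro X Y
    rw [wj_eq L (wjM_right Y X) (wjM_left Y X)]
    unfold wj
    exact L.symm _ _ _
  · intro X
    unfold wj
    exact L.diag _ _
  · exact fun ι _ X a => wj_psd L ι X a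
  · exact fun σ hσ X Y => wj_inv L σ hσ X Y
  · exact fun X Y v h => wj_rem L X Y v h
  · exact fun n P hP X hd => wj_bad L n P hP X hd

end Pool.Agent.Lib.MP_90b327_co.WW
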