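import Mathlib
import Pool.Agent.Lib.MP_90b327_co.WW.WDefs
import Pool.Agent.Lib.MP_90b327_co.Limit

/-!
MODULE GLimit (30 minutes, old scale). Limit of pair correlations for a class of shapes.

PROOF. Copy Pool/Agent/Lib/MP_90b327_co/Limit.lean, `exists_limFun` (all auxiliary statements `corS_symm`, `corS_psd`, `cor_ext`, .. are for general `d` and are imported), and
the proof of `bad` from NS/NLimit.lean (`nlimit_bad`) for a general shape: `S N` is not `GoodS C N`; `j : Fin K → Fin N` injective, `P` with `C.sh K P`, `X = false` on `P`, `Y = true` on `P`,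
`X = Y` outside `P`. If some term of `corS S j X Y` is not `0`, then with `ρ v = σ⁻¹ (j v)` (injective) `P' = P.image (fun c => ρ ∘ c)` has `C.sh N P'` by `C.img`, the set of the first
pattern is disjoint from `P'` and its union with `P'` is the set of the second pattern (`ov_in`, `ov_out`, `rel`, `toSet` as in `nlimit_bad`).
-/

set_option autoImplicit false

namespace Pool.Agent.Lib.MP_90b327_co.WW

open Finset MeasureTheory Pool.Agent.Lib.MP_90b327_co Pool.Agent.Lib.MP_90b327_co.RB

open Filter Topology

private theorem glimit_bad {d : ℕ} (C : Shp d) {K N : ℕ}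
    (S : Finset (Finset (Fin d → Fin N))) (hS : ¬ GoodS C N S)
    (j : Fin K → Fin N) (hj : Function.Injective j) (X Y : Pat d K) (P : Finset (Fin d → Fin K))
    (hP : C.sh K P) (h1 : ∀ c ∈ P, X c = false) (h2 : ∀ c ∈ P, Y c = true)
    (h3 : ∀ c, c ∉ P → Y c = X c) : corS S j X Y = 0 := by
  unfold corS
  apply Finset.sum_eq_zero
  intro σ _
  apply Finset.sum_eq_zero
  intro A _
  by_contra hne
  apply hS
  have hX : toSet (rel σ (ov j A X)) ∈ S := by
    by_contra h
    apply hne
    unfold ind
    rw [if_neg h, zero_mul]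
  have hY : toSet (rel σ (ov j A Y)) ∈ S := by
    by_contra h
    apply hne
    unfold ind
    rw [if_neg h, mul_zero]
  have hinj : Function.Injective (fun v => σ⁻¹ (j v)) := fun u v huv => hj (σ⁻¹.injective huv)
  have hcell : ∀ c : Fin d → Fin N, c ∈ P.image (fun c => (fun v => σ⁻¹ (j v)) ∘ c) ↔
      ∃ c' : Fin d → Fin K, c' ∈ P ∧ (fun i => j (c' i)) = (fun i => σ (c i)) := by
    intro c
    rw [Finset.mem_image]
    constructor
    · rintro ⟨c', hc', hcc⟩
      refine ⟨c', hc', ?_⟩
      rw [← hcc]
      funext i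
      simp
    · rintro ⟨c', hc', hcc⟩
      refine ⟨c', hc', ?_⟩
      funext i
      have := congrFun hcc i
      show σ⁻¹ (j (c' i)) = c i
      rw [this]
      simp
  refine ⟨_, hX, _, C.img K N _ hinj P hP, ?_, ?_⟩
  · rw [Finset.disjoint_left]
    intro c hc hc'
    rw [mem_toSet] at hc
    obtain ⟨c', hc1, hc2⟩ := (hcell c).mp hc'
    unfold rel at hc
    rw [← hc2, ov_in j hj, h1 c' hc1] at hc
    exact absurd hc (by simp)
  · have hEq : toSet (rel σ (ov j A X)) ∪ P.image (fun c => (fun v => σ⁻¹ (j v)) ∘ c) =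
        toSet (rel σ (ov j A Y)) := by
      ext c
      rw [Finset.mem_union, mem_toSet, mem_toSet]
      by_cases hc : c ∈ P.image (fun c => (fun v => σ⁻¹ (j v)) ∘ c)
      · obtain ⟨c', hc1, hc2⟩ := (hcell c).mp hc
        have : rel σ (ov j A Y) c = true := by
          unfold rel
          rw [← hc2, ov_in j hj, h2 c' hc1]
        exact ⟨fun _ => this, fun _ => Or.inr hc⟩
      · have : rel σ (ov j A Y) c = rel σ (ov j A X) c := by
          unfold rel
          by_cases h4 : ∃ c' : Fin d → Fin K, (fun i => j (c' i)) = (fun i => σ (c i))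
          · obtain ⟨c', hc'⟩ := h4
            rw [← hc', ov_in j hj, ov_in j hj]
            apply h3
            intro h5
            apply hc
            exact (hcell c).mpr ⟨c', h5, hc'⟩
          · rw [ov_out _ _ _ _ h4, ov_out _ _ _ _ h4]
        rw [this]
        exact ⟨fun h => h.resolve_right hc, fun h => Or.inl h⟩
    rw [hEq]
    exact hY

theorem exists_glim (d : ℕ) (hd : 1 ≤ d) (C : Shp d) (δ₀ : ℝ)
    (h : ∀ N : ℕ, ∃ S : Finset (Finset (Fin d → Fin N)), (S.card : ℝ) > δ₀ * 2 ^ (N ^ d) ∧
      ¬ GoodS C N S) : ∃ δ : ℝ, δ₀ ≤ δ ∧ Nonempty (GLim d C δ) := by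
  choose S hS1 hS2 using h
  let p : Ultrafilter ℕ := hyperfilter ℕ
  have hlarge : ∀ M : ℕ, ∀ᶠ N in (p : Filter ℕ), M ≤ N := by
    intro M
    exact Nat.hyperfilter_le_atTop (eventually_ge_atTop M)
  have hex : ∀ (K : ℕ) (X Y : Pat d K), ∃ a : ℝ, Tendsto (cor S K X Y) p (𝓝 a) := fun K X Y =>
    exists_limit p _ 1 (cor_nonneg S K X Y) (cor_le S K X Y)
  choose G hG using hex
  have hext : ∀ (K K' : ℕ) (ι : Fin K → Fin K'), Function.Injective ι → ∀ X Y : Pat d K',
    (∀ c : Fin d → Fin K', (¬ ∃ c' : Fin d → Fin K, c = ι ∘ c') → X c = Y c) →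
      G K' X Y = G K (fun c => X (ι ∘ c)) (fun c => Y (ι ∘ c)) := by
    intro K K' ι hι X Y hXY
    have h1 : ∀ m : ℕ, 1 ≤ m →
        (G K' X Y - G K (fun c => X (ι ∘ c)) (fun c => Y (ι ∘ c))) ^ 2 ≤ 2 ^ (K' ^ d) / m := by
      intro m hm
      have ht : Tendsto (fun N => (cor S K' X Y N -
          cor S K (fun c => X (ι ∘ c)) (fun c => Y (ι ∘ c)) N) ^ 2) p
          (𝓝 ((G K' X Y - G K (fun c => X (ι ∘ c)) (fun c => Y (ι ∘ c))) ^ 2)) :=
        ((hG _ _ _).sub (hG _ _ _)).pow 2
      apply le_of_tendsto ht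
      filter_upwards [hlarge (K' * (m + 1))] with N hN
      exact cor_ext S K K' ι hι X Y hXY m N hm hN
    have h2 : (G K' X Y - G K (fun c => X (ι ∘ c)) (fun c => Y (ι ∘ c))) ^ 2 ≤ 0 := by
      have ht : Tendsto (fun m : ℕ => (2:ℝ) ^ (K' ^ d) / m) atTop (𝓝 0) :=
        tendsto_const_div_atTop_nhds_zero_nat _
      apply ge_of_tendsto ht
      filter_upwards [eventually_ge_atTop 1] with m hm
      exact h1 m hm
    have h3 := pow_eq_zero_iff (two_ne_zero) |>.mp (le_antisymm h2 (sq_nonneg _))
    linarith
  have hempty : ∀ (X Y : Pat d 0), X = Y := by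
    intro X Y
    funext c
    exact (c ⟨0, by omega⟩).elim0
  let X₀ : Pat d 0 := fun _ => false
  have hdiag : ∀ K (X : Pat d K), G K X X = G 0 X₀ X₀ := by
    intro K X
    rw [hext 0 K (fun v => v.elim0) (fun v => v.elim0) X X (fun _ _ => rfl)]
    rw [hempty (fun c => X ((fun v => v.elim0) ∘ c)) X₀]
  refine ⟨G 0 X₀ X₀, ?_, ⟨?_⟩⟩
  · apply ge_of_tendsto (hG 0 X₀ X₀)
    filter_upwards with N
    unfold cor
    rw [dif_pos (Nat.zero_le N), corS_zero hd]
    unfold nrm
    have h1 : (0:ℝ) < N.factorial := by exact_mod_cast Nat.factorial_pos N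
    rw [mul_div_mul_left _ _ h1.ne', le_div_iff₀ (by positivity)]
    exact (hS1 N).le
  · refine ⟨G, ?_, ?_, hdiag, hext, ?_, ?_⟩
    · intro K X Y
      refine tendsto_nhds_unique (hG K X Y) ?_
      have : cor S K X Y = cor S K Y X := by
        funext N
        unfold cor
        split_ifs with h
        · rw [corS_symm]
        · rfl
      rw [this]
      exact hG K Y X
    · intro K X Y
      exact ge_of_tendsto (hG K X Y) (Eventually.of_forall (cor_nonneg S K X Y))
    · intro K n X a a₀
      have h1 : ∀ᶠ N in (p : Filter ℕ), 0 ≤ a₀ ^ 2 + 2 * a₀ * (∑ i, a i * cor S K (X i) (X i) N) +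
          ∑ i, ∑ l, a i * a l * cor S K (X i) (X l) N := by
        filter_upwards [hlarge K] with N hN
        have := corS_psd (S N) (Fin.castLE hN) X a a₀
        have hD := nrm_pos d N
        have h2 : a₀ ^ 2 + 2 * a₀ * (∑ i, a i * cor S K (X i) (X i) N) +
          ∑ i, ∑ l, a i * a l * cor S K (X i) (X l) N =
          (a₀ ^ 2 * nrm d N + 2 * a₀ * (∑ i, a i * corS (S N) (Fin.castLE hN) (X i) (X i)) +
      ∑ i, ∑ l, a i * a l * corS (S N) (Fin.castLE hN) (X i) (X l)) / nrm d N := by
          unfold cor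
          simp only [dif_pos hN]
          rw [add_div, add_div, mul_div_cancel_right₀ _ hD.ne', mul_div_assoc, Finset.sum_div,
            Finset.sum_div]
          congr 1
          · congr 2
            apply Finset.sum_congr rfl
            intro i _
            rw [mul_div_assoc]
          · apply Finset.sum_congr rfl
            intro i _
            rw [Finset.sum_div]
            apply Finset.sum_congr rfl
            intro l _
            rw [mul_div_assoc]
        rw [h2]
        exact div_nonneg this hD.le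
      have h2 : Tendsto (fun N => a₀ ^ 2 + 2 * a₀ * (∑ i, a i * cor S K (X i) (X i) N) +
          ∑ i, ∑ l, a i * a l * cor S K (X i) (X l) N) p
          (𝓝 (a₀ ^ 2 + 2 * a₀ * (∑ i, a i * G K (X i) (X i)) +
          ∑ i, ∑ l, a i * a l * G K (X i) (X l))) := by
        apply Tendsto.add
        · apply Tendsto.add tendsto_const_nhds
          apply Tendsto.const_mul
          apply tendsto_finsetSum
          intro i _
          exact (hG _ _ _).const_mul _
        · apply tendsto_finsetSum
          intro i _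
          apply tendsto_finsetSum
          intro l _
          exact (hG _ _ _).const_mul _
      have h3 := ge_of_tendsto h2 h1
      have h4 : (∑ i, a i * G K (X i) (X i)) = (∑ i, a i) * G 0 X₀ X₀ := by
        rw [Finset.sum_mul]
        apply Finset.sum_congr rfl
        intro i _
        rw [hdiag]
      rw [h4, ← mul_assoc] at h3
      exact h3
    · intro K X Y P hP h1 h2 h3
      refine tendsto_nhds_unique (hG K X Y) ?_
      have : cor S K X Y = fun _ => 0 := by
        funext N
        unfold cor
        split_ifs with h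
        · rw [glimit_bad C (S N) (hS2 N) (Fin.castLE h) (Fin.castLE_injective h) X Y P hP h1 h2 h3]
          simp
        · rfl
      rw [this]
      exact tendsto_const_nhds

end Pool.Agent.Lib.MP_90b327_co.WW
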