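import Mathlib
import Pool.Agent.Lib.MP_90b327_co.WW.WDefs
import Pool.Agent.Lib.MP_90b327_co.WW.CkDist
import Pool.Agent.Lib.MP_90b327_co.NS.AvA

/-!
MODULE EndA (40 minutes, old scale). `δ ≤ P(z_S = 1)`.

PROOF. `z = T.z ω ∅ (pw D S)`. For `K ≥ 1` consider the `K` patterns `X i` (`i < K`) = the content `pw D S` in the columns of `J i`, where `J i` is a set of `i + 1` columns, the `J i` pairwise disjoint.
`hr` (`Rep`): for `i ≠ i'`: `g (X i) (X i') / δ = ∫ conj z ^ (i + 1) * z ^ (i' + 1)` (in the columns of `J i` the pair of contents is `(pw D S, ∅)`, value `conj z`; in those of `J i'` it is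
`(∅, pw D S)`; use `J = J i ∪ J i'`); `g (X i) (X i) = δ`. `hg.psd` with the coefficients `1 / K`: `δ² ≤ (1/K²) ∑∑ g (X i) (X i')`, so
`δ ≤ (1/K²) (∑_{i ≠ i'} ∫ conj z ^ (i+1) * z ^ (i'+1) + K) ≤ ∫ ‖Av K z‖² + 1 / K` (`‖Av K z‖² = (1/K²) ∑∑ conj z^(i+1) z^(i'+1)`, the diagonal terms are `≥ 0`).
`NS.av_tend`: `‖Av K z‖² → 1(z = 1)` pointwise (see its statement), dominated convergence (`≤ 1`): `∫ ‖Av K z‖² → P.real {z = 1}`.
-/

set_option autoImplicit false

namespace Pool.Agent.Lib.MP_90b327_co.WW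

open Finset MeasureTheory Pool.Agent.Lib.MP_90b327_co Pool.Agent.Lib.MP_90b327_co.RB

private def EndA_J (i : ℕ) : Finset ℕ := (range (i + 1)).image (fun b => Nat.pair i b)

private theorem EndA_card (i : ℕ) : (EndA_J i).card = i + 1 := by
  rw [EndA_J, card_image_of_injective, card_range]
  intro a b h
  exact (Nat.pair_eq_pair.1 h).2

private theorem EndA_disj {i j : ℕ} (h : i ≠ j) : Disjoint (EndA_J i) (EndA_J j) := by
  rw [Finset.disjoint_left]
  intro x hx hy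
  rw [EndA_J, mem_image] at hx hy
  obtain ⟨a, _, ha⟩ := hx
  obtain ⟨b, _, hb⟩ := hy
  exact h (Nat.pair_eq_pair.1 (ha.trans hb.symm)).1

private theorem EndA_colm {D : ℕ} (x : Co D) (J : Finset ℕ) (j : ℕ) :
    colm (D := D) (x ×ˢ J) j = if j ∈ J then x else ∅ := by
  ext c
  unfold colm
  rw [mem_image]
  constructor
  · rintro ⟨⟨a, b⟩, hab, rfl⟩
    rw [mem_filter, mem_product] at hab
    obtain ⟨⟨h1, h2⟩, h3⟩ := hab
    simp only at h1 h2 h3
    subst h3
    rw [if_pos h2]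
    exact h1
  · intro h
    by_cases hj : j ∈ J
    · rw [if_pos hj] at h
      exact ⟨(c, j), by rw [mem_filter, mem_product]; exact ⟨⟨h, hj⟩, rfl⟩, rfl⟩
    · rw [if_neg hj] at h
      exact absurd h (notMem_empty c)

private theorem EndA_rep {D : ℕ} {δ : ℝ} {g : Bp D → Bp D → ℝ} (T : CS D)
    (hr : Rep g δ T) (S : Finset ℕ) {i j : ℕ} (hij : i ≠ j) :
    ((g (pw D S ×ˢ EndA_J i) (pw D S ×ˢ EndA_J j) / δ : ℝ) : ℂ) =
      ∫ ω, (starRingEnd ℂ) (T.z ω ∅ (pw D S) ^ (i + 1)) * T.z ω ∅ (pw D S) ^ (j + 1) ∂T.P := by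
  have h := hr (pw D S ×ˢ EndA_J i) (pw D S ×ˢ EndA_J j) (EndA_J i ∪ EndA_J j)
    (fun c hc => mem_union_left _ (mem_product.1 hc).2)
    (fun c hc => mem_union_right _ (mem_product.1 hc).2)
  rw [h]
  refine integral_congr_ae (Filter.Eventually.of_forall fun ω => ?_)
  simp only
  rw [prod_union (EndA_disj hij)]
  congr 1
  · rw [map_pow, ← (T.ck ω).herm, ← EndA_card i, ← prod_const]
    refine prod_congr rfl fun x hx => ?_
    rw [EndA_colm, EndA_colm, if_pos hx, if_neg (Finset.disjoint_left.1 (EndA_disj hij) hx)]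
  · rw [← EndA_card j, ← prod_const]
    refine prod_congr rfl fun x hx => ?_
    rw [EndA_colm, EndA_colm, if_pos hx, if_neg (Finset.disjoint_right.1 (EndA_disj hij) hx)]

private theorem EndA_int {D : ℕ} (T : CS D) (S : Finset ℕ) (i j : ℕ) :
    Integrable (fun ω => (starRingEnd ℂ) (T.z ω ∅ (pw D S) ^ (i + 1)) *
      T.z ω ∅ (pw D S) ^ (j + 1)) T.P := by
  have hm := T.meas ∅ (pw D S)
  refine (integrable_const (1 : ℝ)).mono' ?_ (Filter.Eventually.of_forall fun ω => ?_)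
  · exact ((Complex.continuous_conj.measurable.comp (hm.pow_const _)).mul (hm.pow_const _)).aestronglyMeasurable
  · rw [norm_mul, RCLike.norm_conj, norm_pow, norm_pow]
    have h1 := ck_norm (T.ck ω) ∅ (pw D S)
    exact mul_le_one₀ (pow_le_one₀ (norm_nonneg _) h1) (by positivity)
      (pow_le_one₀ (norm_nonneg _) h1)

private theorem EndA_step {D : ℕ} {δ : ℝ} {g : Bp D → Bp D → ℝ} (hg : BK D δ g) (hδ : 0 < δ)
    (T : CS D) (hr : Rep g δ T) (S : Finset ℕ) {K : ℕ} (hK : 1 ≤ K) :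
    δ ≤ ∫ ω, ‖NS.Av K (T.z ω ∅ (pw D S))‖ ^ 2 ∂T.P + 1 / K := by
  have hK0 : (0 : ℝ) < K := by exact_mod_cast hK
  have hp := hg.psd (Fin K) (fun i => pw D S ×ˢ EndA_J i) (fun _ => 1)
  simp only [Finset.sum_const, card_univ, Fintype.card_fin, nsmul_eq_mul, mul_one, one_mul] at hp
  set c : Fin K → Fin K → ℂ := fun i j => ∫ ω, (starRingEnd ℂ) (T.z ω ∅ (pw D S) ^ ((i : ℕ) + 1)) *
    T.z ω ∅ (pw D S) ^ ((j : ℕ) + 1) ∂T.P with hc
  have hle : ∀ i j : Fin K, g (pw D S ×ˢ EndA_J i) (pw D S ×ˢ EndA_J j) / δ ≤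
      (c i j).re + (if i = j then 1 else 0) := by
    intro i j
    by_cases hij : i = j
    · subst hij
      rw [if_pos rfl, hg.diag, div_self hδ.ne']
      have h1 : c i i = ((∫ ω, ‖T.z ω ∅ (pw D S) ^ ((i : ℕ) + 1)‖ ^ 2 ∂T.P : ℝ) : ℂ) := by
        rw [hc, ← integral_complex_ofReal]
        simp only
        refine integral_congr_ae (Filter.Eventually.of_forall fun ω => ?_)
        simp only
        rw [← Complex.normSq_eq_conj_mul_self, Complex.normSq_eq_norm_sq]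
      rw [h1, Complex.ofReal_re]
      have h2 : 0 ≤ ∫ ω, ‖T.z ω ∅ (pw D S) ^ ((i : ℕ) + 1)‖ ^ 2 ∂T.P :=
        integral_nonneg fun ω => by positivity
      linarith
    · have h1 : ((i : ℕ)) ≠ j := fun h => hij (Fin.ext h)
      have h2 := EndA_rep T hr S h1
      rw [if_neg hij, add_zero, hc]
      simp only
      rw [← h2, Complex.ofReal_re]
  have hsum : ∑ i : Fin K, ∑ j : Fin K, (c i j).re =
      (K : ℝ) ^ 2 * ∫ ω, ‖NS.Av K (T.z ω ∅ (pw D S))‖ ^ 2 ∂T.P := by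
    have h1 : ∑ i : Fin K, ∑ j : Fin K, c i j =
        (((K : ℝ) ^ 2 * ∫ ω, ‖NS.Av K (T.z ω ∅ (pw D S))‖ ^ 2 ∂T.P : ℝ) : ℂ) := by
      have h2 : ∀ i : Fin K, ∑ j : Fin K, c i j = ∫ ω, ∑ j : Fin K,
          (starRingEnd ℂ) (T.z ω ∅ (pw D S) ^ ((i : ℕ) + 1)) *
            T.z ω ∅ (pw D S) ^ ((j : ℕ) + 1) ∂T.P := by
        intro i
        rw [integral_finsetSum]
        exact fun j _ => EndA_int T S i j
      rw [Finset.sum_congr rfl fun i _ => h2 i, ← integral_finsetSum]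
      · rw [← integral_const_mul, ← integral_complex_ofReal]
        refine integral_congr_ae (Filter.Eventually.of_forall fun ω => ?_)
        simp only
        rw [← Finset.sum_mul_sum, ← map_sum, ← Complex.normSq_eq_conj_mul_self,
          Complex.normSq_eq_norm_sq]
        have h3 : ∑ i : Fin K, T.z ω ∅ (pw D S) ^ ((i : ℕ) + 1) =
            (K : ℂ) * NS.Av K (T.z ω ∅ (pw D S)) := by
          have hKc : (K : ℂ) ≠ 0 := by exact_mod_cast hK0.ne'
          unfold NS.Av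
          rw [mul_div_cancel₀ _ hKc]
          exact Fin.sum_univ_eq_sum_range (fun b => T.z ω ∅ (pw D S) ^ (b + 1)) K
        rw [h3, norm_mul, Complex.norm_natCast, mul_pow]
      · exact fun i _ => integrable_finsetSum _ fun j _ => EndA_int T S i j
    have h4 := congrArg Complex.re h1
    rw [Complex.ofReal_re, Complex.re_sum] at h4
    rw [← h4]
    exact Finset.sum_congr rfl fun i _ => (Complex.re_sum _ _).symm
  have hdiag : ∑ i : Fin K, ∑ j : Fin K, (if i = j then (1 : ℝ) else 0) = K := by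
    simp
  have h5 : ∑ i : Fin K, ∑ j : Fin K, g (pw D S ×ˢ EndA_J i) (pw D S ×ˢ EndA_J j) / δ ≤
      (K : ℝ) ^ 2 * ∫ ω, ‖NS.Av K (T.z ω ∅ (pw D S))‖ ^ 2 ∂T.P + K := by
    rw [← hsum, ← hdiag, ← Finset.sum_add_distrib]
    refine Finset.sum_le_sum fun i _ => ?_
    rw [← Finset.sum_add_distrib]
    exact Finset.sum_le_sum fun j _ => hle i j
  have h6 : ∑ i : Fin K, ∑ j : Fin K, g (pw D S ×ˢ EndA_J i) (pw D S ×ˢ EndA_J j) / δ =
      (∑ i : Fin K, ∑ j : Fin K, g (pw D S ×ˢ EndA_J i) (pw D S ×ˢ EndA_J j)) / δ := by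
    rw [Finset.sum_div]
    refine Finset.sum_congr rfl fun i _ => ?_
    rw [Finset.sum_div]
  rw [h6] at h5
  have h7 : δ * (K : ℝ) ^ 2 ≤ (∑ i : Fin K, ∑ j : Fin K,
      g (pw D S ×ˢ EndA_J i) (pw D S ×ˢ EndA_J j)) / δ := by
    rw [le_div_iff₀ hδ]
    linarith
  have h8 : δ * (K : ℝ) ^ 2 ≤
      (∫ ω, ‖NS.Av K (T.z ω ∅ (pw D S))‖ ^ 2 ∂T.P + 1 / K) * (K : ℝ) ^ 2 := by
    have h9 : (∫ ω, ‖NS.Av K (T.z ω ∅ (pw D S))‖ ^ 2 ∂T.P + 1 / K) * (K : ℝ) ^ 2 =
        (K : ℝ) ^ 2 * ∫ ω, ‖NS.Av K (T.z ω ∅ (pw D S))‖ ^ 2 ∂T.P + K := by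
      field_simp
    rw [h9]
    exact h7.trans h5
  exact le_of_mul_le_mul_right h8 (by positivity)

theorem end_a {D : ℕ} {δ : ℝ} {g : Bp D → Bp D → ℝ} (hg : BK D δ g) (hδ : 0 < δ) (T : CS D)
    (hr : Rep g δ T) (S : Finset ℕ) : δ ≤ T.P.real {ω | T.z ω ∅ (pw D S) = 1} := by
  have hm := T.meas ∅ (pw D S)
  have hset : MeasurableSet {ω | T.z ω ∅ (pw D S) = 1} := hm (measurableSet_singleton 1)
  have hlim : Filter.Tendsto (fun K : ℕ => ∫ ω, ‖NS.Av K (T.z ω ∅ (pw D S))‖ ^ 2 ∂T.P)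
      Filter.atTop (nhds (∫ ω, {ω | T.z ω ∅ (pw D S) = 1}.indicator (1 : T.Ω → ℝ) ω ∂T.P)) := by
    refine tendsto_integral_of_dominated_convergence (fun _ => (1 : ℝ)) ?_ (integrable_const _)
      ?_ ?_
    · intro K
      refine Measurable.aestronglyMeasurable ?_
      refine Measurable.pow_const (Measurable.norm ?_) 2
      unfold NS.Av
      refine Measurable.div_const ?_ _
      exact Finset.measurable_sum _ fun b _ => hm.pow_const _
    · intro K
      refine Filter.Eventually.of_forall fun ω => ?_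
      rw [Real.norm_of_nonneg (by positivity)]
      exact pow_le_one₀ (norm_nonneg _) (NS.av_norm K _ (ck_norm (T.ck ω) _ _))
    · refine Filter.Eventually.of_forall fun ω => ?_
      have h1 := NS.av_tend _ (ck_norm (T.ck ω) ∅ (pw D S))
      have h2 := (h1.norm).pow 2
      have h3 : {ω | T.z ω ∅ (pw D S) = 1}.indicator (1 : T.Ω → ℝ) ω =
          ‖(if T.z ω ∅ (pw D S) = 1 then (1 : ℂ) else 0)‖ ^ 2 := by
        by_cases h : T.z ω ∅ (pw D S) = 1
        · rw [Set.indicator_of_mem (by exact h), if_pos h]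
          simp
        · rw [Set.indicator_of_notMem (by exact h), if_neg h]
          simp
      rw [h3]
      exact h2
  rw [integral_indicator_one hset] at hlim
  have h1 : Filter.Tendsto (fun K : ℕ => ∫ ω, ‖NS.Av K (T.z ω ∅ (pw D S))‖ ^ 2 ∂T.P + 1 / (K : ℝ))
      Filter.atTop (nhds (T.P.real {ω | T.z ω ∅ (pw D S) = 1} + 0)) :=
    hlim.add tendsto_one_div_atTop_nhds_zero_nat
  rw [add_zero] at h1
  refine ge_of_tendsto h1 ?_
  filter_upwards [Filter.eventually_ge_atTop 1] with K hK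
  exact EndA_step hg hδ T hr S hK

end Pool.Agent.Lib.MP_90b327_co.WW
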