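import Mathlib
import Pool.Agent.Lib.MP_90b327_co.WW.WDefs
import Pool.Agent.Lib.MP_90b327_co.WW.CkDist
import Pool.Agent.Lib.MP_90b327_co.WW.EndA
import Pool.Agent.Lib.MP_90b327_co.WW.Crit
import Pool.Agent.Lib.MP_90b327_co.WW.ColSp
import Pool.Agent.Lib.MP_90b327_co.NS.AvA

/-!
MODULE EndB (40 minutes, old scale). There is no kernel.

PROOF. `exists_cs` gives `T`, `Rep g δ T`. Let `γ = range m`, `m ≥ M`, `z = T.z ω ∅ (pw D γ)`. For `b` with `Adm M F w m b`: `∫ z ^ b = g ∅ (pw D γ ×ˢ range b) / δ = 0` (`hbad` with `X = ∅`; `Rep` with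
`J = range b`, `colm _ j = pw D γ`). For `1 ≤ k ≤ w m` the numbers `b = (F m - 1) + i`, `1 ≤ i ≤ k`, are admissible (`b ≥ 1`, `F m ≤ b ≤ F m + w m`: natural subtraction). So with
`f = F m - 1`: `∫ z ^ f * Av k z = 0`, and `P.real {z = 1} = ∫ z ^ f * (1(z = 1) - Av k z)` has modulus `≤ ∫ ‖1(z = 1) - Av k z‖ ≤ (∫ Tk k z)^(1/2)`: `Av k 1 = 1`, so
`‖1(z = 1) - Av k z‖² = Tk k z`, and Cauchy-Schwarz (`(∫ h)² ≤ ∫ h²`). With `end_a`: `δ² ≤ ∫ Tk k z` for all `m ≥ M` with `k ≤ w m`.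
`crit_mass hD T (δ² / 2) 1` gives `k ≥ 1` and `L`. `hw`: `w m ≥ k` for `m ≥ m₀ ≥ M`. For `l ≥ L`: `(l - m₀) δ² ≤ ∑ a ∈ range l, ∫ Tk k (z ∅ (pw D (range (a + 1)))) ≤ (δ² / 2) l`
(all terms are `≥ 0`, those with `a + 1 ≥ m₀` are `≥ δ²`): false for `l > 2 m₀`, `l ≥ L`.
-/

set_option autoImplicit false

namespace Pool.Agent.Lib.MP_90b327_co.WW

open Finset MeasureTheory Pool.Agent.Lib.MP_90b327_co Pool.Agent.Lib.MP_90b327_co.RB

private theorem EndB_colm_empty {D : ℕ} (j : ℕ) : colm (∅ : Bp D) j = ∅ := by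
  unfold colm
  simp

private theorem EndB_colm {D : ℕ} (x : Co D) (E : Finset ℕ) (j : ℕ) (hj : j ∈ E) :
    colm (x ×ˢ E : Bp D) j = x := by
  ext c
  unfold colm
  rw [Finset.mem_image]
  constructor
  · rintro ⟨p, hp, rfl⟩
    rw [Finset.mem_filter, Finset.mem_product] at hp
    exact hp.1.1
  · intro hc
    refine ⟨(c, j), ?_, rfl⟩
    rw [Finset.mem_filter, Finset.mem_product]
    exact ⟨⟨hc, hj⟩, rfl⟩

private theorem EndB_int {D : ℕ} (T : CS D) {f : T.Ω → ℂ} (hf : Measurable f) {C : ℝ}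
    (hb : ∀ ω, ‖f ω‖ ≤ C) : Integrable f T.P :=
  Integrable.of_bound hf.aestronglyMeasurable C (ae_of_all _ hb)

private theorem EndB_intR {D : ℕ} (T : CS D) {f : T.Ω → ℝ} (hf : Measurable f) {C : ℝ}
    (hb : ∀ ω, ‖f ω‖ ≤ C) : Integrable f T.P :=
  Integrable.of_bound hf.aestronglyMeasurable C (ae_of_all _ hb)

/-- the moments vanish -/
private theorem EndB_mom {D : ℕ} {δ : ℝ} {g : Bp D → Bp D → ℝ} (T : CS D) (hr : Rep g δ T)
    (M : ℕ) (F w : ℕ → ℕ)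
    (hbad : ∀ (X : Bp D) (γ E : Finset ℕ), Adm M F w γ.card E.card → Disjoint X (pw D γ ×ˢ E) →
      g X (X ∪ pw D γ ×ˢ E) = 0) (m b : ℕ) (hA : Adm M F w m b) :
    ∫ ω, T.z ω ∅ (pw D (range m)) ^ b ∂T.P = 0 := by
  have h1 := hbad ∅ (range m) (range b) (by rw [Finset.card_range, Finset.card_range]; exact hA)
    (Finset.disjoint_empty_left _)
  rw [Finset.empty_union] at h1
  have h2 := hr ∅ (pw D (range m) ×ˢ range b) (range b) (fun c hc => absurd hc (Finset.notMem_empty c))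
    (fun c hc => (Finset.mem_product.1 hc).2)
  rw [h1] at h2
  simp only [zero_div, Complex.ofReal_zero] at h2
  rw [h2]
  refine integral_congr_ae (ae_of_all _ fun ω => ?_)
  simp only
  have h3 : ∀ j ∈ range b, T.z ω (colm ∅ j) (colm (pw D (range m) ×ˢ range b) j) =
      T.z ω ∅ (pw D (range m)) := by
    intro j hj
    rw [EndB_colm_empty, EndB_colm _ _ _ hj]
  rw [Finset.prod_congr rfl h3, Finset.prod_const, Finset.card_range]

private theorem EndB_low {D : ℕ} {δ : ℝ} (hδ : 0 < δ) {g : Bp D → Bp D → ℝ} (hg : BK D δ g)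
    (T : CS D) (hr : Rep g δ T) (M : ℕ) (F w : ℕ → ℕ)
    (hbad : ∀ (X : Bp D) (γ E : Finset ℕ), Adm M F w γ.card E.card → Disjoint X (pw D γ ×ˢ E) →
      g X (X ∪ pw D γ ×ˢ E) = 0) (m k : ℕ) (hm : M ≤ m) (hk : 1 ≤ k) (hkw : k ≤ w m) :
    δ ^ 2 ≤ ∫ ω, NS.Tk k (T.z ω ∅ (pw D (range m))) ∂T.P := by
  set z : T.Ω → ℂ := fun ω => T.z ω ∅ (pw D (range m)) with hz
  have hzm : Measurable z := T.meas _ _
  have hz1 : ∀ ω, ‖z ω‖ ≤ 1 := fun ω => ck_norm (T.ck ω) _ _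
  set u : T.Ω → ℂ := fun ω => if z ω = 1 then 1 else 0 with hu
  have hS : MeasurableSet {ω | z ω = 1} := hzm (measurableSet_singleton 1)
  have hum : Measurable u := Measurable.ite hS measurable_const measurable_const
  have hu1 : ∀ ω, ‖u ω‖ ≤ 1 := by
    intro ω
    simp only [hu]
    split_ifs <;> simp
  have hav : ∀ ω, ‖NS.Av k (z ω)‖ ≤ 1 := fun ω => NS.av_norm k _ (hz1 ω)
  have havm : Measurable fun ω => NS.Av k (z ω) := (NS.av_cont k).measurable.comp hzm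
  set f : ℕ := F m - 1 with hf
  -- the mean of `z ^ f * Av k z` is zero
  have h0 : ∫ ω, z ω ^ f * NS.Av k (z ω) ∂T.P = 0 := by
    have e1 : ∀ ω, z ω ^ f * NS.Av k (z ω) = (∑ b ∈ range k, z ω ^ (f + b + 1)) / k := by
      intro ω
      unfold NS.Av
      rw [mul_div_assoc', Finset.mul_sum]
      congr 1
      refine Finset.sum_congr rfl fun b _ => ?_
      ring
    simp_rw [e1]
    rw [integral_div, integral_finsetSum]
    · rw [Finset.sum_eq_zero, zero_div]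
      intro b hb
      rw [Finset.mem_range] at hb
      refine EndB_mom T hr M F w hbad m (f + b + 1) ?_
      unfold Adm
      refine ⟨hm, by omega, by omega, by omega⟩
    · intro b _
      refine EndB_int T (hzm.pow_const _) (C := 1) fun ω => ?_
      rw [norm_pow]
      exact pow_le_one₀ (norm_nonneg _) (hz1 ω)
  have hzf : ∀ ω, ‖z ω ^ f‖ ≤ 1 := by
    intro ω
    rw [norm_pow]
    exact pow_le_one₀ (norm_nonneg _) (hz1 ω)
  -- the probability
  have hP : ((T.P.real {ω | z ω = 1} : ℝ) : ℂ) = ∫ ω, z ω ^ f * u ω ∂T.P := by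
    have e1 : ∀ ω, z ω ^ f * u ω = Set.indicator {ω | z ω = 1} (fun _ => (1 : ℂ)) ω := by
      intro ω
      simp only [hu]
      by_cases h : z ω = 1
      · rw [if_pos h, h, one_pow, one_mul, Set.indicator_of_mem (show ω ∈ {ω | z ω = 1} from h)]
      · rw [if_neg h, mul_zero, Set.indicator_of_notMem (show ω ∉ {ω | z ω = 1} from h)]
    simp_rw [e1]
    rw [integral_indicator_const _ hS]
    simp
  have hI1 : Integrable (fun ω => z ω ^ f * u ω) T.P := by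
    refine EndB_int T ((hzm.pow_const _).mul hum) (C := 1) fun ω => ?_
    rw [norm_mul]
    exact mul_le_one₀ (hzf ω) (norm_nonneg _) (hu1 ω)
  have hI2 : Integrable (fun ω => z ω ^ f * NS.Av k (z ω)) T.P := by
    refine EndB_int T ((hzm.pow_const _).mul havm) (C := 1) fun ω => ?_
    rw [norm_mul]
    exact mul_le_one₀ (hzf ω) (norm_nonneg _) (hav ω)
  set h : T.Ω → ℝ := fun ω => ‖NS.Av k (z ω) - u ω‖ with hh
  have hhm : Measurable h := (havm.sub hum).norm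
  have hh2 : ∀ ω, ‖h ω‖ ≤ 2 := by
    intro ω
    simp only [hh]
    rw [norm_norm]
    exact (norm_sub_le _ _).trans (by linarith [hav ω, hu1 ω])
  have hδ1 : δ ≤ ∫ ω, h ω ∂T.P := by
    refine (end_a hg hδ T hr (range m)).trans ?_
    have e1 : ‖((T.P.real {ω | z ω = 1} : ℝ) : ℂ)‖ = T.P.real {ω | z ω = 1} := by
      rw [Complex.norm_real, Real.norm_eq_abs, abs_of_nonneg measureReal_nonneg]
    have e2 : ((T.P.real {ω | z ω = 1} : ℝ) : ℂ) = ∫ ω, z ω ^ f * (u ω - NS.Av k (z ω)) ∂T.P := by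
      rw [hP]
      simp_rw [mul_sub]
      rw [integral_sub hI1 hI2, h0, sub_zero]
    change T.P.real {ω | z ω = 1} ≤ _
    rw [← e1, e2]
    refine (norm_integral_le_integral_norm _).trans ?_
    refine integral_mono ?_ (EndB_intR T hhm hh2) fun ω => ?_
    · refine Integrable.norm ?_
      have := hI1.sub hI2
      refine this.congr (ae_of_all _ fun ω => ?_)
      simp only [Pi.sub_apply]
      ring
    · simp only [hh]
      rw [norm_mul, norm_sub_rev]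
      exact mul_le_of_le_one_left (norm_nonneg _) (hzf ω)
  have hT : ∀ ω, NS.Tk k (z ω) = h ω ^ 2 := by
    intro ω
    rw [NS.tk_eq' k hk]
  have hI3 : Integrable (fun ω => h ω ^ 2) T.P := by
    refine EndB_intR T (hhm.pow_const 2) (C := 4) fun ω => ?_
    rw [norm_pow]
    have h2 := hh2 ω
    have h3 := norm_nonneg (h ω)
    nlinarith
  have hI4 : Integrable h T.P := EndB_intR T hhm hh2
  have hnn : 0 ≤ ∫ ω, (h ω - δ) ^ 2 ∂T.P := integral_nonneg fun ω => sq_nonneg _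
  have hex : ∫ ω, (h ω - δ) ^ 2 ∂T.P = ∫ ω, h ω ^ 2 ∂T.P - 2 * δ * ∫ ω, h ω ∂T.P + δ ^ 2 := by
    have e1 : ∀ ω, (h ω - δ) ^ 2 = h ω ^ 2 - 2 * δ * h ω + δ ^ 2 := fun ω => by ring
    simp_rw [e1]
    have hI5 : Integrable (fun ω => 2 * δ * h ω) T.P := hI4.const_mul _
    have hI6 : Integrable (fun ω => h ω ^ 2 - 2 * δ * h ω) T.P := hI3.sub hI5
    rw [integral_add hI6 (integrable_const _), integral_sub hI3 hI5, integral_const_mul]
    simp
  have hfin : ∫ ω, NS.Tk k (z ω) ∂T.P = ∫ ω, h ω ^ 2 ∂T.P :=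
    integral_congr_ae (ae_of_all _ hT)
  change δ ^ 2 ≤ ∫ ω, NS.Tk k (z ω) ∂T.P
  rw [hfin]
  nlinarith

theorem no_bk {D : ℕ} (hD : 1 ≤ D) {δ : ℝ} (hδ : 0 < δ) {g : Bp D → Bp D → ℝ} (hg : BK D δ g)
    (M : ℕ) (F w : ℕ → ℕ) (hw : Filter.Tendsto w Filter.atTop Filter.atTop)
    (hbad : ∀ (X : Bp D) (γ E : Finset ℕ), Adm M F w γ.card E.card → Disjoint X (pw D γ ×ˢ E) →
      g X (X ∪ pw D γ ×ˢ E) = 0) : False := by
  obtain ⟨T, hr⟩ := exists_cs hg hδ
  obtain ⟨k, -, hk, L, hL⟩ := crit_mass hD T (δ ^ 2 / 2) (by positivity) 1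
  obtain ⟨m₀, hm₀⟩ := Filter.eventually_atTop.1 (hw.eventually_ge_atTop k)
  set m₁ := max m₀ M with hm₁
  have hlow : ∀ m, m₁ ≤ m → δ ^ 2 ≤ ∫ ω, NS.Tk k (T.z ω ∅ (pw D (range m))) ∂T.P := by
    intro m hm
    exact EndB_low hδ hg T hr M F w hbad m k ((le_max_right _ _).trans hm) hk
      (hm₀ m ((le_max_left _ _).trans hm))
  have h1 := hL (L + 2 * m₁ + 1) (by omega)
  have h2 : ((L + m₁ + 1 : ℕ) : ℝ) * δ ^ 2 ≤ ∑ a ∈ range (L + 2 * m₁ + 1),
      ∫ ω, NS.Tk k (T.z ω ∅ (pw D (range (a + 1)))) ∂T.P := by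
    have hsub : Finset.Ico m₁ (L + 2 * m₁ + 1) ⊆ range (L + 2 * m₁ + 1) := by
      intro a ha
      rw [Finset.mem_Ico] at ha
      rw [Finset.mem_range]
      exact ha.2
    calc ((L + m₁ + 1 : ℕ) : ℝ) * δ ^ 2 = ∑ _a ∈ Finset.Ico m₁ (L + 2 * m₁ + 1), δ ^ 2 := by
          rw [Finset.sum_const, Nat.card_Ico, nsmul_eq_mul]
          congr 2
          omega
      _ ≤ ∑ a ∈ Finset.Ico m₁ (L + 2 * m₁ + 1),
            ∫ ω, NS.Tk k (T.z ω ∅ (pw D (range (a + 1)))) ∂T.P := by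
          refine Finset.sum_le_sum fun a ha => hlow (a + 1) ?_
          rw [Finset.mem_Ico] at ha
          omega
      _ ≤ _ := by
          refine Finset.sum_le_sum_of_subset_of_nonneg hsub fun a _ _ => ?_
          exact integral_nonneg fun ω => NS.tk_nonneg k _
  have hδ2 : 0 < δ ^ 2 := by positivity
  push_cast at h1 h2
  have hL0 : (0 : ℝ) ≤ L := Nat.cast_nonneg _
  nlinarith

end Pool.Agent.Lib.MP_90b327_co.WW
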