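import Mathlib
import Pool.Agent.Lib.MP_90b327_co.WW.WDefs
import Pool.Agent.Lib.MP_90b327_co.WW.GLimit
import Pool.Agent.Lib.MP_90b327_co.WW.GFiber
import Pool.Agent.Lib.MP_90b327_co.WW.GJoint
import Pool.Agent.Lib.MP_90b327_co.WW.WShape
import Pool.Agent.Lib.MP_90b327_co.WW.BipW
import Pool.Agent.Lib.MP_90b327_co.WW.EndB

/-!
MODULE WFinal (20 minutes, old scale). The theorem.

PROOF. By contradiction: if no `N₀` works, then by `gfiber` for every `N` there is a family `S ⊆ P([N]^(D + 1))` with `|S| > δ 2^(N^(D + 1))` which is not `GoodS (WSh D M F w) N` (otherwise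
`N₀ = N` would work). `exists_glim` gives `δ' ≥ δ`, `exists_jk` the kernel, `bip_w`, `bip_bad`, `no_bk` the contradiction. (`WSh` membership unfolds to the statement.)
-/

set_option autoImplicit false

namespace Pool.Agent.Lib.MP_90b327_co.WW

open Finset MeasureTheory Pool.Agent.Lib.MP_90b327_co Pool.Agent.Lib.MP_90b327_co.RB

theorem w_final (D : ℕ) (hD : 1 ≤ D) (δ : ℝ) (hδ : 0 < δ) (M : ℕ) (F w : ℕ → ℕ)
    (hw : Filter.Tendsto w Filter.atTop Filter.atTop) :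
    ∃ N₀ : ℕ, ∀ N, N₀ ≤ N → ∀ S : Finset (Finset (Fin (D + 1) → Fin N)),
      δ * 2 ^ (N ^ (D + 1)) < (S.card : ℝ) →
      ∃ A ∈ S, ∃ γ Γ : Finset (Fin N), M ≤ γ.card ∧ 1 ≤ Γ.card ∧ F γ.card ≤ Γ.card ∧
        Γ.card ≤ F γ.card + w γ.card ∧ Disjoint A (cyl γ Γ) ∧ A ∪ cyl γ Γ ∈ S := by
  have key : ∃ N₀ : ℕ, ∀ S : Finset (Finset (Fin (D + 1) → Fin N₀)),
      δ * 2 ^ (N₀ ^ (D + 1)) < (S.card : ℝ) → GoodS (WSh D M F w) N₀ S := by
    by_contra hcon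
    push Not at hcon
    obtain ⟨δ', hδ', ⟨L⟩⟩ := exists_glim (D + 1) (by omega) (WSh D M F w) δ (fun N => by
      obtain ⟨S, hS, hS'⟩ := hcon N
      exact ⟨S, hS, hS'⟩)
    obtain ⟨g, hg⟩ := exists_jk L
    exact no_bk hD (lt_of_lt_of_le hδ hδ') (bip_w hg) M F w hw (bip_bad hg)
  obtain ⟨N₀, hN₀⟩ := key
  refine ⟨N₀, fun N hN S hS => ?_⟩
  obtain ⟨A, hA, P, ⟨γ, Γ, hP, h1, h2, h3, h4⟩, h5, h6⟩ :=
    gfiber (D + 1) (WSh D M F w) δ hδ N₀ hN₀ N hN S hS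
  rw [hP] at h5 h6
  exact ⟨A, hA, γ, Γ, h1, h2, h3, h4, h5, h6⟩

end Pool.Agent.Lib.MP_90b327_co.WW
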